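import Pool.Agent.H429K.Stmts

open MeasureTheory Filter Topology

namespace Pool.Agent.H429K

noncomputable section

theorem t_cells : S_cells := by
  intro g hg ρ M₁ M₂ δ hρ hM hδ hvol
  classical
  have huc : UniformContinuousOn g (Set.Icc (-ρ) ρ) :=
    isCompact_Icc.uniformContinuousOn_of_continuous hg.continuousOn
  rw [Metric.uniformContinuousOn_iff] at huc
  obtain ⟨η, hη, hgη⟩ := huc (M₂ - M₁) (by linarith)
  obtain ⟨N, hN⟩ := exists_nat_gt (2 * ρ / η)
  have hN0 : (0 : ℝ) < N := lt_of_le_of_lt (by positivity) hN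
  have hNn : 0 < N := by exact_mod_cast hN0
  set s : ℝ := 2 * ρ / N with hs
  have hs0 : 0 < s := by positivity
  have hsη : s < η := by
    rw [hs, div_lt_iff₀ hN0]
    rw [div_lt_iff₀ hη] at hN
    linarith
  have hNs : (N : ℝ) * s = 2 * ρ := by
    rw [hs]; field_simp
  let F : Finset ℕ := (Finset.range N).filter
    (fun i => ∃ x : ℝ, -ρ + i * s ≤ x ∧ x ≤ -ρ + (i + 1) * s ∧ M₂ < g x)
  let c : ℕ → ℝ := fun i => -ρ + i * s + s / 2
  have hcell : ∀ i ∈ F, (i : ℝ) + 1 ≤ N := by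
    intro i hi
    have h1 : i < N := Finset.mem_range.1 (Finset.mem_filter.1 hi).1
    exact_mod_cast h1
  have hsub : (⋃ i ∈ F, Set.Ico (-ρ + i * s) (-ρ + (i + 1) * s)) ⊆
      {x : ℝ | |x| ≤ ρ ∧ M₁ < g x} := by
    intro y hy
    simp only [Set.mem_iUnion] at hy
    obtain ⟨i, hi, hy1, hy2⟩ := hy
    obtain ⟨x, hx1, hx2, hx3⟩ := (Finset.mem_filter.1 hi).2
    have hiN := hcell i hi
    have h1 : ((i : ℝ) + 1) * s ≤ 2 * ρ := by
      rw [← hNs]; exact mul_le_mul_of_nonneg_right hiN hs0.le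
    have h2 : 0 ≤ (i : ℝ) * s := by positivity
    have hyI : y ∈ Set.Icc (-ρ) ρ := ⟨by linarith, by linarith⟩
    have hxI : x ∈ Set.Icc (-ρ) ρ := ⟨by linarith, by linarith⟩
    have h3 : (i + 1 : ℝ) * s = i * s + s := by ring
    have hd : dist x y < η := by
      rw [Real.dist_eq, abs_lt]
      constructor <;> linarith
    have h4 := hgη x hxI y hyI hd
    rw [Real.dist_eq, abs_lt] at h4
    exact ⟨abs_le.2 ⟨hyI.1, hyI.2⟩, by linarith [h4.2]⟩
  have hdisj : (F : Set ℕ).PairwiseDisjoint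
      (fun i : ℕ => Set.Ico (-ρ + i * s) (-ρ + (i + 1) * s)) := by
    have key : ∀ i j : ℕ, i < j → Disjoint (Set.Ico (-ρ + (i : ℝ) * s) (-ρ + (i + 1) * s))
        (Set.Ico (-ρ + (j : ℝ) * s) (-ρ + (j + 1) * s)) := by
      intro i j hij
      rw [Set.disjoint_left]
      rintro x ⟨_, hx1⟩ ⟨hx2, _⟩
      have h1 : (i : ℝ) + 1 ≤ j := by exact_mod_cast hij
      have h2 : ((i : ℝ) + 1) * s ≤ j * s := mul_le_mul_of_nonneg_right h1 hs0.le
      linarith
    intro i _ j _ hij
    rcases lt_or_gt_of_ne hij with h | h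
    · exact key i j h
    · exact (key j i h).symm
  have hmeas : (volume (⋃ i ∈ F, Set.Ico (-ρ + (i : ℝ) * s) (-ρ + (i + 1) * s))) =
      ENNReal.ofReal (F.card * s) := by
    rw [measure_biUnion_finset hdisj (fun i _ => measurableSet_Ico)]
    have h1 : ∀ i ∈ F, volume (Set.Ico (-ρ + (i : ℝ) * s) (-ρ + (i + 1) * s)) =
        ENNReal.ofReal s := by
      intro i _
      rw [Real.volume_Ico]
      congr 1
      ring
    rw [Finset.sum_congr rfl h1, Finset.sum_const, nsmul_eq_mul, ENNReal.ofReal_mul (by positivity)]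
    simp
  have hFs : (F.card : ℝ) * s ≤ δ := by
    have h1 := (measure_mono hsub).trans hvol
    rw [hmeas] at h1
    exact (ENNReal.ofReal_le_ofReal_iff hδ).1 h1
  refine ⟨s, F.image c, hs0, ?_, ?_⟩
  · have h1 : ((F.image c).card : ℝ) ≤ F.card := by exact_mod_cast Finset.card_image_le
    exact (mul_le_mul_of_nonneg_right h1 hs0.le).trans hFs
  · intro x hx hgx
    rw [abs_le] at hx
    have hx0 : 0 ≤ (x + ρ) / s := div_nonneg (by linarith) hs0.le
    obtain ⟨i, hiN, hi1, hi2⟩ : ∃ i : ℕ, i < N ∧ (i : ℝ) * s ≤ x + ρ ∧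
        x + ρ ≤ ((i : ℝ) + 1) * s := by
      by_cases h : ⌊(x + ρ) / s⌋₊ < N
      · refine ⟨_, h, ?_, ?_⟩
        · have h1 := Nat.floor_le hx0
          rwa [le_div_iff₀ hs0] at h1
        · have h1 := Nat.lt_floor_add_one ((x + ρ) / s)
          rw [div_lt_iff₀ hs0] at h1
          exact h1.le
      · push Not at h
        have h1 : (N : ℝ) ≤ (x + ρ) / s :=
          le_trans (by exact_mod_cast h) (Nat.floor_le hx0)
        rw [le_div_iff₀ hs0, hNs] at h1
        refine ⟨N - 1, by omega, ?_, ?_⟩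
        · have h2 : ((N - 1 : ℕ) : ℝ) = N - 1 := by
            rw [Nat.cast_sub hNn]; simp
          rw [h2]
          nlinarith
        · have h2 : ((N - 1 : ℕ) : ℝ) = N - 1 := by
            rw [Nat.cast_sub hNn]; simp
          rw [h2]
          have : ((N : ℝ) - 1 + 1) * s = 2 * ρ := by rw [← hNs]; ring
          linarith [hx.2]
    have hiF : i ∈ F := by
      refine Finset.mem_filter.2 ⟨Finset.mem_range.2 hiN, x, by linarith, by linarith, hgx⟩
    refine ⟨c i, Finset.mem_image_of_mem c hiF, ?_⟩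
    simp only [c]
    rw [abs_le]
    have h3 : ((i : ℝ) + 1) * s = i * s + s := by ring
    constructor <;> linarith

end

end Pool.Agent.H429K
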