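import Pool.Agent.H429K.Stmts

set_option autoImplicit false

open MeasureTheory Filter Topology

namespace Pool.Agent.H429K

noncomputable section

/-- the stereographic image -/
def chordm_s : OnePoint ℂ → EuclideanSpace ℝ (Fin 3)
  | none => !₂[0, 0, 1]
  | some a => !₂[2 * a.re / (1 + ‖a‖ ^ 2), 2 * a.im / (1 + ‖a‖ ^ 2), (‖a‖ ^ 2 - 1) / (1 + ‖a‖ ^ 2)]

theorem chordm_nonneg (a b : OnePoint ℂ) : 0 ≤ chord a b := by
  rcases a with _ | a <;> rcases b with _ | b <;> simp only [chord] <;> positivity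

theorem chordm_sq (a b : ℂ) : (2 * ‖a - b‖ / (Real.sqrt (1 + ‖a‖ ^ 2) * Real.sqrt (1 + ‖b‖ ^ 2))) ^ 2 =
    4 * ((a.re - b.re) ^ 2 + (a.im - b.im) ^ 2) / ((1 + ‖a‖ ^ 2) * (1 + ‖b‖ ^ 2)) := by
  have h1 : ‖a - b‖ ^ 2 = (a.re - b.re) ^ 2 + (a.im - b.im) ^ 2 := by
    rw [← Complex.normSq_eq_norm_sq, Complex.normSq_apply, Complex.sub_re, Complex.sub_im]
    ring
  rw [div_pow, mul_pow, mul_pow, Real.sq_sqrt (by positivity), Real.sq_sqrt (by positivity), h1]
  norm_num

theorem chordm_sq' (a : ℂ) : (2 / Real.sqrt (1 + ‖a‖ ^ 2)) ^ 2 = 4 / (1 + ‖a‖ ^ 2) := by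
  rw [div_pow, Real.sq_sqrt (by positivity)]
  norm_num

theorem chordm_eq (a b : OnePoint ℂ) : chord a b = dist (chordm_s a) (chordm_s b) := by
  have key : ∀ a : ℂ, ‖a‖ ^ 2 = a.re ^ 2 + a.im ^ 2 := by
    intro a
    rw [← Complex.normSq_eq_norm_sq, Complex.normSq_apply]
    ring
  rw [EuclideanSpace.dist_eq, eq_comm, Real.sqrt_eq_iff_mul_self_eq (by positivity)
    (chordm_nonneg a b), ← pow_two]
  rcases a with _ | a <;> rcases b with _ | b
  · simp [chord, chordm_s]
  · simp only [chord]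
    rw [chordm_sq']
    simp only [chordm_s, Fin.sum_univ_three, Real.dist_eq, sq_abs]
    simp only [key]
    have h : (1 + (b.re ^ 2 + b.im ^ 2)) ≠ 0 := by positivity
    simp
    field_simp
    ring
  · simp only [chord]
    rw [chordm_sq']
    simp only [chordm_s, Fin.sum_univ_three, Real.dist_eq, sq_abs]
    simp only [key]
    have h : (1 + (a.re ^ 2 + a.im ^ 2)) ≠ 0 := by positivity
    simp
    field_simp
    ring
  · simp only [chord]
    rw [chordm_sq]
    simp only [chordm_s, Fin.sum_univ_three, Real.dist_eq, sq_abs]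
    simp only [key]
    have h : (1 + (a.re ^ 2 + a.im ^ 2)) ≠ 0 := by positivity
    have h' : (1 + (b.re ^ 2 + b.im ^ 2)) ≠ 0 := by positivity
    simp
    field_simp
    ring

theorem chordm_inj : Function.Injective chordm_s := by
  intro a b h
  have h1 : chord a b = 0 := by rw [chordm_eq, h, dist_self]
  rcases a with _ | a <;> rcases b with _ | b
  · rfl
  · exfalso
    simp only [chord] at h1
    have : 0 < 2 / Real.sqrt (1 + ‖b‖ ^ 2) := by positivity
    linarith
  · exfalso
    simp only [chord] at h1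
    have : 0 < 2 / Real.sqrt (1 + ‖a‖ ^ 2) := by positivity
    linarith
  · simp only [chord] at h1
    have h2 : Real.sqrt (1 + ‖a‖ ^ 2) * Real.sqrt (1 + ‖b‖ ^ 2) ≠ 0 := by positivity
    rw [div_eq_zero_iff] at h1
    rcases h1 with h1 | h1
    · have h3 : ‖a - b‖ = 0 := by linarith
      rw [norm_eq_zero, sub_eq_zero] at h3
      rw [h3]
    · exact absurd h1 h2

theorem chordm_cont : Continuous chordm_s := by
  rw [OnePoint.continuous_iff]
  constructor
  · rw [coclosedCompact_eq_cocompact, tendsto_iff_dist_tendsto_zero]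
    have h1 : ∀ a : ℂ, dist (chordm_s (a : OnePoint ℂ)) (chordm_s OnePoint.infty) =
        2 / Real.sqrt (1 + ‖a‖ ^ 2) := by
      intro a
      rw [← chordm_eq]
      rfl
    simp only [h1]
    have h2 : Tendsto (fun a : ℂ => Real.sqrt (1 + ‖a‖ ^ 2)) (cocompact ℂ) atTop := by
      refine tendsto_atTop_mono (fun a => ?_) (tendsto_norm_cocompact_atTop (E := ℂ))
      apply Real.le_sqrt_of_sq_le
      linarith
    exact Tendsto.const_div_atTop h2 2
  · have h : Continuous fun a : ℂ => (![2 * a.re / (1 + ‖a‖ ^ 2), 2 * a.im / (1 + ‖a‖ ^ 2),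
        (‖a‖ ^ 2 - 1) / (1 + ‖a‖ ^ 2)] : Fin 3 → ℝ) := by
      refine continuous_pi fun i => ?_
      have h0 : ∀ a : ℂ, (1 + ‖a‖ ^ 2) ≠ 0 := fun a => by positivity
      fin_cases i
      · exact Continuous.div (continuous_const.mul Complex.continuous_re) (by fun_prop) h0
      · exact Continuous.div (continuous_const.mul Complex.continuous_im) (by fun_prop) h0
      · exact Continuous.div (by fun_prop) (by fun_prop) h0
    exact (PiLp.continuous_toLp 2 _).comp h

theorem t_tri : S_tri := by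
  refine ⟨fun a => ?_, chordm_nonneg, fun a b => ?_, fun a b c => ?_⟩
  · rw [chordm_eq, dist_self]
  · rw [chordm_eq, chordm_eq, dist_comm]
  · rw [chordm_eq, chordm_eq, chordm_eq]
    exact dist_triangle _ _ _

theorem t_nhds : S_nhds := by
  intro p s
  have h := (chordm_cont.isClosedEmbedding chordm_inj).isInducing
  rw [h.nhds_eq_comap, (Metric.nhds_basis_ball.comap chordm_s).mem_iff]
  constructor
  · rintro ⟨ε, hε, hs⟩
    refine ⟨ε, hε, fun x hx => hs ?_⟩
    rw [Set.mem_preimage, Metric.mem_ball, ← chordm_eq]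
    exact hx
  · rintro ⟨ε, hε, hs⟩
    refine ⟨ε, hε, fun x hx => hs ?_⟩
    rw [Set.mem_preimage, Metric.mem_ball, ← chordm_eq] at hx
    exact hx

end

end Pool.Agent.H429K
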