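import Pool.Agent.H429K.Stmts

open MeasureTheory Filter Topology

namespace Pool.Agent.H429K

noncomputable section

theorem contour_rect (F : ℂ → ℂ) (hF : Differentiable ℂ F) (T Y C D : ℝ) (hT : 0 < T)
    (hC : ∀ y : ℝ, y ∈ Set.uIcc 0 Y → ‖F (T + y * Complex.I)‖ ≤ C ∧ ‖F (-T + y * Complex.I)‖ ≤ C)
    (hD : ∀ x : ℝ, |x| ≤ T → ‖F (x + Y * Complex.I)‖ ≤ D) :
    ‖∫ x in (-T)..T, F (x : ℂ)‖ ≤ 2 * T * D + 2 * |Y| * C := by
  have h := Complex.integral_boundary_rect_eq_zero_of_differentiableOn F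
    ((-T : ℝ) : ℂ) ((T : ℝ) + (Y : ℝ) * Complex.I) hF.differentiableOn
  simp only [Complex.ofReal_re, Complex.ofReal_im, Complex.add_re, Complex.mul_re, Complex.I_re,
    Complex.I_im, Complex.add_im, Complex.mul_im, mul_zero, mul_one, zero_mul, sub_zero, add_zero,
    zero_add, sub_self, Complex.ofReal_zero] at h
  have h1 : ‖∫ x in (-T)..T, F ((x : ℂ) + (Y : ℂ) * Complex.I)‖ ≤ D * |T - -T| := by
    apply intervalIntegral.norm_integral_le_of_norm_le_const
    intro x hx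
    apply hD
    rw [Set.uIoc_of_le (by linarith)] at hx
    exact abs_le.2 ⟨hx.1.le, hx.2⟩
  have h2 : ‖∫ y in (0:ℝ)..Y, F ((T : ℂ) + (y : ℂ) * Complex.I)‖ ≤ C * |Y - 0| := by
    apply intervalIntegral.norm_integral_le_of_norm_le_const
    intro y hy
    exact (hC y (Set.uIoc_subset_uIcc hy)).1
  have h3 : ‖∫ y in (0:ℝ)..Y, F (((-T : ℝ) : ℂ) + (y : ℂ) * Complex.I)‖ ≤ C * |Y - 0| := by
    apply intervalIntegral.norm_integral_le_of_norm_le_const
    intro y hy
    rw [Complex.ofReal_neg]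
    exact (hC y (Set.uIoc_subset_uIcc hy)).2
  have h4 : (∫ x in (-T)..T, F (x : ℂ)) = (∫ x in (-T)..T, F ((x : ℂ) + (Y : ℂ) * Complex.I)) -
      Complex.I • (∫ y in (0:ℝ)..Y, F ((T : ℂ) + (y : ℂ) * Complex.I)) +
      Complex.I • (∫ y in (0:ℝ)..Y, F (((-T : ℝ) : ℂ) + (y : ℂ) * Complex.I)) := by
    linear_combination h
  rw [h4]
  have hT2 : |T - -T| = 2 * T := by
    rw [abs_of_pos (by linarith)]; ring
  rw [hT2] at h1
  rw [sub_zero] at h2 h3
  refine (norm_add_le _ _).trans ?_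
  refine (add_le_add (norm_sub_le _ _) le_rfl).trans ?_
  rw [norm_smul, norm_smul, Complex.norm_I, one_mul, one_mul]
  linarith

/-- the reflected function -/
def contour_Ws (W : ℂ → ℂ) (ζ : ℂ) : ℂ := (starRingEnd ℂ) (W ((starRingEnd ℂ) ζ))

theorem contour_Ws_diff (W : ℂ → ℂ) (hW : Differentiable ℂ W) :
    Differentiable ℂ (contour_Ws W) := by
  intro z
  have h := (hW ((starRingEnd ℂ) z)).conj_conj
  rw [Complex.conj_conj] at h
  exact h

theorem contour_Ws_norm (W : ℂ → ℂ) (ζ : ℂ) :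
    ‖contour_Ws W ζ‖ = ‖W ((starRingEnd ℂ) ζ)‖ := by
  unfold contour_Ws
  rw [Complex.norm_conj]

theorem contour_bound (W : ℂ → ℂ) (T Y A τ : ℝ)
    (hB : ∀ ζ : ℂ, |ζ.re| ≤ T → |ζ.im| ≤ Y → 1 + ‖W ζ‖ ≤ Real.exp (A + τ * |ζ.im|))
    (ζ : ℂ) (h1 : |ζ.re| ≤ T) (h2 : |ζ.im| ≤ Y) :
    ‖contour_Ws W ζ * W ζ * (1 - W ζ)‖ ≤ Real.exp (3 * A + 3 * τ * |ζ.im|) := by
  have ha := hB ζ h1 h2
  have hb := hB ((starRingEnd ℂ) ζ) (by rw [Complex.conj_re]; exact h1)
    (by rw [Complex.conj_im, abs_neg]; exact h2)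
  rw [Complex.conj_im, abs_neg] at hb
  have hc : ‖1 - W ζ‖ ≤ Real.exp (A + τ * |ζ.im|) := by
    refine (norm_sub_le _ _).trans ?_
    rw [norm_one]
    exact ha
  have hd : ‖W ζ‖ ≤ Real.exp (A + τ * |ζ.im|) := by linarith
  have he : ‖contour_Ws W ζ‖ ≤ Real.exp (A + τ * |ζ.im|) := by
    rw [contour_Ws_norm]
    linarith
  rw [norm_mul, norm_mul]
  have h3 : Real.exp (3 * A + 3 * τ * |ζ.im|) =
      Real.exp (A + τ * |ζ.im|) * Real.exp (A + τ * |ζ.im|) * Real.exp (A + τ * |ζ.im|) := by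
    rw [← Real.exp_add, ← Real.exp_add]
    congr 1
    ring
  rw [h3]
  gcongr

theorem contour_one (W : ℂ → ℂ) (hW : Differentiable ℂ W) (T Y A τ θ : ℝ)
    (hT : 0 < T) (hY : 0 < Y) (hA : 0 ≤ A) (hτ : 0 ≤ τ) (h3 : 3 * τ ≤ 2 * Real.pi)
    (hB : ∀ ζ : ℂ, |ζ.re| ≤ T → |ζ.im| ≤ Y → 1 + ‖W ζ‖ ≤ Real.exp (A + τ * |ζ.im|))
    (s : ℝ) (hs : s = 1 ∨ s = -1) :
    ‖∫ x in (-T)..T, Complex.exp (s * (2 * Real.pi * (θ + x)) * Complex.I) *
      (contour_Ws W (x : ℂ) * W (x : ℂ) * (1 - W (x : ℂ)))‖ ≤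
    2 * T * Real.exp (3 * A - (2 * Real.pi - 3 * τ) * Y) + 2 * Y * Real.exp (3 * A) := by
  have hss : s * s = 1 := by
    rcases hs with h | h <;> rw [h] <;> norm_num
  have hsa : |s| = 1 := by
    rcases hs with h | h <;> rw [h] <;> norm_num
  have key : ∀ ζ : ℂ, |ζ.re| ≤ T → |ζ.im| ≤ Y → s * ζ.im = |ζ.im| →
      ‖Complex.exp (s * (2 * Real.pi * (θ + ζ)) * Complex.I) *
        (contour_Ws W ζ * W ζ * (1 - W ζ))‖ ≤
        Real.exp (3 * A - (2 * Real.pi - 3 * τ) * |ζ.im|) := by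
    intro ζ h1 h2 h4
    rw [norm_mul, Complex.norm_exp]
    have hre : ((s : ℂ) * (2 * (Real.pi : ℂ) * ((θ : ℂ) + ζ)) * Complex.I).re =
        - (2 * Real.pi * |ζ.im|) := by
      rw [← h4]
      simp [Complex.mul_re, Complex.mul_im]
      ring
    rw [hre]
    refine (mul_le_mul_of_nonneg_left (contour_bound W T Y A τ hB ζ h1 h2)
      (Real.exp_pos _).le).trans ?_
    rw [← Real.exp_add]
    apply Real.exp_le_exp.2
    linarith
  have hdiff : Differentiable ℂ (fun ζ : ℂ =>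
      Complex.exp (s * (2 * Real.pi * (θ + ζ)) * Complex.I) *
        (contour_Ws W ζ * W ζ * (1 - W ζ))) := by
    apply Differentiable.mul
    · apply Differentiable.cexp
      apply Differentiable.mul_const
      apply Differentiable.const_mul
      apply Differentiable.const_mul
      exact (differentiable_const _).add differentiable_id
    · exact ((contour_Ws_diff W hW).mul hW).mul ((differentiable_const _).sub hW)
  have h := contour_rect _ hdiff T (s * Y) (Real.exp (3 * A))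
    (Real.exp (3 * A - (2 * Real.pi - 3 * τ) * Y)) hT ?_ ?_
  · have habs : |s * Y| = Y := by rw [abs_mul, hsa, one_mul, abs_of_pos hY]
    rw [habs] at h
    exact h
  · intro y hy
    have hy1 : |y| ≤ Y ∧ s * y = |y| := by
      rcases hs with h | h
      · rw [h, one_mul, Set.uIcc_of_le hY.le] at hy
        rw [h, one_mul, abs_of_nonneg hy.1]
        exact ⟨hy.2, rfl⟩
      · rw [h, Set.uIcc_of_ge (by linarith)] at hy
        rw [h, abs_of_nonpos hy.2]
        constructor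
        · linarith [hy.1]
        · ring
    have hle : Real.exp (3 * A - (2 * Real.pi - 3 * τ) * |y|) ≤ Real.exp (3 * A) := by
      apply Real.exp_le_exp.2
      have : 0 ≤ (2 * Real.pi - 3 * τ) * |y| := mul_nonneg (by linarith) (abs_nonneg _)
      linarith
    constructor
    · have := key ((T : ℂ) + y * Complex.I) (by simp [abs_of_pos hT]) (by simp [hy1.1])
        (by simp [hy1.2])
      refine this.trans ?_
      simpa using hle
    · have := key (-(T : ℂ) + y * Complex.I) (by simp [abs_of_pos hT]) (by simp [hy1.1])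
        (by simp [hy1.2])
      refine this.trans ?_
      simpa using hle
  · intro x hx
    have habs : |s * Y| = Y := by rw [abs_mul, hsa, one_mul, abs_of_pos hY]
    have := key ((x : ℂ) + ((s * Y : ℝ) : ℂ) * Complex.I) (by simpa using hx)
      (by
        have : ((x : ℂ) + ((s * Y : ℝ) : ℂ) * Complex.I).im = s * Y := by simp
        rw [this, habs])
      (by
        have : ((x : ℂ) + ((s * Y : ℝ) : ℂ) * Complex.I).im = s * Y := by simp
        rw [this, habs, ← mul_assoc, hss, one_mul])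
    have him : ((x : ℂ) + ((s * Y : ℝ) : ℂ) * Complex.I).im = s * Y := by simp
    rw [him, habs] at this
    exact this

theorem t_contour : S_contour := by
  intro W hW T Y A τ θ hT hY hA hτ h3 hB
  have hp := contour_one W hW T Y A τ θ hT hY hA hτ h3 hB 1 (Or.inl rfl)
  have hm := contour_one W hW T Y A τ θ hT hY hA hτ h3 hB (-1) (Or.inr rfl)
  have hcW : Continuous (contour_Ws W) := (contour_Ws_diff W hW).continuous
  have hcW' : Continuous W := hW.continuous
  have hint : ∀ s : ℝ, IntervalIntegrable (fun x : ℝ =>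
      Complex.exp (s * (2 * Real.pi * (θ + x)) * Complex.I) *
      (contour_Ws W (x : ℂ) * W (x : ℂ) * (1 - W (x : ℂ)))) volume (-T) T := by
    intro s
    apply Continuous.intervalIntegrable
    have h1 : Continuous (fun x : ℝ => (x : ℂ)) := Complex.continuous_ofReal
    fun_prop
  have heq : (∫ x in (-T)..T, ((Real.cos (2 * Real.pi * (θ + x)) : ℝ) : ℂ) *
      ((starRingEnd ℂ) (W (x : ℂ)) * W (x : ℂ) * (1 - W (x : ℂ)))) =
      (1 / 2 : ℂ) * ((∫ x in (-T)..T,
        Complex.exp ((1 : ℝ) * (2 * Real.pi * (θ + x)) * Complex.I) *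
        (contour_Ws W (x : ℂ) * W (x : ℂ) * (1 - W (x : ℂ)))) +
      (∫ x in (-T)..T, Complex.exp ((-1 : ℝ) * (2 * Real.pi * (θ + x)) * Complex.I) *
        (contour_Ws W (x : ℂ) * W (x : ℂ) * (1 - W (x : ℂ))))) := by
    rw [← intervalIntegral.integral_add (hint 1) (hint (-1)),
      ← intervalIntegral.integral_const_mul]
    apply intervalIntegral.integral_congr
    intro x _
    simp only
    have h1 : contour_Ws W (x : ℂ) = (starRingEnd ℂ) (W (x : ℂ)) := by
      unfold contour_Ws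
      rw [Complex.conj_ofReal]
    rw [h1, Complex.ofReal_cos, Complex.cos]
    push_cast
    have e1 : (1 : ℂ) * (2 * (Real.pi : ℂ) * ((θ : ℂ) + (x : ℂ))) * Complex.I =
        2 * (Real.pi : ℂ) * ((θ : ℂ) + (x : ℂ)) * Complex.I := by ring
    have e2 : (-1 : ℂ) * (2 * (Real.pi : ℂ) * ((θ : ℂ) + (x : ℂ))) * Complex.I =
        -(2 * (Real.pi : ℂ) * ((θ : ℂ) + (x : ℂ))) * Complex.I := by ring
    rw [e1, e2]
    ring
  rw [heq, norm_mul]
  have hhalf : ‖(1 / 2 : ℂ)‖ = 1 / 2 := by norm_num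
  rw [hhalf]
  have := norm_add_le (∫ x in (-T)..T,
        Complex.exp ((1 : ℝ) * (2 * Real.pi * (θ + x)) * Complex.I) *
        (contour_Ws W (x : ℂ) * W (x : ℂ) * (1 - W (x : ℂ))))
      (∫ x in (-T)..T, Complex.exp ((-1 : ℝ) * (2 * Real.pi * (θ + x)) * Complex.I) *
        (contour_Ws W (x : ℂ) * W (x : ℂ) * (1 - W (x : ℂ))))
  linarith

end

end Pool.Agent.H429K
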