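import Pool.Agent.H429K.Defs

set_option autoImplicit false

open MeasureTheory Filter Topology

namespace Pool.Agent.H429K

noncomputable section

/-! ### basic facts on `G` -/

def S_entire : Prop := ∀ (α : ℂ) (L : ℕ) (z : ℂ) (n : ℕ), Differentiable ℂ (G α L z n)

def S_add : Prop := ∀ (α : ℂ) (L : ℕ) (z : ℂ) (n k : ℕ) (ζ : ℂ),
  G α L z (n + k) ζ = G α L (G α L z n ζ) k ((L : ℂ) ^ n * ζ)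

def S_per : Prop := ∀ (α : ℂ) (L : ℕ) (z : ℂ) (n : ℕ) (ζ : ℂ) (m : ℤ),
  G α L z n (ζ + m) = G α L z n ζ

def S_sym : Prop := ∀ (α : ℂ) (L : ℕ) (w : ℂ) (n : ℕ) (ζ : ℂ),
  1 - G α L w n ζ = G (-α) L (1 - w) n ζ

def S_zcont : Prop := ∀ (α : ℂ) (L : ℕ) (n : ℕ) (ζ : ℂ), Continuous (fun z => G α L z n ζ)

def S_growth : Prop := ∀ (α : ℂ) (L : ℕ) (z : ℂ) (n k : ℕ) (ζ : ℂ), 3 ≤ L → ‖α‖ ≤ 1 →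
  1 + ‖G α L z (n + k) ζ‖ ≤ (1 + ‖G α L z n ζ‖) ^ (2 ^ k) *
    Real.exp (2 * Real.pi / ((L : ℝ) - 2) * (L : ℝ) ^ (n + k) * |ζ.im|)

/-! ### good base points -/

def S_esc : Prop := ∀ (α : ℂ) (L : ℕ), 1 ≤ L → 0 < ‖α‖ → ‖α‖ ≤ 1 → ∀ R : ℝ, 0 < R →
  ∀ a T : ℝ, 0 ≤ T →
  volume (Set.Icc a (a + T) \ Esc α L R) ≤ ENNReal.ofReal (12 * (T + 1) / (‖α‖ * R))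

def S_lamae : Prop := ∀ (α : ℂ) (L : ℕ), 2 ≤ L → ‖α‖ < 1 → lam α < 0 →
  ∀ᵐ u : ℝ, ∃ C : ℝ, 0 < C ∧ ∀ k : ℕ,
    ∏ j ∈ Finset.range k, ‖1 + α * ((Real.cos (2 * Real.pi * ((L : ℝ) ^ j * u)) : ℝ) : ℂ)‖
      ≤ C * Real.exp (lam α / 2 * k)

def S_lam : Prop := ∀ (α : ℂ) (L : ℕ), 2 ≤ L → ‖α‖ < 1 → lam α < 0 →
  ∃ κ : ℝ, 0 < κ ∧ ∀ ε : ℝ, 0 < ε → ∃ δ : ℝ, 0 < δ ∧ ∀ a : ℝ,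
    volume (Set.Icc a (a + 1) \ Lam0 α L κ δ) ≤ ENNReal.ofReal ε

def S_lam1 : Prop := ∀ (α : ℂ) (L : ℕ), 2 ≤ L → ‖α‖ < 1 → lam α < 0 →
  ∃ κ : ℝ, 0 < κ ∧ ∀ ε : ℝ, 0 < ε → ∃ δ : ℝ, 0 < δ ∧ ∀ a : ℝ,
    volume (Set.Icc a (a + 1) \ Lam1 α L κ δ) ≤ ENNReal.ofReal ε

/-! ### a two-constants estimate -/

def S_cells : Prop := ∀ (g : ℝ → ℝ), Continuous g → ∀ ρ M₁ M₂ δ : ℝ, 0 < ρ → M₁ < M₂ → 0 ≤ δ →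
  volume {x : ℝ | |x| ≤ ρ ∧ M₁ < g x} ≤ ENNReal.ofReal δ →
  ∃ (s : ℝ) (J : Finset ℝ), 0 < s ∧ (J.card : ℝ) * s ≤ δ ∧
    ∀ x : ℝ, |x| ≤ ρ → M₂ < g x → ∃ t ∈ J, |x - t| ≤ s / 2

def S_TC1 : Prop := ∀ (h : ℂ → ℂ), Differentiable ℂ h → ∀ ρ B b τ δ η : ℝ,
  18 ≤ ρ → 0 ≤ B → 0 ≤ b → 0 ≤ τ → 0 ≤ δ → 0 < η → η ≤ 1 / 2 →
  (∀ ζ : ℂ, ‖ζ‖ ≤ ρ → ‖h ζ‖ ≤ Real.exp (B + τ * |ζ.im|)) →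
  volume {x : ℝ | |x| ≤ ρ ∧ Real.exp b < ‖h (x : ℂ)‖} ≤ ENNReal.ofReal δ →
  ∀ ζ : ℂ, ‖ζ‖ ≤ 3 → η ≤ ζ.im →
    ‖h ζ‖ ≤ Real.exp (b + 1 + 3 * τ + (B + 1) * (37 / ρ + 2 * δ / η))

def S_TC : Prop := ∀ (h : ℂ → ℂ), Differentiable ℂ h → ∀ ρ B b τ δ η : ℝ,
  18 ≤ ρ → 0 ≤ B → 0 ≤ b → 0 ≤ τ → 0 ≤ δ → 0 < η → η ≤ 1 / 2 →
  (∀ ζ : ℂ, ‖ζ‖ ≤ ρ → ‖h ζ‖ ≤ Real.exp (B + τ * |ζ.im|)) →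
  volume {x : ℝ | |x| ≤ ρ ∧ Real.exp b < ‖h (x : ℂ)‖} ≤ ENNReal.ofReal δ →
  ∀ ζ : ℂ, ‖ζ‖ ≤ 2 →
    ‖h ζ‖ ≤ Real.exp (b + 1 + 3 * τ + (B + 1) * (37 / ρ + 2 * δ / η + 10 * η))

/-! ### bounds at density points -/

def S_rec : Prop := ∀ (α : ℂ) (L : ℕ), 6 ≤ L → 0 < ‖α‖ → ‖α‖ ≤ 1 →
  ∃ δ₀ b₁ : ℝ, 0 < δ₀ ∧ 0 ≤ b₁ ∧
  ∀ (z : ℂ) (P : Set ℝ), NonEsc α L z P → ∀ (n : ℕ) (v ℓ : ℝ), 0 ≤ ℓ →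
    volume {x : ℝ | |x| ≤ 2 * (L : ℝ) ^ 5 ∧ v + x / (L : ℝ) ^ (n + 5) ∉ P} ≤ ENNReal.ofReal δ₀ →
    Bd α L z n v ℓ → Bd α L z (n + 5) v (b₁ + ℓ / 2)

def S_unif : Prop := ∀ (α : ℂ) (L : ℕ), 6 ≤ L → 0 < ‖α‖ → ‖α‖ ≤ 1 →
  ∃ M₀ : ℝ, 0 ≤ M₀ ∧
  ∀ (z : ℂ) (P : Set ℝ), NonEsc α L z P → ∀ v₀ : ℝ, Dens L P v₀ → ∀ T : ℝ, 0 < T →
    ∃ n₁ : ℕ, ∀ n ≥ n₁, ∀ ζ : ℂ, |ζ.re| ≤ T → |ζ.im| ≤ 2 →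
      1 + ‖G α L z n ((v₀ : ℂ) + ζ / (L : ℂ) ^ n)‖ ≤ Real.exp M₀

def S_dens : Prop := ∀ P : Set ℝ, MeasurableSet P → 0 < volume P →
  ∃ v₀ ∈ P, ∀ L : ℕ, 2 ≤ L → Dens L P v₀

/-! ### the energy estimate -/

def S_contour : Prop := ∀ (W : ℂ → ℂ), Differentiable ℂ W → ∀ T Y A τ θ : ℝ,
  0 < T → 0 < Y → 0 ≤ A → 0 ≤ τ → 3 * τ ≤ 2 * Real.pi →
  (∀ ζ : ℂ, |ζ.re| ≤ T → |ζ.im| ≤ Y → 1 + ‖W ζ‖ ≤ Real.exp (A + τ * |ζ.im|)) →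
  ‖∫ x in (-T)..T, ((Real.cos (2 * Real.pi * (θ + x)) : ℝ) : ℂ) *
      ((starRingEnd ℂ) (W (x : ℂ)) * W (x : ℂ) * (1 - W (x : ℂ)))‖ ≤
    2 * T * Real.exp (3 * A - (2 * Real.pi - 3 * τ) * Y) + 2 * Y * Real.exp (3 * A)

/-- the increment at level `m` in the scaled variable `x` about `v₀` -/
def Dl (α : ℂ) (L : ℕ) (z : ℂ) (v₀ : ℝ) (m : ℕ) (x : ℝ) : ℂ :=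
  α * ((Real.cos (2 * Real.pi * ((L : ℝ) ^ m * v₀ + x)) : ℝ) : ℂ) *
    G α L z m ((v₀ : ℂ) + (x : ℂ) / (L : ℂ) ^ m) *
    (1 - G α L z m ((v₀ : ℂ) + (x : ℂ) / (L : ℂ) ^ m))

/-- one step of the energy, in the scaled variable -/
def S_step : Prop := ∀ (α : ℂ) (L : ℕ), 6 ≤ L → 0 < ‖α‖ → ‖α‖ ≤ 1 →
  ∀ (z : ℂ) (v₀ : ℝ) (m : ℕ) (T Y A : ℝ), 0 < T → 0 < Y → 0 ≤ A →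
  (∀ ζ : ℂ, |ζ.re| ≤ T → |ζ.im| ≤ Y →
    1 + ‖G α L z m ((v₀ : ℂ) + ζ / (L : ℂ) ^ m)‖ ≤
      Real.exp (A + 2 * Real.pi / ((L : ℝ) - 2) * |ζ.im|)) →
  (∫ x in (-T)..T, ‖G α L z m ((v₀ : ℂ) + (x : ℂ) / (L : ℂ) ^ m)‖ ^ 2) +
      (∫ x in (-T)..T, ‖Dl α L z v₀ m x‖ ^ 2) -
      2 * (2 * T * Real.exp (3 * A - Real.pi / 2 * Y) + 2 * Y * Real.exp (3 * A)) ≤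
    (1 / (L : ℝ)) * ∫ x in (-(T * L))..(T * L),
      ‖G α L z (m + 1) ((v₀ : ℂ) + (x : ℂ) / (L : ℂ) ^ (m + 1))‖ ^ 2

def S_energy : Prop := ∀ (α : ℂ) (L : ℕ), 6 ≤ L → 0 < ‖α‖ → ‖α‖ ≤ 1 →
  ∀ (z : ℂ) (P : Set ℝ), NonEsc α L z P → ∀ v₀ : ℝ, Dens L P v₀ → ∀ ε : ℝ, 0 < ε →
  ∃ K T : ℕ, 0 < T ∧ ∃ n₂ : ℕ, ∀ n ≥ n₂, ∃ j < K, ∃ a : ℝ,
    -((T : ℝ) * (L : ℝ) ^ j) ≤ a ∧ a + 1 ≤ (T : ℝ) * (L : ℝ) ^ j ∧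
    ∫ x in a..(a + 1), ‖Dl α L z v₀ (n + j) x‖ ^ 2 ≤ ε

def S_small : Prop := ∀ (α : ℂ), 0 < ‖α‖ → ∀ M s : ℝ, 0 < M → 0 < s → ∃ ε : ℝ, 0 < ε ∧
  ∀ (W : ℝ → ℂ) (a θ : ℝ), (∀ x ∈ Set.Icc a (a + 1), ‖W x‖ ≤ M) →
  (∀ x ∈ Set.Icc a (a + 1), ∀ y ∈ Set.Icc a (a + 1), ‖W x - W y‖ ≤ M * |x - y|) →
  ∫ x in a..(a + 1), ‖α * ((Real.cos (2 * Real.pi * (θ + x)) : ℝ) : ℂ) * W x * (1 - W x)‖ ^ 2 ≤ ε →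
  (∀ x ∈ Set.Icc a (a + 1), ‖W x‖ ≤ s) ∨ (∀ x ∈ Set.Icc a (a + 1), ‖W x - 1‖ ≤ s)

/-! ### the core theorem: almost every orbit converges -/

def S_core : Prop := ∀ (α : ℂ) (L : ℕ), 6 ≤ L → 0 < ‖α‖ → ‖α‖ < 1 → lam α < 0 →
  ∀ z : ℂ, ∀ᵐ u : ℝ, Conv α L z u

/-! ### the sphere -/

def S_recur : Prop := ∀ L : ℕ, 1 ≤ L → ∀ A : ℕ → Set ℝ,
  (∀ i, ∀ u ∈ A i, ∀ m : ℤ, u + m ∈ A i) →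
  Tendsto (fun i => volume (Set.Icc (0:ℝ) 1 \ A i)) atTop (𝓝 0) →
  ∀ᵐ u : ℝ, ∃ i, ∃ᶠ n in atTop, (L : ℝ) ^ n * u ∈ A i

def S_fiter : Prop := ∀ (α : ℂ) (L : ℕ) (u : ℝ) (n : ℕ),
  (∀ z : ℂ, fiter α L u n (z : OnePoint ℂ) = ((G α L z n (u : ℂ) : ℂ) : OnePoint ℂ)) ∧
  fiter α L u n OnePoint.infty = OnePoint.infty

def S_fcont : Prop := ∀ (α : ℂ) (L : ℕ) (u : ℝ) (n : ℕ), Continuous (fiter α L u n)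

def S_tri : Prop := (∀ a : OnePoint ℂ, chord a a = 0) ∧ (∀ a b : OnePoint ℂ, 0 ≤ chord a b) ∧
  (∀ a b : OnePoint ℂ, chord a b = chord b a) ∧
  (∀ a b c : OnePoint ℂ, chord a c ≤ chord a b + chord b c)

def S_nhds : Prop := ∀ (p : OnePoint ℂ) (s : Set (OnePoint ℂ)),
  s ∈ 𝓝 p ↔ ∃ ε : ℝ, 0 < ε ∧ {x | chord x p < ε} ⊆ s

def S_equi : Prop := ∀ (α : ℂ) (L : ℕ) (u : ℝ), ∀ z ∈ fatou α L u, ∀ ε : ℝ, 0 < ε →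
  ∃ V ∈ 𝓝 z, ∀ n : ℕ, ∀ w ∈ V, chord (fiter α L u n w) (fiter α L u n z) < ε

def S_sub1 : Prop := ∀ (α : ℂ) (L : ℕ) (u : ℝ) (Q : Set ℂ), Dense Q →
  (∀ q ∈ Q, Conv α L q u) → fatou α L u ⊆ basin α L u

def S_sub2 : Prop := ∀ (α : ℂ) (L : ℕ) (u κ₀ κ₁ δ₀ δ₁ R : ℝ), 0 < κ₀ → 0 < κ₁ → 0 < δ₀ → 0 < δ₁ →
  0 < R → (∃ᶠ n in atTop, (L : ℝ) ^ n * u ∈ Lam0 α L κ₀ δ₀) →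
  (∃ᶠ n in atTop, (L : ℝ) ^ n * u ∈ Lam1 α L κ₁ δ₁) →
  (∃ᶠ n in atTop, (L : ℝ) ^ n * u ∈ Esc α L R) → basin α L u ⊆ fatou α L u

def S_main : Prop := ∀ (α : ℂ) (L : ℕ), 6 ≤ L → 0 < ‖α‖ → ‖α‖ < 1 → lam α < 0 →
  ∀ᵐ u : ℝ, fatou α L u = basin α L u

end

end Pool.Agent.H429K
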