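-- t_core done, no extra hypotheses
import Pool.Agent.H429K.Stmts

open MeasureTheory Filter Topology

namespace Pool.Agent.H429K

noncomputable section

theorem corem_cont (he : S_entire) (α : ℂ) (L : ℕ) (z : ℂ) (n : ℕ) :
    Continuous fun u : ℝ => G α L z n (u : ℂ) :=
  (he α L z n).continuous.comp Complex.continuous_ofReal

theorem corem_meas (he : S_entire) (α : ℂ) (L : ℕ) (z : ℂ) :
    MeasurableSet {u : ℝ | ¬ Conv α L z u} := by
  have h0 : MeasurableSet {u : ℝ | Tendsto (fun n => G α L z n (u : ℂ)) atTop (𝓝 0)} :=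
    measurableSet_tendsto (𝓝 0) fun n => (corem_cont he α L z n).measurable
  have h1 : MeasurableSet {u : ℝ | Tendsto (fun n => G α L z n (u : ℂ)) atTop (𝓝 1)} :=
    measurableSet_tendsto (𝓝 1) fun n => (corem_cont he α L z n).measurable
  have h2 : MeasurableSet {u : ℝ | Tendsto (fun n => ‖G α L z n (u : ℂ)‖) atTop atTop} :=
    measurableSet_tendsto atTop fun n => (corem_cont he α L z n).norm.measurable
  exact (h0.union (h1.union h2)).compl

/-- the rescaled orbit point as an entire function -/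
def corem_F (α : ℂ) (L : ℕ) (z : ℂ) (v₀ : ℝ) (m : ℕ) (ζ : ℂ) : ℂ :=
  G α L z m ((v₀ : ℂ) + ζ / (L : ℂ) ^ m)

theorem corem_F_diff (he : S_entire) (α : ℂ) (L : ℕ) (z : ℂ) (v₀ : ℝ) (m : ℕ) :
    Differentiable ℂ (corem_F α L z v₀ m) := by
  have h : Differentiable ℂ fun ζ : ℂ => (v₀ : ℂ) + ζ / (L : ℂ) ^ m := by fun_prop
  exact (he α L z m).comp h

theorem corem_lip {F : ℂ → ℂ} (hF : Differentiable ℂ F) {M a : ℝ}
    (hM : ∀ x ∈ Set.Icc a (a + 1), ∀ ζ : ℂ, ‖ζ - (x : ℂ)‖ ≤ 1 → ‖F ζ‖ ≤ M) :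
    ∀ x ∈ Set.Icc a (a + 1), ∀ y ∈ Set.Icc a (a + 1), ‖F (x : ℂ) - F (y : ℂ)‖ ≤ M * |x - y| := by
  have hd : ∀ x ∈ Set.Icc a (a + 1), ‖deriv F (x : ℂ)‖ ≤ M := by
    intro x hx
    have := Complex.norm_deriv_le_of_forall_mem_sphere_norm_le (c := (x : ℂ)) (R := 1) (C := M)
      (f := F) one_pos hF.diffContOnCl (fun ζ hζ => hM x hx ζ (by
        rw [mem_sphere_iff_norm] at hζ; exact hζ.le))
    rwa [div_one] at this
  intro x hx y hy
  have h := (convex_Icc a (a + 1)).norm_image_sub_le_of_norm_hasDerivWithin_le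
    (f := fun t : ℝ => F (t : ℂ)) (f' := fun t : ℝ => deriv F (t : ℂ)) (C := M)
    (fun t _ => ((hF (t : ℂ)).hasDerivAt.comp_ofReal).hasDerivWithinAt) hd hy hx
  rwa [Real.norm_eq_abs] at h

theorem corem_tendsto {f : ℕ → ℂ} {κ : ℝ} (hκ : 0 < κ) (h : ∀ k : ℕ, ‖f k‖ ≤ Real.exp (-(κ * k))) :
    Tendsto f atTop (𝓝 0) := by
  rw [tendsto_zero_iff_norm_tendsto_zero]
  refine squeeze_zero (fun _ => norm_nonneg _) h ?_
  refine Real.tendsto_exp_neg_atTop_nhds_zero.comp ?_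
  exact tendsto_natCast_atTop_atTop.const_mul_atTop hκ

/-- the measure count -/
theorem corem_count {a c : ℝ} {Q B : Set ℝ}
    (hQ : volume (Set.Icc (c + a) (c + a + 1) \ Q) ≤ ENNReal.ofReal (1 / 4))
    (hB : volume B ≤ ENNReal.ofReal (1 / 2)) (h : ∀ x ∈ Set.Icc a (a + 1), c + x ∈ Q → x ∈ B) :
    False := by
  have hsub : Set.Icc a (a + 1) ⊆ ((fun x => c + x) ⁻¹' (Set.Icc (c + a) (c + a + 1) \ Q)) ∪ B := by
    intro x hx
    by_cases hq : c + x ∈ Q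
    · exact Or.inr (h x hx hq)
    · refine Or.inl ⟨⟨?_, ?_⟩, hq⟩
      · have := hx.1; simp only; linarith
      · have := hx.2; simp only; linarith
  have h1 : volume (Set.Icc a (a + 1)) ≤ ENNReal.ofReal (1 / 4) + ENNReal.ofReal (1 / 2) := by
    refine (measure_mono hsub).trans ((measure_union_le _ _).trans (add_le_add ?_ hB))
    rw [measure_preimage_add]
    exact hQ
  rw [Real.volume_Icc, ← ENNReal.ofReal_add (by norm_num) (by norm_num),
    ENNReal.ofReal_le_ofReal_iff (by norm_num)] at h1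
  linarith

theorem t_core (he : S_entire) (ha : S_add) (hd : S_dens) (hl : S_lam) (hl1 : S_lam1) (hu : S_unif) (hen : S_energy) (hsm : S_small) : S_core := by
  intro α L hL hα0 hα1 hlam z
  have hL2 : 2 ≤ L := by omega
  have hLr : (1 : ℝ) ≤ (L : ℝ) := by exact_mod_cast (by omega : 1 ≤ L)
  have hL0 : (0 : ℝ) < (L : ℝ) := by linarith
  rw [ae_iff]
  set P : Set ℝ := {u : ℝ | ¬ Conv α L z u} with hP
  by_contra hne
  have hpos : 0 < volume P := pos_iff_ne_zero.2 hne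
  obtain ⟨v₀, -, hv⟩ := hd P (corem_meas he α L z) hpos
  have hdens := hv L hL2
  have hnon : NonEsc α L z P := fun v hv h => hv (Or.inr (Or.inr h))
  obtain ⟨κ₀, hκ₀, h0⟩ := hl α L hL2 hα1 hlam
  obtain ⟨δ₀, hδ₀, h0⟩ := h0 (1 / 4) (by norm_num)
  obtain ⟨κ₁, hκ₁, h1⟩ := hl1 α L hL2 hα1 hlam
  obtain ⟨δ₁, hδ₁, h1⟩ := h1 (1 / 4) (by norm_num)
  obtain ⟨M₀, hM₀, hunif⟩ := hu α L hL hα0 hα1.le
  obtain ⟨ε, hε, hsmall⟩ := hsm α hα0 (Real.exp M₀) (min δ₀ δ₁) (Real.exp_pos _) (lt_min hδ₀ hδ₁)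
  obtain ⟨K, T, hT, n₂, henergy⟩ := hen α L hL hα0 hα1.le z P hnon v₀ hdens ε hε
  have hTr : (0 : ℝ) < T := by exact_mod_cast hT
  obtain ⟨n₁, hn₁⟩ := hunif z P hnon v₀ hdens ((T : ℝ) * (L : ℝ) ^ K + 2) (by positivity)
  obtain ⟨n₃, hn₃⟩ := hdens (1 / 2) (by norm_num) ((T : ℝ) * (L : ℝ) ^ K) (by positivity)
  obtain ⟨j, hj, a, ha1, ha2, hint⟩ := henergy (max n₂ (max n₁ n₃)) (le_max_left _ _)
  set m := max n₂ (max n₁ n₃) + j with hm
  have hm1 : n₁ ≤ m := by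
    have : n₁ ≤ max n₂ (max n₁ n₃) := (le_max_left _ _).trans (le_max_right _ _)
    omega
  have hm3 : n₃ ≤ m := by
    have : n₃ ≤ max n₂ (max n₁ n₃) := (le_max_right _ _).trans (le_max_right _ _)
    omega
  have hTL : (T : ℝ) * (L : ℝ) ^ j ≤ (T : ℝ) * (L : ℝ) ^ K :=
    mul_le_mul_of_nonneg_left (pow_le_pow_right₀ hLr hj.le) hTr.le
  have hin : ∀ x ∈ Set.Icc a (a + 1), |x| ≤ (T : ℝ) * (L : ℝ) ^ K := by
    intro x hx
    rw [abs_le]
    constructor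
    · linarith [hx.1]
    · linarith [hx.2]
  have hb := hn₁ m hm1
  have hball : ∀ x ∈ Set.Icc a (a + 1), ∀ ζ : ℂ, ‖ζ - (x : ℂ)‖ ≤ 1 →
      ‖corem_F α L z v₀ m ζ‖ ≤ Real.exp M₀ := by
    intro x hx ζ hζ
    have e1 := (Complex.abs_re_le_norm (ζ - (x : ℂ))).trans hζ
    have e2 := (Complex.abs_im_le_norm (ζ - (x : ℂ))).trans hζ
    rw [Complex.sub_re, Complex.ofReal_re] at e1
    rw [Complex.sub_im, Complex.ofReal_im, sub_zero] at e2
    have e3 : |ζ.re| ≤ (T : ℝ) * (L : ℝ) ^ K + 2 := by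
      have h4 : |ζ.re| ≤ |ζ.re - x| + |x| := by
        have := abs_add_le (ζ.re - x) x
        rwa [sub_add_cancel] at this
      linarith [hin x hx]
    have := hb ζ e3 (by linarith)
    unfold corem_F
    linarith
  have hW1 : ∀ x ∈ Set.Icc a (a + 1), ‖corem_F α L z v₀ m (x : ℂ)‖ ≤ Real.exp M₀ := fun x hx =>
    hball x hx (x : ℂ) (by simp)
  have hW2 := corem_lip (corem_F_diff he α L z v₀ m) hball
  have hc := hn₃ m hm3
  have hLm : (L : ℂ) ^ m ≠ 0 := pow_ne_zero _ (by exact_mod_cast hL0.ne')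
  have hshift : ∀ x : ℝ, (L : ℂ) ^ m * (((v₀ + x / (L : ℝ) ^ m : ℝ)) : ℂ) =
      (((L : ℝ) ^ m * v₀ + x : ℝ) : ℂ) := by
    intro x
    push_cast
    field_simp
  have horb : ∀ x : ℝ, ∀ k : ℕ, G α L z (k + m) (((v₀ + x / (L : ℝ) ^ m : ℝ)) : ℂ) =
      G α L (corem_F α L z v₀ m (x : ℂ)) k ((((L : ℝ) ^ m * v₀ + x : ℝ)) : ℂ) := by
    intro x k
    rw [add_comm k m, ha, hshift]
    unfold corem_F
    push_cast
    rfl
  rcases hsmall (fun x : ℝ => corem_F α L z v₀ m (x : ℂ)) a ((L : ℝ) ^ m * v₀) hW1 hW2 hint with h | h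
  · refine corem_count (h0 ((L : ℝ) ^ m * v₀ + a)) hc ?_
    intro x hx hq
    refine ⟨hin x hx, fun hmem => hmem (Or.inl ?_)⟩
    rw [← tendsto_add_atTop_iff_nat m]
    refine corem_tendsto hκ₀ fun k => ?_
    rw [horb]
    exact hq _ ((h x hx).trans (min_le_left _ _)) k
  · refine corem_count (h1 ((L : ℝ) ^ m * v₀ + a)) hc ?_
    intro x hx hq
    refine ⟨hin x hx, fun hmem => hmem (Or.inr (Or.inl ?_))⟩
    rw [← tendsto_add_atTop_iff_nat m, ← tendsto_sub_nhds_zero_iff]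
    refine corem_tendsto hκ₁ fun k => ?_
    rw [horb]
    exact hq _ ((h x hx).trans (min_le_right _ _)) k

end

end Pool.Agent.H429K
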