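import Pool.Agent.H429K.Stmts

open MeasureTheory Filter Topology

namespace Pool.Agent.H429K

noncomputable section

theorem densm_scale (P : Set ℝ) (v₀ T q : ℝ) (hq : 0 < q) :
    volume {x : ℝ | |x| ≤ T ∧ v₀ + x / q ∉ P} =
      ENNReal.ofReal q * volume (Metric.closedBall v₀ (T / q) \ P) := by
  have h1 : {x : ℝ | |x| ≤ T ∧ v₀ + x / q ∉ P} =
      (fun x : ℝ => q⁻¹ * x) ⁻¹' ((fun x : ℝ => v₀ + x) ⁻¹' (Metric.closedBall v₀ (T / q) \ P)) := by
    ext x
    simp only [Set.mem_ofPred_eq, Set.mem_preimage, Set.mem_sdiff, Metric.mem_closedBall,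
      Real.dist_eq]
    have e1 : v₀ + q⁻¹ * x = v₀ + x / q := by rw [div_eq_inv_mul]
    have e2 : v₀ + x / q - v₀ = x / q := by ring
    rw [e1, e2, abs_div, abs_of_pos hq, div_le_div_iff_of_pos_right hq]
  rw [h1, Real.volume_preimage_mul_left (inv_ne_zero hq.ne'), measure_preimage_add, inv_inv,
    abs_of_pos hq]

theorem t_dens : S_dens := by
  intro P hP hpos
  have hae := Besicovitch.ae_tendsto_measure_inter_div (volume : Measure ℝ) P
  have hmem := ae_restrict_mem (μ := (volume : Measure ℝ)) hP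
  have hne : (ae (volume.restrict P)).NeBot := by
    rw [ae_neBot]
    intro h
    rw [Measure.restrict_eq_zero] at h
    exact hpos.ne' h
  obtain ⟨v₀, hv, hmemv⟩ := (hae.and hmem).exists
  refine ⟨v₀, hmemv, ?_⟩
  intro L hL ε hε T hT
  have hL0 : (0 : ℝ) < L := by
    have : 0 < L := by omega
    exact_mod_cast this
  have hL1 : (1 : ℝ) < L := by
    have : 1 < L := by omega
    exact_mod_cast this
  -- the ratio in the reals
  have hlim : Tendsto (fun r => (volume (P ∩ Metric.closedBall v₀ r)).toReal / (2 * r)) (𝓝[>] 0)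
      (𝓝 1) := by
    have h1 := (ENNReal.tendsto_toReal ENNReal.one_ne_top).comp hv
    rw [ENNReal.toReal_one] at h1
    refine h1.congr' ?_
    filter_upwards [self_mem_nhdsWithin] with r hr
    have hr0 : (0 : ℝ) < r := hr
    simp only [Function.comp]
    rw [ENNReal.toReal_div, Real.volume_closedBall, ENNReal.toReal_ofReal (by positivity)]
  have hev : ∀ᶠ r in 𝓝[>] (0 : ℝ), 1 - ε / (2 * T) <
      (volume (P ∩ Metric.closedBall v₀ r)).toReal / (2 * r) := by
    apply hlim.eventually_const_lt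
    have : 0 < ε / (2 * T) := by positivity
    linarith
  have hseq : Tendsto (fun n : ℕ => T / (L : ℝ) ^ n) atTop (𝓝[>] 0) := by
    rw [tendsto_nhdsWithin_iff]
    refine ⟨?_, Eventually.of_forall fun n => ?_⟩
    · have h1 := (tendsto_inv_atTop_zero.comp (tendsto_pow_atTop_atTop_of_one_lt hL1)).const_mul T
      rw [mul_zero] at h1
      exact h1
    · show 0 < T / (L : ℝ) ^ n
      positivity
  obtain ⟨n₀, hn₀⟩ := eventually_atTop.1 (hseq.eventually hev)
  refine ⟨n₀, fun n hn => ?_⟩
  have hn1 := hn₀ n hn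
  have hq : (0 : ℝ) < (L : ℝ) ^ n := by positivity
  rw [densm_scale P v₀ T _ hq]
  have hr : 0 < T / (L : ℝ) ^ n := by positivity
  generalize hrr : T / (L : ℝ) ^ n = r at hn1 hr ⊢
  have hfin : volume (P ∩ Metric.closedBall v₀ r) ≠ ⊤ := by
    refine ne_top_of_le_ne_top ?_ (measure_mono Set.inter_subset_right)
    rw [Real.volume_closedBall]; exact ENNReal.ofReal_ne_top
  have hdiff : volume (Metric.closedBall v₀ r \ P) =
      ENNReal.ofReal (2 * r - (volume (P ∩ Metric.closedBall v₀ r)).toReal) := by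
    have h1 : Metric.closedBall v₀ r \ P = Metric.closedBall v₀ r \ (P ∩ Metric.closedBall v₀ r) := by
      ext x
      simp only [Set.mem_sdiff, Set.mem_inter_iff]
      tauto
    rw [h1, measure_sdiff Set.inter_subset_right
      (hP.inter measurableSet_closedBall).nullMeasurableSet hfin, Real.volume_closedBall,
      ENNReal.ofReal_sub _ ENNReal.toReal_nonneg, ENNReal.ofReal_toReal hfin]
  rw [hdiff, ← ENNReal.ofReal_mul hq.le]
  apply ENNReal.ofReal_le_ofReal
  rw [lt_div_iff₀ (by positivity)] at hn1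
  have hqr : (L : ℝ) ^ n * r = T := by
    rw [← hrr]; field_simp
  calc (L : ℝ) ^ n * (2 * r - (volume (P ∩ Metric.closedBall v₀ r)).toReal)
      ≤ (L : ℝ) ^ n * (2 * r - (1 - ε / (2 * T)) * (2 * r)) := by
        apply mul_le_mul_of_nonneg_left _ hq.le
        linarith
    _ = ((L : ℝ) ^ n * r) * (ε / T) := by field_simp; ring
    _ = ε := by rw [hqr]; field_simp

end

end Pool.Agent.H429K
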