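import Pool.Agent.H429K.Stmts

open MeasureTheory Filter Topology

namespace Pool.Agent.H429K

noncomputable section

/-- choice of the level shift -/
private theorem energy_shift (M₀ ε : ℝ) (hM : 0 ≤ M₀) (hε : 0 < ε) (L : ℕ) (hL : 6 ≤ L) :
    ∃ j₀ : ℕ, 2 * Real.exp (3 * (2 ^ j₀ * M₀) - Real.pi / 2 * (2 * (L : ℝ) ^ j₀)) ≤ ε / 8 := by
  obtain ⟨j₀, hj⟩ := pow_unbounded_of_one_lt (3 * M₀ + |Real.log (ε / 16)|) (by norm_num : (1:ℝ) < 3)
  refine ⟨j₀, ?_⟩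
  have hπ := Real.pi_gt_three
  have h6 : (6:ℝ) ^ j₀ ≤ (L : ℝ) ^ j₀ := pow_le_pow_left₀ (by norm_num) (by exact_mod_cast hL) _
  have h63 : (6:ℝ) ^ j₀ = 2 ^ j₀ * 3 ^ j₀ := by rw [← mul_pow]; norm_num
  have h2 : (1:ℝ) ≤ 2 ^ j₀ := one_le_pow₀ (by norm_num)
  have h3 : (0:ℝ) < 3 ^ j₀ := by positivity
  have habs := abs_nonneg (Real.log (ε / 16))
  have hnegabs := neg_abs_le (Real.log (ε / 16))
  have hkey : 3 * (2 ^ j₀ * M₀) - Real.pi / 2 * (2 * (L : ℝ) ^ j₀) ≤ Real.log (ε / 16) := by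
    have h1 : Real.pi / 2 * (2 * (L : ℝ) ^ j₀) ≥ 2 ^ j₀ * 3 ^ j₀ := by
      have : Real.pi / 2 * (2 * (L : ℝ) ^ j₀) = Real.pi * (L : ℝ) ^ j₀ := by ring
      rw [this, ← h63]
      have hp : (0:ℝ) < 6 ^ j₀ := by positivity
      nlinarith
    have h4 : (2:ℝ) ^ j₀ * 3 ^ j₀ ≥ 2 ^ j₀ * (3 * M₀ + |Real.log (ε / 16)|) :=
      mul_le_mul_of_nonneg_left hj.le (by positivity)
    have h5 : (2:ℝ) ^ j₀ * |Real.log (ε / 16)| ≥ |Real.log (ε / 16)| := by nlinarith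
    nlinarith
  have := Real.exp_le_exp.mpr hkey
  rw [Real.exp_log (by positivity)] at this
  linarith

/-- averaging over the unit intervals -/
private theorem energy_unit (f : ℝ → ℝ) (hf : Continuous f) (N : ℕ) (hN : 0 < N) (ε : ℝ)
    (h : ∫ x in (-(N:ℝ))..(N:ℝ), f x ≤ 2 * N * ε) :
    ∃ a : ℝ, -(N:ℝ) ≤ a ∧ a + 1 ≤ N ∧ ∫ x in a..(a + 1), f x ≤ ε := by
  have hsum := intervalIntegral.sum_integral_adjacent_intervals (f := f) (μ := volume)
    (a := fun i : ℕ => -(N:ℝ) + i) (n := 2 * N) (fun k _ => hf.intervalIntegrable _ _)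
  have he : (-(N:ℝ) + ((2 * N : ℕ) : ℝ)) = N := by push_cast; ring
  have h0 : (-(N:ℝ) + ((0 : ℕ) : ℝ)) = -N := by push_cast; ring
  simp only [he, h0] at hsum
  have hle : ∑ k ∈ Finset.range (2 * N), (∫ x in (-(N:ℝ) + k)..(-(N:ℝ) + ((k + 1 : ℕ) : ℝ)), f x) ≤
      ∑ k ∈ Finset.range (2 * N), ε := by
    rw [hsum]
    simpa using h
  obtain ⟨i, hi, hle'⟩ := Finset.exists_le_of_sum_le (by simpa using hN.ne') hle
  have hi' : i < 2 * N := Finset.mem_range.mp hi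
  refine ⟨-(N:ℝ) + i, by linarith [Nat.cast_nonneg (α := ℝ) i], ?_, ?_⟩
  · have : ((i:ℝ) + 1) ≤ 2 * N := by exact_mod_cast hi'
    linarith
  · have e : (-(N:ℝ) + ((i + 1 : ℕ) : ℝ)) = -(N:ℝ) + i + 1 := by push_cast; ring
    rw [e] at hle'
    exact hle'

theorem t_energy (he : S_entire) (hg : S_growth) (hu : S_unif) (hs : S_step) : S_energy := by
  intro α L hL hα hα1
  obtain ⟨M₀, hM₀, hunif⟩ := hu α L hL hα hα1
  intro z P hP v₀ hv ε hε
  have hL0 : (0:ℝ) < L := by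
    have : 0 < L := by omega
    exact_mod_cast this
  have hL1 : (1:ℝ) ≤ L := by
    have : 1 ≤ L := by omega
    exact_mod_cast this
  have hLC : (L:ℂ) ≠ 0 := by
    have : L ≠ 0 := by omega
    exact_mod_cast this
  obtain ⟨j₀, hj₀⟩ := energy_shift M₀ ε hM₀ hε L hL
  set A : ℝ := 2 ^ j₀ * M₀ with hA
  set Y : ℝ := 2 * (L:ℝ) ^ j₀ with hY
  have hA0 : 0 ≤ A := by positivity
  have hY0 : 0 < Y := by positivity
  obtain ⟨K, hK⟩ := exists_nat_gt (Real.exp (2 * M₀) * 8 / ε)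
  have hK0 : (0:ℝ) < K := lt_of_le_of_lt (by positivity) hK
  obtain ⟨T, hT⟩ := exists_nat_gt (4 * Y * Real.exp (3 * A) * 8 / ε)
  have hT0 : (0:ℝ) < T := lt_of_le_of_lt (by positivity) hT
  have hTn : 0 < T := by exact_mod_cast hT0
  have hKn : 0 < K := by exact_mod_cast hK0
  rw [div_lt_iff₀ hε] at hK hT
  obtain ⟨n₁, hn₁⟩ := hunif z P hP v₀ hv (T * (L:ℝ) ^ K) (by positivity)
  refine ⟨K, T, hTn, n₁ + j₀, fun n hn => ?_⟩
  -- energies
  set W : ℕ → ℝ → ℂ := fun j x => G α L z (n + j) ((v₀ : ℂ) + (x : ℂ) / (L : ℂ) ^ (n + j)) with hW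
  have hWc : ∀ j, Continuous (W j) := by
    intro j
    have h1 : Continuous (G α L z (n + j)) := (he α L z (n + j)).continuous
    exact h1.comp (by fun_prop)
  set E : ℕ → ℝ := fun j => (1 / (L:ℝ) ^ j) * ∫ x in (-(T * (L:ℝ) ^ j))..(T * (L:ℝ) ^ j), ‖W j x‖ ^ 2
    with hE
  set D : ℕ → ℝ := fun j => ∫ x in (-(T * (L:ℝ) ^ j))..(T * (L:ℝ) ^ j), ‖Dl α L z v₀ (n + j) x‖ ^ 2
    with hD
  have hTL : ∀ j, j ≤ K → (T:ℝ) * (L:ℝ) ^ j ≤ T * (L:ℝ) ^ K := fun j hj =>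
    mul_le_mul_of_nonneg_left (pow_le_pow_right₀ hL1 hj) hT0.le
  have hE0 : ∀ j, 0 ≤ E j := by
    intro j
    have : (0:ℝ) < T * (L:ℝ) ^ j := by positivity
    refine mul_nonneg (by positivity) (intervalIntegral.integral_nonneg (by linarith) ?_)
    intro x _
    positivity
  have hE1 : ∀ j, j ≤ K → E j ≤ 2 * T * Real.exp (2 * M₀) := by
    intro j hj
    have hp : (0:ℝ) < (L:ℝ) ^ j := by positivity
    have hTp : (0:ℝ) < T * (L:ℝ) ^ j := by positivity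
    have hb : ∫ x in (-(T * (L:ℝ) ^ j))..(T * (L:ℝ) ^ j), ‖W j x‖ ^ 2 ≤
        ∫ x in (-(T * (L:ℝ) ^ j))..(T * (L:ℝ) ^ j), Real.exp (2 * M₀) := by
      refine intervalIntegral.integral_mono_on (by linarith)
        (((hWc j).norm.pow 2).intervalIntegrable _ _) (by simp) ?_
      intro x hx
      have h1 := hn₁ (n + j) (by omega) (x : ℂ)
        (by
          rw [Complex.ofReal_re]
          exact (abs_le.mpr ⟨hx.1, hx.2⟩).trans (hTL j hj))
        (by simp)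
      have h2 : ‖W j x‖ ≤ Real.exp M₀ := by
        have : 1 + ‖W j x‖ ≤ Real.exp M₀ := h1
        linarith
      calc ‖W j x‖ ^ 2 ≤ Real.exp M₀ ^ 2 := pow_le_pow_left₀ (norm_nonneg _) h2 2
        _ = Real.exp (2 * M₀) := by rw [← Real.exp_nat_mul]; norm_num
    rw [intervalIntegral.integral_const, smul_eq_mul] at hb
    calc E j ≤ (1 / (L:ℝ) ^ j) * ((T * (L:ℝ) ^ j - -(T * (L:ℝ) ^ j)) * Real.exp (2 * M₀)) :=
          mul_le_mul_of_nonneg_left hb (by positivity)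
      _ = 2 * T * Real.exp (2 * M₀) := by field_simp; ring
  have hstep : ∀ j, j < K → E j + (1 / (L:ℝ) ^ j) * D j -
      (4 * T * Real.exp (3 * A - Real.pi / 2 * Y) + 4 * Y * Real.exp (3 * A)) ≤ E (j + 1) := by
    intro j hj
    have hp : (0:ℝ) < (L:ℝ) ^ j := by positivity
    have hp1 : (1:ℝ) ≤ (L:ℝ) ^ j := one_le_pow₀ hL1
    have hTp : (0:ℝ) < T * (L:ℝ) ^ j := by positivity
    have hst := hs α L hL hα hα1 z v₀ (n + j) (T * (L:ℝ) ^ j) Y A hTp hY0 hA0 (by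
      intro ζ hre him
      obtain ⟨m, hm⟩ : ∃ m, n + j = m + j₀ := ⟨n + j - j₀, by omega⟩
      have hmn : n₁ ≤ m := by omega
      have hgr := hg α L z m j₀ ((v₀ : ℂ) + ζ / (L : ℂ) ^ (n + j)) (by omega) hα1
      rw [← hm] at hgr
      have him' : ((v₀ : ℂ) + ζ / (L : ℂ) ^ (n + j)).im = ζ.im / (L:ℝ) ^ (n + j) := by
        have : ((L : ℂ) ^ (n + j)) = (((L:ℝ) ^ (n + j) : ℝ) : ℂ) := by push_cast; rfl
        rw [this, Complex.add_im, Complex.ofReal_im, Complex.div_ofReal_im, zero_add]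
      have hq : (0:ℝ) < (L:ℝ) ^ (n + j) := by positivity
      have hexp : 2 * Real.pi / ((L : ℝ) - 2) * (L : ℝ) ^ (n + j) *
          |((v₀ : ℂ) + ζ / (L : ℂ) ^ (n + j)).im| = 2 * Real.pi / ((L : ℝ) - 2) * |ζ.im| := by
        rw [him', abs_div, abs_of_pos hq]
        field_simp
      rw [hexp] at hgr
      have harg : (v₀ : ℂ) + ζ / (L : ℂ) ^ (n + j) = (v₀ : ℂ) + (ζ / (L:ℂ) ^ j₀) / (L : ℂ) ^ m := by
        rw [div_div, ← pow_add, hm, add_comm m j₀]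
      have hj0pos : (0:ℝ) < (L:ℝ) ^ j₀ := by positivity
      have hj0one : (1:ℝ) ≤ (L:ℝ) ^ j₀ := one_le_pow₀ hL1
      have hcast : ((L : ℂ) ^ j₀) = (((L:ℝ) ^ j₀ : ℝ) : ℂ) := by push_cast; rfl
      have hb := hn₁ m hmn (ζ / (L:ℂ) ^ j₀) (by
          rw [hcast, Complex.div_ofReal_re, abs_div, abs_of_pos hj0pos]
          calc |ζ.re| / (L:ℝ) ^ j₀ ≤ |ζ.re| := div_le_self (abs_nonneg _) hj0one
            _ ≤ T * (L:ℝ) ^ j := hre
            _ ≤ T * (L:ℝ) ^ K := hTL j hj.le) (by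
          rw [hcast, Complex.div_ofReal_im, abs_div, abs_of_pos hj0pos, div_le_iff₀ hj0pos]
          exact him)
      rw [← harg] at hb
      calc 1 + ‖G α L z (n + j) ((v₀ : ℂ) + ζ / (L : ℂ) ^ (n + j))‖
          ≤ (1 + ‖G α L z m ((v₀ : ℂ) + ζ / (L : ℂ) ^ (n + j))‖) ^ (2 ^ j₀) *
            Real.exp (2 * Real.pi / ((L : ℝ) - 2) * |ζ.im|) := hgr
        _ ≤ (Real.exp M₀) ^ (2 ^ j₀) * Real.exp (2 * Real.pi / ((L : ℝ) - 2) * |ζ.im|) :=
            mul_le_mul_of_nonneg_right (pow_le_pow_left₀ (by positivity) hb _) (Real.exp_pos _).le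
        _ = Real.exp (A + 2 * Real.pi / ((L : ℝ) - 2) * |ζ.im|) := by
            rw [← Real.exp_nat_mul, ← Real.exp_add]
            congr 1
            rw [hA]
            push_cast
            ring)
    have hTL1 : T * (L:ℝ) ^ j * L = T * (L:ℝ) ^ (j + 1) := by rw [pow_succ]; ring
    rw [hTL1] at hst
    have hEj1 : (1 / (L:ℝ) ^ j) * ((1 / (L : ℝ)) *
        ∫ x in (-(T * (L:ℝ) ^ (j + 1)))..(T * (L:ℝ) ^ (j + 1)),
        ‖G α L z (n + j + 1) ((v₀ : ℂ) + (x : ℂ) / (L : ℂ) ^ (n + j + 1))‖ ^ 2) = E (j + 1) := by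
      rw [hE]
      simp only [hW]
      rw [← mul_assoc]
      congr 1
      rw [pow_succ]
      field_simp
    have hst' := mul_le_mul_of_nonneg_left hst (by positivity : (0:ℝ) ≤ 1 / (L:ℝ) ^ j)
    rw [hEj1] at hst'
    have hexpand : (1 / (L:ℝ) ^ j) * ((∫ x in (-(T * (L:ℝ) ^ j))..(T * (L:ℝ) ^ j),
          ‖G α L z (n + j) ((v₀ : ℂ) + (x : ℂ) / (L : ℂ) ^ (n + j))‖ ^ 2) +
        (∫ x in (-(T * (L:ℝ) ^ j))..(T * (L:ℝ) ^ j), ‖Dl α L z v₀ (n + j) x‖ ^ 2) -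
        2 * (2 * (T * (L:ℝ) ^ j) * Real.exp (3 * A - Real.pi / 2 * Y) + 2 * Y * Real.exp (3 * A)))
        = E j + (1 / (L:ℝ) ^ j) * D j - (4 * T * Real.exp (3 * A - Real.pi / 2 * Y) +
          (1 / (L:ℝ) ^ j) * (4 * Y * Real.exp (3 * A))) := by
      simp only [hE, hD, hW]
      field_simp
      ring
    rw [hexpand] at hst'
    have hle : (1 / (L:ℝ) ^ j) * (4 * Y * Real.exp (3 * A)) ≤ 4 * Y * Real.exp (3 * A) := by
      have h1 : 1 / (L:ℝ) ^ j ≤ 1 := by rw [div_le_one hp]; exact hp1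
      have h2 : 0 ≤ 4 * Y * Real.exp (3 * A) := by positivity
      nlinarith
    linarith
  -- telescoping
  have htel : ∀ k, k ≤ K → ∑ j ∈ Finset.range k, (1 / (L:ℝ) ^ j) * D j ≤ E k - E 0 +
      k * (4 * T * Real.exp (3 * A - Real.pi / 2 * Y) + 4 * Y * Real.exp (3 * A)) := by
    intro k
    induction k with
    | zero => intro _; simp
    | succ k ih =>
      intro hk
      rw [Finset.sum_range_succ]
      have h1 := ih (by omega)
      have h2 := hstep k (by omega)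
      push_cast
      linarith
  have htot := htel K le_rfl
  have hpig : ∑ j ∈ Finset.range K, (1 / (L:ℝ) ^ j) * D j ≤ ∑ j ∈ Finset.range K, 2 * T * ε := by
    rw [Finset.sum_const, Finset.card_range, nsmul_eq_mul]
    have h1 := hE1 K le_rfl
    have h2 := hE0 0
    have h3 : 4 * T * Real.exp (3 * A - Real.pi / 2 * Y) ≤ T * (ε / 4) := by nlinarith
    have h4 : 4 * Y * Real.exp (3 * A) ≤ T * ε / 8 := by linarith
    have h5 : 2 * T * Real.exp (2 * M₀) ≤ 2 * T * (K * ε / 8) := by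
      apply mul_le_mul_of_nonneg_left _ (by positivity)
      linarith
    have h6 : (K:ℝ) * (4 * T * Real.exp (3 * A - Real.pi / 2 * Y) + 4 * Y * Real.exp (3 * A)) ≤
        K * (T * (ε / 4) + T * ε / 8) := mul_le_mul_of_nonneg_left (by linarith) hK0.le
    have h7 : (0:ℝ) < K * T * ε := by positivity
    nlinarith
  obtain ⟨j, hj, hjle⟩ := Finset.exists_le_of_sum_le (by simpa using hKn.ne') hpig
  have hjK : j < K := Finset.mem_range.mp hj
  have hp : (0:ℝ) < (L:ℝ) ^ j := by positivity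
  have hDj : D j ≤ 2 * ((T * L ^ j : ℕ) : ℝ) * ε := by
    have : (1 / (L:ℝ) ^ j) * D j = D j / (L:ℝ) ^ j := by ring
    rw [this, div_le_iff₀ hp] at hjle
    push_cast
    linarith
  have hLn : 0 < L := by omega
  have hcastT : ((T * L ^ j : ℕ) : ℝ) = T * (L:ℝ) ^ j := by push_cast; rfl
  have hDc : Continuous (fun x => ‖Dl α L z v₀ (n + j) x‖ ^ 2) := by
    have h1 : Continuous (fun x : ℝ => G α L z (n + j) ((v₀ : ℂ) + (x : ℂ) / (L : ℂ) ^ (n + j))) := hWc j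
    unfold Dl
    fun_prop
  obtain ⟨a, ha1, ha2, ha3⟩ := energy_unit _ hDc (T * L ^ j) (by positivity) ε
    (by rw [hcastT]; rw [hcastT] at hDj; exact hDj)
  rw [hcastT] at ha1 ha2
  exact ⟨j, hjK, a, ha1, ha2, ha3⟩

end

end Pool.Agent.H429K
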