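-- t_esc done, no extra hypotheses
import Pool.Agent.H429K.Stmts

open MeasureTheory Filter Topology

namespace Pool.Agent.H429K

noncomputable section

/-- the distance to the nearest zero bounds the cosine from below -/
theorem escm_near (y : ℝ) :
    4 * |y - (1 / 4 + (round (2 * y - 1 / 2) : ℝ) / 2)| ≤ |Real.cos (2 * Real.pi * y)| := by
  have hpi := Real.pi_pos
  set j := round (2 * y - 1 / 2) with hj
  have h1 : |2 * y - 1 / 2 - (j : ℝ)| ≤ 1 / 2 := abs_sub_round _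
  have e1 : y - (1 / 4 + (j : ℝ) / 2) = (2 * y - 1 / 2 - (j : ℝ)) / 2 := by ring
  have e2 : |y - (1 / 4 + (j : ℝ) / 2)| = |2 * y - 1 / 2 - (j : ℝ)| / 2 := by
    rw [e1, abs_div, abs_of_pos (by norm_num : (0:ℝ) < 2)]
  set x := Real.pi * (2 * y - 1 / 2 - (j : ℝ)) with hx
  have h2 : |x| = Real.pi * |2 * y - 1 / 2 - (j : ℝ)| := by
    rw [hx, abs_mul, abs_of_pos hpi]
  have h3 : |x| ≤ Real.pi / 2 := by
    rw [h2]; nlinarith
  have h4 := Real.mul_abs_le_abs_sin h3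
  have h5 : |Real.sin x| = |Real.cos (2 * Real.pi * y)| := by
    have e3 : x = (2 * Real.pi * y - Real.pi / 2) - (j : ℝ) * Real.pi := by rw [hx]; ring
    rw [e3, Real.sin_sub_int_mul_pi, Real.sin_sub_pi_div_two, abs_mul, abs_neg]
    rw [abs_zpow, abs_neg, abs_one, one_zpow, one_mul]
  rw [h5, h2] at h4
  rw [e2]
  refine le_trans (le_of_eq ?_) h4
  field_simp
  ring

theorem escm_round {x y : ℝ} (h : x ≤ y) : round x ≤ round y := by
  rw [round_eq, round_eq]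
  exact Int.floor_le_floor (by linarith)

/-- the set of small cosines -/
theorem escm_vol {N s a T : ℝ} (hN : 1 ≤ N) (hs : 0 ≤ s) (hT : 0 ≤ T) :
    volume {u : ℝ | u ∈ Set.Icc a (a + T) ∧ |Real.cos (2 * Real.pi * (N * u))| < s} ≤
      ENNReal.ofReal ((T + 1) * s) := by
  have hN0 : 0 < N := by linarith
  set j0 := round (2 * (N * a) - 1 / 2) with hj0
  set j1 := round (2 * (N * (a + T)) - 1 / 2) with hj1
  have hsub : {u : ℝ | u ∈ Set.Icc a (a + T) ∧ |Real.cos (2 * Real.pi * (N * u))| < s} ⊆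
      ⋃ j ∈ Finset.Icc j0 j1, Metric.ball ((1 / 4 + (j : ℝ) / 2) / N) (s / (4 * N)) := by
    rintro u ⟨hu, hc⟩
    have h1 := (escm_near (N * u)).trans_lt hc
    rw [Set.mem_iUnion₂]
    refine ⟨round (2 * (N * u) - 1 / 2), ?_, ?_⟩
    · rw [Finset.mem_Icc]
      constructor
      · apply escm_round
        nlinarith [hu.1]
      · apply escm_round
        nlinarith [hu.2]
    · rw [Metric.mem_ball, Real.dist_eq]
      have e : N * u - (1 / 4 + (round (2 * (N * u) - 1 / 2) : ℝ) / 2) =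
          N * (u - (1 / 4 + (round (2 * (N * u) - 1 / 2) : ℝ) / 2) / N) := by
        field_simp
      rw [e, abs_mul, abs_of_pos hN0] at h1
      rw [lt_div_iff₀ (by positivity)]
      linarith
  have hcard : ((Finset.Icc j0 j1).card : ℝ) ≤ 2 * N * T + 2 := by
    have h1 : (j1 : ℝ) ≤ 2 * (N * (a + T)) - 1 / 2 + 1 / 2 := by
      have := abs_sub_round (2 * (N * (a + T)) - 1 / 2)
      have := (abs_le.1 this).1
      linarith
    have h0 : 2 * (N * a) - 1 / 2 - 1 / 2 ≤ (j0 : ℝ) := by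
      have := abs_sub_round (2 * (N * a) - 1 / 2)
      have := (abs_le.1 this).2
      linarith
    have h2 : ((Finset.Icc j0 j1).card : ℤ) ≤ max (j1 + 1 - j0) 0 := by
      rw [Int.card_Icc]
      omega
    have h3 : ((Finset.Icc j0 j1).card : ℝ) ≤ max ((j1 : ℝ) + 1 - j0) 0 := by
      exact_mod_cast h2
    refine h3.trans (max_le ?_ (by positivity))
    linarith
  calc volume {u : ℝ | u ∈ Set.Icc a (a + T) ∧ |Real.cos (2 * Real.pi * (N * u))| < s}
      ≤ volume (⋃ j ∈ Finset.Icc j0 j1, Metric.ball ((1 / 4 + (j : ℝ) / 2) / N) (s / (4 * N))) :=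
        measure_mono hsub
    _ ≤ ∑ j ∈ Finset.Icc j0 j1, volume (Metric.ball ((1 / 4 + (j : ℝ) / 2) / N) (s / (4 * N))) :=
        measure_biUnion_finset_le _ _
    _ = ∑ j ∈ Finset.Icc j0 j1, ENNReal.ofReal (2 * (s / (4 * N))) :=
        Finset.sum_congr rfl fun j _ => Real.volume_ball _ _
    _ = ((Finset.Icc j0 j1).card : ENNReal) * ENNReal.ofReal (2 * (s / (4 * N))) := by
        rw [Finset.sum_const, nsmul_eq_mul]
    _ = ENNReal.ofReal (((Finset.Icc j0 j1).card : ℝ) * (2 * (s / (4 * N)))) := by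
        rw [ENNReal.ofReal_mul (Nat.cast_nonneg _), ENNReal.ofReal_natCast]
    _ ≤ ENNReal.ofReal ((T + 1) * s) := by
        apply ENNReal.ofReal_le_ofReal
        have h1 : ((Finset.Icc j0 j1).card : ℝ) * (2 * (s / (4 * N))) ≤
            (2 * N * T + 2) * (2 * (s / (4 * N))) :=
          mul_le_mul_of_nonneg_right hcard (by positivity)
        have h2 : (2 * N * T + 2) * (2 * (s / (4 * N))) = (T + 1 / N) * s := by
          field_simp
          ring
        have h3 : 1 / N ≤ 1 := by rw [div_le_one hN0]; exact hN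
        have h4 : (T + 1 / N) * s ≤ (T + 1) * s := mul_le_mul_of_nonneg_right (by linarith) hs
        linarith

theorem escm_step {c z : ℂ} (hc : ‖c‖ ≤ 1) (h : 6 ≤ ‖c‖ * ‖z‖) : 4 * ‖z‖ ≤ ‖step c z‖ := by
  have e : step c z = z * (1 + c - c * z) := by unfold step; ring
  rw [e, norm_mul, mul_comm]
  refine mul_le_mul_of_nonneg_left ?_ (norm_nonneg z)
  have h1 : ‖c * z‖ - ‖1 + c‖ ≤ ‖c * z - (1 + c)‖ := norm_sub_norm_le _ _
  have h2 : ‖c * z - (1 + c)‖ = ‖1 + c - c * z‖ := norm_sub_rev _ _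
  have h3 : ‖1 + c‖ ≤ ‖(1:ℂ)‖ + ‖c‖ := norm_add_le _ _
  rw [norm_one] at h3
  rw [norm_mul] at h1
  linarith

theorem escm_mem {α : ℂ} {L : ℕ} (ha : 0 < ‖α‖) (ha1 : ‖α‖ ≤ 1) {R : ℝ} (hR : 0 < R) {u : ℝ}
    (hu : ∀ k : ℕ, 6 / (‖α‖ * R) / 2 ^ k ≤ |Real.cos (2 * Real.pi * ((L : ℝ) ^ k * u))|) :
    u ∈ Esc α L R := by
  intro w hw k
  induction k with
  | zero => simp [G]
  | succ k ih =>
    have e : Complex.cos (2 * (Real.pi : ℂ) * (L : ℂ) ^ k * (u : ℂ)) =
        ((Real.cos (2 * Real.pi * ((L : ℝ) ^ k * u)) : ℝ) : ℂ) := by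
      push_cast
      congr 1
      ring
    change (4:ℝ) ^ (k + 1) * ‖w‖ ≤
      ‖step (α * Complex.cos (2 * (Real.pi : ℂ) * (L : ℂ) ^ k * (u : ℂ))) (G α L w k (u : ℂ))‖
    rw [e]
    have hn : ‖α * ((Real.cos (2 * Real.pi * ((L : ℝ) ^ k * u)) : ℝ) : ℂ)‖ =
        ‖α‖ * |Real.cos (2 * Real.pi * ((L : ℝ) ^ k * u))| := by
      rw [norm_mul, Complex.norm_real, Real.norm_eq_abs]
    have hc1 : ‖α * ((Real.cos (2 * Real.pi * ((L : ℝ) ^ k * u)) : ℝ) : ℂ)‖ ≤ 1 := by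
      rw [hn]
      exact mul_le_one₀ ha1 (abs_nonneg _) (Real.abs_cos_le_one _)
    have h6 : 6 ≤ ‖α * ((Real.cos (2 * Real.pi * ((L : ℝ) ^ k * u)) : ℝ) : ℂ)‖ *
        ‖G α L w k (u : ℂ)‖ := by
      rw [hn]
      have h1 : ‖α‖ * (6 / (‖α‖ * R) / 2 ^ k) * ((4:ℝ) ^ k * R) ≤
          ‖α‖ * |Real.cos (2 * Real.pi * ((L : ℝ) ^ k * u))| * ‖G α L w k (u : ℂ)‖ := by
        apply mul_le_mul
        · exact mul_le_mul_of_nonneg_left (hu k) ha.le
        · exact (mul_le_mul_of_nonneg_left hw (by positivity)).trans ih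
        · positivity
        · positivity
      have h2 : ‖α‖ * (6 / (‖α‖ * R) / 2 ^ k) * ((4:ℝ) ^ k * R) = 6 * 2 ^ k := by
        have : (4:ℝ) ^ k = 2 ^ k * 2 ^ k := by rw [← mul_pow]; norm_num
        rw [this]
        field_simp
      have h3 : (1:ℝ) ≤ 2 ^ k := one_le_pow₀ (by norm_num)
      linarith
    have h7 := escm_step hc1 h6
    calc (4:ℝ) ^ (k + 1) * ‖w‖ = 4 * ((4:ℝ) ^ k * ‖w‖) := by ring
      _ ≤ 4 * ‖G α L w k (u : ℂ)‖ := by linarith
      _ ≤ _ := h7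

theorem t_esc : S_esc := by
  intro α L hL ha ha1 R hR a T hT
  set ε := 6 / (‖α‖ * R) with hε
  have hε0 : 0 < ε := by positivity
  have hsub : Set.Icc a (a + T) \ Esc α L R ⊆ ⋃ k : ℕ, {u : ℝ | u ∈ Set.Icc a (a + T) ∧
      |Real.cos (2 * Real.pi * ((L : ℝ) ^ k * u))| < ε / 2 ^ k} := by
    rintro u ⟨hu, hE⟩
    rw [Set.mem_iUnion]
    by_contra hcon
    push Not at hcon
    apply hE
    apply escm_mem ha ha1 hR
    intro k
    by_contra hk
    exact hcon k ⟨hu, not_le.1 hk⟩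
  have hsum : HasSum (fun k : ℕ => (T + 1) * (ε / 2 ^ k)) (2 * ((T + 1) * ε)) := by
    have h := hasSum_geometric_two.mul_left ((T + 1) * ε)
    have e : (fun k : ℕ => (T + 1) * (ε / 2 ^ k)) = fun k : ℕ => (T + 1) * ε * (1 / 2) ^ k := by
      funext k
      rw [one_div, inv_pow]
      ring
    rw [e, mul_comm 2]
    exact h
  calc volume (Set.Icc a (a + T) \ Esc α L R)
      ≤ volume (⋃ k : ℕ, {u : ℝ | u ∈ Set.Icc a (a + T) ∧
        |Real.cos (2 * Real.pi * ((L : ℝ) ^ k * u))| < ε / 2 ^ k}) := measure_mono hsub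
    _ ≤ ∑' k : ℕ, volume {u : ℝ | u ∈ Set.Icc a (a + T) ∧
        |Real.cos (2 * Real.pi * ((L : ℝ) ^ k * u))| < ε / 2 ^ k} := measure_iUnion_le _
    _ ≤ ∑' k : ℕ, ENNReal.ofReal ((T + 1) * (ε / 2 ^ k)) := by
        refine ENNReal.tsum_le_tsum fun k => ?_
        exact escm_vol (one_le_pow₀ (by exact_mod_cast hL)) (by positivity) hT
    _ = ENNReal.ofReal (∑' k : ℕ, (T + 1) * (ε / 2 ^ k)) :=
        (ENNReal.ofReal_tsum_of_nonneg (fun k => by positivity) hsum.summable).symm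
    _ = ENNReal.ofReal (12 * (T + 1) / (‖α‖ * R)) := by
        rw [hsum.tsum_eq, hε]
        congr 1
        field_simp
        ring

end

end Pool.Agent.H429K
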