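import Pool.Agent.H429K.Stmts

open MeasureTheory Filter Topology

namespace Pool.Agent.H429K

noncomputable section

theorem t_fiter : S_fiter := by
  intro α L u n
  induction n with
  | zero => exact ⟨fun z => rfl, rfl⟩
  | succ n ih =>
    obtain ⟨ih1, ih2⟩ := ih
    constructor
    · intro z
      change fmap α ((L : ℝ) ^ n * u) (fiter α L u n (z : OnePoint ℂ)) = _
      rw [ih1 z]
      unfold fmap
      rw [OnePoint.map_some]
      congr 1
      change _ = step (α * Complex.cos (2 * (Real.pi : ℂ) * (L : ℂ) ^ n * (u : ℂ))) (G α L z n (u : ℂ))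
      unfold step
      push_cast
      ring_nf
    · change fmap α ((L : ℝ) ^ n * u) (fiter α L u n OnePoint.infty) = _
      rw [ih2]
      unfold fmap
      rw [OnePoint.map_infty]

theorem fib_tendsto (c : ℂ) :
    Tendsto (fun z : ℂ => z + c * z * (1 - z)) (cocompact ℂ) (cocompact ℂ) := by
  by_cases hc : c = 0
  · subst hc
    simp only [zero_mul, add_zero]
    exact tendsto_id
  · rw [← Metric.cobounded_eq_cocompact, ← tendsto_norm_atTop_iff_cobounded]
    have h1 : ∀ z : ℂ, ‖z + c * z * (1 - z)‖ = ‖z‖ * ‖(1 + c) - c * z‖ := by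
      intro z
      rw [← norm_mul]
      congr 1
      ring
    simp only [h1]
    have hz : Tendsto (fun z : ℂ => ‖z‖) (Bornology.cobounded ℂ) atTop := tendsto_norm_cobounded_atTop
    have h2 : Tendsto (fun z : ℂ => ‖(1 + c) - c * z‖) (Bornology.cobounded ℂ) atTop := by
      have h3 : Tendsto (fun z : ℂ => ‖c‖ * ‖z‖ - ‖1 + c‖) (Bornology.cobounded ℂ) atTop := by
        apply tendsto_atTop_add_const_right
        exact Tendsto.const_mul_atTop (norm_pos_iff.mpr hc) hz
      refine tendsto_atTop_mono ?_ h3
      intro z
      have := norm_sub_norm_le (c * z) (1 + c)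
      rw [norm_mul] at this
      rw [norm_sub_rev]
      exact this
    exact hz.atTop_mul_atTop₀ h2

theorem fib_fmap_cont (α : ℂ) (u : ℝ) : Continuous (fmap α u) := by
  unfold fmap
  apply OnePoint.continuous_map
  · fun_prop
  · rw [coclosedCompact_eq_cocompact]
    exact fib_tendsto _

theorem t_fcont : S_fcont := by
  intro α L u n
  induction n with
  | zero => exact continuous_id
  | succ n ih =>
    exact (fib_fmap_cont α _).comp ih

end

end Pool.Agent.H429K
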