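import Pool.Agent.H429K.Stmts
import Pool.Agent.H165R3.Birk

open MeasureTheory Filter Topology

namespace Pool.Agent.H429K

noncomputable section

/-- the fibre log-derivative as a function on the line -/
def lamae_g (α : ℂ) (u : ℝ) : ℝ :=
  Real.log ‖1 + α * ((Real.cos (2 * Real.pi * u) : ℝ) : ℂ)‖

theorem lamae_low (α : ℂ) (u : ℝ) :
    1 - ‖α‖ ≤ ‖1 + α * ((Real.cos (2 * Real.pi * u) : ℝ) : ℂ)‖ := by
  have h1 : ‖α * ((Real.cos (2 * Real.pi * u) : ℝ) : ℂ)‖ ≤ ‖α‖ := by
    rw [norm_mul, Complex.norm_real, Real.norm_eq_abs]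
    exact mul_le_of_le_one_right (norm_nonneg _) (Real.abs_cos_le_one _)
  have h2 := norm_sub_norm_le (1 : ℂ) (-(α * ((Real.cos (2 * Real.pi * u) : ℝ) : ℂ)))
  rw [norm_neg, norm_one, sub_neg_eq_add] at h2
  linarith

theorem lamae_up (α : ℂ) (u : ℝ) :
    ‖1 + α * ((Real.cos (2 * Real.pi * u) : ℝ) : ℂ)‖ ≤ 1 + ‖α‖ := by
  have h1 : ‖α * ((Real.cos (2 * Real.pi * u) : ℝ) : ℂ)‖ ≤ ‖α‖ := by
    rw [norm_mul, Complex.norm_real, Real.norm_eq_abs]
    exact mul_le_of_le_one_right (norm_nonneg _) (Real.abs_cos_le_one _)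
  have h2 := norm_add_le (1 : ℂ) (α * ((Real.cos (2 * Real.pi * u) : ℝ) : ℂ))
  rw [norm_one] at h2
  linarith

theorem lamae_cont (α : ℂ) (h : ‖α‖ < 1) : Continuous (lamae_g α) := by
  unfold lamae_g
  refine Continuous.log ?_ ?_
  · fun_prop
  · intro u
    have := lamae_low α u
    have h0 : 0 < ‖1 + α * ((Real.cos (2 * Real.pi * u) : ℝ) : ℂ)‖ := by linarith
    exact h0.ne'

theorem lamae_per (α : ℂ) : Function.Periodic (lamae_g α) 1 := by
  intro u
  unfold lamae_g
  have : Real.cos (2 * Real.pi * (u + 1)) = Real.cos (2 * Real.pi * u) := by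
    rw [mul_add, mul_one, Real.cos_add_two_pi]
  rw [this]

theorem lamae_bdd (α : ℂ) (h : ‖α‖ < 1) (u : ℝ) :
    |lamae_g α u| ≤ |Real.log (1 - ‖α‖)| + |Real.log (1 + ‖α‖)| := by
  have h1 := lamae_low α u
  have h2 := lamae_up α u
  have h0 : 0 < 1 - ‖α‖ := by linarith
  have h3 : Real.log (1 - ‖α‖) ≤ lamae_g α u := Real.log_le_log h0 h1
  have h4 : lamae_g α u ≤ Real.log (1 + ‖α‖) := Real.log_le_log (by linarith) h2
  rw [abs_le]
  constructor
  · have := neg_abs_le (Real.log (1 - ‖α‖))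
    have := abs_nonneg (Real.log (1 + ‖α‖))
    linarith
  · have := le_abs_self (Real.log (1 + ‖α‖))
    have := abs_nonneg (Real.log (1 - ‖α‖))
    linarith

/-- the function on the circle -/
def lamae_phi (α : ℂ) : UnitAddCircle → ℝ := (lamae_per α).lift

theorem lamae_phi_coe (α : ℂ) (u : ℝ) : lamae_phi α (u : UnitAddCircle) = lamae_g α u :=
  Function.Periodic.lift_coe _ _

theorem lamae_phi_cont (α : ℂ) (h : ‖α‖ < 1) : Continuous (lamae_phi α) := by
  have hq : IsQuotientMap ((↑) : ℝ → UnitAddCircle) := QuotientAddGroup.isQuotientMap_mk _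
  rw [hq.continuous_iff]
  have : lamae_phi α ∘ ((↑) : ℝ → UnitAddCircle) = lamae_g α := by
    funext u
    exact lamae_phi_coe α u
  rw [this]
  exact lamae_cont α h

theorem lamae_iter (L : ℕ) (u : ℝ) (k : ℕ) :
    (fun y : UnitAddCircle => L • y)^[k] (u : UnitAddCircle) = (((L : ℝ) ^ k * u : ℝ) : UnitAddCircle) := by
  induction k with
  | zero => simp
  | succ k ih =>
    rw [Function.iterate_succ_apply', ih]
    show L • (((L : ℝ) ^ k * u : ℝ) : UnitAddCircle) = _
    rw [← AddCircle.coe_nsmul]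
    congr 1
    rw [nsmul_eq_mul]
    ring

theorem lamae_int (α : ℂ) : ∫ x : UnitAddCircle, lamae_phi α x = lam α := by
  have := UnitAddCircle.intervalIntegral_preimage 0 (lamae_phi α)
  rw [← this, zero_add]
  unfold lam
  refine intervalIntegral.integral_congr ?_
  intro u _
  exact lamae_phi_coe α u

/-- transfer from the circle to the line -/
theorem lamae_transfer (p : UnitAddCircle → Prop) (h : ∀ᵐ x : UnitAddCircle, p x) :
    ∀ᵐ u : ℝ, p (u : UnitAddCircle) := by
  have h1 : ∀ n : ℤ, ∀ᵐ u : ℝ ∂(volume.restrict (Set.Ioc (n : ℝ) (n + 1))), p (u : UnitAddCircle) := by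
    intro n
    have hm := UnitAddCircle.measurePreserving_mk (n : ℝ)
    exact hm.quasiMeasurePreserving.ae h
  have h2 : (⋃ n : ℤ, Set.Ioc (n : ℝ) (n + 1)) = Set.univ := iUnion_Ioc_intCast ℝ
  have h3 : ∀ᵐ u : ℝ ∂(volume.restrict (⋃ n : ℤ, Set.Ioc (n : ℝ) (n + 1))), p (u : UnitAddCircle) := by
    rw [ae_restrict_iUnion_iff]
    exact h1
  rw [h2, Measure.restrict_univ] at h3
  exact h3

theorem t_lamae : S_lamae := by
  intro α L hL hα hlam
  have herg : Ergodic (fun y : UnitAddCircle => L • y) := AddCircle.ergodic_nsmul (by omega)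
  have : IsProbabilityMeasure (volume : Measure UnitAddCircle) := ⟨UnitAddCircle.measure_univ⟩
  have hbk := Pool.Agent.H165R3.birkhoff herg (lamae_phi α) (lamae_phi_cont α hα).measurable
    ⟨|Real.log (1 - ‖α‖)| + |Real.log (1 + ‖α‖)|, by
      intro x
      induction x using QuotientAddGroup.induction_on with
      | H u =>
        have := lamae_bdd α hα u
        rw [← lamae_phi_coe] at this
        exact this⟩
  have hae := lamae_transfer _ hbk
  filter_upwards [hae] with u hu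
  rw [lamae_int] at hu
  have hsum : ∀ k : ℕ, ∑ j ∈ Finset.range k, lamae_phi α ((fun y : UnitAddCircle => L • y)^[j] (u : UnitAddCircle))
      = ∑ j ∈ Finset.range k, lamae_g α ((L : ℝ) ^ j * u) := by
    intro k
    refine Finset.sum_congr rfl fun j _ => ?_
    rw [lamae_iter, lamae_phi_coe]
  simp only [hsum] at hu
  have hlt : lam α < lam α / 2 := by linarith
  have hev := (tendsto_order.1 hu).2 _ hlt
  obtain ⟨k₀, hk₀⟩ := eventually_atTop.1 hev
  set S : ℕ → ℝ := fun k => ∑ j ∈ Finset.range k, lamae_g α ((L : ℝ) ^ j * u) with hS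
  have hprod : ∀ k : ℕ, ∏ j ∈ Finset.range k,
      ‖1 + α * ((Real.cos (2 * Real.pi * ((L : ℝ) ^ j * u)) : ℝ) : ℂ)‖ = Real.exp (S k) := by
    intro k
    rw [hS]
    simp only
    rw [Real.exp_sum]
    refine Finset.prod_congr rfl fun j _ => ?_
    unfold lamae_g
    rw [Real.exp_log]
    have := lamae_low α ((L : ℝ) ^ j * u)
    linarith
  refine ⟨Real.exp (∑ k ∈ Finset.range (k₀ + 1), |S k - lam α / 2 * k|), Real.exp_pos _, ?_⟩
  intro k
  rw [hprod, ← Real.exp_add]
  apply Real.exp_le_exp.2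
  have hnn : 0 ≤ ∑ k ∈ Finset.range (k₀ + 1), |S k - lam α / 2 * k| :=
    Finset.sum_nonneg fun _ _ => abs_nonneg _
  rcases le_or_gt k k₀ with hk | hk
  · have h1 : |S k - lam α / 2 * k| ≤ ∑ k ∈ Finset.range (k₀ + 1), |S k - lam α / 2 * k| :=
      Finset.single_le_sum (f := fun k : ℕ => |S k - lam α / 2 * k|) (fun _ _ => abs_nonneg _)
        (Finset.mem_range.2 (by omega))
    have h2 := le_abs_self (S k - lam α / 2 * k)
    linarith
  · have h1 := hk₀ k hk.le
    have hkpos : (0:ℝ) < k := by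
      have : 0 < k := by omega
      exact_mod_cast this
    have h2 : S k ≤ lam α / 2 * k := by
      have h3 : (k : ℝ)⁻¹ * S k < lam α / 2 := h1
      rw [inv_mul_lt_iff₀ hkpos] at h3
      linarith
    linarith

end

end Pool.Agent.H429K
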