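import Pool.Agent.H429K.Stmts

open MeasureTheory Filter Topology

namespace Pool.Agent.H429K

noncomputable section

/-- the multiplier at level `j` -/
private def cc (α : ℂ) (L : ℕ) (u : ℝ) (j : ℕ) : ℂ :=
  α * ((Real.cos (2 * Real.pi * ((L : ℝ) ^ j * u)) : ℝ) : ℂ)

private theorem cc_norm (α : ℂ) (L : ℕ) (u : ℝ) (j : ℕ) : ‖cc α L u j‖ ≤ ‖α‖ := by
  unfold cc
  rw [norm_mul, Complex.norm_real, Real.norm_eq_abs]
  have h1 := Real.abs_cos_le_one (2 * Real.pi * ((L : ℝ) ^ j * u))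
  have h2 := norm_nonneg α
  nlinarith

private theorem G_succ_cc (α : ℂ) (L : ℕ) (w : ℂ) (u : ℝ) (k : ℕ) :
    G α L w (k + 1) (u : ℂ) = step (cc α L u k) (G α L w k (u : ℂ)) := by
  show step (α * Complex.cos (2 * (Real.pi : ℂ) * (L : ℂ) ^ k * (u : ℂ))) (G α L w k (u : ℂ)) = _
  congr 1
  unfold cc
  congr 1
  push_cast
  congr 1
  ring

private theorem step_norm {c z : ℂ} {r : ℝ} (hr : r < 1) (hc : ‖c‖ ≤ r) :
    ‖step c z‖ ≤ ‖z‖ * ‖1 + c‖ * Real.exp (‖z‖ / (1 - r)) := by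
  have h1r : 0 < 1 - r := by linarith
  have h0 : 1 - r ≤ ‖1 + c‖ := by
    have h1 : ‖(1 : ℂ)‖ ≤ ‖1 + c‖ + ‖c‖ := by
      have := norm_sub_le (1 + c) c
      simpa using this
    rw [norm_one] at h1
    linarith
  have hz := norm_nonneg z
  have h1 : step c z = z * ((1 + c) - c * z) := by
    unfold step; ring
  rw [h1, norm_mul, mul_assoc]
  apply mul_le_mul_of_nonneg_left _ hz
  have h2 : ‖(1 + c) - c * z‖ ≤ ‖1 + c‖ + ‖z‖ := by
    refine (norm_sub_le _ _).trans ?_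
    rw [norm_mul]
    have : ‖c‖ * ‖z‖ ≤ 1 * ‖z‖ := mul_le_mul_of_nonneg_right (by linarith) hz
    linarith
  have h3 : ‖z‖ ≤ ‖1 + c‖ * (‖z‖ / (1 - r)) := by
    have h4 : (1 - r) * (‖z‖ / (1 - r)) ≤ ‖1 + c‖ * (‖z‖ / (1 - r)) :=
      mul_le_mul_of_nonneg_right h0 (div_nonneg hz h1r.le)
    have h5 : (1 - r) * (‖z‖ / (1 - r)) = ‖z‖ := by field_simp
    linarith
  have h6 : ‖z‖ / (1 - r) + 1 ≤ Real.exp (‖z‖ / (1 - r)) := Real.add_one_le_exp _
  have h7 : ‖1 + c‖ * (‖z‖ / (1 - r) + 1) ≤ ‖1 + c‖ * Real.exp (‖z‖ / (1 - r)) :=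
    mul_le_mul_of_nonneg_left h6 (norm_nonneg _)
  calc ‖(1 + c) - c * z‖ ≤ ‖1 + c‖ + ‖z‖ := h2
    _ ≤ ‖1 + c‖ * (‖z‖ / (1 - r) + 1) := by rw [mul_add]; linarith
    _ ≤ _ := h7

/-- good base points with constant `C` -/
private def UU (α : ℂ) (L : ℕ) (κ : ℝ) (C : ℝ) : Set ℝ :=
  {u | ∀ k : ℕ, ∏ j ∈ Finset.range k, ‖1 + cc α L u j‖ ≤ C * Real.exp (-(κ * k))}

private theorem lamm_det {α : ℂ} {L : ℕ} {κ C δ : ℝ} (hα : ‖α‖ < 1) (hκ : 0 < κ) (hC : 0 < C)
    (hδ : 0 < δ) (h1 : 2 * C * δ ≤ 1)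
    (h2 : 2 * C * δ / ((1 - ‖α‖) * (1 - Real.exp (-κ))) ≤ Real.log 2) {u : ℝ}
    (hu : u ∈ UU α L κ C) : u ∈ Lam0 α L κ δ := by
  intro w hw
  have h1r : 0 < 1 - ‖α‖ := by linarith
  have hr1 : Real.exp (-κ) < 1 := by
    rw [Real.exp_lt_one_iff]; linarith
  have hr0 : 0 < Real.exp (-κ) := Real.exp_pos _
  have hexp : ∀ k : ℕ, Real.exp (-(κ * k)) = Real.exp (-κ) ^ k := by
    intro k
    rw [← Real.exp_nat_mul]
    congr 1; ring
  have P1 : ∀ k : ℕ, ‖G α L w k (u : ℂ)‖ ≤ δ * (∏ j ∈ Finset.range k, ‖1 + cc α L u j‖) *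
      Real.exp (∑ j ∈ Finset.range k, ‖G α L w j (u : ℂ)‖ / (1 - ‖α‖)) := by
    intro k
    induction k with
    | zero => simpa [G] using hw
    | succ k ih =>
      rw [G_succ_cc, Finset.prod_range_succ, Finset.sum_range_succ, Real.exp_add]
      refine (step_norm hα (cc_norm α L u k)).trans ?_
      have h3 : ‖G α L w k (u : ℂ)‖ * (‖1 + cc α L u k‖ *
          Real.exp (‖G α L w k (u : ℂ)‖ / (1 - ‖α‖))) ≤
          (δ * (∏ j ∈ Finset.range k, ‖1 + cc α L u j‖) *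
            Real.exp (∑ j ∈ Finset.range k, ‖G α L w j (u : ℂ)‖ / (1 - ‖α‖))) *
          (‖1 + cc α L u k‖ * Real.exp (‖G α L w k (u : ℂ)‖ / (1 - ‖α‖))) :=
        mul_le_mul_of_nonneg_right ih (by positivity)
      calc _ = ‖G α L w k (u : ℂ)‖ * (‖1 + cc α L u k‖ *
          Real.exp (‖G α L w k (u : ℂ)‖ / (1 - ‖α‖))) := by ring
        _ ≤ _ := h3
        _ = _ := by ring
  have P2 : ∀ k : ℕ, ‖G α L w k (u : ℂ)‖ ≤ 2 * C * δ * Real.exp (-κ) ^ k := by
    intro k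
    induction k using Nat.strong_induction_on with
    | _ k ih =>
      have hsum : ∑ j ∈ Finset.range k, ‖G α L w j (u : ℂ)‖ / (1 - ‖α‖) ≤ Real.log 2 := by
        have hgeo : ∑ j ∈ Finset.range k, Real.exp (-κ) ^ j ≤ (1 - Real.exp (-κ))⁻¹ := by
          rw [← tsum_geometric_of_lt_one hr0.le hr1]
          exact (summable_geometric_of_lt_one hr0.le hr1).sum_le_tsum _
            (fun j _ => by positivity)
        calc ∑ j ∈ Finset.range k, ‖G α L w j (u : ℂ)‖ / (1 - ‖α‖)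
            ≤ ∑ j ∈ Finset.range k, (2 * C * δ / (1 - ‖α‖)) * Real.exp (-κ) ^ j := by
              apply Finset.sum_le_sum
              intro j hj
              rw [div_mul_eq_mul_div]
              exact div_le_div_of_nonneg_right (ih j (Finset.mem_range.1 hj)) h1r.le
          _ = (2 * C * δ / (1 - ‖α‖)) * ∑ j ∈ Finset.range k, Real.exp (-κ) ^ j := by
              rw [Finset.mul_sum]
          _ ≤ (2 * C * δ / (1 - ‖α‖)) * (1 - Real.exp (-κ))⁻¹ :=
              mul_le_mul_of_nonneg_left hgeo (by positivity)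
          _ = 2 * C * δ / ((1 - ‖α‖) * (1 - Real.exp (-κ))) := by
              rw [← div_eq_mul_inv, div_div]
          _ ≤ Real.log 2 := h2
      have hexp2 : Real.exp (∑ j ∈ Finset.range k, ‖G α L w j (u : ℂ)‖ / (1 - ‖α‖)) ≤ 2 := by
        calc _ ≤ Real.exp (Real.log 2) := Real.exp_le_exp.2 hsum
          _ = 2 := Real.exp_log (by norm_num)
      have h3 := hu k
      rw [hexp] at h3
      calc ‖G α L w k (u : ℂ)‖ ≤ _ := P1 k
        _ ≤ δ * (C * Real.exp (-κ) ^ k) * 2 := by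
            apply mul_le_mul (mul_le_mul_of_nonneg_left h3 hδ.le) hexp2 (Real.exp_pos _).le
            positivity
        _ = 2 * C * δ * Real.exp (-κ) ^ k := by ring
  intro k
  rw [hexp]
  calc ‖G α L w k (u : ℂ)‖ ≤ 2 * C * δ * Real.exp (-κ) ^ k := P2 k
    _ ≤ 1 * Real.exp (-κ) ^ k := mul_le_mul_of_nonneg_right h1 (by positivity)
    _ = _ := one_mul _

private theorem cc_cont (α : ℂ) (L : ℕ) (j : ℕ) : Continuous fun u : ℝ => ‖1 + cc α L u j‖ := by
  unfold cc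
  fun_prop

private theorem UU_closed (α : ℂ) (L : ℕ) (κ C : ℝ) : IsClosed (UU α L κ C) := by
  have h : UU α L κ C = ⋂ k : ℕ, {u : ℝ | ∏ j ∈ Finset.range k, ‖1 + cc α L u j‖ ≤
      C * Real.exp (-(κ * k))} := by
    ext u
    simp [UU]
  rw [h]
  refine isClosed_iInter fun k => isClosed_le ?_ continuous_const
  exact continuous_finsetProd _ (fun j _ => cc_cont α L j)

private theorem cc_add (α : ℂ) (L : ℕ) (u : ℝ) (m : ℤ) (j : ℕ) :
    cc α L (u + m) j = cc α L u j := by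
  have h : 2 * Real.pi * ((L : ℝ) ^ j * (u + m)) =
      2 * Real.pi * ((L : ℝ) ^ j * u) + (((L : ℤ) ^ j * m : ℤ) : ℝ) * (2 * Real.pi) := by
    push_cast
    ring
  unfold cc
  rw [h, Real.cos_add_int_mul_two_pi]

private theorem UU_add {α : ℂ} {L : ℕ} {κ C : ℝ} (u : ℝ) (m : ℤ) :
    u + m ∈ UU α L κ C ↔ u ∈ UU α L κ C := by
  simp only [UU, Set.mem_ofPred_eq, cc_add]

private theorem UU_vol (α : ℂ) (L : ℕ) (κ C : ℝ) (n : ℤ) :
    volume (Set.Icc (n : ℝ) (n + 1) \ UU α L κ C) = volume (Set.Icc (0 : ℝ) 1 \ UU α L κ C) := by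
  rw [← measure_preimage_add_right volume (n : ℝ) (Set.Icc (n : ℝ) (n + 1) \ UU α L κ C)]
  congr 1
  ext u
  simp only [Set.mem_preimage, Set.mem_sdiff, Set.mem_Icc, UU_add]
  constructor
  · rintro ⟨⟨h1, h2⟩, h3⟩
    exact ⟨⟨by linarith, by linarith⟩, h3⟩
  · rintro ⟨⟨h1, h2⟩, h3⟩
    exact ⟨⟨by linarith, by linarith⟩, h3⟩

private theorem UU_vol_le (α : ℂ) (L : ℕ) (κ C : ℝ) (a : ℝ) :
    volume (Set.Icc a (a + 1) \ UU α L κ C) ≤
      volume (Set.Icc (0 : ℝ) 1 \ UU α L κ C) + volume (Set.Icc (0 : ℝ) 1 \ UU α L κ C) := by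
  have h1 := Int.floor_le a
  have h2 := Int.lt_floor_add_one a
  have hsub : Set.Icc a (a + 1) \ UU α L κ C ⊆
      (Set.Icc ((⌊a⌋ : ℤ) : ℝ) (⌊a⌋ + 1) \ UU α L κ C) ∪
        (Set.Icc ((⌊a⌋ + 1 : ℤ) : ℝ) ((⌊a⌋ + 1 : ℤ) + 1) \ UU α L κ C) := by
    rintro u ⟨⟨hu1, hu2⟩, hu3⟩
    by_cases h : u ≤ ⌊a⌋ + 1
    · exact Or.inl ⟨⟨by linarith, h⟩, hu3⟩
    · push Not at h
      refine Or.inr ⟨⟨by push_cast; linarith, by push_cast; linarith⟩, hu3⟩
  refine (measure_mono hsub).trans ((measure_union_le _ _).trans ?_)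
  rw [UU_vol, UU_vol]

theorem t_lam (hae : S_lamae) (_hper : S_per) (_hent : S_entire) : S_lam := by
  intro α L hL hα hlam
  set κ : ℝ := -(lam α) / 2 with hκdef
  have hκ : 0 < κ := by rw [hκdef]; linarith
  refine ⟨κ, hκ, ?_⟩
  intro ε hε
  have h1r : 0 < 1 - ‖α‖ := by linarith
  have hr1 : Real.exp (-κ) < 1 := by
    rw [Real.exp_lt_one_iff]; linarith
  -- the bad sets shrink to a null set
  let S : ℕ → Set ℝ := fun C => Set.Icc (0 : ℝ) 1 \ UU α L κ C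
  have hanti : Antitone S := by
    intro C C' hCC' u hu
    refine ⟨hu.1, fun h => hu.2 (fun k => (h k).trans ?_)⟩
    have : (C : ℝ) ≤ C' := by exact_mod_cast hCC'
    exact mul_le_mul_of_nonneg_right this (Real.exp_pos _).le
  have hmeas : ∀ C, NullMeasurableSet (S C) volume := fun C =>
    (measurableSet_Icc.diff (UU_closed α L κ C).measurableSet).nullMeasurableSet
  have hfin : ∃ C, volume (S C) ≠ ⊤ := by
    refine ⟨0, ?_⟩
    have h1 : volume (S 0) ≤ volume (Set.Icc (0 : ℝ) 1) := measure_mono Set.sdiff_subset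
    rw [Real.volume_Icc] at h1
    exact (lt_of_le_of_lt h1 ENNReal.ofReal_lt_top).ne
  have hinter : volume (⋂ C, S C) = 0 := by
    have h := hae α L hL hα hlam
    rw [ae_iff] at h
    refine measure_mono_null ?_ h
    intro u hu
    simp only [Set.mem_ofPred_eq]
    rintro ⟨C, hC, hk⟩
    obtain ⟨n, hn⟩ := exists_nat_ge C
    have h1 := Set.mem_iInter.1 hu n
    refine h1.2 (fun k => (hk k).trans ?_)
    have h2 : Real.exp (lam α / 2 * k) = Real.exp (-(κ * k)) := by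
      congr 1
      rw [hκdef]; ring
    rw [h2]
    exact mul_le_mul_of_nonneg_right hn (Real.exp_pos _).le
  have htend := tendsto_measure_iInter_atTop hmeas hanti hfin
  rw [hinter] at htend
  have hpos : (0 : ENNReal) < ENNReal.ofReal (ε / 2) := by
    rw [ENNReal.ofReal_pos]; linarith
  obtain ⟨N, hN⟩ := (htend.eventually (gt_mem_nhds hpos)).exists_forall_of_atTop
  have hSN : volume (S (N + 1)) ≤ ENNReal.ofReal (ε / 2) := (hN (N + 1) (Nat.le_succ N)).le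
  set C : ℝ := ((N + 1 : ℕ) : ℝ) with hCdef
  have hC : 0 < C := by rw [hCdef]; positivity
  have hlog2 : 0 < Real.log 2 := Real.log_pos (by norm_num)
  have hden : 0 < (1 - ‖α‖) * (1 - Real.exp (-κ)) := mul_pos h1r (by linarith)
  set δ : ℝ := min (1 / (2 * C)) (Real.log 2 * ((1 - ‖α‖) * (1 - Real.exp (-κ))) / (2 * C)) with hδ
  have hδ0 : 0 < δ := by
    rw [hδ]
    exact lt_min (by positivity) (by positivity)
  refine ⟨δ, hδ0, ?_⟩
  intro a
  have hd1 : 2 * C * δ ≤ 1 := by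
    have h1 : δ ≤ 1 / (2 * C) := min_le_left _ _
    rw [le_div_iff₀ (by positivity)] at h1
    linarith
  have hd2 : 2 * C * δ / ((1 - ‖α‖) * (1 - Real.exp (-κ))) ≤ Real.log 2 := by
    have h1 : δ ≤ Real.log 2 * ((1 - ‖α‖) * (1 - Real.exp (-κ))) / (2 * C) := min_le_right _ _
    rw [le_div_iff₀ (by positivity)] at h1
    rw [div_le_iff₀ hden]
    linarith
  have hsub : Set.Icc a (a + 1) \ Lam0 α L κ δ ⊆ Set.Icc a (a + 1) \ UU α L κ C := by
    rintro u ⟨hu1, hu2⟩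
    exact ⟨hu1, fun h => hu2 (lamm_det hα hκ hC hδ0 hd1 hd2 h)⟩
  refine (measure_mono hsub).trans ((UU_vol_le α L κ C a).trans ?_)
  calc volume (Set.Icc (0 : ℝ) 1 \ UU α L κ C) + volume (Set.Icc (0 : ℝ) 1 \ UU α L κ C)
      ≤ ENNReal.ofReal (ε / 2) + ENNReal.ofReal (ε / 2) := add_le_add hSN hSN
    _ = ENNReal.ofReal ε := by
        rw [← ENNReal.ofReal_add (by linarith) (by linarith)]
        congr 1
        ring

private theorem lam_neg (α : ℂ) : lam (-α) = lam α := by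
  unfold lam
  set f : ℝ → ℝ := fun u => Real.log ‖1 + α * ((Real.cos (2 * Real.pi * u) : ℝ) : ℂ)‖ with hf
  have h1 : ∀ u : ℝ, Real.log ‖1 + -α * ((Real.cos (2 * Real.pi * u) : ℝ) : ℂ)‖ =
      f (u + 1 / 2) := by
    intro u
    simp only [hf]
    have h2 : 2 * Real.pi * (u + 1 / 2) = 2 * Real.pi * u + Real.pi := by ring
    rw [h2, Real.cos_add_pi]
    push_cast
    congr 2
    ring
  have hper : Function.Periodic f 1 := by
    intro u
    simp only [hf]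
    have h2 : 2 * Real.pi * (u + 1) = 2 * Real.pi * u + 2 * Real.pi := by ring
    rw [h2, Real.cos_add_two_pi]
  simp only [h1]
  rw [intervalIntegral.integral_comp_add_right]
  have h3 := hper.intervalIntegral_add_eq (0 + 1 / 2) 0
  rw [show (1 : ℝ) + 1 / 2 = 0 + 1 / 2 + 1 by ring, h3]
  norm_num

private theorem Lam1_eq (hsym : S_sym) (α : ℂ) (L : ℕ) (κ δ : ℝ) :
    Lam1 α L κ δ = Lam0 (-α) L κ δ := by
  ext u
  constructor
  · intro h w hw k
    have h1 := h (1 - w) (by simpa using hw) k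
    have h2 := hsym α L (1 - w) k (u : ℂ)
    rw [sub_sub_cancel] at h2
    rw [← h2, norm_sub_rev]
    exact h1
  · intro h w hw k
    have h1 := h (1 - w) (by rw [norm_sub_rev]; exact hw) k
    rw [← hsym α L w k (u : ℂ), norm_sub_rev] at h1
    exact h1

theorem t_lam1 (h : S_lam) (hsym : S_sym) : S_lam1 := by
  intro α L hL hα hlam
  obtain ⟨κ, hκ, h1⟩ := h (-α) L hL (by rwa [norm_neg]) (by rwa [lam_neg])
  refine ⟨κ, hκ, fun ε hε => ?_⟩
  obtain ⟨δ, hδ, h2⟩ := h1 ε hε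
  refine ⟨δ, hδ, fun a => ?_⟩
  rw [Lam1_eq hsym]
  exact h2 a

end

end Pool.Agent.H429K
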