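import Pool.Agent.H429K.Stmts

open MeasureTheory Filter Topology

namespace Pool.Agent.H429K

noncomputable section

private theorem mainm_tend (c : ℝ) : Tendsto (fun i : ℕ => ENNReal.ofReal (c * (1 / ((i : ℝ) + 1)))) atTop (𝓝 0) := by
  have h1 : Tendsto (fun i : ℕ => c * (1 / ((i : ℝ) + 1))) atTop (𝓝 (c * 0)) :=
    (tendsto_one_div_add_atTop_nhds_zero_nat (𝕜 := ℝ)).const_mul c
  have h2 := (ENNReal.continuous_ofReal.tendsto (c * 0)).comp h1
  rw [mul_zero, ENNReal.ofReal_zero] at h2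
  exact h2

private theorem mainm_inv0 (hper : S_per) (α : ℂ) (L : ℕ) (κ δ u : ℝ) (hu : u ∈ Lam0 α L κ δ) (m : ℤ) :
    u + m ∈ Lam0 α L κ δ := by
  intro w hw k
  have h := hper α L w k (u : ℂ) m
  have h2 : ((u + m : ℝ) : ℂ) = (u : ℂ) + (m : ℂ) := by push_cast; rfl
  rw [h2, h]
  exact hu w hw k

private theorem mainm_inv1 (hper : S_per) (α : ℂ) (L : ℕ) (κ δ u : ℝ) (hu : u ∈ Lam1 α L κ δ) (m : ℤ) :
    u + m ∈ Lam1 α L κ δ := by
  intro w hw k
  have h := hper α L w k (u : ℂ) m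
  have h2 : ((u + m : ℝ) : ℂ) = (u : ℂ) + (m : ℂ) := by push_cast; rfl
  rw [h2, h]
  exact hu w hw k

private theorem mainm_inve (hper : S_per) (α : ℂ) (L : ℕ) (R u : ℝ) (hu : u ∈ Esc α L R) (m : ℤ) :
    u + m ∈ Esc α L R := by
  intro w hw k
  have h := hper α L w k (u : ℂ) m
  have h2 : ((u + m : ℝ) : ℂ) = (u : ℂ) + (m : ℂ) := by push_cast; rfl
  rw [h2, h]
  exact hu w hw k

theorem t_main (hper : S_per) (hesc : S_esc) (hl : S_lam) (hl1 : S_lam1) (hcore : S_core) (hrec : S_recur)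
    (h1 : S_sub1) (h2 : S_sub2) : S_main := by
  intro α L hL hα0 hα1 hlam
  obtain ⟨Q, hQc, hQd⟩ := TopologicalSpace.exists_countable_dense ℂ
  have hconv : ∀ᵐ u : ℝ, ∀ q ∈ Q, Conv α L q u :=
    (ae_ball_iff hQc).mpr (fun q _ => hcore α L hL hα0 hα1 hlam q)
  obtain ⟨κ₀, hκ₀, hk0⟩ := hl α L (by omega) hα1 hlam
  obtain ⟨κ₁, hκ₁, hk1⟩ := hl1 α L (by omega) hα1 hlam
  have hpos : ∀ i : ℕ, (0 : ℝ) < 1 / ((i : ℝ) + 1) := fun i => by positivity
  choose δ₀ hδ₀ hv0 using fun i : ℕ => hk0 (1 / ((i : ℝ) + 1)) (hpos i)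
  choose δ₁ hδ₁ hv1 using fun i : ℕ => hk1 (1 / ((i : ℝ) + 1)) (hpos i)
  have hr0 := hrec L (by omega) (fun i => Lam0 α L κ₀ (δ₀ i))
    (fun i u hu m => mainm_inv0 hper α L κ₀ (δ₀ i) u hu m)
    (by
      refine tendsto_of_tendsto_of_tendsto_of_le_of_le tendsto_const_nhds (mainm_tend 1)
        (fun i => bot_le) (fun i => ?_)
      have := hv0 i 0
      rw [zero_add] at this
      simpa only [one_mul] using this)
  have hr1 := hrec L (by omega) (fun i => Lam1 α L κ₁ (δ₁ i))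
    (fun i u hu m => mainm_inv1 hper α L κ₁ (δ₁ i) u hu m)
    (by
      refine tendsto_of_tendsto_of_tendsto_of_le_of_le tendsto_const_nhds (mainm_tend 1)
        (fun i => bot_le) (fun i => ?_)
      have := hv1 i 0
      rw [zero_add] at this
      simpa only [one_mul] using this)
  have hre := hrec L (by omega) (fun i => Esc α L ((i : ℝ) + 1))
    (fun i u hu m => mainm_inve hper α L _ u hu m)
    (by
      refine tendsto_of_tendsto_of_tendsto_of_le_of_le tendsto_const_nhds (mainm_tend (24 / ‖α‖))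
        (fun i => bot_le) (fun i => ?_)
      have := hesc α L (by omega) hα0 hα1.le ((i : ℝ) + 1) (by positivity) 0 1 zero_le_one
      rw [zero_add] at this
      refine this.trans (le_of_eq ?_)
      congr 1
      field_simp
      norm_num)
  filter_upwards [hconv, hr0, hr1, hre] with u hu ⟨i0, hi0⟩ ⟨i1, hi1⟩ ⟨ie, hie⟩
  apply Set.Subset.antisymm
  · exact h1 α L u Q hQd hu
  · exact h2 α L u κ₀ κ₁ (δ₀ i0) (δ₁ i1) ((ie : ℝ) + 1) hκ₀ hκ₁ (hδ₀ i0) (hδ₁ i1) (by positivity) hi0 hi1 hie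

end

end Pool.Agent.H429K
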