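import Pool.Agent.H429K.Stmts

open MeasureTheory Filter Topology

namespace Pool.Agent.H429K

noncomputable section

/-- if the base point escapes from a large value then it is not in `P` -/
theorem rec_notP (α : ℂ) (L : ℕ) (ha : S_add) (z : ℂ) (P : Set ℝ) (hP : NonEsc α L z P)
    (R : ℝ) (hR : 1 ≤ R) (m : ℕ) (u : ℝ) (hbig : R ≤ ‖G α L z m (u : ℂ)‖)
    (hesc : (L : ℝ) ^ m * u ∈ Esc α L R) : u ∉ P := by
  intro hu
  apply hP u hu
  have h1 : ∀ k : ℕ, (4:ℝ) ^ k * ‖G α L z m (u : ℂ)‖ ≤ ‖G α L z (m + k) (u : ℂ)‖ := by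
    intro k
    rw [ha α L z m k (u : ℂ)]
    have := hesc (G α L z m (u : ℂ)) hbig k
    rw [Complex.ofReal_mul, Complex.ofReal_pow, Complex.ofReal_natCast] at this
    exact this
  have h2 : Tendsto (fun k : ℕ => (4:ℝ) ^ k * ‖G α L z m (u : ℂ)‖) atTop atTop := by
    refine Tendsto.atTop_mul_const (by linarith) ?_
    exact tendsto_pow_atTop_atTop_of_one_lt (by norm_num)
  have h3 : Tendsto (fun k : ℕ => ‖G α L z (m + k) (u : ℂ)‖) atTop atTop :=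
    tendsto_atTop_mono h1 h2
  have h4 : Tendsto (fun k : ℕ => ‖G α L z (k + m) (u : ℂ)‖) atTop atTop := by
    simpa [add_comm] using h3
  exact (tendsto_add_atTop_iff_nat m).1 h4

/-- the translated bad set for escape -/
theorem rec_escset (α : ℂ) (L : ℕ) (hs : S_esc) (hL : 1 ≤ L) (h0 : 0 < ‖α‖) (h1 : ‖α‖ ≤ 1)
    (R : ℝ) (hR : 0 < R) (a ρ : ℝ) (hρ : 0 ≤ ρ) :
    volume {x : ℝ | |x| ≤ ρ ∧ a + x ∉ Esc α L R} ≤
      ENNReal.ofReal (12 * (2 * ρ + 1) / (‖α‖ * R)) := by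
  have h2 := hs α L hL h0 h1 R hR (a - ρ) (2 * ρ) (by linarith)
  have h3 : {x : ℝ | |x| ≤ ρ ∧ a + x ∉ Esc α L R} =
      (fun x => a + x) ⁻¹' (Set.Icc (a - ρ) (a - ρ + 2 * ρ) \ Esc α L R) := by
    ext x
    simp only [Set.mem_ofPred_eq, Set.mem_preimage, Set.mem_sdiff, Set.mem_Icc]
    rw [abs_le]
    constructor
    · rintro ⟨⟨h, h'⟩, h''⟩
      exact ⟨⟨by linarith, by linarith⟩, h''⟩
    · rintro ⟨⟨h, h'⟩, h''⟩
      exact ⟨⟨by linarith, by linarith⟩, h''⟩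
  rw [h3, measure_preimage_add]
  exact h2

/-- the bound at the next scale on the large disc -/
theorem rec_growth (α : ℂ) (L : ℕ) (hg : S_growth) (hL : 6 ≤ L) (h1 : ‖α‖ ≤ 1) (z : ℂ) (n : ℕ)
    (v ℓ : ℝ) (hB : Bd α L z n v ℓ) (ζ : ℂ) (hζ : ‖ζ‖ ≤ 2 * (L : ℝ) ^ 5) :
    ‖G α L z (n + 5) ((v : ℂ) + ζ / (L : ℂ) ^ (n + 5))‖ ≤
      Real.exp (32 * ℓ + 2 * Real.pi / ((L : ℝ) - 2) * |ζ.im|) := by
  have hLr : (6:ℝ) ≤ (L : ℝ) := by exact_mod_cast hL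
  have hL0 : (L : ℂ) ≠ 0 := by
    have : L ≠ 0 := by omega
    exact_mod_cast this
  have hL5 : (0:ℝ) < (L : ℝ) ^ 5 := by positivity
  have hw : (v : ℂ) + ζ / (L : ℂ) ^ (n + 5) = (v : ℂ) + (ζ / (L : ℂ) ^ 5) / (L : ℂ) ^ n := by
    rw [pow_add, div_div, mul_comm ((L : ℂ) ^ 5)]
  have hn : ‖ζ / (L : ℂ) ^ 5‖ ≤ 2 := by
    rw [norm_div, norm_pow, Complex.norm_natCast, div_le_iff₀ hL5]
    exact hζ
  have h2 := hB (ζ / (L : ℂ) ^ 5) hn
  rw [← hw] at h2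
  have h3 := hg α L z n 5 ((v : ℂ) + ζ / (L : ℂ) ^ (n + 5)) (by omega) h1
  have him : ((v : ℂ) + ζ / (L : ℂ) ^ (n + 5)).im = ζ.im / (L : ℝ) ^ (n + 5) := by
    have hc : ((L : ℂ) ^ (n + 5)) = (((L : ℝ) ^ (n + 5) : ℝ) : ℂ) := by push_cast; rfl
    rw [hc, Complex.add_im, Complex.ofReal_im, Complex.div_ofReal_im, zero_add]
  have hLn : (0:ℝ) < (L : ℝ) ^ (n + 5) := by positivity
  rw [him, abs_div, abs_of_pos hLn] at h3
  have h4 : 2 * Real.pi / ((L : ℝ) - 2) * (L : ℝ) ^ (n + 5) * (|ζ.im| / (L : ℝ) ^ (n + 5)) =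
      2 * Real.pi / ((L : ℝ) - 2) * |ζ.im| := by
    field_simp
  rw [h4] at h3
  have h5 : (1 + ‖G α L z n ((v : ℂ) + ζ / (L : ℂ) ^ (n + 5))‖) ^ (2 ^ 5) ≤ Real.exp (32 * ℓ) := by
    calc (1 + ‖G α L z n ((v : ℂ) + ζ / (L : ℂ) ^ (n + 5))‖) ^ (2 ^ 5)
        ≤ (Real.exp ℓ) ^ (2 ^ 5) := by
          apply pow_le_pow_left₀ (by positivity) h2
      _ = Real.exp (32 * ℓ) := by
          rw [← Real.exp_nat_mul]
          norm_num
  rw [Real.exp_add]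
  have h6 : 1 + ‖G α L z (n + 5) ((v : ℂ) + ζ / (L : ℂ) ^ (n + 5))‖ ≤
      Real.exp (32 * ℓ) * Real.exp (2 * Real.pi / ((L : ℝ) - 2) * |ζ.im|) :=
    h3.trans (mul_le_mul_of_nonneg_right h5 (Real.exp_pos _).le)
  linarith

theorem t_rec (he : S_entire) (ha : S_add) (hg : S_growth) (hs : S_esc) (ht : S_TC) : S_rec := by
  intro α L hL h0 h1
  have hLr : (6:ℝ) ≤ (L : ℝ) := by exact_mod_cast hL
  set ρ : ℝ := 2 * (L : ℝ) ^ 5 with hρ
  set τ : ℝ := 2 * Real.pi / ((L : ℝ) - 2) with hτ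
  have hρ1 : 15552 ≤ ρ := by
    have : (6:ℝ) ^ 5 ≤ (L : ℝ) ^ 5 := pow_le_pow_left₀ (by norm_num) hLr 5
    norm_num at this
    rw [hρ]
    linarith
  have hτ0 : 0 ≤ τ := by
    rw [hτ]
    have := Real.pi_pos
    apply div_nonneg <;> linarith
  set δ : ℝ := 1 / 2560000 with hδ
  have hδ0 : 0 < δ := by rw [hδ]; norm_num
  set R : ℝ := max 1 (24 * (2 * ρ + 1) / (‖α‖ * δ)) with hR
  have hR1 : 1 ≤ R := le_max_left _ _
  have hR2 : 24 * (2 * ρ + 1) / (‖α‖ * δ) ≤ R := le_max_right _ _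
  have hR0 : 0 < R := by linarith
  clear_value R
  have hRδ : 12 * (2 * ρ + 1) / (‖α‖ * R) ≤ δ / 2 := by
    rw [div_le_iff₀ (by positivity)] at hR2 ⊢
    have h20 : δ / 2 * (‖α‖ * R) = R * (‖α‖ * δ) / 2 := by ring
    rw [h20]
    clear hR hδ
    clear_value δ
    linarith
  set b : ℝ := Real.log R with hb
  have hb0 : 0 ≤ b := Real.log_nonneg hR1
  refine ⟨δ / 2, b + 3 + 3 * τ, by positivity, by positivity, ?_⟩
  intro z P hP n v ℓ hℓ hvol hB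
  have hdiff : Differentiable ℂ (fun ζ : ℂ => G α L z (n + 5) ((v : ℂ) + ζ / (L : ℂ) ^ (n + 5))) := by
    have h2 := he α L z (n + 5)
    have h3 : Differentiable ℂ (fun ζ : ℂ => (v : ℂ) + ζ / (L : ℂ) ^ (n + 5)) := by fun_prop
    exact h2.comp h3
  have hbad : volume {x : ℝ | |x| ≤ ρ ∧ Real.exp b <
      ‖(fun ζ : ℂ => G α L z (n + 5) ((v : ℂ) + ζ / (L : ℂ) ^ (n + 5))) (x : ℂ)‖} ≤
      ENNReal.ofReal δ := by
    have hsub : {x : ℝ | |x| ≤ ρ ∧ Real.exp b <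
      ‖(fun ζ : ℂ => G α L z (n + 5) ((v : ℂ) + ζ / (L : ℂ) ^ (n + 5))) (x : ℂ)‖} ⊆
      {x : ℝ | |x| ≤ ρ ∧ v + x / (L : ℝ) ^ (n + 5) ∉ P} ∪
      {x : ℝ | |x| ≤ ρ ∧ (L : ℝ) ^ (n + 5) * v + x ∉ Esc α L R} := by
      rintro x ⟨hx1, hx2⟩
      by_cases hx3 : (L : ℝ) ^ (n + 5) * v + x ∈ Esc α L R
      · left
        refine ⟨hx1, ?_⟩
        refine rec_notP α L ha z P hP R hR1 (n + 5) (v + x / (L : ℝ) ^ (n + 5)) ?_ ?_
        · rw [hb, Real.exp_log hR0] at hx2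
          have h5 : ((v + x / (L : ℝ) ^ (n + 5) : ℝ) : ℂ) = (v : ℂ) + (x : ℂ) / (L : ℂ) ^ (n + 5) := by
            push_cast
            rfl
          rw [h5]
          exact hx2.le
        · have h6 : (L : ℝ) ^ (n + 5) * (v + x / (L : ℝ) ^ (n + 5)) = (L : ℝ) ^ (n + 5) * v + x := by
            have : (L : ℝ) ^ (n + 5) ≠ 0 := by positivity
            field_simp
          rw [h6]
          exact hx3
      · right
        exact ⟨hx1, hx3⟩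
    refine (measure_mono hsub).trans ((measure_union_le _ _).trans ?_)
    have h7 := rec_escset α L hs (by omega) h0 h1 R hR0 ((L : ℝ) ^ (n + 5) * v) ρ (by linarith)
    have h8 : ENNReal.ofReal (12 * (2 * ρ + 1) / (‖α‖ * R)) ≤ ENNReal.ofReal (δ / 2) :=
      ENNReal.ofReal_le_ofReal hRδ
    have h9 : ENNReal.ofReal δ = ENNReal.ofReal (δ / 2) + ENNReal.ofReal (δ / 2) := by
      rw [← ENNReal.ofReal_add (by positivity) (by positivity)]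
      congr 1
      ring
    rw [h9]
    exact add_le_add hvol (h7.trans h8)
  have hTC := ht (fun ζ : ℂ => G α L z (n + 5) ((v : ℂ) + ζ / (L : ℂ) ^ (n + 5))) hdiff ρ (32 * ℓ) b τ δ
    (1 / 2560) (by linarith) (by positivity) hb0 hτ0 hδ0.le (by norm_num) (by norm_num)
    (fun ζ hζ => rec_growth α L hg hL h1 z n v ℓ hB ζ hζ) hbad
  intro ζ hζ
  have h10 := hTC ζ hζ
  have hq : (32 * ℓ + 1) * (37 / ρ + 2 * δ / (1 / 2560) + 10 * (1 / 2560)) ≤ ℓ / 2 + 1 := by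
    have h11 : 37 / ρ ≤ 1 / 400 := by
      rw [div_le_div_iff₀ (by linarith) (by norm_num)]
      linarith
    have h12 : 37 / ρ + 2 * δ / (1 / 2560) + 10 * (1 / 2560) ≤ 1 / 64 := by
      rw [hδ]
      norm_num at h11 ⊢
      linarith
    calc (32 * ℓ + 1) * (37 / ρ + 2 * δ / (1 / 2560) + 10 * (1 / 2560))
        ≤ (32 * ℓ + 1) * (1 / 64) := mul_le_mul_of_nonneg_left h12 (by positivity)
      _ ≤ ℓ / 2 + 1 := by linarith
  have h13 : ‖G α L z (n + 5) ((v : ℂ) + ζ / (L : ℂ) ^ (n + 5))‖ ≤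
      Real.exp (b + 2 + 3 * τ + ℓ / 2) := by
    refine h10.trans (Real.exp_le_exp.2 ?_)
    linarith
  have h14 : (1:ℝ) ≤ Real.exp (b + 2 + 3 * τ + ℓ / 2) := Real.one_le_exp (by positivity)
  have h15 : Real.exp (b + 3 + 3 * τ + ℓ / 2) =
      Real.exp (b + 2 + 3 * τ + ℓ / 2) * Real.exp 1 := by
    rw [← Real.exp_add]
    congr 1
    ring
  have h16 : (2:ℝ) ≤ Real.exp 1 := by
    have := Real.add_one_le_exp (1:ℝ)
    linarith
  rw [h15]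
  nlinarith [Real.exp_pos (b + 2 + 3 * τ + ℓ / 2)]

end

end Pool.Agent.H429K
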