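import Pool.Agent.H429K.Stmts

open MeasureTheory Filter Topology

namespace Pool.Agent.H429K

noncomputable section

/-- a periodic set meets every unit interval in the same outer measure -/
private theorem recur_shift (S : Set ℝ) (hS : ∀ u ∈ S, ∀ m : ℤ, u + m ∈ S) (m : ℤ) :
    volume (Set.Ico (m : ℝ) (m + 1) ∩ S) ≤ volume (Set.Ico (0 : ℝ) 1 ∩ S) := by
  have h : (fun x : ℝ => x + (m : ℝ)) ⁻¹' (Set.Ico (m : ℝ) (m + 1) ∩ S) ⊆
      Set.Ico (0 : ℝ) 1 ∩ S := by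
    rintro x ⟨⟨h1, h2⟩, h3⟩
    refine ⟨⟨by linarith, by linarith⟩, ?_⟩
    have := hS _ h3 (-m)
    simpa using this
  have h2 := measure_mono (μ := volume) h
  rwa [measure_preimage_add_right] at h2

private theorem recur_scale (S : Set ℝ) (hS : ∀ u ∈ S, ∀ m : ℤ, u + m ∈ S) (K : ℕ) (hK : 1 ≤ K) :
    volume (Set.Ico (0 : ℝ) 1 ∩ {u | (K : ℝ) * u ∈ S}) ≤ volume (Set.Ico (0 : ℝ) 1 ∩ S) := by
  have hK0 : (0 : ℝ) < K := by exact_mod_cast hK
  have hsub : Set.Ico (0 : ℝ) 1 ∩ {u | (K : ℝ) * u ∈ S} ⊆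
      ⋃ m ∈ Finset.range K, (fun x : ℝ => (K : ℝ) * x) ⁻¹' (Set.Ico ((m : ℤ) : ℝ) ((m : ℤ) + 1) ∩ S) := by
    rintro u ⟨⟨h1, h2⟩, h3⟩
    have hnn : 0 ≤ (K : ℝ) * u := by positivity
    simp only [Set.mem_iUnion]
    refine ⟨⌊(K : ℝ) * u⌋₊, ?_, ?_, h3⟩
    · rw [Finset.mem_range, Nat.floor_lt hnn]
      nlinarith
    · constructor
      · simpa using Nat.floor_le hnn
      · simpa using Nat.lt_floor_add_one ((K : ℝ) * u)
  refine (measure_mono hsub).trans ((measure_biUnion_finset_le _ _).trans ?_)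
  calc ∑ m ∈ Finset.range K,
        volume ((fun x : ℝ => (K : ℝ) * x) ⁻¹' (Set.Ico ((m : ℤ) : ℝ) ((m : ℤ) + 1) ∩ S))
      ≤ ∑ _m ∈ Finset.range K, ENNReal.ofReal |(K : ℝ)⁻¹| * volume (Set.Ico (0 : ℝ) 1 ∩ S) := by
        refine Finset.sum_le_sum fun m _ => ?_
        rw [Real.volume_preimage_mul_left hK0.ne']
        exact mul_le_mul' le_rfl (recur_shift S hS m)
    _ = volume (Set.Ico (0 : ℝ) 1 ∩ S) := by
        rw [Finset.sum_const, Finset.card_range, nsmul_eq_mul, ← mul_assoc, abs_of_pos (inv_pos.2 hK0)]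
        have h : (K : ENNReal) * ENNReal.ofReal ((K : ℝ)⁻¹) = 1 := by
          rw [ENNReal.ofReal_inv_of_pos hK0, ENNReal.ofReal_natCast]
          exact ENNReal.mul_inv_cancel (by exact_mod_cast (by omega : K ≠ 0)) (ENNReal.natCast_ne_top K)
        rw [h, one_mul]

theorem t_recur : S_recur := by
  intro L hL A hA hlim
  -- the exceptional set
  set E : Set ℝ := {u | ∀ i, ¬ ∃ᶠ n in atTop, (L : ℝ) ^ n * u ∈ A i} with hE
  have hshift : ∀ u ∈ E, ∀ m : ℤ, u + m ∈ E := by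
    intro u hu m i hfr
    refine hu i ?_
    refine hfr.mono ?_
    intro n hn
    have := hA i _ hn (-((L : ℤ) ^ n * m))
    push_cast at this
    have e : (L : ℝ) ^ n * (u + m) + -((L : ℝ) ^ n * m) = (L : ℝ) ^ n * u := by ring
    rwa [e] at this
  have hcomp : ∀ i, ∀ u ∈ (A i)ᶜ, ∀ m : ℤ, u + m ∈ (A i)ᶜ := by
    intro i u hu m hm
    refine hu ?_
    have := hA i _ hm (-m)
    simpa using this
  have hbound : ∀ i, volume (Set.Ico (0 : ℝ) 1 ∩ E) ≤ volume (Set.Icc (0:ℝ) 1 \ A i) := by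
    intro i
    set B : ℕ → Set ℝ := fun N => {u | u ∈ Set.Ico (0 : ℝ) 1 ∧ ∀ n ≥ N, (L : ℝ) ^ n * u ∉ A i} with hB
    have hmono : Monotone B := by
      intro N M hNM u hu
      exact ⟨hu.1, fun n hn => hu.2 n (hNM.trans hn)⟩
    have hsub : Set.Ico (0 : ℝ) 1 ∩ E ⊆ ⋃ N, B N := by
      rintro u ⟨h1, h2⟩
      have h3 := h2 i
      rw [Filter.not_frequently, Filter.eventually_atTop] at h3
      obtain ⟨N, hN⟩ := h3
      exact Set.mem_iUnion.2 ⟨N, h1, hN⟩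
    refine (measure_mono hsub).trans ?_
    rw [hmono.measure_iUnion]
    refine iSup_le fun N => ?_
    have hs1 : B N ⊆ Set.Ico (0 : ℝ) 1 ∩ {u | ((L ^ N : ℕ) : ℝ) * u ∈ (A i)ᶜ} := by
      intro u hu
      refine ⟨hu.1, ?_⟩
      have := hu.2 N le_rfl
      simpa using this
    refine (measure_mono hs1).trans ((recur_scale _ (hcomp i) (L ^ N) (Nat.one_le_pow _ _ hL)).trans ?_)
    refine measure_mono ?_
    rintro u ⟨h1, h2⟩
    exact ⟨Set.Ico_subset_Icc_self h1, h2⟩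
  have hzero : volume (Set.Ico (0 : ℝ) 1 ∩ E) = 0 := by
    have := ge_of_tendsto' hlim hbound
    exact nonpos_iff_eq_zero.1 this
  have hE0 : volume E = 0 := by
    have hcov : E ⊆ ⋃ m : ℤ, Set.Ico (m : ℝ) (m + 1) ∩ E := by
      intro u hu
      exact Set.mem_iUnion.2 ⟨⌊u⌋, ⟨Int.floor_le u, Int.lt_floor_add_one u⟩, hu⟩
    refine measure_mono_null hcov (measure_iUnion_null fun m => ?_)
    have := recur_shift E hshift m
    rw [hzero] at this
    exact nonpos_iff_eq_zero.1 this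
  rw [ae_iff]
  refine measure_mono_null ?_ hE0
  intro u hu i hfr
  exact hu ⟨i, hfr⟩

end

end Pool.Agent.H429K
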