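import Pool.Agent.H429K.Stmts

open MeasureTheory Filter Topology

namespace Pool.Agent.H429K

noncomputable section

/-- the integral of the squared cosine over an interval -/
theorem small_cos (θ b r : ℝ) :
    ∫ x in b..(b + r), Real.cos (2 * Real.pi * (θ + x)) ^ 2 =
      r / 2 + (Real.sin (4 * Real.pi * (θ + (b + r))) - Real.sin (4 * Real.pi * (θ + b))) /
        (8 * Real.pi) := by
  have hpi := Real.pi_pos
  have h1 : ∀ x ∈ Set.uIcc b (b + r), HasDerivAt
      (fun x => x / 2 + Real.sin (4 * Real.pi * (θ + x)) / (8 * Real.pi))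
      (Real.cos (2 * Real.pi * (θ + x)) ^ 2) x := by
    intro x _
    have h2 : HasDerivAt (fun x : ℝ => 4 * Real.pi * (θ + x)) (4 * Real.pi) x := by
      have := ((hasDerivAt_id x).const_add θ).const_mul (4 * Real.pi)
      simpa using this
    have h3 : HasDerivAt (fun x => x / 2 + Real.sin (4 * Real.pi * (θ + x)) / (8 * Real.pi))
        (1 / 2 + Real.cos (4 * Real.pi * (θ + x)) * (4 * Real.pi) / (8 * Real.pi)) x :=
      ((hasDerivAt_id' x).div_const 2).add ((h2.sin).div_const (8 * Real.pi))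
    have h5 : Real.cos (2 * Real.pi * (θ + x)) ^ 2 =
        1 / 2 + Real.cos (4 * Real.pi * (θ + x)) * (4 * Real.pi) / (8 * Real.pi) := by
      rw [Real.cos_sq]
      have h4 : 2 * (2 * Real.pi * (θ + x)) = 4 * Real.pi * (θ + x) := by ring
      rw [h4]
      field_simp
      ring
    rw [h5]
    exact h3
  rw [intervalIntegral.integral_eq_sub_of_hasDerivAt h1]
  · ring
  · apply Continuous.intervalIntegrable
    fun_prop

/-- the integral of the squared cosine is bounded below by a constant which depends on the length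
only -/
theorem small_cos_lower (θ b r : ℝ) :
    r / 2 - |Real.sin (2 * Real.pi * r)| / (4 * Real.pi) ≤
      ∫ x in b..(b + r), Real.cos (2 * Real.pi * (θ + x)) ^ 2 := by
  have hpi := Real.pi_pos
  rw [small_cos]
  have h1 : Real.sin (4 * Real.pi * (θ + (b + r))) - Real.sin (4 * Real.pi * (θ + b)) =
      2 * Real.sin (2 * Real.pi * r) * Real.cos (4 * Real.pi * (θ + b) + 2 * Real.pi * r) := by
    rw [Real.sin_sub_sin]
    congr 2
    · congr 1
      ring
    · ring
  have h2 : |2 * Real.sin (2 * Real.pi * r) * Real.cos (4 * Real.pi * (θ + b) + 2 * Real.pi * r)|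
      ≤ 2 * |Real.sin (2 * Real.pi * r)| := by
    rw [abs_mul, abs_mul, abs_two]
    have := Real.abs_cos_le_one (4 * Real.pi * (θ + b) + 2 * Real.pi * r)
    have h3 := abs_nonneg (Real.sin (2 * Real.pi * r))
    nlinarith
  rw [h1]
  have h4 := (abs_le.1 h2).1
  have h5 : -(2 * |Real.sin (2 * Real.pi * r)|) / (8 * Real.pi) ≤
      2 * Real.sin (2 * Real.pi * r) * Real.cos (4 * Real.pi * (θ + b) + 2 * Real.pi * r) /
        (8 * Real.pi) := div_le_div_of_nonneg_right h4 (by positivity)
  have h6 : -(2 * |Real.sin (2 * Real.pi * r)|) / (8 * Real.pi) =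
      -(|Real.sin (2 * Real.pi * r)| / (4 * Real.pi)) := by
    field_simp
    ring
  linarith

theorem small_pos {r : ℝ} (hr : 0 < r) : 0 < r / 2 - |Real.sin (2 * Real.pi * r)| / (4 * Real.pi) := by
  have hpi := Real.pi_pos
  have h1 : |Real.sin (2 * Real.pi * r)| < 2 * Real.pi * r := by
    rw [abs_lt]
    have h0 : 0 < 2 * Real.pi * r := by positivity
    refine ⟨?_, Real.sin_lt h0⟩
    rcases le_or_gt (2 * Real.pi * r) 1 with h | h
    · have := Real.sin_pos_of_pos_of_le_one h0 h
      linarith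
    · have := Real.neg_one_le_sin (2 * Real.pi * r)
      linarith
  have h2 : |Real.sin (2 * Real.pi * r)| / (4 * Real.pi) < 2 * Real.pi * r / (4 * Real.pi) :=
    div_lt_div_of_pos_right h1 (by positivity)
  have h3 : 2 * Real.pi * r / (4 * Real.pi) = r / 2 := by
    field_simp
    ring
  linarith

theorem t_small : S_small := by
  intro α hα M s hM hs
  have hpi := Real.pi_pos
  obtain ⟨σ, hσ⟩ : ∃ σ : ℝ, σ = min (s / 2) (1 / 8) := ⟨_, rfl⟩
  have hσ0 : 0 < σ := by rw [hσ]; exact lt_min (by linarith) (by norm_num)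
  have hσs : 2 * σ ≤ s := by
    have := min_le_left (s / 2) (1 / 8 : ℝ)
    rw [← hσ] at this
    linarith
  have hσ4 : 2 * σ ≤ 1 / 4 := by
    have := min_le_right (s / 2) (1 / 8 : ℝ)
    rw [← hσ] at this
    linarith
  obtain ⟨r, hr⟩ : ∃ r : ℝ, r = min (σ / (2 * (M * (1 + 2 * M)))) (1 / 2) := ⟨_, rfl⟩
  have hM' : 0 < M * (1 + 2 * M) := by positivity
  have hr0 : 0 < r := by rw [hr]; exact lt_min (by positivity) (by norm_num)
  have hrM : M * (1 + 2 * M) * r ≤ σ / 2 := by
    have h1 := min_le_left (σ / (2 * (M * (1 + 2 * M)))) (1 / 2 : ℝ)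
    rw [← hr] at h1
    have h2 := mul_le_mul_of_nonneg_left h1 hM'.le
    have h3 : M * (1 + 2 * M) * (σ / (2 * (M * (1 + 2 * M)))) = σ / 2 := by
      field_simp
    linarith
  have hr2 : r ≤ 1 / 2 := by
    have := min_le_right (σ / (2 * (M * (1 + 2 * M)))) (1 / 2 : ℝ)
    rw [← hr] at this
    exact this
  obtain ⟨c, hc⟩ : ∃ c : ℝ, c = r / 2 - |Real.sin (2 * Real.pi * r)| / (4 * Real.pi) := ⟨_, rfl⟩
  have hc0 : 0 < c := by rw [hc]; exact small_pos hr0
  refine ⟨‖α‖ ^ 2 * (σ / 2) ^ 2 * c / 2, by positivity, ?_⟩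
  intro W a θ hW hL hI
  -- continuity
  have hcont : ContinuousOn W (Set.Icc a (a + 1)) := by
    have hlip : LipschitzOnWith ⟨M, hM.le⟩ W (Set.Icc a (a + 1)) := by
      apply LipschitzOnWith.of_dist_le_mul
      intro x hx y hy
      rw [dist_eq_norm, Real.dist_eq]
      exact hL x hx y hy
    exact hlip.continuousOn
  have hq : ∀ x ∈ Set.Icc a (a + 1), ∀ y ∈ Set.Icc a (a + 1),
      ‖W x * (1 - W x) - W y * (1 - W y)‖ ≤ M * (1 + 2 * M) * |x - y| := by
    intro x hx y hy
    have h1 : W x * (1 - W x) - W y * (1 - W y) = (W x - W y) * (1 - W x - W y) := by ring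
    rw [h1, norm_mul]
    have h2 : ‖1 - W x - W y‖ ≤ 1 + 2 * M := by
      have h3 := norm_sub_le (1 - W x) (W y)
      have h4 := norm_sub_le (1 : ℂ) (W x)
      rw [norm_one] at h4
      have h5 := hW x hx
      have h6 := hW y hy
      linarith
    have h3 := mul_le_mul (hL x hx y hy) h2 (norm_nonneg _) (by positivity)
    linarith [mul_comm (M * |x - y|) (1 + 2 * M), mul_assoc M (1 + 2 * M) |x - y|]
  by_cases hA : ∃ x₀ ∈ Set.Icc a (a + 1), σ ≤ ‖W x₀ * (1 - W x₀)‖
  · exfalso
    obtain ⟨x₀, hx₀, hq0⟩ := hA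
    obtain ⟨b, hab, hba, hbx⟩ : ∃ b : ℝ, a ≤ b ∧ b + r ≤ a + 1 ∧
        ∀ x ∈ Set.Icc b (b + r), |x - x₀| ≤ r := by
      rcases le_or_gt (x₀ + r) (a + 1) with h | h
      · refine ⟨x₀, hx₀.1, h, ?_⟩
        intro x hx
        rw [abs_le]
        exact ⟨by linarith [hx.1], by linarith [hx.2]⟩
      · refine ⟨x₀ - r, by linarith, by linarith [hx₀.2], ?_⟩
        intro x hx
        rw [abs_le]
        exact ⟨by linarith [hx.1], by linarith [hx.2]⟩
    have hsub : ∀ x ∈ Set.Icc b (b + r), x ∈ Set.Icc a (a + 1) := fun x hx =>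
      ⟨hab.trans hx.1, hx.2.trans hba⟩
    have hqx : ∀ x ∈ Set.Icc b (b + r), σ / 2 ≤ ‖W x * (1 - W x)‖ := by
      intro x hx
      have h1 := hq x₀ hx₀ x (hsub x hx)
      have h2 : |x₀ - x| ≤ r := by rw [abs_sub_comm]; exact hbx x hx
      have h3 := mul_le_mul_of_nonneg_left h2 hM'.le
      have h4 := norm_sub_norm_le (W x₀ * (1 - W x₀)) (W x * (1 - W x))
      linarith
    set f : ℝ → ℝ := fun x =>
      ‖α * ((Real.cos (2 * Real.pi * (θ + x)) : ℝ) : ℂ) * W x * (1 - W x)‖ ^ 2 with hf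
    have hfc : ContinuousOn f (Set.Icc a (a + 1)) := by
      apply ContinuousOn.pow
      apply ContinuousOn.norm
      apply ContinuousOn.mul
      · apply ContinuousOn.mul _ hcont
        apply Continuous.continuousOn
        fun_prop
      · exact continuousOn_const.sub hcont
    have hfi : IntervalIntegrable f volume a (a + 1) := by
      apply ContinuousOn.intervalIntegrable
      rw [Set.uIcc_of_le (by linarith)]
      exact hfc
    have hfi2 : IntervalIntegrable f volume b (b + r) := by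
      apply ContinuousOn.intervalIntegrable
      rw [Set.uIcc_of_le (by linarith)]
      exact hfc.mono hsub
    have h1 : ∫ x in b..(b + r), f x ≤ ∫ x in a..(a + 1), f x := by
      apply intervalIntegral.integral_mono_interval hab (by linarith) hba _ hfi
      exact Filter.Eventually.of_forall (fun x => by positivity)
    have h2 : ∫ x in b..(b + r), ‖α‖ ^ 2 * (σ / 2) ^ 2 * Real.cos (2 * Real.pi * (θ + x)) ^ 2 ≤
        ∫ x in b..(b + r), f x := by
      apply intervalIntegral.integral_mono_on (by linarith) _ hfi2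
      · intro x hx
        have h3 : f x = ‖α‖ ^ 2 * ‖W x * (1 - W x)‖ ^ 2 * Real.cos (2 * Real.pi * (θ + x)) ^ 2 := by
          simp only [hf]
          rw [norm_mul, norm_mul, norm_mul, norm_mul, Complex.norm_real, Real.norm_eq_abs]
          have : |Real.cos (2 * Real.pi * (θ + x))| ^ 2 = Real.cos (2 * Real.pi * (θ + x)) ^ 2 :=
            sq_abs _
          rw [← this]
          ring
        rw [h3]
        apply mul_le_mul_of_nonneg_right _ (sq_nonneg _)
        apply mul_le_mul_of_nonneg_left _ (sq_nonneg _)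
        exact pow_le_pow_left₀ (by positivity) (hqx x hx) 2
      · apply Continuous.intervalIntegrable
        fun_prop
    rw [intervalIntegral.integral_const_mul] at h2
    have h3 := small_cos_lower θ b r
    rw [← hc] at h3
    have h4 : ‖α‖ ^ 2 * (σ / 2) ^ 2 * c ≤ ‖α‖ ^ 2 * (σ / 2) ^ 2 *
        ∫ x in b..(b + r), Real.cos (2 * Real.pi * (θ + x)) ^ 2 :=
      mul_le_mul_of_nonneg_left h3 (by positivity)
    have h5 : 0 < ‖α‖ ^ 2 * (σ / 2) ^ 2 * c := by positivity
    have h6 : ∫ x in a..(a + 1), f x ≤ ‖α‖ ^ 2 * (σ / 2) ^ 2 * c / 2 := hI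
    linarith
  · push Not at hA
    have key : ∀ x ∈ Set.Icc a (a + 1), ‖W x‖ ≤ 2 * σ ∨ ‖W x - 1‖ ≤ 2 * σ := by
      intro x hx
      have h1 := hA x hx
      rw [norm_mul] at h1
      have h2 : ‖1 - W x‖ = ‖W x - 1‖ := norm_sub_rev _ _
      rw [h2] at h1
      rcases le_or_gt (1 / 2) ‖W x‖ with h | h
      · right
        nlinarith [norm_nonneg (W x - 1)]
      · left
        have h3 : (1 : ℝ) ≤ ‖W x‖ + ‖W x - 1‖ := by
          have h4 := norm_sub_le (W x) (W x - 1)
          rw [sub_sub_cancel, norm_one] at h4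
          exact h4
        nlinarith [norm_nonneg (W x)]
    by_contra hcon
    rw [not_or] at hcon
    obtain ⟨hc1, hc2⟩ := hcon
    push Not at hc1 hc2
    obtain ⟨x1, hx1, hW1⟩ := hc1
    obtain ⟨x2, hx2, hW2⟩ := hc2
    have g1 : 1 / 2 ≤ ‖W x1‖ := by
      rcases key x1 hx1 with h | h
      · linarith
      · have h4 := norm_sub_le (W x1) (W x1 - 1)
        rw [sub_sub_cancel, norm_one] at h4
        linarith
    have g2 : ‖W x2‖ ≤ 1 / 2 := by
      rcases key x2 hx2 with h | h
      · linarith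
      · linarith
    have hpre : IsPreconnected ((fun x => ‖W x‖) '' Set.Icc a (a + 1)) :=
      isPreconnected_Icc.image _ hcont.norm
    have hmem := hpre.ordConnected.out (Set.mem_image_of_mem _ hx2) (Set.mem_image_of_mem _ hx1)
      ⟨g2, g1⟩
    obtain ⟨x3, hx3, h3⟩ := hmem
    have h3' : ‖W x3‖ = 1 / 2 := h3
    rcases key x3 hx3 with h | h
    · linarith
    · have h4 := norm_sub_le (W x3) (W x3 - 1)
      rw [sub_sub_cancel, norm_one] at h4
      linarith

end

end Pool.Agent.H429K
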