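import Pool.Agent.H429K.Stmts

open MeasureTheory Filter Topology

namespace Pool.Agent.H429K

noncomputable section

private theorem stepm_succ (α : ℂ) (L : ℕ) (hL : (L : ℝ) ≠ 0) (z : ℂ) (v₀ : ℝ) (m : ℕ) (x : ℝ) :
    G α L z (m + 1) ((v₀ : ℂ) + ((x * (L : ℝ) : ℝ) : ℂ) / (L : ℂ) ^ (m + 1)) =
      G α L z m ((v₀ : ℂ) + (x : ℂ) / (L : ℂ) ^ m) + Dl α L z v₀ m x := by
  have hLc : (L : ℂ) ≠ 0 := by
    have h := hL
    exact_mod_cast h
  have h1 : (v₀ : ℂ) + ((x * (L : ℝ) : ℝ) : ℂ) / (L : ℂ) ^ (m + 1) =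
      (v₀ : ℂ) + (x : ℂ) / (L : ℂ) ^ m := by
    push_cast
    rw [pow_succ]
    field_simp
  rw [h1]
  have h2 : 2 * (Real.pi : ℂ) * (L : ℂ) ^ m * ((v₀ : ℂ) + (x : ℂ) / (L : ℂ) ^ m) =
      ((2 * Real.pi * ((L : ℝ) ^ m * v₀ + x) : ℝ) : ℂ) := by
    push_cast
    field_simp
  show step (α * Complex.cos (2 * (Real.pi : ℂ) * (L : ℂ) ^ m *
    ((v₀ : ℂ) + (x : ℂ) / (L : ℂ) ^ m))) (G α L z m ((v₀ : ℂ) + (x : ℂ) / (L : ℂ) ^ m)) = _
  rw [h2, ← Complex.ofReal_cos]
  unfold step Dl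
  ring

theorem t_step (he : S_entire) (hc : S_contour) : S_step := by
  intro α L hL hα0 hα1 z v₀ m T Y A hT hY hA hbd
  have hLr : (6 : ℝ) ≤ (L : ℝ) := by exact_mod_cast hL
  have hL0 : (L : ℝ) ≠ 0 := by linarith
  have hLc : (L : ℂ) ≠ 0 := by exact_mod_cast hL0
  set W : ℂ → ℂ := fun ζ => G α L z m ((v₀ : ℂ) + ζ / (L : ℂ) ^ m) with hWdef
  have hW : Differentiable ℂ W := by
    have h1 : Differentiable ℂ (fun ζ : ℂ => (v₀ : ℂ) + ζ / (L : ℂ) ^ m) := by
      exact (differentiable_const _).add (differentiable_id.div_const _)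
    exact (he α L z m).comp h1
  have hWc : Continuous (fun x : ℝ => W (x : ℂ)) := hW.continuous.comp Complex.continuous_ofReal
  have hcosc : Continuous (fun x : ℝ => ((Real.cos (2 * Real.pi * ((L : ℝ) ^ m * v₀ + x)) : ℝ) : ℂ)) := by
    exact Complex.continuous_ofReal.comp (Real.continuous_cos.comp (by fun_prop))
  have hD : Dl α L z v₀ m = fun x : ℝ =>
      α * ((Real.cos (2 * Real.pi * ((L : ℝ) ^ m * v₀ + x)) : ℝ) : ℂ) * W (x : ℂ) *
        (1 - W (x : ℂ)) := rfl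
  have hDc : Continuous (Dl α L z v₀ m) := by
    rw [hD]
    exact ((continuous_const.mul hcosc).mul hWc).mul (continuous_const.sub hWc)
  set τ : ℝ := 2 * Real.pi / ((L : ℝ) - 2) with hτ
  have hpi := Real.pi_pos
  have hL2 : (0 : ℝ) < (L : ℝ) - 2 := by linarith
  have hτ0 : 0 ≤ τ := by positivity
  have hτ1 : τ ≤ Real.pi / 2 := by
    rw [hτ, div_le_iff₀ hL2]
    nlinarith
  have hcon := hc W hW T Y A τ ((L : ℝ) ^ m * v₀) hT hY hA hτ0 (by linarith) hbd
  set J : ℂ := ∫ x in (-T)..T, ((Real.cos (2 * Real.pi * ((L : ℝ) ^ m * v₀ + x)) : ℝ) : ℂ) *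
      ((starRingEnd ℂ) (W (x : ℂ)) * W (x : ℂ) * (1 - W (x : ℂ))) with hJ
  -- the cross term
  have hcross : (∫ x in (-T)..T, ((starRingEnd ℂ) (W (x : ℂ)) * Dl α L z v₀ m x).re) =
      (α * J).re := by
    have h1 : α * J = ∫ x in (-T)..T, (starRingEnd ℂ) (W (x : ℂ)) * Dl α L z v₀ m x := by
      rw [hJ, ← intervalIntegral.integral_const_mul]
      apply intervalIntegral.integral_congr
      intro x _
      simp only [hD]
      ring
    rw [h1]
    have hint : IntervalIntegrable (fun x : ℝ => (starRingEnd ℂ) (W (x : ℂ)) * Dl α L z v₀ m x)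
        volume (-T) T := by
      apply Continuous.intervalIntegrable
      exact (Complex.continuous_conj.comp hWc).mul hDc
    have h2 := Complex.reCLM.intervalIntegral_comp_comm hint
    simpa using h2
  -- the substitution
  have hsub : (1 / (L : ℝ)) * ∫ x in (-(T * L))..(T * L),
      ‖G α L z (m + 1) ((v₀ : ℂ) + (x : ℂ) / (L : ℂ) ^ (m + 1))‖ ^ 2 =
      ∫ x in (-T)..T, ‖W (x : ℂ) + Dl α L z v₀ m x‖ ^ 2 := by
    have h1 := intervalIntegral.integral_comp_mul_right (a := -T) (b := T)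
      (fun x : ℝ => ‖G α L z (m + 1) ((v₀ : ℂ) + (x : ℂ) / (L : ℂ) ^ (m + 1))‖ ^ 2) hL0
    rw [show (-T) * (L : ℝ) = -(T * L) by ring] at h1
    rw [one_div, ← smul_eq_mul, ← h1]
    apply intervalIntegral.integral_congr
    intro x _
    show ‖G α L z (m + 1) ((v₀ : ℂ) + ((x * (L : ℝ) : ℝ) : ℂ) / (L : ℂ) ^ (m + 1))‖ ^ 2 = _
    rw [stepm_succ α L hL0 z v₀ m x]
  have hexp : (∫ x in (-T)..T, ‖W (x : ℂ) + Dl α L z v₀ m x‖ ^ 2) =
      (∫ x in (-T)..T, ‖W (x : ℂ)‖ ^ 2) + (∫ x in (-T)..T, ‖Dl α L z v₀ m x‖ ^ 2) +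
        2 * ∫ x in (-T)..T, ((starRingEnd ℂ) (W (x : ℂ)) * Dl α L z v₀ m x).re := by
    have i1 : IntervalIntegrable (fun x : ℝ => ‖W (x : ℂ)‖ ^ 2) volume (-T) T :=
      (hWc.norm.pow 2).intervalIntegrable _ _
    have i2 : IntervalIntegrable (fun x : ℝ => ‖Dl α L z v₀ m x‖ ^ 2) volume (-T) T :=
      (hDc.norm.pow 2).intervalIntegrable _ _
    have i3 : IntervalIntegrable (fun x : ℝ => ((starRingEnd ℂ) (W (x : ℂ)) *
        Dl α L z v₀ m x).re) volume (-T) T :=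
      (Complex.continuous_re.comp ((Complex.continuous_conj.comp hWc).mul hDc)).intervalIntegrable _ _
    rw [← intervalIntegral.integral_const_mul, ← intervalIntegral.integral_add i1 i2,
      ← intervalIntegral.integral_add (i1.add i2) (i3.const_mul 2)]
    apply intervalIntegral.integral_congr
    intro x _
    simp only [Complex.sq_norm, Complex.normSq_apply, Complex.add_re, Complex.add_im,
      Complex.mul_re, Complex.conj_re, Complex.conj_im]
    ring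
  rw [hsub, hexp, hcross]
  have hre : -(‖J‖) ≤ (α * J).re := by
    have h1 : |(α * J).re| ≤ ‖α * J‖ := Complex.abs_re_le_norm _
    have h2 : ‖α * J‖ ≤ ‖J‖ := by
      rw [norm_mul]
      exact mul_le_of_le_one_left (norm_nonneg _) hα1
    have h3 := abs_le.1 (h1.trans h2)
    exact h3.1
  have hexp2 : Real.exp (3 * A - (2 * Real.pi - 3 * τ) * Y) ≤ Real.exp (3 * A - Real.pi / 2 * Y) := by
    apply Real.exp_le_exp.2
    have : Real.pi / 2 * Y ≤ (2 * Real.pi - 3 * τ) * Y := by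
      apply mul_le_mul_of_nonneg_right _ hY.le
      linarith
    linarith
  have h2T : 2 * T * Real.exp (3 * A - (2 * Real.pi - 3 * τ) * Y) ≤
      2 * T * Real.exp (3 * A - Real.pi / 2 * Y) :=
    mul_le_mul_of_nonneg_left hexp2 (by positivity)
  linarith

end

end Pool.Agent.H429K
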