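import Pool.Agent.H429K.Stmts

open MeasureTheory Filter Topology

namespace Pool.Agent.H429K

noncomputable section

/-- the three attracting points -/
def suba_P3 : Set (OnePoint ℂ) := {((0 : ℂ) : OnePoint ℂ), ((1 : ℂ) : OnePoint ℂ), OnePoint.infty}

theorem suba_conv (hf : S_fiter) (α : ℂ) (L : ℕ) (u : ℝ) (q : ℂ) (h : Conv α L q u) :
    ∃ p ∈ suba_P3, Tendsto (fun n => fiter α L u n (q : OnePoint ℂ)) atTop (𝓝 p) := by
  have e : (fun n => fiter α L u n (q : OnePoint ℂ)) =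
      fun n => ((G α L q n (u : ℂ) : ℂ) : OnePoint ℂ) := by
    funext n
    exact (hf α L u n).1 q
  rw [e]
  rcases h with h | h | h
  · exact ⟨_, Or.inl rfl, (OnePoint.continuous_coe.tendsto (0 : ℂ)).comp h⟩
  · exact ⟨_, Or.inr (Or.inl rfl), (OnePoint.continuous_coe.tendsto (1 : ℂ)).comp h⟩
  · refine ⟨_, Or.inr (Or.inr rfl), ?_⟩
    have h1 : Tendsto (fun n => G α L q n (u : ℂ)) atTop (coclosedCompact ℂ) := by
      rw [coclosedCompact_eq_cocompact, ← Metric.cobounded_eq_cocompact]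
      exact tendsto_norm_atTop_iff_cobounded.1 h
    exact OnePoint.tendsto_coe_infty.comp h1

theorem suba_chord_01 : (1 : ℝ) ≤ chord ((0 : ℂ) : OnePoint ℂ) ((1 : ℂ) : OnePoint ℂ) := by
  show (1 : ℝ) ≤ 2 * ‖(0 : ℂ) - 1‖ / (Real.sqrt (1 + ‖(0 : ℂ)‖ ^ 2) * Real.sqrt (1 + ‖(1 : ℂ)‖ ^ 2))
  have h2 : Real.sqrt 2 ≤ 2 := by
    rw [Real.sqrt_le_left (by norm_num)]
    norm_num
  have e : (1 : ℝ) + 1 ^ 2 = 2 := by norm_num
  have e' : (1 : ℝ) + 0 ^ 2 = 1 := by norm_num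
  rw [zero_sub, norm_neg, norm_one, norm_zero, e, e', Real.sqrt_one, mul_one, one_mul,
    le_div_iff₀ (by positivity)]
  linarith

theorem suba_chord_0i : (1 : ℝ) ≤ chord ((0 : ℂ) : OnePoint ℂ) OnePoint.infty := by
  show (1 : ℝ) ≤ 2 / Real.sqrt (1 + ‖(0 : ℂ)‖ ^ 2)
  simp

theorem suba_chord_1i : (1 : ℝ) ≤ chord ((1 : ℂ) : OnePoint ℂ) OnePoint.infty := by
  show (1 : ℝ) ≤ 2 / Real.sqrt (1 + ‖(1 : ℂ)‖ ^ 2)
  have h2 : Real.sqrt 2 ≤ 2 := by
    rw [Real.sqrt_le_left (by norm_num)]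
    norm_num
  have e : (1 : ℝ) + 1 ^ 2 = 2 := by norm_num
  rw [norm_one, e, le_div_iff₀ (by positivity)]
  linarith

theorem suba_sep (ht : S_tri) {p q : OnePoint ℂ} (hp : p ∈ suba_P3) (hq : q ∈ suba_P3)
    (h : chord p q < 1) : p = q := by
  have h01 := suba_chord_01
  have h0i := suba_chord_0i
  have h1i := suba_chord_1i
  have s01 := ht.2.2.1 ((0 : ℂ) : OnePoint ℂ) ((1 : ℂ) : OnePoint ℂ)
  have s0i := ht.2.2.1 ((0 : ℂ) : OnePoint ℂ) OnePoint.infty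
  have s1i := ht.2.2.1 ((1 : ℂ) : OnePoint ℂ) OnePoint.infty
  rcases hp with rfl | rfl | rfl <;> rcases hq with rfl | rfl | rfl
  · rfl
  · linarith
  · linarith
  · linarith
  · rfl
  · linarith
  · linarith
  · linarith
  · rfl

theorem suba_close (hf : S_fiter) (ht : S_tri) (hn : S_nhds) (he : S_equi)
    (α : ℂ) (L : ℕ) (u : ℝ) (Q : Set ℂ) (hQ : Dense Q) (hc : ∀ q ∈ Q, Conv α L q u)
    (z : OnePoint ℂ) (hz : z ∈ fatou α L u) (ε : ℝ) (hε : 0 < ε) :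
    ∃ p ∈ suba_P3, ∀ᶠ n in atTop, chord (fiter α L u n z) p < 2 * ε := by
  obtain ⟨V, hV, hVe⟩ := he α L u z hz ε hε
  have hd : Dense ((fun q : ℂ => (q : OnePoint ℂ)) '' Q) :=
    (OnePoint.denseRange_coe (X := ℂ)).dense_image OnePoint.continuous_coe hQ
  obtain ⟨U, hUV, hUo, hzU⟩ := mem_nhds_iff.1 hV
  obtain ⟨_, hxU, q, hq, rfl⟩ := hd.inter_open_nonempty U hUo ⟨z, hzU⟩
  obtain ⟨p, hp, hlim⟩ := suba_conv hf α L u q (hc q hq)
  refine ⟨p, hp, ?_⟩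
  have hball : {x | chord x p < ε} ∈ 𝓝 p := (hn p _).2 ⟨ε, hε, subset_rfl⟩
  filter_upwards [hlim hball] with n h1
  have h1' : chord (fiter α L u n (q : OnePoint ℂ)) p < ε := h1
  have h2 := hVe n _ (hUV hxU)
  have h3 := ht.2.2.2 (fiter α L u n z) (fiter α L u n (q : OnePoint ℂ)) p
  have h4 := ht.2.2.1 (fiter α L u n z) (fiter α L u n (q : OnePoint ℂ))
  have h2' : chord (fiter α L u n (q : OnePoint ℂ)) (fiter α L u n z) < ε := h2
  linarith

theorem t_sub1 (hf : S_fiter) (ht : S_tri) (hn : S_nhds) (he : S_equi) : S_sub1 := by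
  intro α L u Q hQ hc z hz
  obtain ⟨p₀, hp₀, h₀⟩ := suba_close hf ht hn he α L u Q hQ hc z hz (1 / 10) (by norm_num)
  have key : ∀ ε : ℝ, 0 < ε → ∀ᶠ n in atTop, chord (fiter α L u n z) p₀ < ε := by
    intro ε hε
    obtain ⟨p, hp, h⟩ := suba_close hf ht hn he α L u Q hQ hc z hz (min (ε / 2) (1 / 10))
      (lt_min (by positivity) (by norm_num))
    have hpp : p = p₀ := by
      obtain ⟨n, h1, h2⟩ := (h.and h₀).exists
      refine suba_sep ht hp hp₀ ?_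
      have h3 := ht.2.2.2 p (fiter α L u n z) p₀
      have h4 := ht.2.2.1 p (fiter α L u n z)
      have h5 := min_le_right (ε / 2) (1 / 10 : ℝ)
      linarith
    subst hpp
    filter_upwards [h] with n h1
    have h5 := min_le_left (ε / 2) (1 / 10 : ℝ)
    linarith
  have hlim : Tendsto (fun n => fiter α L u n z) atTop (𝓝 p₀) := by
    intro s hs
    obtain ⟨ε, hε, hsub⟩ := (hn p₀ s).1 hs
    exact Filter.mem_of_superset (key ε hε) (fun n hn' => hsub hn')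
  rcases hp₀ with rfl | rfl | rfl
  · exact Or.inl hlim
  · exact Or.inr (Or.inl hlim)
  · exact Or.inr (Or.inr hlim)

end

end Pool.Agent.H429K
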