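import Pool.Agent.H429K.Stmts

open MeasureTheory Filter Topology

namespace Pool.Agent.H429K

noncomputable section

theorem subb_sqrt (a : ℂ) : 1 ≤ Real.sqrt (1 + ‖a‖ ^ 2) := by
  rw [Real.one_le_sqrt]
  nlinarith [sq_nonneg ‖a‖]

theorem subb_chord (a b : ℂ) : chord (a : OnePoint ℂ) (b : OnePoint ℂ) ≤ 2 * ‖a - b‖ := by
  change 2 * ‖a - b‖ / (Real.sqrt (1 + ‖a‖ ^ 2) * Real.sqrt (1 + ‖b‖ ^ 2)) ≤ _
  exact div_le_self (by positivity) (one_le_mul_of_one_le_of_one_le (subb_sqrt a) (subb_sqrt b))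

theorem subb_chord_inf (a : ℂ) (ha : 0 < ‖a‖) :
    chord (a : OnePoint ℂ) OnePoint.infty ≤ 2 / ‖a‖ := by
  change 2 / Real.sqrt (1 + ‖a‖ ^ 2) ≤ _
  refine div_le_div_of_nonneg_left (by norm_num) ha ?_
  refine Real.le_sqrt_of_sq_le ?_
  linarith

/-- uniform convergence to a constant near a point -/
theorem subb_unif {α : ℂ} {L : ℕ} {u : ℝ} {z₀ p : OnePoint ℂ} (U : Set (OnePoint ℂ))
    (hU : IsOpen U) (hz : z₀ ∈ U) (n : ℕ) (b : ℕ → ℝ) (hb : Tendsto b atTop (𝓝 0))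
    (h : ∀ x ∈ U, ∀ k, chord (fiter α L u (n + k) x) p ≤ b k) : z₀ ∈ fatou α L u := by
  refine ⟨U, hU, hz, fun φ hφ => ⟨id, strictMono_id, fun _ => p, fun K hK _ ε hε => ?_⟩⟩
  obtain ⟨N, hN⟩ := eventually_atTop.1 (hb.eventually (gt_mem_nhds hε))
  refine ⟨n + N, fun m hm w hw => ?_⟩
  have h1 : n + N ≤ φ m := hm.trans (hφ.id_le m)
  obtain ⟨k, hk⟩ := Nat.exists_eq_add_of_le (show n ≤ φ m by omega)
  change chord (fiter α L u (φ m) w) p < ε
  rw [hk]
  exact (h w (hK hw) k).trans_lt (hN k (by omega))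

theorem subb_exp {κ : ℝ} (hκ : 0 < κ) :
    Tendsto (fun k : ℕ => 2 * Real.exp (-(κ * k))) atTop (𝓝 0) := by
  have h1 : Tendsto (fun k : ℕ => κ * (k : ℝ)) atTop atTop :=
    tendsto_natCast_atTop_atTop.const_mul_atTop hκ
  have h2 := (Real.tendsto_exp_neg_atTop_nhds_zero.comp h1).const_mul 2
  rw [mul_zero] at h2
  exact h2

theorem subb_four {R : ℝ} (hR : 0 < R) :
    Tendsto (fun k : ℕ => 2 / ((4:ℝ) ^ k * R)) atTop (𝓝 0) := by
  have h1 : Tendsto (fun k : ℕ => (4:ℝ) ^ k * R) atTop atTop :=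
    (tendsto_pow_atTop_atTop_of_one_lt (by norm_num)).atTop_mul_const hR
  exact h1.const_div_atTop 2

/-- a point whose `n`-th image is finite is finite, and its orbit is given by `G` -/
theorem subb_fin (ha : S_add) (hf : S_fiter) {α : ℂ} {L : ℕ} {u : ℝ} {n : ℕ} {x : OnePoint ℂ}
    {w : ℂ} (h : fiter α L u n x = (w : OnePoint ℂ)) (k : ℕ) :
    fiter α L u (n + k) x =
      ((G α L w k (((L : ℝ) ^ n * u : ℝ) : ℂ) : ℂ) : OnePoint ℂ) := by
  induction x using OnePoint.rec with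
  | infty =>
    rw [(hf α L u n).2] at h
    exact absurd h (OnePoint.infty_ne_coe w)
  | coe w' =>
    rw [(hf α L u n).1, OnePoint.coe_eq_coe] at h
    rw [(hf α L u (n + k)).1, ha, h]
    push_cast
    rfl

theorem t_sub2 (ha : S_add) (hf : S_fiter) (hc : S_fcont) (ht : S_tri) (hn : S_nhds) : S_sub2 := by
  intro α L u κ₀ κ₁ δ₀ δ₁ R hκ₀ hκ₁ hδ₀ hδ₁ hR h0 h1 hi z₀ hz
  rcases hz with hz | hz | hz
  · have hO : IsOpen ((fun w : ℂ => (w : OnePoint ℂ)) '' Metric.ball (0 : ℂ) δ₀) :=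
      OnePoint.isOpenEmbedding_coe.isOpenMap _ Metric.isOpen_ball
    have hmem : ((0 : ℂ) : OnePoint ℂ) ∈
        ((fun w : ℂ => (w : OnePoint ℂ)) '' Metric.ball (0 : ℂ) δ₀) :=
      ⟨0, Metric.mem_ball_self hδ₀, rfl⟩
    obtain ⟨n, hn1, hn2⟩ := (h0.and_eventually (hz.eventually (hO.mem_nhds hmem))).exists
    refine subb_unif (p := ((0 : ℂ) : OnePoint ℂ)) _ (hO.preimage (hc α L u n)) hn2 n _
      (subb_exp hκ₀) ?_
    rintro x ⟨w, hw, hwx⟩ k
    rw [subb_fin ha hf hwx.symm k]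
    refine (subb_chord _ _).trans ?_
    rw [sub_zero]
    refine mul_le_mul_of_nonneg_left (hn1 w ?_ k) (by norm_num)
    rw [Metric.mem_ball, dist_zero_right] at hw
    exact hw.le
  · have hO : IsOpen ((fun w : ℂ => (w : OnePoint ℂ)) '' Metric.ball (1 : ℂ) δ₁) :=
      OnePoint.isOpenEmbedding_coe.isOpenMap _ Metric.isOpen_ball
    have hmem : ((1 : ℂ) : OnePoint ℂ) ∈
        ((fun w : ℂ => (w : OnePoint ℂ)) '' Metric.ball (1 : ℂ) δ₁) :=
      ⟨1, Metric.mem_ball_self hδ₁, rfl⟩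
    obtain ⟨n, hn1, hn2⟩ := (h1.and_eventually (hz.eventually (hO.mem_nhds hmem))).exists
    refine subb_unif (p := ((1 : ℂ) : OnePoint ℂ)) _ (hO.preimage (hc α L u n)) hn2 n _
      (subb_exp hκ₁) ?_
    rintro x ⟨w, hw, hwx⟩ k
    rw [subb_fin ha hf hwx.symm k]
    refine (subb_chord _ _).trans ?_
    refine mul_le_mul_of_nonneg_left (hn1 w ?_ k) (by norm_num)
    rw [Metric.mem_ball, dist_eq_norm] at hw
    exact hw.le
  · have hO : IsOpen ((fun w : ℂ => (w : OnePoint ℂ)) '' Metric.closedBall (0 : ℂ) R)ᶜ :=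
      OnePoint.isOpen_compl_image_coe.2 ⟨Metric.isClosed_closedBall, isCompact_closedBall _ _⟩
    have hmem : (OnePoint.infty : OnePoint ℂ) ∈
        ((fun w : ℂ => (w : OnePoint ℂ)) '' Metric.closedBall (0 : ℂ) R)ᶜ :=
      OnePoint.infty_notMem_image_coe
    obtain ⟨n, hn1, hn2⟩ := (hi.and_eventually (hz.eventually (hO.mem_nhds hmem))).exists
    refine subb_unif (p := OnePoint.infty) _ (hO.preimage (hc α L u n)) hn2 n _
      (subb_four hR) ?_
    intro x hx k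
    rcases hx' : fiter α L u n x with _ | w
    · have hxi : x = OnePoint.infty := by
        induction x using OnePoint.rec with
        | infty => rfl
        | coe w' =>
          rw [(hf α L u n).1] at hx'
          exact absurd hx' (OnePoint.coe_ne_infty _)
      rw [hxi, (hf α L u (n + k)).2, ht.1]
      positivity
    · have hx2 : fiter α L u n x = (w : OnePoint ℂ) := hx'
      have hw : R < ‖w‖ := by
        by_contra hlt
        rw [not_lt] at hlt
        apply hx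
        rw [hx2]
        exact ⟨w, by rwa [Metric.mem_closedBall, dist_zero_right], rfl⟩
      rw [subb_fin ha hf hx2 k]
      have h3 := hn1 w hw.le k
      have h4 : (4:ℝ) ^ k * R ≤ ‖G α L w k (((L : ℝ) ^ n * u : ℝ) : ℂ)‖ :=
        (mul_le_mul_of_nonneg_left hw.le (by positivity)).trans h3
      have h5 : 0 < (4:ℝ) ^ k * R := by positivity
      exact (subb_chord_inf _ (h5.trans_le h4)).trans
        (div_le_div_of_nonneg_left (by norm_num) h5 h4)

end

end Pool.Agent.H429K
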