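import Pool.Agent.H429K.Stmts

open MeasureTheory Filter Topology

namespace Pool.Agent.H429K

noncomputable section

/-- the sum of Poisson type kernels -/
def tca_psi (s : ℝ) (J : Finset ℝ) (ζ : ℂ) : ℂ :=
  ∑ t ∈ J, (2 * (s : ℂ) * Complex.I) / (ζ - (t : ℂ) + (s : ℂ) * Complex.I)

theorem tca_term (s t : ℝ) (ζ : ℂ) :
    ((2 * (s : ℂ) * Complex.I) / (ζ - (t : ℂ) + (s : ℂ) * Complex.I)).re =
      2 * s * (ζ.im + s) / ((ζ.re - t) ^ 2 + (ζ.im + s) ^ 2) := by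
  rw [Complex.div_re, Complex.normSq_apply]
  simp
  ring

theorem tca_psi_re (s : ℝ) (J : Finset ℝ) (ζ : ℂ) : (tca_psi s J ζ).re =
    ∑ t ∈ J, 2 * s * (ζ.im + s) / ((ζ.re - t) ^ 2 + (ζ.im + s) ^ 2) := by
  rw [tca_psi, Complex.re_sum]
  exact Finset.sum_congr rfl fun t _ => tca_term s t ζ

theorem tca_psi_nonneg {s : ℝ} (hs : 0 < s) (J : Finset ℝ) {ζ : ℂ} (hζ : 0 ≤ ζ.im) :
    0 ≤ (tca_psi s J ζ).re := by
  rw [tca_psi_re]
  exact Finset.sum_nonneg fun t _ => by positivity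

theorem tca_psi_one {s : ℝ} (hs : 0 < s) (J : Finset ℝ) {ζ : ℂ} (hζ : ζ.im = 0)
    (h : ∃ t ∈ J, |ζ.re - t| ≤ s / 2) : 1 ≤ (tca_psi s J ζ).re := by
  rw [tca_psi_re]
  obtain ⟨t, ht, h1⟩ := h
  have h2 : 1 ≤ 2 * s * (ζ.im + s) / ((ζ.re - t) ^ 2 + (ζ.im + s) ^ 2) := by
    rw [hζ, zero_add, one_le_div (by positivity)]
    have h3 : (ζ.re - t) ^ 2 ≤ (s / 2) ^ 2 := by
      rw [← sq_abs (ζ.re - t)]
      exact pow_le_pow_left₀ (abs_nonneg _) h1 2
    nlinarith [mul_pos hs hs]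
  refine h2.trans (Finset.single_le_sum (f := fun t => 2 * s * (ζ.im + s) /
    ((ζ.re - t) ^ 2 + (ζ.im + s) ^ 2)) (fun t _ => ?_) ht)
  rw [hζ]
  positivity

theorem tca_psi_le {s η δ : ℝ} (hs : 0 < s) (hη : 0 < η) (J : Finset ℝ) {ζ : ℂ}
    (hζ : η ≤ ζ.im) (hJ : (J.card : ℝ) * s ≤ δ) : (tca_psi s J ζ).re ≤ 2 * δ / η := by
  have hy : 0 < ζ.im := hη.trans_le hζ
  rw [tca_psi_re]
  have h1 : ∀ t ∈ J, 2 * s * (ζ.im + s) / ((ζ.re - t) ^ 2 + (ζ.im + s) ^ 2) ≤ 2 * s / η := by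
    intro t _
    rw [div_le_div_iff₀ (by positivity) hη]
    have h2 : (ζ.im + s) * η ≤ (ζ.re - t) ^ 2 + (ζ.im + s) ^ 2 := by
      nlinarith [sq_nonneg (ζ.re - t), mul_nonneg (add_pos hy hs).le (sub_nonneg.2 hζ),
        mul_pos (add_pos hy hs) hs]
    calc 2 * s * (ζ.im + s) * η = 2 * s * ((ζ.im + s) * η) := by ring
      _ ≤ 2 * s * ((ζ.re - t) ^ 2 + (ζ.im + s) ^ 2) := mul_le_mul_of_nonneg_left h2 (by positivity)
  refine (Finset.sum_le_sum h1).trans ?_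
  rw [Finset.sum_const, nsmul_eq_mul, mul_div_assoc']
  refine div_le_div_of_nonneg_right ?_ hη.le
  linarith

theorem tca_psi_diff {s : ℝ} (hs : 0 < s) (J : Finset ℝ) {ζ : ℂ} (hζ : 0 ≤ ζ.im) :
    DifferentiableAt ℂ (tca_psi s J) ζ := by
  have h : ∀ t ∈ J, DifferentiableAt ℂ
      (fun ζ : ℂ => (2 * (s : ℂ) * Complex.I) / (ζ - (t : ℂ) + (s : ℂ) * Complex.I)) ζ := by
    intro t _
    refine (differentiableAt_const _).div
      ((differentiableAt_id.sub (differentiableAt_const _)).add (differentiableAt_const _)) ?_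
    intro h0
    have h1 := congrArg Complex.im h0
    simp at h1
    linarith
  have h2 : tca_psi s J = fun ζ => ∑ t ∈ J,
      (2 * (s : ℂ) * Complex.I) / (ζ - (t : ℂ) + (s : ℂ) * Complex.I) := rfl
  rw [h2]
  exact DifferentiableAt.fun_sum h

/-- the auxiliary function -/
def tca_H (h : ℂ → ℂ) (ρ B κ s : ℝ) (m : ℕ) (J : Finset ℝ) (ζ : ℂ) : ℂ :=
  h ζ * (1 - ζ ^ 2 / (ρ : ℂ) ^ 2) ^ m *
    Complex.exp ((κ : ℂ) * (Complex.I * ζ) - (B : ℂ) * tca_psi s J ζ)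

theorem tca_H_norm (h : ℂ → ℂ) (ρ B κ s : ℝ) (m : ℕ) (J : Finset ℝ) (ζ : ℂ) :
    ‖tca_H h ρ B κ s m J ζ‖ = ‖h ζ‖ * ‖1 - ζ ^ 2 / (ρ : ℂ) ^ 2‖ ^ m *
      Real.exp (-(κ * ζ.im) - B * (tca_psi s J ζ).re) := by
  rw [tca_H, norm_mul, norm_mul, norm_pow, Complex.norm_exp]
  congr 2
  simp

theorem tca_H_diff {h : ℂ → ℂ} (hh : Differentiable ℂ h) (ρ B κ : ℝ) {s : ℝ} (hs : 0 < s) (m : ℕ)
    (J : Finset ℝ) {ζ : ℂ} (hζ : 0 ≤ ζ.im) : DifferentiableAt ℂ (tca_H h ρ B κ s m J) ζ := by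
  have h1 := tca_psi_diff hs J hζ
  have h2 : tca_H h ρ B κ s m J = fun ζ => h ζ * (1 - ζ ^ 2 / (ρ : ℂ) ^ 2) ^ m *
    Complex.exp ((κ : ℂ) * (Complex.I * ζ) - (B : ℂ) * tca_psi s J ζ) := rfl
  rw [h2]
  refine ((hh ζ).mul (DifferentiableAt.pow ?_ m)).mul (DifferentiableAt.cexp ?_)
  · exact (differentiableAt_const _).sub ((differentiableAt_id.pow 2).div_const _)
  · exact ((differentiableAt_id.const_mul _).const_mul _).sub (h1.const_mul _)

/-- the factor on the circle -/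
theorem tca_circle {ρ : ℝ} (hρ : 0 < ρ) {ζ : ℂ} (hζ : ‖ζ‖ = ρ) (hy : 0 ≤ ζ.im) :
    ‖1 - ζ ^ 2 / (ρ : ℂ) ^ 2‖ = 2 * (ζ.im / ρ) := by
  have hρ' : (ρ : ℂ) ≠ 0 := by exact_mod_cast hρ.ne'
  have h1 : (ρ : ℂ) ^ 2 = ζ * (starRingEnd ℂ) ζ := by
    rw [Complex.mul_conj, Complex.normSq_eq_norm_sq, hζ]
    push_cast
    rfl
  have h2 : (1 : ℂ) - ζ ^ 2 / (ρ : ℂ) ^ 2 = ζ * ((starRingEnd ℂ) ζ - ζ) / (ρ : ℂ) ^ 2 := by
    rw [eq_div_iff (pow_ne_zero 2 hρ'), sub_mul, one_mul, div_mul_cancel₀ _ (pow_ne_zero 2 hρ')]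
    rw [h1]
    ring
  have h3 : ‖(starRingEnd ℂ) ζ - ζ‖ = 2 * ζ.im := by
    have h4 : (starRingEnd ℂ) ζ - ζ = ((-(2 * ζ.im) : ℝ) : ℂ) * Complex.I := by
      apply Complex.ext
      · simp
      · simp
        ring
    rw [h4, norm_mul, Complex.norm_I, mul_one, Complex.norm_real, Real.norm_eq_abs, abs_neg,
      abs_of_nonneg (by positivity)]
  rw [h2, norm_div, norm_mul, h3, hζ, norm_pow, Complex.norm_real, Real.norm_eq_abs,
    abs_of_pos hρ]
  field_simp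

theorem tca_num {B σ : ℝ} {m : ℕ} (hB : 0 ≤ B) (hm : B ≤ m) (hm' : (m : ℝ) ≤ B + 1)
    (hσ0 : 0 ≤ σ) (hσ1 : σ ≤ 1) :
    Real.exp B * (2 * σ) ^ m * Real.exp (-(6 * (2 * B + 1) * σ)) ≤ 1 := by
  rcases le_or_gt (1 / 6) σ with h | h
  · have h1 : (2 * σ) ^ m ≤ Real.exp (B + 1) := by
      calc (2 * σ) ^ m ≤ (Real.exp 1) ^ m := by
            refine pow_le_pow_left₀ (by positivity) ?_ m
            have := Real.exp_one_gt_d9
            linarith
        _ = Real.exp m := by rw [← Real.exp_nat_mul, mul_one]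
        _ ≤ Real.exp (B + 1) := Real.exp_le_exp.2 hm'
    calc Real.exp B * (2 * σ) ^ m * Real.exp (-(6 * (2 * B + 1) * σ))
        ≤ Real.exp B * Real.exp (B + 1) * Real.exp (-(2 * B + 1)) := by
          refine mul_le_mul (mul_le_mul_of_nonneg_left h1 (Real.exp_pos _).le)
            (Real.exp_le_exp.2 ?_) (Real.exp_pos _).le (by positivity)
          nlinarith
      _ = 1 := by
          rw [← Real.exp_add, ← Real.exp_add, ← Real.exp_zero]
          congr 1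
          ring
  · have h1 : (2 * σ) ^ m ≤ Real.exp (-B) := by
      calc (2 * σ) ^ m ≤ (Real.exp (-1)) ^ m := by
            refine pow_le_pow_left₀ (by positivity) ?_ m
            rw [Real.exp_neg]
            have h3 := Real.exp_one_lt_d9
            have h4 : (1 : ℝ) / 3 ≤ (Real.exp 1)⁻¹ := by
              rw [one_div]
              exact inv_anti₀ (Real.exp_pos _) (by linarith)
            linarith
        _ = Real.exp (-m) := by rw [← Real.exp_nat_mul]; congr 1; ring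
        _ ≤ Real.exp (-B) := Real.exp_le_exp.2 (neg_le_neg hm)
    have h2 : Real.exp (-(6 * (2 * B + 1) * σ)) ≤ 1 := by
      rw [Real.exp_le_one_iff]
      have : 0 ≤ 6 * (2 * B + 1) * σ := by positivity
      linarith
    calc Real.exp B * (2 * σ) ^ m * Real.exp (-(6 * (2 * B + 1) * σ))
        ≤ Real.exp B * Real.exp (-B) * 1 :=
          mul_le_mul (mul_le_mul_of_nonneg_left h1 (Real.exp_pos _).le) h2
            (Real.exp_pos _).le (by positivity)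
      _ = 1 := by rw [mul_one, ← Real.exp_add, add_neg_cancel, Real.exp_zero]

theorem t_TC1 (hc : S_cells) : S_TC1 := by
  intro h hh ρ B b τ δ η hρ hB hb hτ hδ hη _ hbd hvol ζ₀ hζ₀ hη₀
  have hρ0 : 0 < ρ := by linarith
  obtain ⟨s, J, hs, hJ, hcell⟩ := hc (fun x : ℝ => ‖h (x : ℂ)‖)
    ((hh.continuous.comp Complex.continuous_ofReal).norm) ρ (Real.exp b) (Real.exp (b + 1)) δ hρ0
    (Real.exp_lt_exp.2 (by linarith)) hδ hvol
  set m : ℕ := ⌈B⌉₊ with hm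
  have hmB : B ≤ m := Nat.le_ceil B
  have hmB' : (m : ℝ) ≤ B + 1 := (Nat.ceil_lt_add_one hB).le
  set κ : ℝ := 6 * (2 * B + 1) / ρ with hκ
  have hκ0 : 0 ≤ κ := by positivity
  set U : Set ℂ := {ζ | ‖ζ‖ < ρ ∧ 0 < ζ.im} with hU
  have hUo : IsOpen U := (isOpen_lt continuous_norm continuous_const).inter
    (isOpen_lt continuous_const Complex.continuous_im)
  have hUb : Bornology.IsBounded U := by
    refine (Metric.isBounded_ball (x := (0 : ℂ)) (r := ρ)).subset ?_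
    intro ζ hζ
    rw [Metric.mem_ball, dist_zero_right]
    exact hζ.1
  have hUc : ∀ ζ ∈ closure U, ‖ζ‖ ≤ ρ ∧ 0 ≤ ζ.im := by
    have hcl : IsClosed {ζ : ℂ | ‖ζ‖ ≤ ρ ∧ 0 ≤ ζ.im} :=
      (isClosed_le continuous_norm continuous_const).inter
        (isClosed_le continuous_const Complex.continuous_im)
    intro ζ hζ
    have hsub : U ⊆ {ζ : ℂ | ‖ζ‖ ≤ ρ ∧ 0 ≤ ζ.im} := fun ζ hζ => ⟨hζ.1.le, hζ.2.le⟩
    exact closure_minimal hsub hcl hζ
  have hdiff : DiffContOnCl ℂ (tca_H h ρ B (τ + κ) s m J) U := by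
    refine DifferentiableOn.diffContOnCl fun ζ hζ => ?_
    exact (tca_H_diff hh ρ B (τ + κ) hs m J (hUc ζ hζ).2).differentiableWithinAt
  have hexp1 : 1 ≤ Real.exp (b + 1) := Real.one_le_exp (by linarith)
  have hfr : ∀ ζ ∈ frontier U, ‖tca_H h ρ B (τ + κ) s m J ζ‖ ≤ Real.exp (b + 1) := by
    intro ζ hζ
    rw [hUo.frontier_eq] at hζ
    obtain ⟨h1, h2⟩ := hUc ζ hζ.1
    have hP := tca_psi_nonneg hs J h2
    rw [tca_H_norm]
    rcases h2.eq_or_lt with hy | hy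
    · -- the real axis
      have hre : ((ζ.re : ℝ) : ℂ) = ζ := by
        apply Complex.ext
        · simp
        · simp [hy.symm]
      have hx : |ζ.re| ≤ ρ := (Complex.abs_re_le_norm ζ).trans h1
      have h3 : ‖1 - ζ ^ 2 / (ρ : ℂ) ^ 2‖ ≤ 1 := by
        rw [← hre]
        have h4 : (1 : ℂ) - (ζ.re : ℂ) ^ 2 / (ρ : ℂ) ^ 2 = ((1 - ζ.re ^ 2 / ρ ^ 2 : ℝ) : ℂ) := by
          push_cast
          rfl
        have h5 : ζ.re ^ 2 / ρ ^ 2 ≤ 1 := by
          rw [div_le_one (by positivity), ← sq_abs]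
          exact pow_le_pow_left₀ (abs_nonneg _) hx 2
        have h6 : 0 ≤ ζ.re ^ 2 / ρ ^ 2 := by positivity
        rw [h4, Complex.norm_real, Real.norm_eq_abs, abs_le]
        constructor <;> linarith
      have h4 : ‖1 - ζ ^ 2 / (ρ : ℂ) ^ 2‖ ^ m ≤ 1 := pow_le_one₀ (norm_nonneg _) h3
      rw [← hy, mul_zero, neg_zero, zero_sub]
      have h5 : ‖h ζ‖ * ‖1 - ζ ^ 2 / (ρ : ℂ) ^ 2‖ ^ m ≤ ‖h ζ‖ :=
        mul_le_of_le_one_right (norm_nonneg _) h4
      rcases le_or_gt ‖h ζ‖ (Real.exp (b + 1)) with h6 | h6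
      · have h7 : Real.exp (-(B * (tca_psi s J ζ).re)) ≤ 1 := by
          rw [Real.exp_le_one_iff]
          have := mul_nonneg hB hP
          linarith
        calc ‖h ζ‖ * ‖1 - ζ ^ 2 / (ρ : ℂ) ^ 2‖ ^ m * Real.exp (-(B * (tca_psi s J ζ).re))
            ≤ ‖h ζ‖ * ‖1 - ζ ^ 2 / (ρ : ℂ) ^ 2‖ ^ m :=
              mul_le_of_le_one_right (by positivity) h7
          _ ≤ Real.exp (b + 1) := h5.trans h6
      · have h7 := tca_psi_one hs J hy.symm (hcell ζ.re hx (by rw [hre]; exact h6))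
        have h8 : ‖h ζ‖ ≤ Real.exp B := by
          have := hbd ζ h1
          rwa [← hy, abs_zero, mul_zero, add_zero] at this
        calc ‖h ζ‖ * ‖1 - ζ ^ 2 / (ρ : ℂ) ^ 2‖ ^ m * Real.exp (-(B * (tca_psi s J ζ).re))
            ≤ Real.exp B * Real.exp (-B) := by
              refine mul_le_mul (h5.trans h8) (Real.exp_le_exp.2 ?_) (Real.exp_pos _).le
                (Real.exp_pos _).le
              nlinarith
          _ = 1 := by rw [← Real.exp_add, add_neg_cancel, Real.exp_zero]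
          _ ≤ Real.exp (b + 1) := hexp1
    · -- the circle
      have hnorm : ‖ζ‖ = ρ := by
        by_contra hne
        exact hζ.2 ⟨lt_of_le_of_ne h1 hne, hy⟩
      have hσ0 : 0 ≤ ζ.im / ρ := by positivity
      have hσ1 : ζ.im / ρ ≤ 1 := by
        rw [div_le_one hρ0]
        exact (Complex.im_le_norm ζ).trans h1
      have h3 := tca_num hB hmB hmB' hσ0 hσ1
      have h4 : ‖h ζ‖ ≤ Real.exp (B + τ * ζ.im) := by
        have := hbd ζ h1
        rwa [abs_of_pos hy] at this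
      rw [tca_circle hρ0 hnorm h2]
      have h5 : Real.exp (-((τ + κ) * ζ.im) - B * (tca_psi s J ζ).re) ≤
          Real.exp (-(τ * ζ.im)) * Real.exp (-(6 * (2 * B + 1) * (ζ.im / ρ))) := by
        rw [← Real.exp_add]
        refine Real.exp_le_exp.2 ?_
        have h6 : κ * ζ.im = 6 * (2 * B + 1) * (ζ.im / ρ) := by
          rw [hκ]
          ring
        have h7 := mul_nonneg hB hP
        rw [← h6]
        linarith
      calc ‖h ζ‖ * (2 * (ζ.im / ρ)) ^ m * Real.exp (-((τ + κ) * ζ.im) - B * (tca_psi s J ζ).re)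
          ≤ Real.exp (B + τ * ζ.im) * (2 * (ζ.im / ρ)) ^ m *
            (Real.exp (-(τ * ζ.im)) * Real.exp (-(6 * (2 * B + 1) * (ζ.im / ρ)))) :=
            mul_le_mul (mul_le_mul_of_nonneg_right h4 (by positivity)) h5 (Real.exp_pos _).le
              (by positivity)
        _ = (Real.exp (B + τ * ζ.im) * Real.exp (-(τ * ζ.im))) * (2 * (ζ.im / ρ)) ^ m *
            Real.exp (-(6 * (2 * B + 1) * (ζ.im / ρ))) := by ring
        _ = Real.exp B * (2 * (ζ.im / ρ)) ^ m * Real.exp (-(6 * (2 * B + 1) * (ζ.im / ρ))) := by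
            rw [← Real.exp_add]
            congr 3
            ring
        _ ≤ 1 := h3
        _ ≤ Real.exp (b + 1) := hexp1
  -- conclusion
  have hy0 : 0 < ζ₀.im := hη.trans_le hη₀
  have hy3 : ζ₀.im ≤ 3 := (Complex.im_le_norm ζ₀).trans hζ₀
  have hmem : ζ₀ ∈ closure U := subset_closure ⟨by linarith, hy0⟩
  have hmax := Complex.norm_le_of_forall_mem_frontier_norm_le hUb hdiff hfr hmem
  rw [tca_H_norm] at hmax
  have hP := tca_psi_le hs hη J hη₀ hJ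
  have hP0 := tca_psi_nonneg hs J hy0.le
  -- lower bound of the polynomial factor
  have hfac : Real.exp (-(1 / ρ)) ≤ ‖1 - ζ₀ ^ 2 / (ρ : ℂ) ^ 2‖ := by
    have h1 : 1 - 9 / ρ ^ 2 ≤ ‖1 - ζ₀ ^ 2 / (ρ : ℂ) ^ 2‖ := by
      have h2 := norm_sub_norm_le (1 : ℂ) (ζ₀ ^ 2 / (ρ : ℂ) ^ 2)
      have h3 : ‖ζ₀ ^ 2 / (ρ : ℂ) ^ 2‖ ≤ 9 / ρ ^ 2 := by
        rw [norm_div, norm_pow, norm_pow, Complex.norm_real, Real.norm_eq_abs, sq_abs]
        refine div_le_div_of_nonneg_right ?_ (by positivity)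
        calc ‖ζ₀‖ ^ 2 ≤ 3 ^ 2 := pow_le_pow_left₀ (norm_nonneg _) hζ₀ 2
          _ = 9 := by norm_num
      rw [norm_one] at h2
      linarith
    refine le_trans ?_ h1
    have h2 : 1 + 1 / ρ ≤ Real.exp (1 / ρ) := by
      have := Real.add_one_le_exp (1 / ρ)
      linarith
    have h3 : 0 < 1 + 1 / ρ := by positivity
    rw [Real.exp_neg]
    refine (inv_anti₀ h3 h2).trans ?_
    rw [inv_le_iff_one_le_mul₀ h3]
    have h4 : (1 - 9 / ρ ^ 2) * (1 + 1 / ρ) = 1 + (ρ ^ 2 - 9 * ρ - 9) / ρ ^ 3 := by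
      field_simp
      ring
    rw [h4]
    have h5 : 0 ≤ (ρ ^ 2 - 9 * ρ - 9) / ρ ^ 3 := by
      apply div_nonneg _ (by positivity)
      nlinarith
    linarith
  have hfac2 : Real.exp (-((B + 1) / ρ)) ≤ ‖1 - ζ₀ ^ 2 / (ρ : ℂ) ^ 2‖ ^ m := by
    calc Real.exp (-((B + 1) / ρ)) ≤ Real.exp (m * (-(1 / ρ))) := by
          refine Real.exp_le_exp.2 ?_
          have : (m : ℝ) / ρ ≤ (B + 1) / ρ := div_le_div_of_nonneg_right hmB' hρ0.le
          have e : (m : ℝ) * (-(1 / ρ)) = -((m : ℝ) / ρ) := by ring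
          rw [e]
          linarith
      _ = Real.exp (-(1 / ρ)) ^ m := by rw [Real.exp_nat_mul]
      _ ≤ _ := pow_le_pow_left₀ (Real.exp_pos _).le hfac m
  have hfac3 : Real.exp (-(3 * τ + 36 * (B + 1) / ρ) - B * (2 * δ / η)) ≤
      Real.exp (-((τ + κ) * ζ₀.im) - B * (tca_psi s J ζ₀).re) := by
    refine Real.exp_le_exp.2 ?_
    have h1 : B * (tca_psi s J ζ₀).re ≤ B * (2 * δ / η) := mul_le_mul_of_nonneg_left hP hB
    have h2 : τ * ζ₀.im ≤ 3 * τ := by nlinarith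
    have h3 : κ * ζ₀.im ≤ 36 * (B + 1) / ρ := by
      have h4 : κ * ζ₀.im ≤ κ * 3 := mul_le_mul_of_nonneg_left hy3 hκ0
      have h5 : κ * 3 ≤ 36 * (B + 1) / ρ := by
        rw [hκ, div_mul_eq_mul_div]
        refine div_le_div_of_nonneg_right ?_ hρ0.le
        linarith
      linarith
    linarith
  have hprod : ‖h ζ₀‖ * (Real.exp (-((B + 1) / ρ)) *
      Real.exp (-(3 * τ + 36 * (B + 1) / ρ) - B * (2 * δ / η))) ≤ Real.exp (b + 1) := by
    refine le_trans ?_ hmax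
    rw [mul_assoc]
    exact mul_le_mul_of_nonneg_left (mul_le_mul hfac2 hfac3 (Real.exp_pos _).le
      (by positivity)) (norm_nonneg _)
  rw [← Real.exp_add, ← le_div_iff₀ (Real.exp_pos _), ← Real.exp_sub] at hprod
  refine hprod.trans (Real.exp_le_exp.2 ?_)
  have h1 : B * (2 * δ / η) ≤ (B + 1) * (2 * δ / η) :=
    mul_le_mul_of_nonneg_right (by linarith) (by positivity)
  have h2 : (B + 1) * (37 / ρ + 2 * δ / η) =
      (B + 1) / ρ + 36 * (B + 1) / ρ + (B + 1) * (2 * δ / η) := by ring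
  rw [h2]
  linarith

end

end Pool.Agent.H429K
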