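import Pool.Agent.H429K.Stmts

set_option autoImplicit false

open MeasureTheory Filter Topology

namespace Pool.Agent.H429K

noncomputable section

/-- real part of the inverse -/
private theorem tcb_inv_re (w : ℂ) : (1 / w).re = w.re / (w.re ^ 2 + w.im ^ 2) := by
  rw [one_div, Complex.inv_re, Complex.normSq_apply, ← sq, ← sq]

private theorem tcb_inv_re_nonneg {w : ℂ} (h : 0 ≤ w.re) : 0 ≤ (1 / w).re := by
  rw [tcb_inv_re]
  positivity

/-- the auxiliary function -/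
private def tcb_Phi (η : ℝ) (ζ : ℂ) : ℂ :=
  ((5 * η : ℝ) : ℂ) * (1 / (((3 + η : ℝ) : ℂ) - ζ) + 1 / (((3 + η : ℝ) : ℂ) + ζ))

private theorem tcb_Phi_re (η : ℝ) (ζ : ℂ) : (tcb_Phi η ζ).re =
    5 * η * ((1 / (((3 + η : ℝ) : ℂ) - ζ)).re + (1 / (((3 + η : ℝ) : ℂ) + ζ)).re) := by
  rw [tcb_Phi, Complex.re_ofReal_mul, Complex.add_re]

private theorem tcb_re_le {ζ : ℂ} {r : ℝ} (h : ‖ζ‖ ≤ r) : -r ≤ ζ.re ∧ ζ.re ≤ r := by
  have := Complex.abs_re_le_norm ζ
  exact abs_le.1 (this.trans h)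

private theorem tcb_Phi_nonneg {η : ℝ} (hη : 0 < η) {ζ : ℂ} (hz : ‖ζ‖ ≤ 3) :
    0 ≤ (tcb_Phi η ζ).re := by
  have h := tcb_re_le hz
  rw [tcb_Phi_re]
  have h1 : 0 ≤ (1 / (((3 + η : ℝ) : ℂ) - ζ)).re := by
    refine tcb_inv_re_nonneg ?_
    rw [Complex.sub_re, Complex.ofReal_re]
    linarith
  have h2 : 0 ≤ (1 / (((3 + η : ℝ) : ℂ) + ζ)).re := by
    refine tcb_inv_re_nonneg ?_
    rw [Complex.add_re, Complex.ofReal_re]
    linarith
  positivity

private theorem tcb_key {η a s : ℝ} (hη : 0 < η) (ha1 : η ≤ a) (ha2 : a ≤ 2 * η) (hs : s ^ 2 ≤ η ^ 2) :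
    2 ≤ 5 * η * (a / (a ^ 2 + s ^ 2)) := by
  have ha : 0 < a := lt_of_lt_of_le hη ha1
  have h0 : 0 < a ^ 2 + s ^ 2 := by positivity
  rw [← mul_div_assoc, le_div_iff₀ h0]
  nlinarith [mul_nonneg (sub_nonneg.2 ha1) (sub_nonneg.2 ha2)]

private theorem tcb_near {η r s : ℝ} (hη : 0 < η) (hη2 : η ≤ 1 / 2) (hr : 0 ≤ r)
    (h9 : r ^ 2 + s ^ 2 = 9) (hs : s ^ 2 ≤ η ^ 2) : η ≤ 3 + η - r ∧ 3 + η - r ≤ 2 * η := by
  have h1 : r ≤ 3 := by nlinarith [sq_nonneg s]
  have h2 : η ^ 2 ≤ η * (1 / 2) := by nlinarith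
  have h3 : (3 - r) * (3 + r) ≤ η * (1 / 2) := by nlinarith
  have h4 : (3 - r) * 3 ≤ (3 - r) * (3 + r) := by nlinarith
  constructor
  · linarith
  · linarith

private theorem tcb_Phi_one {η : ℝ} (hη : 0 < η) (hη2 : η ≤ 1 / 2) {ζ : ℂ} (hz : ‖ζ‖ = 3)
    (him : |ζ.im| < η) : 1 ≤ (tcb_Phi η ζ).re := by
  have h9 : ζ.re ^ 2 + ζ.im ^ 2 = 9 := by
    have h := Complex.normSq_eq_norm_sq ζ
    rw [hz, Complex.normSq_apply] at h
    nlinarith
  have hs : ζ.im ^ 2 ≤ η ^ 2 := by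
    rw [← sq_abs ζ.im]
    exact pow_le_pow_left₀ (abs_nonneg _) him.le 2
  have h := tcb_re_le hz.le
  rw [tcb_Phi_re, mul_add]
  rcases le_total 0 ζ.re with hr | hr
  · obtain ⟨a1, a2⟩ := tcb_near hη hη2 hr h9 hs
    have h1 : 2 ≤ 5 * η * (1 / (((3 + η : ℝ) : ℂ) - ζ)).re := by
      rw [tcb_inv_re, Complex.sub_re, Complex.sub_im, Complex.ofReal_re, Complex.ofReal_im]
      exact tcb_key hη a1 a2 (by rw [zero_sub, neg_sq]; exact hs)
    have h2 : 0 ≤ 5 * η * (1 / (((3 + η : ℝ) : ℂ) + ζ)).re := by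
      refine mul_nonneg (by positivity) (tcb_inv_re_nonneg ?_)
      rw [Complex.add_re, Complex.ofReal_re]
      linarith
    linarith
  · obtain ⟨a1, a2⟩ := tcb_near hη hη2 (r := -ζ.re) (by linarith) (by rw [neg_sq]; exact h9) hs
    have h1 : 2 ≤ 5 * η * (1 / (((3 + η : ℝ) : ℂ) + ζ)).re := by
      rw [tcb_inv_re, Complex.add_re, Complex.add_im, Complex.ofReal_re, Complex.ofReal_im]
      exact tcb_key hη (by linarith) (by linarith) (by rw [zero_add]; exact hs)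
    have h2 : 0 ≤ 5 * η * (1 / (((3 + η : ℝ) : ℂ) - ζ)).re := by
      refine mul_nonneg (by positivity) (tcb_inv_re_nonneg ?_)
      rw [Complex.sub_re, Complex.ofReal_re]
      linarith
    linarith

private theorem tcb_inv_norm {η : ℝ} (hη : 0 < η) {ζ : ℂ} (hz : ‖ζ‖ ≤ 2) :
    ‖1 / (((3 + η : ℝ) : ℂ) - ζ)‖ ≤ 1 := by
  have h1 : 1 ≤ ‖((3 + η : ℝ) : ℂ) - ζ‖ := by
    have h2 := norm_sub_norm_le ((3 + η : ℝ) : ℂ) ζ
    rw [Complex.norm_real, Real.norm_eq_abs, abs_of_pos (by linarith)] at h2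
    linarith
  rw [norm_div, norm_one]
  exact (div_le_one (by linarith)).2 h1

private theorem tcb_Phi_le {η : ℝ} (hη : 0 < η) {ζ : ℂ} (hz : ‖ζ‖ ≤ 2) :
    (tcb_Phi η ζ).re ≤ 10 * η := by
  refine (Complex.re_le_norm _).trans ?_
  rw [tcb_Phi, norm_mul, Complex.norm_real, Real.norm_eq_abs, abs_of_pos (by positivity)]
  have h1 := tcb_inv_norm hη hz
  have h2 : ‖1 / (((3 + η : ℝ) : ℂ) + ζ)‖ ≤ 1 := by
    have := tcb_inv_norm hη (ζ := -ζ) (by rwa [norm_neg])
    rwa [sub_neg_eq_add] at this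
  have h3 := norm_add_le (1 / (((3 + η : ℝ) : ℂ) - ζ)) (1 / (((3 + η : ℝ) : ℂ) + ζ))
  nlinarith

private theorem tcb_Phi_diff {η : ℝ} (hη : 0 < η) {ζ : ℂ} (hz : ‖ζ‖ ≤ 3) :
    DifferentiableAt ℂ (tcb_Phi η) ζ := by
  have h := tcb_re_le hz
  have n1 : ((3 + η : ℝ) : ℂ) - ζ ≠ 0 := by
    intro h0
    have := congrArg Complex.re h0
    rw [Complex.sub_re, Complex.ofReal_re, Complex.zero_re] at this
    linarith
  have n2 : ((3 + η : ℝ) : ℂ) + ζ ≠ 0 := by
    intro h0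
    have := congrArg Complex.re h0
    rw [Complex.add_re, Complex.ofReal_re, Complex.zero_re] at this
    linarith
  unfold tcb_Phi
  refine (differentiableAt_const _).mul (DifferentiableAt.add ?_ ?_)
  · exact (differentiableAt_const _).div ((differentiableAt_const _).sub differentiableAt_id) n1
  · exact (differentiableAt_const _).div ((differentiableAt_const _).add differentiableAt_id) n2

theorem t_TC (h1 : S_TC1) : S_TC := by
  intro h hd ρ B b τ δ η hρ hB hb hτ hδ hη hη2 hgr hbad ζ hζ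
  set E : ℝ := b + 1 + 3 * τ + (B + 1) * (37 / ρ + 2 * δ / η) with hE
  have hρ0 : 0 < ρ := by linarith
  have hE3 : 3 * τ ≤ E := by
    have : 0 ≤ (B + 1) * (37 / ρ + 2 * δ / η) := by positivity
    linarith
  -- the estimate away from the real axis
  have hfar : ∀ w : ℂ, ‖w‖ ≤ 3 → η ≤ |w.im| → ‖h w‖ ≤ Real.exp E := by
    intro w hw him
    rcases le_total 0 w.im with hs | hs
    · rw [abs_of_nonneg hs] at him
      exact h1 h hd ρ B b τ δ η hρ hB hb hτ hδ hη hη2 hgr hbad w hw him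
    · rw [abs_of_nonpos hs] at him
      have hd' : Differentiable ℂ (fun z => h (-z)) := hd.comp differentiable_neg
      have hgr' : ∀ z : ℂ, ‖z‖ ≤ ρ → ‖h (-z)‖ ≤ Real.exp (B + τ * |z.im|) := by
        intro z hz
        have := hgr (-z) (by rwa [norm_neg])
        rwa [Complex.neg_im, abs_neg] at this
      have hbad' : volume {x : ℝ | |x| ≤ ρ ∧ Real.exp b < ‖h (-(x : ℂ))‖} ≤ ENNReal.ofReal δ := by
        have e : {x : ℝ | |x| ≤ ρ ∧ Real.exp b < ‖h (-(x : ℂ))‖} =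
            Neg.neg ⁻¹' {x : ℝ | |x| ≤ ρ ∧ Real.exp b < ‖h (x : ℂ)‖} := by
          ext x
          simp only [Set.mem_preimage, Set.mem_ofPred_eq, abs_neg, Complex.ofReal_neg]
        rw [e, Measure.measure_preimage_neg]
        exact hbad
      have := h1 (fun z => h (-z)) hd' ρ B b τ δ η hρ hB hb hτ hδ hη hη2 hgr' hbad' (-w)
        (by rwa [norm_neg]) (by rwa [Complex.neg_im])
      simpa using this
  -- the auxiliary function
  set H : ℂ → ℂ := fun z => h z * Complex.exp (-(B : ℂ) * tcb_Phi η z) with hH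
  have hHn : ∀ z, ‖H z‖ = ‖h z‖ * Real.exp (-(B * (tcb_Phi η z).re)) := by
    intro z
    rw [hH]
    simp only
    rw [norm_mul, Complex.norm_exp]
    congr 2
    rw [← Complex.ofReal_neg, Complex.re_ofReal_mul]
    ring
  have hHd : ∀ z : ℂ, ‖z‖ ≤ 3 → DifferentiableAt ℂ H z := by
    intro z hz
    exact (hd z).mul (((differentiableAt_const _).mul (tcb_Phi_diff hη hz)).cexp)
  have hDC : DiffContOnCl ℂ H (Metric.ball 0 3) := by
    refine DifferentiableOn.diffContOnCl ?_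
    rw [closure_ball (0 : ℂ) (by norm_num)]
    intro z hz
    exact (hHd z (by simpa using hz)).differentiableWithinAt
  have hfront : ∀ z ∈ frontier (Metric.ball (0 : ℂ) 3), ‖H z‖ ≤ Real.exp E := by
    intro z hz
    rw [frontier_ball (0 : ℂ) (by norm_num)] at hz
    have hz3 : ‖z‖ = 3 := by simpa using hz
    rw [hHn]
    rcases le_or_gt η |z.im| with him | him
    · have h2 : Real.exp (-(B * (tcb_Phi η z).re)) ≤ 1 := by
        rw [Real.exp_le_one_iff]
        have := mul_nonneg hB (tcb_Phi_nonneg hη hz3.le)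
        linarith
      calc ‖h z‖ * Real.exp (-(B * (tcb_Phi η z).re)) ≤ ‖h z‖ * 1 :=
            mul_le_mul_of_nonneg_left h2 (norm_nonneg _)
        _ = ‖h z‖ := mul_one _
        _ ≤ Real.exp E := hfar z hz3.le him
    · have h2 := hgr z (by rw [hz3]; linarith)
      have h3 : B ≤ B * (tcb_Phi η z).re := by
        have := mul_le_mul_of_nonneg_left (tcb_Phi_one hη hη2 hz3 him) hB
        linarith
      calc ‖h z‖ * Real.exp (-(B * (tcb_Phi η z).re))
          ≤ Real.exp (B + τ * |z.im|) * Real.exp (-(B * (tcb_Phi η z).re)) :=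
            mul_le_mul_of_nonneg_right h2 (Real.exp_pos _).le
        _ = Real.exp (B + τ * |z.im| + -(B * (tcb_Phi η z).re)) := by rw [← Real.exp_add]
        _ ≤ Real.exp E := by
            refine Real.exp_le_exp.2 ?_
            have h4 : τ * |z.im| ≤ τ * 3 := mul_le_mul_of_nonneg_left (by linarith) hτ
            linarith
  have hmax : ‖H ζ‖ ≤ Real.exp E := by
    refine Complex.norm_le_of_forall_mem_frontier_norm_le Metric.isBounded_ball hDC hfront ?_
    rw [closure_ball (0 : ℂ) (by norm_num)]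
    simp only [Metric.mem_closedBall, dist_zero_right]
    linarith
  rw [hHn] at hmax
  have h5 : ‖h ζ‖ ≤ Real.exp E * Real.exp (B * (tcb_Phi η ζ).re) := by
    have h6 := mul_le_mul_of_nonneg_right hmax (Real.exp_pos (B * (tcb_Phi η ζ).re)).le
    rwa [mul_assoc, ← Real.exp_add, neg_add_cancel, Real.exp_zero, mul_one] at h6
  refine h5.trans ?_
  rw [← Real.exp_add]
  refine Real.exp_le_exp.2 ?_
  have h7 : B * (tcb_Phi η ζ).re ≤ B * (10 * η) := mul_le_mul_of_nonneg_left (tcb_Phi_le hη hζ) hB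
  have h8 : b + 1 + 3 * τ + (B + 1) * (37 / ρ + 2 * δ / η + 10 * η) = E + B * (10 * η) + 10 * η := by
    rw [hE]; ring
  rw [h8]
  linarith

end

end Pool.Agent.H429K
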