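import Pool.Agent.H429K.Stmts

open MeasureTheory Filter Topology

namespace Pool.Agent.H429K

noncomputable section

private theorem unif_start (hg : S_growth) (α : ℂ) (L : ℕ) (hL : 6 ≤ L) (hα1 : ‖α‖ ≤ 1) (z : ℂ)
    (m K : ℕ) (hm : m ≤ K) (v : ℝ) :
    Bd α L z m v ((2 : ℝ) ^ K * Real.log (1 + ‖z‖) + Real.pi) := by
  intro ζ hζ
  have h1 := hg α L z 0 m ((v : ℂ) + ζ / (L : ℂ) ^ m) (by omega) hα1
  have hL0 : (0 : ℝ) < (L : ℝ) ^ m := by positivity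
  have hL6 : (6 : ℝ) ≤ (L : ℝ) := by exact_mod_cast hL
  have him : ((v : ℂ) + ζ / (L : ℂ) ^ m).im = ζ.im / (L : ℝ) ^ m := by
    rw [Complex.add_im, Complex.ofReal_im, zero_add]
    have h2 : ((L : ℂ) ^ m) = (((L : ℝ) ^ m : ℝ) : ℂ) := by push_cast; rfl
    rw [h2, Complex.div_ofReal_im]
  have hz1 : (0 : ℝ) < 1 + ‖z‖ := by positivity
  have hz2 : (1 : ℝ) ≤ 1 + ‖z‖ := by linarith [norm_nonneg z]
  rw [zero_add, him, abs_div, abs_of_pos hL0] at h1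
  refine h1.trans ?_
  rw [Real.exp_add]
  apply mul_le_mul
  · show (1 + ‖z‖) ^ (2 ^ m) ≤ _
    have h3 : (1 + ‖z‖) ^ (2 ^ m) ≤ (1 + ‖z‖) ^ (2 ^ K) :=
      pow_le_pow_right₀ hz2 (Nat.pow_le_pow_right (by norm_num) hm)
    refine h3.trans (le_of_eq ?_)
    have h4 : (2 : ℝ) ^ K * Real.log (1 + ‖z‖) = ((2 ^ K : ℕ) : ℝ) * Real.log (1 + ‖z‖) := by
      push_cast; rfl
    rw [h4, Real.exp_nat_mul, Real.exp_log hz1]
  · apply Real.exp_le_exp.2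
    have h5 : |ζ.im| ≤ 2 := (Complex.abs_im_le_norm ζ).trans hζ
    have h6 : 2 * Real.pi / ((L : ℝ) - 2) * (L : ℝ) ^ m * (|ζ.im| / (L : ℝ) ^ m) =
        2 * Real.pi / ((L : ℝ) - 2) * |ζ.im| := by
      field_simp
    rw [h6, div_mul_eq_mul_div, div_le_iff₀ (by linarith)]
    nlinarith [Real.pi_pos, abs_nonneg ζ.im, mul_le_mul_of_nonneg_left h5 Real.pi_pos.le,
      mul_le_mul_of_nonneg_left hL6 Real.pi_pos.le]
  · exact (Real.exp_pos _).le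
  · exact (Real.exp_pos _).le

private theorem unif_vol (L : ℕ) (hL : 6 ≤ L) (P : Set ℝ) (v₀ T δ : ℝ) (n₀ : ℕ)
    (hD : ∀ n ≥ n₀, volume {x : ℝ | |x| ≤ T + 2 * (L : ℝ) ^ 5 ∧ v₀ + x / (L : ℝ) ^ n ∉ P} ≤
      ENNReal.ofReal δ) (x₀ : ℝ) (hx₀ : |x₀| ≤ T) (n N : ℕ) (h1 : n₀ ≤ n) (h2 : n ≤ N) :
    volume {x : ℝ | |x| ≤ 2 * (L : ℝ) ^ 5 ∧ v₀ + x₀ / (L : ℝ) ^ N + x / (L : ℝ) ^ n ∉ P} ≤
      ENNReal.ofReal δ := by
  refine le_trans ?_ (hD n h1)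
  have hLn : (0 : ℝ) < (L : ℝ) ^ n := by positivity
  have hLN : (0 : ℝ) < (L : ℝ) ^ N := by positivity
  set s : ℝ := x₀ * (L : ℝ) ^ n / (L : ℝ) ^ N with hs
  have hs1 : |s| ≤ T := by
    rw [hs, abs_div, abs_mul, abs_of_pos hLn, abs_of_pos hLN, mul_div_assoc]
    have h3 : (L : ℝ) ^ n / (L : ℝ) ^ N ≤ 1 := by
      rw [div_le_one hLN]
      exact pow_le_pow_right₀ (by exact_mod_cast (by omega : 1 ≤ L)) h2
    calc |x₀| * ((L : ℝ) ^ n / (L : ℝ) ^ N) ≤ |x₀| * 1 :=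
          mul_le_mul_of_nonneg_left h3 (abs_nonneg _)
      _ ≤ T := by rw [mul_one]; exact hx₀
  rw [← measure_preimage_add_right volume s
    {x : ℝ | |x| ≤ T + 2 * (L : ℝ) ^ 5 ∧ v₀ + x / (L : ℝ) ^ n ∉ P}]
  apply measure_mono
  rintro x ⟨hx1, hx2⟩
  refine ⟨?_, ?_⟩
  · refine (abs_add_le _ _).trans ?_
    linarith
  · have h4 : v₀ + (x + s) / (L : ℝ) ^ n = v₀ + x₀ / (L : ℝ) ^ N + x / (L : ℝ) ^ n := by
      rw [hs]
      field_simp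
      ring
    rw [h4]
    exact hx2

theorem t_unif (hg : S_growth) (hr : S_rec) : S_unif := by
  intro α L hL hα0 hα1
  obtain ⟨δ₀, b₁, hδ₀, hb₁, hrec⟩ := hr α L hL hα0 hα1
  refine ⟨2 * b₁ + 1, by linarith, ?_⟩
  intro z P hNE v₀ hD T hT
  have hL0 : (0 : ℝ) < (L : ℝ) := by exact_mod_cast (by omega : 0 < L)
  obtain ⟨n₀, hn₀⟩ := hD δ₀ hδ₀ (T + 2 * (L : ℝ) ^ 5) (by positivity)
  set l₀ : ℝ := (2 : ℝ) ^ (n₀ + 4) * Real.log (1 + ‖z‖) + Real.pi with hl₀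
  have hl₀0 : 0 ≤ l₀ := by
    have : 0 ≤ Real.log (1 + ‖z‖) := Real.log_nonneg (by linarith [norm_nonneg z])
    have := Real.pi_pos
    positivity
  obtain ⟨i₀, hi₀⟩ := pow_unbounded_of_one_lt l₀ (by norm_num : (1 : ℝ) < 2)
  -- the iteration
  have hit : ∀ (N : ℕ) (x₀ : ℝ), |x₀| ≤ T → ∀ m, n₀ ≤ m → m ≤ n₀ + 4 → ∀ i, m + 5 * i ≤ N →
      Bd α L z (m + 5 * i) (v₀ + x₀ / (L : ℝ) ^ N) (2 * b₁ + l₀ / 2 ^ i) := by
    intro N x₀ hx₀ m hm1 hm2 i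
    induction i with
    | zero =>
      intro _ ζ hζ
      refine (unif_start hg α L hL hα1 z m (n₀ + 4) hm2 _ ζ hζ).trans ?_
      apply Real.exp_le_exp.2
      rw [pow_zero, div_one]
      linarith
    | succ i ih =>
      intro hN
      have h1 := ih (by omega)
      have h2 := hrec z P hNE (m + 5 * i) (v₀ + x₀ / (L : ℝ) ^ N) (2 * b₁ + l₀ / 2 ^ i)
        (by positivity) (unif_vol L hL P v₀ T δ₀ n₀ hn₀ x₀ hx₀ (m + 5 * i + 5) N (by omega)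
          (by omega)) h1
      have h3 : m + 5 * (i + 1) = m + 5 * i + 5 := by ring
      have h4 : 2 * b₁ + l₀ / 2 ^ (i + 1) = b₁ + (2 * b₁ + l₀ / 2 ^ i) / 2 := by
        rw [pow_succ]
        field_simp
        ring
      rw [h3, h4]
      exact h2
  refine ⟨n₀ + 5 * i₀, ?_⟩
  intro N hN ζ hre him
  have hmod : n₀ + (N - n₀) % 5 + 5 * ((N - n₀) / 5) = N := by
    have := Nat.mod_add_div (N - n₀) 5
    omega
  have h5 := hit N ζ.re hre (n₀ + (N - n₀) % 5) (by omega)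
    (by have := Nat.mod_lt (N - n₀) (by norm_num : 0 < 5); omega) ((N - n₀) / 5) (le_of_eq hmod)
  rw [hmod] at h5
  have h6 := h5 (((ζ.im : ℝ) : ℂ) * Complex.I) (by
    rw [norm_mul, Complex.norm_I, mul_one, Complex.norm_real, Real.norm_eq_abs]
    exact him)
  have h7 : (((v₀ + ζ.re / (L : ℝ) ^ N : ℝ) : ℂ) + ((ζ.im : ℝ) : ℂ) * Complex.I / (L : ℂ) ^ N) =
      (v₀ : ℂ) + ζ / (L : ℂ) ^ N := by
    push_cast
    conv_rhs => rw [← Complex.re_add_im ζ]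
    rw [add_div, add_assoc]
  rw [h7] at h6
  refine h6.trans ?_
  apply Real.exp_le_exp.2
  have h8 : l₀ / 2 ^ ((N - n₀) / 5) ≤ 1 := by
    rw [div_le_one (by positivity)]
    refine hi₀.le.trans ?_
    exact pow_le_pow_right₀ (by norm_num) (by omega)
  linarith

end

end Pool.Agent.H429K
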