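import Pool.Agent.H429K.Basic
import Pool.Agent.H429K.Escm
import Pool.Agent.H429K.Lamae
import Pool.Agent.H429K.Lamm
import Pool.Agent.H429K.Cells
import Pool.Agent.H429K.TCa
import Pool.Agent.H429K.TCb
import Pool.Agent.H429K.Rec
import Pool.Agent.H429K.Unif
import Pool.Agent.H429K.Densm
import Pool.Agent.H429K.Contour
import Pool.Agent.H429K.Stepm
import Pool.Agent.H429K.Energy
import Pool.Agent.H429K.Small
import Pool.Agent.H429K.Corem
import Pool.Agent.H429K.Recur
import Pool.Agent.H429K.Fib
import Pool.Agent.H429K.Chordm
import Pool.Agent.H429K.Equi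
import Pool.Agent.H429K.SubA
import Pool.Agent.H429K.SubB
import Pool.Agent.H429K.Mainm

set_option autoImplicit false

open MeasureTheory Filter Topology

namespace Pool.Agent.H429K

/-! Assembly: everything proved without hypotheses. -/

theorem a_lam : S_lam := t_lam t_lamae t_per t_entire

theorem a_lam1 : S_lam1 := t_lam1 a_lam t_sym

theorem a_TC : S_TC := t_TC (t_TC1 t_cells)

theorem a_rec : S_rec := t_rec t_entire t_add t_growth t_esc a_TC

theorem a_unif : S_unif := t_unif t_growth a_rec

theorem a_step : S_step := t_step t_entire t_contour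

theorem a_energy : S_energy := t_energy t_entire t_growth a_unif a_step

theorem a_core : S_core := t_core t_entire t_add t_dens a_lam a_lam1 a_unif a_energy t_small

theorem a_equi : S_equi := t_equi t_fcont t_tri t_nhds

theorem a_sub1 : S_sub1 := t_sub1 t_fiter t_tri t_nhds a_equi

theorem a_sub2 : S_sub2 := t_sub2 t_add t_fiter t_fcont t_tri t_nhds

theorem a_main : S_main := t_main t_per t_esc a_lam a_lam1 a_core t_recur a_sub1 a_sub2

end Pool.Agent.H429K
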