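import Pool.Agent.H429K.Stmts2

open MeasureTheory Filter Topology

namespace Pool.Agent.H429K

noncomputable section

theorem aream_cont (α : ℂ) (L n : ℕ) : Continuous (fun p : ℝ × ℂ => G α L p.2 n (p.1 : ℂ)) := by
  induction n with
  | zero => exact continuous_snd
  | succ n ih =>
    have h1 : Continuous (fun p : ℝ × ℂ =>
        α * Complex.cos (2 * (Real.pi : ℂ) * (L : ℂ) ^ n * ((p.1 : ℝ) : ℂ))) := by
      have h2 : Continuous (fun p : ℝ × ℂ => ((p.1 : ℝ) : ℂ)) :=
        Complex.continuous_ofReal.comp continuous_fst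
      exact continuous_const.mul (Complex.continuous_cos.comp (continuous_const.mul h2))
    have h3 : (fun p : ℝ × ℂ => G α L p.2 (n + 1) (p.1 : ℂ)) = fun p : ℝ × ℂ =>
        G α L p.2 n (p.1 : ℂ) + (α * Complex.cos (2 * (Real.pi : ℂ) * (L : ℂ) ^ n *
          ((p.1 : ℝ) : ℂ))) * G α L p.2 n (p.1 : ℂ) * (1 - G α L p.2 n (p.1 : ℂ)) := rfl
    rw [h3]
    exact ih.add ((h1.mul ih).mul (continuous_const.sub ih))

theorem aream_esc_meas (α : ℂ) (L : ℕ) : MeasurableSet {p : ℝ × ℂ |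
    Tendsto (fun n => ‖G α L p.2 n (p.1 : ℂ)‖) atTop atTop} :=
  measurableSet_tendsto atTop fun n => (aream_cont α L n).norm.measurable

theorem aream_conv_meas (α : ℂ) (L : ℕ) : MeasurableSet {p : ℝ × ℂ | Conv α L p.2 p.1} := by
  have h1 : MeasurableSet {p : ℝ × ℂ | Tendsto (fun n => G α L p.2 n (p.1 : ℂ)) atTop (𝓝 0)} :=
    measurableSet_tendsto (𝓝 (0 : ℂ)) fun n => (aream_cont α L n).measurable
  have h2 : MeasurableSet {p : ℝ × ℂ | Tendsto (fun n => G α L p.2 n (p.1 : ℂ)) atTop (𝓝 1)} :=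
    measurableSet_tendsto (𝓝 (1 : ℂ)) fun n => (aream_cont α L n).measurable
  exact h1.union (h2.union (aream_esc_meas α L))

theorem aream_conv_basin (hf : S_fiter) (α : ℂ) (L : ℕ) (u : ℝ) (z : ℂ) (h : Conv α L z u) :
    (z : OnePoint ℂ) ∈ basin α L u := by
  have h1 : (fun n => fiter α L u n (z : OnePoint ℂ)) =
      fun n => ((G α L z n (u : ℂ) : ℂ) : OnePoint ℂ) := funext fun n => (hf α L u n).1 z
  show Tendsto (fun n => fiter α L u n (z : OnePoint ℂ)) atTop _ ∨
    Tendsto (fun n => fiter α L u n (z : OnePoint ℂ)) atTop _ ∨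
    Tendsto (fun n => fiter α L u n (z : OnePoint ℂ)) atTop _
  rw [h1]
  rcases h with h | h | h
  · left
    exact (OnePoint.continuous_coe.tendsto (0 : ℂ)).comp h
  · right
    left
    exact (OnePoint.continuous_coe.tendsto (1 : ℂ)).comp h
  · right
    right
    have h2 : Tendsto (fun n => G α L z n (u : ℂ)) atTop (coclosedCompact ℂ) := by
      rw [Filter.coclosedCompact_eq_cocompact, ← Metric.cobounded_eq_cocompact]
      exact tendsto_norm_atTop_iff_cobounded.1 h
    exact OnePoint.tendsto_coe_infty.comp h2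

theorem t_area (hz : S_zcont) (he : S_entire) (hcore : S_core) (hmain : S_main)
    (hpos : S_posesc) (hfe : S_fesc) (hfe2 : S_fesc2) (hf : S_fiter) : S_area := by
  intro α L hL hα0 hα1 hlam
  rcases lt_or_gt_of_ne hlam with hneg | hposi
  · have h1 : ∀ᵐ z : ℂ, ∀ᵐ u : ℝ, Conv α L z u :=
      Eventually.of_forall fun z => hcore α L hL hα0 hα1 hneg z
    have h2 : ∀ᵐ u : ℝ, ∀ᵐ z : ℂ, Conv α L z u :=
      (Measure.ae_ae_comm (μ := (volume : Measure ℝ)) (ν := (volume : Measure ℂ))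
        (p := fun u z => Conv α L z u) (aream_conv_meas α L)).2 h1
    filter_upwards [h2, hmain α L hL hα0 hα1 hneg] with u hu hfb
    rw [← MeasureTheory.ae_iff (p := fun z : ℂ => (z : OnePoint ℂ) ∈ fatou α L u), hfb]
    filter_upwards [hu] with z hz
    exact aream_conv_basin hf α L u z hz
  · have h1 : ∀ᵐ z : ℂ, ∀ᵐ u : ℝ, Tendsto (fun n => ‖G α L z n (u : ℂ)‖) atTop atTop := by
      have h0 : ∀ᵐ z : ℂ, z ≠ 0 := by
        rw [MeasureTheory.ae_iff]
        simp
      have h01 : ∀ᵐ z : ℂ, z ≠ 1 := by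
        rw [MeasureTheory.ae_iff]
        simp
      filter_upwards [h0, h01] with z hz0 hz1
      exact hpos α L hL hα0 hα1 hposi z hz0 hz1
    have h2 : ∀ᵐ u : ℝ, ∀ᵐ z : ℂ, Tendsto (fun n => ‖G α L z n (u : ℂ)‖) atTop atTop :=
      (Measure.ae_ae_comm (μ := (volume : Measure ℝ)) (ν := (volume : Measure ℂ))
        (p := fun (u : ℝ) (z : ℂ) => Tendsto (fun n => ‖G α L z n (u : ℂ)‖) atTop atTop)
        (aream_esc_meas α L)).2 h1
    filter_upwards [h2, hfe2 α L (by omega) hα0 hα1.le] with u hu hR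
    obtain ⟨R, hR0, hR1⟩ := hR
    rw [← MeasureTheory.ae_iff (p := fun z : ℂ => (z : OnePoint ℂ) ∈ fatou α L u)]
    filter_upwards [hu] with z hz
    exact (hfe α L u R hR0 hR1).1 z hz

end

end Pool.Agent.H429K
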