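import Pool.Agent.H429K.Stmts2

set_option autoImplicit false

open MeasureTheory Filter Topology

namespace Pool.Agent.H429K

noncomputable section

private theorem away_lam_neg (α : ℂ) : lam (-α) = lam α := by
  unfold lam
  set f : ℝ → ℝ := fun u => Real.log ‖1 + α * ((Real.cos (2 * Real.pi * u) : ℝ) : ℂ)‖ with hf
  have h1 : ∀ u : ℝ, Real.log ‖1 + -α * ((Real.cos (2 * Real.pi * u) : ℝ) : ℂ)‖ =
      f (u + 1 / 2) := by
    intro u
    simp only [hf]
    have h2 : 2 * Real.pi * (u + 1 / 2) = 2 * Real.pi * u + Real.pi := by ring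
    rw [h2, Real.cos_add_pi]
    push_cast
    congr 2
    ring
  have hper : Function.Periodic f 1 := by
    intro u
    simp only [hf]
    have h2 : 2 * Real.pi * (u + 1) = 2 * Real.pi * u + 2 * Real.pi := by ring
    rw [h2, Real.cos_add_two_pi]
  simp only [h1]
  rw [intervalIntegral.integral_comp_add_right]
  have h3 := hper.intervalIntegral_add_eq (0 + 1 / 2) 0
  rw [show (1 : ℝ) + 1 / 2 = 0 + 1 / 2 + 1 by ring, h3]
  norm_num

private theorem away_log (t : ℝ) (h0 : 0 ≤ t) (h1 : t ≤ 1 / 2) : -(2 * t) ≤ Real.log (1 - t) := by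
  have h2 : 0 < 1 - t := by linarith
  have h3 := Real.one_sub_inv_le_log_of_pos h2
  have h4 : (1 - t)⁻¹ ≤ 1 + 2 * t := by
    rw [inv_le_iff_one_le_mul₀ h2]
    nlinarith
  linarith

/-- the orbit cannot stay near `0` -/
private theorem away_core (a lam0 : ℝ) (ha1 : a < 1) (hlam : 0 < lam0) (c z : ℕ → ℂ)
    (ha0 : 0 ≤ a) (hc : ∀ n, ‖c n‖ ≤ a) (hz : ∀ n, z (n + 1) = z n + c n * z n * (1 - z n))
    (hz0 : ∀ n, z n ≠ 0)
    (hB : Tendsto (fun k : ℕ => (∑ j ∈ Finset.range k, Real.log ‖1 + c j‖) / (k : ℝ)) atTop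
      (𝓝 lam0))
    (s₀ : ℝ) (hs : 0 < s₀) (hs1 : s₀ ≤ (1 - a) / 8) (hs2 : s₀ ≤ lam0 * (1 - a) / 8) (N : ℕ)
    (hN : ∀ n ≥ N, ‖z n‖ < s₀) : False := by
  have ha : 0 < 1 - a := by linarith
  set t : ℝ := s₀ / (1 - a) with ht
  have ht0 : 0 ≤ t := by positivity
  have ht1 : t ≤ 1 / 8 := by
    rw [ht, div_le_iff₀ ha]; linarith
  have ht2 : t ≤ lam0 / 8 := by
    rw [ht, div_le_iff₀ ha]; linarith
  have hstep : ∀ n ≥ N, Real.log ‖z n‖ + Real.log ‖1 + c n‖ - 2 * t ≤ Real.log ‖z (n + 1)‖ := by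
    intro n hn
    have h1 : z (n + 1) = z n * (1 + c n - c n * z n) := by rw [hz n]; ring
    have h2 : 1 - a ≤ ‖1 + c n‖ := by
      have := norm_sub_norm_le (1 : ℂ) (-c n)
      rw [sub_neg_eq_add, norm_neg, norm_one] at this
      have := hc n
      linarith
    have h2p : 0 < ‖1 + c n‖ := by linarith
    have h3 : ‖c n * z n‖ ≤ s₀ := by
      rw [norm_mul]
      have h4 := hc n
      have h5 := hN n hn
      have h6 := norm_nonneg (c n)
      have h7 := norm_nonneg (z n)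
      nlinarith
    have h4 : ‖1 + c n‖ * (1 - t) ≤ ‖1 + c n - c n * z n‖ := by
      have h5 := norm_sub_norm_le (1 + c n) (c n * z n)
      have h6 : s₀ ≤ ‖1 + c n‖ * t := by
        rw [ht, mul_div_assoc', le_div_iff₀ ha]
        nlinarith
      nlinarith
    have h1t : 0 < 1 - t := by linarith
    have h5 : 0 < ‖1 + c n‖ * (1 - t) := by positivity
    rw [h1, norm_mul, Real.log_mul (norm_ne_zero_iff.mpr (hz0 n)) (by linarith)]
    have h6 : Real.log (‖1 + c n‖ * (1 - t)) ≤ Real.log ‖1 + c n - c n * z n‖ :=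
      Real.log_le_log h5 h4
    rw [Real.log_mul h2p.ne' h1t.ne'] at h6
    have h7 := away_log t ht0 (by linarith)
    linarith
  set S : ℕ → ℝ := fun k => ∑ j ∈ Finset.range k, Real.log ‖1 + c j‖ with hS
  have hsum : ∀ m : ℕ, Real.log ‖z N‖ + (S (N + m) - S N) - m * (2 * t) ≤
      Real.log ‖z (N + m)‖ := by
    intro m
    induction m with
    | zero => simp
    | succ m ih =>
      have h1 := hstep (N + m) (by omega)
      have h2 : S (N + (m + 1)) = S (N + m) + Real.log ‖1 + c (N + m)‖ := by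
        simp only [hS, ← add_assoc, Finset.sum_range_succ]
      rw [h2, ← add_assoc N m 1]
      push_cast
      linarith
  have hev : ∀ᶠ k : ℕ in atTop, 3 / 4 * lam0 < S k / (k : ℝ) :=
    hB.eventually (lt_mem_nhds (by linarith))
  have hev2 : ∀ᶠ k : ℕ in atTop, (S N - Real.log ‖z N‖) / (lam0 / 2) < (k : ℝ) :=
    tendsto_natCast_atTop_atTop.eventually_gt_atTop _
  obtain ⟨k, hk1, hk2, hk3⟩ := (hev.and (hev2.and (eventually_ge_atTop (N + 1)))).exists
  obtain ⟨m, rfl⟩ := Nat.exists_eq_add_of_le (show N ≤ k by omega)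
  have hkpos : (0 : ℝ) < ((N + m : ℕ) : ℝ) := by
    have : 0 < N + m := by omega
    exact_mod_cast this
  have h1 := hsum m
  rw [lt_div_iff₀ hkpos] at hk1
  rw [div_lt_iff₀ (by linarith)] at hk2
  have h2 : Real.log ‖z (N + m)‖ < 0 := by
    apply Real.log_neg (norm_pos_iff.mpr (hz0 _))
    have h3 := hN (N + m) (by omega)
    linarith
  have h3 : (m : ℝ) ≤ ((N + m : ℕ) : ℝ) := by push_cast; linarith [Nat.cast_nonneg (α := ℝ) N]
  have h4 : (m : ℝ) * (2 * t) ≤ ((N + m : ℕ) : ℝ) * (lam0 / 4) := by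
    have h5 : 2 * t ≤ lam0 / 4 := by linarith
    have h6 : (0 : ℝ) ≤ (m : ℝ) := Nat.cast_nonneg m
    nlinarith
  nlinarith

/-- once near `0`, always near `0` -/
private theorem away_stay (a : ℝ) (ha1 : a < 1) (c z : ℕ → ℂ) (hc : ∀ n, ‖c n‖ ≤ a)
    (hz : ∀ n, z (n + 1) = z n + c n * z n * (1 - z n))
    (s₀ : ℝ) (hs : 0 < s₀) (hs1 : s₀ ≤ 1 / 8) (N : ℕ)
    (hN : ∀ n ≥ N, ‖z n‖ < s₀ ∨ ‖1 - z n‖ < s₀) (h0 : ‖z N‖ < s₀) : ∀ n ≥ N, ‖z n‖ < s₀ := by
  intro n hn
  induction n, hn using Nat.le_induction with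
  | base => exact h0
  | succ n hn ih =>
    rcases hN (n + 1) (by omega) with h | h
    · exact h
    · exfalso
      have h1 : ‖1 - z n‖ ≤ 2 := by
        have := norm_sub_le (1 : ℂ) (z n)
        rw [norm_one] at this
        linarith
      have h2 : ‖z (n + 1)‖ ≤ 3 * s₀ := by
        rw [hz n]
        refine (norm_add_le _ _).trans ?_
        rw [norm_mul, norm_mul]
        have h3 := hc n
        have h4 := norm_nonneg (c n)
        have h5 := norm_nonneg (z n)
        have h6 := norm_nonneg (1 - z n)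
        have h7 : ‖c n‖ * ‖z n‖ ≤ s₀ := by nlinarith
        have h8 : 0 ≤ ‖c n‖ * ‖z n‖ := by positivity
        nlinarith
      have h3 : (1 : ℝ) ≤ ‖1 - z (n + 1)‖ + ‖z (n + 1)‖ := by
        have := norm_add_le (1 - z (n + 1)) (z (n + 1))
        simpa using this
      linarith

theorem t_away (_hs : S_sym) (hb : S_birk) (hn : S_nz) : S_away := by
  intro α L hL hα hlam
  have hα0 : 0 ≤ ‖α‖ := norm_nonneg α
  have h1α : 0 < 1 - ‖α‖ := by linarith
  set s₀ : ℝ := min (1 / 8) (min ((1 - ‖α‖) / 8) (lam α * (1 - ‖α‖) / 8)) with hs₀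
  have hs : 0 < s₀ := by
    rw [hs₀]
    refine lt_min (by norm_num) (lt_min (by positivity) (by positivity))
  have hs1 : s₀ ≤ 1 / 8 := min_le_left _ _
  have hs2 : s₀ ≤ (1 - ‖α‖) / 8 := (min_le_right _ _).trans (min_le_left _ _)
  have hs3 : s₀ ≤ lam α * (1 - ‖α‖) / 8 := (min_le_right _ _).trans (min_le_right _ _)
  refine ⟨s₀, hs, fun z hz0 hz1 => ?_⟩
  filter_upwards [hb α L hL hα, hb (-α) L hL (by rwa [norm_neg]), hn α L z (by omega) hz0 hz1]
    with u hu1 hu2 hu3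
  by_contra hcon
  rw [Filter.not_frequently] at hcon
  obtain ⟨N, hN⟩ := eventually_atTop.mp hcon
  set c : ℕ → ℂ := fun n => α * ((Real.cos (2 * Real.pi * ((L : ℝ) ^ n * u)) : ℝ) : ℂ) with hcdef
  set w : ℕ → ℂ := fun n => G α L z n (u : ℂ) with hw
  have hwstep : ∀ n, w (n + 1) = w n + c n * w n * (1 - w n) := by
    intro n
    have h1 : w (n + 1) = step (α * Complex.cos (2 * (Real.pi : ℂ) * (L : ℂ) ^ n * (u : ℂ)))
      (w n) := rfl
    rw [h1, step, hcdef]
    have h2 : Complex.cos (2 * (Real.pi : ℂ) * (L : ℂ) ^ n * (u : ℂ)) =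
        ((Real.cos (2 * Real.pi * ((L : ℝ) ^ n * u)) : ℝ) : ℂ) := by
      rw [Complex.ofReal_cos]
      congr 1
      push_cast
      ring
    rw [h2]
  have hcn : ∀ n, ‖c n‖ ≤ ‖α‖ := by
    intro n
    rw [hcdef]
    simp only [norm_mul, Complex.norm_real, Real.norm_eq_abs]
    have := Real.abs_cos_le_one (2 * Real.pi * ((L : ℝ) ^ n * u))
    nlinarith
  have hN' : ∀ n ≥ N, ‖w n‖ < s₀ ∨ ‖1 - w n‖ < s₀ := by
    intro n hnN
    have h1 := hN n hnN
    by_contra h2
    rw [not_or, not_lt, not_lt] at h2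
    exact h1 h2
  rcases hN' N le_rfl with h | h
  · have hstay := away_stay ‖α‖ hα c w hcn hwstep s₀ hs hs1 N hN' h
    exact away_core ‖α‖ (lam α) hα hlam c w hα0 hcn hwstep (fun n => (hu3 n).1) hu1 s₀ hs hs2 hs3
      N hstay
  · have hstep' : ∀ n, (1 - w (n + 1)) = (1 - w n) + (-c n) * (1 - w n) * (1 - (1 - w n)) := by
      intro n
      rw [hwstep n]
      ring
    have hcn' : ∀ n, ‖-c n‖ ≤ ‖α‖ := fun n => by rw [norm_neg]; exact hcn n
    have hstay := away_stay ‖α‖ hα (fun n => -c n) (fun n => 1 - w n) hcn' hstep' s₀ hs hs1 N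
      (fun n hnN => by
        rcases hN' n hnN with h1 | h1
        · right
          simpa using h1
        · left
          exact h1) h
    have hu2' : Tendsto (fun k : ℕ => (∑ j ∈ Finset.range k, Real.log ‖1 + -c j‖) / (k : ℝ))
        atTop (𝓝 (lam α)) := by
      rw [away_lam_neg] at hu2
      refine hu2.congr fun k => ?_
      congr 1
      refine Finset.sum_congr rfl fun j _ => ?_
      rw [hcdef]
      simp only [neg_mul]
    exact away_core ‖α‖ (lam α) hα hlam (fun n => -c n) (fun n => 1 - w n) hα0 hcn' hstep'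
      (fun n => sub_ne_zero.mpr (Ne.symm (hu3 n).2)) hu2' s₀ hs hs2 hs3 N hstay

end

end Pool.Agent.H429K
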