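import Pool.Agent.H429K.Stmts2
import Pool.Agent.H429K.Lamae

open MeasureTheory Filter Topology

namespace Pool.Agent.H429K

noncomputable section

theorem t_birk : S_birk := by
  intro α L hL hα
  have herg : Ergodic (fun y : UnitAddCircle => L • y) := AddCircle.ergodic_nsmul (by omega)
  have : IsProbabilityMeasure (volume : Measure UnitAddCircle) := ⟨UnitAddCircle.measure_univ⟩
  have hbk := Pool.Agent.H165R3.birkhoff herg (lamae_phi α) (lamae_phi_cont α hα).measurable
    ⟨|Real.log (1 - ‖α‖)| + |Real.log (1 + ‖α‖)|, by
      intro x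
      induction x using QuotientAddGroup.induction_on with
      | H u =>
        have := lamae_bdd α hα u
        rw [← lamae_phi_coe] at this
        exact this⟩
  have hae := lamae_transfer _ hbk
  filter_upwards [hae] with u hu
  rw [lamae_int] at hu
  have hsum : ∀ k : ℕ, ∑ j ∈ Finset.range k, lamae_phi α ((fun y : UnitAddCircle => L • y)^[j] (u : UnitAddCircle))
      = ∑ j ∈ Finset.range k, lamae_g α ((L : ℝ) ^ j * u) := by
    intro k
    refine Finset.sum_congr rfl fun j _ => ?_
    rw [lamae_iter, lamae_phi_coe]
  simp only [hsum] at hu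
  refine hu.congr fun k => ?_
  rw [div_eq_inv_mul]
  rfl

end

end Pool.Agent.H429K
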