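import Pool.Agent.H429K.Stmts2

open MeasureTheory Filter Topology

namespace Pool.Agent.H429K

noncomputable section

private theorem discm_fmap (α : ℂ) (u : ℝ) (m : ℤ) : fmap α (u + m) = fmap α u := by
  unfold fmap
  have h : Real.cos (2 * Real.pi * (u + (m : ℝ))) = Real.cos (2 * Real.pi * u) := by
    have h1 : 2 * Real.pi * (u + (m : ℝ)) = 2 * Real.pi * u + (m : ℝ) * (2 * Real.pi) := by ring
    rw [h1, Real.cos_add_int_mul_two_pi]
  rw [h]

private theorem discm_fiter (α : ℂ) (L : ℕ) (w : ℝ) (m : ℤ) (n : ℕ) : fiter α L (w + m) n = fiter α L w n := by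
  induction n with
  | zero => rfl
  | succ n ih =>
    funext z
    simp only [fiter]
    rw [ih]
    have h1 : (L : ℝ) ^ n * (w + (m : ℝ)) = (L : ℝ) ^ n * w + (((L : ℤ) ^ n * m : ℤ) : ℝ) := by
      push_cast; ring
    rw [h1, discm_fmap]

private theorem discm_fatou (α : ℂ) (L : ℕ) (w : ℝ) (m : ℤ) : fatou α L (w + m) = fatou α L w := by
  unfold fatou
  simp only [discm_fiter]

theorem t_disc (hper : S_per) (hfe2 : S_fesc2) (hsep : S_sep) (h0 : S_geo0) (h1 : S_geo1) (h3 : S_geo3) (hdp : S_dpull) (her : S_ergo) : S_disc := by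
  intro α L hL hα hα1
  have hS : ∃ S : Set ℝ, MeasurableSet S ∧ 0 < volume S ∧ ∀ u ∈ S, Sep α L u := by
    have hcase : L % 2 = 0 ∨ L % 4 = 1 ∨ L % 4 = 3 := by omega
    rcases hcase with h | h | h
    · exact h0 α L hL h hα hα1
    · exact h1 α L hL h hα hα1
    · exact h3 α L hL h hα hα1
  obtain ⟨S, hSm, hSpos, hSsep⟩ := hS
  have hae := hfe2 α L (by omega) hα hα1.le
  rw [ae_iff] at hae
  set N0 : Set ℝ := {u : ℝ | ¬ ∃ R : ℝ, 0 < R ∧ ∃ᶠ n in atTop, (L : ℝ) ^ n * u ∈ Esc α L R} with hN0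
  have hT0 : volume (toMeasurable volume N0) = 0 := by rw [measure_toMeasurable]; exact hae
  have hSm' : MeasurableSet (S \ toMeasurable volume N0) := hSm.diff (measurableSet_toMeasurable _ _)
  have hSpos' : 0 < volume (S \ toMeasurable volume N0) := by
    rw [measure_sdiff_null hT0]; exact hSpos
  have hE := her L hL _ hSm' hSpos'
  filter_upwards [hE] with u hu
  obtain ⟨n, m, hnm⟩ := hu
  have hR : ∃ R : ℝ, 0 < R ∧ ∃ᶠ k in atTop, (L : ℝ) ^ k * ((L : ℝ) ^ n * u + m) ∈ Esc α L R := by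
    by_contra hcon
    exact hnm.2 (subset_toMeasurable _ _ hcon)
  obtain ⟨R, hR0, hRf⟩ := hR
  have hd := hsep α L ((L : ℝ) ^ n * u + m) R hR0 hRf (hSsep _ hnm.1)
  rw [discm_fatou] at hd
  exact hdp α L u n hd

end

end Pool.Agent.H429K
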