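import Pool.Agent.H429K.Stmts2

set_option autoImplicit false

open MeasureTheory Filter Topology

namespace Pool.Agent.H429K

noncomputable section

/-- full period integrals -/
theorem drift_per (α : ℂ) (a θ : ℝ) :
    ∫ x in a..(a + 1), Real.log ‖1 + α * ((Real.cos (2 * Real.pi * (θ + x)) : ℝ) : ℂ)‖ = lam α := by
  set f : ℝ → ℝ := fun u => Real.log ‖1 + α * ((Real.cos (2 * Real.pi * u) : ℝ) : ℂ)‖ with hf
  have hp : Function.Periodic f 1 := by
    intro x
    simp only [hf]
    rw [mul_add, mul_one, Real.cos_add_two_pi]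
  have h1 : ∫ x in a..(a + 1), f (θ + x) = ∫ x in (θ + a)..(θ + (a + 1)), f x :=
    intervalIntegral.integral_comp_add_left f θ
  have h2 := hp.intervalIntegral_add_eq (θ + a) 0
  rw [zero_add] at h2
  calc _ = ∫ x in a..(a + 1), f (θ + x) := rfl
    _ = ∫ x in (θ + a)..(θ + (a + 1)), f x := h1
    _ = ∫ x in (θ + a)..(θ + a + 1), f x := by rw [add_assoc]
    _ = ∫ x in (0 : ℝ)..1, f x := h2
    _ = lam α := rfl

/-- analytic functions have integrable logarithms -/
theorem drift_int (h : ℂ → ℂ) (hd : Differentiable ℂ h) (a b : ℝ) :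
    IntervalIntegrable (fun x : ℝ => Real.log ‖h (x : ℂ)‖) volume a b := by
  have h1 : MeromorphicOn (fun x : ℝ => h (x : ℂ)) (Set.uIcc a b) := by
    intro x _
    have h2 : AnalyticAt ℝ h (x : ℂ) := (hd.analyticAt (x : ℂ)).restrictScalars
    have h3 : AnalyticAt ℝ (fun x : ℝ => (x : ℂ)) x := Complex.ofRealCLM.analyticAt x
    exact (AnalyticAt.comp (g := h) (f := fun x : ℝ => (x : ℂ)) h2 h3).meromorphicAt
  exact h1.intervalIntegrable_log_norm

/-- the cosine in a strip -/
theorem drift_cos (z : ℂ) : ‖Complex.cos z‖ ≤ Real.exp |z.im| := by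
  have h1 : Complex.cos z = (Complex.exp (z * Complex.I) + Complex.exp (-z * Complex.I)) / 2 := rfl
  rw [h1, norm_div]
  have h2 : ‖Complex.exp (z * Complex.I)‖ ≤ Real.exp |z.im| := by
    rw [Complex.norm_exp]
    apply Real.exp_le_exp.2
    simp
    exact neg_le_abs _
  have h3 : ‖Complex.exp (-z * Complex.I)‖ ≤ Real.exp |z.im| := by
    rw [Complex.norm_exp]
    apply Real.exp_le_exp.2
    simp
    exact le_abs_self _
  have h4 := norm_add_le (Complex.exp (z * Complex.I)) (Complex.exp (-z * Complex.I))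
  have h5 : ‖(2 : ℂ)‖ = 2 := by norm_num
  rw [h5, div_le_iff₀ (by norm_num)]
  linarith

/-- the logarithm of a perturbed value -/
theorem drift_log {p q : ℂ} {β s : ℝ} (hβ : 0 < β) (hs : 0 ≤ s) (hsβ : s / β ≤ 1 / 2) (hp : β ≤ ‖p‖)
    (hq : ‖q‖ ≤ s) : Real.log ‖p‖ - 2 * (s / β) ≤ Real.log ‖p + q‖ := by
  have hp0 : 0 < ‖p‖ := hβ.trans_le hp
  have h1 : ‖p‖ * (1 - s / β) ≤ ‖p + q‖ := by
    have h2 : ‖p‖ ≤ ‖p + q‖ + ‖q‖ := by
      calc ‖p‖ = ‖(p + q) - q‖ := by rw [add_sub_cancel_right]
        _ ≤ _ := norm_sub_le _ _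
    have h3 : s ≤ ‖p‖ * (s / β) := by
      rw [mul_div_assoc', le_div_iff₀ hβ]
      nlinarith
    nlinarith
  have hx0 : 0 ≤ s / β := div_nonneg hs hβ.le
  have h4 : 0 < 1 - s / β := by linarith
  have h5 : Real.log (‖p‖ * (1 - s / β)) ≤ Real.log ‖p + q‖ :=
    Real.log_le_log (by positivity) h1
  rw [Real.log_mul hp0.ne' h4.ne'] at h5
  have h6 : 1 - (1 - s / β)⁻¹ ≤ Real.log (1 - s / β) := Real.one_sub_inv_le_log_of_pos h4
  have h7 : (1 - s / β)⁻¹ ≤ 1 + 2 * (s / β) := by
    rw [inv_le_iff_one_le_mul₀ h4]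
    nlinarith
  linarith

theorem t_drift (hsm : S_small) (hli : S_logint) : S_drift := by
  intro α hα0 hα1 hlam M hM
  set β : ℝ := 1 - ‖α‖ with hβ
  have hβ0 : 0 < β := by rw [hβ]; linarith
  have hβ1 : β ≤ 1 := by rw [hβ]; linarith
  set lm := lam α with hlm
  set s : ℝ := min (β / 16) (lm * β / 16) with hs
  have hs0 : 0 < s := lt_min (by positivity) (by positivity)
  have hs1 : s / β ≤ 1 / 16 := by
    rw [div_le_iff₀ hβ0]
    have := min_le_left (β / 16) (lm * β / 16)
    rw [← hs] at this
    linarith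
  have hs2 : s / β ≤ lm / 16 := by
    rw [div_le_iff₀ hβ0]
    have := min_le_right (β / 16) (lm * β / 16)
    rw [← hs] at this
    linarith
  have hsβ : s ≤ s / β := by
    rw [le_div_iff₀ hβ0]
    nlinarith
  obtain ⟨e1, he1, hsm1⟩ := hsm α hα0 M s hM hs0
  obtain ⟨C, hC, hli1⟩ := hli 1 one_pos
  set Mx : ℝ := 1 + Real.exp (8 * Real.pi) * (1 + M) with hMx
  have hMx1 : 1 ≤ Mx := by
    have : 0 ≤ Real.exp (8 * Real.pi) * (1 + M) := by positivity
    rw [hMx]; linarith
  set M1 : ℝ := Real.log Mx with hM1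
  have hM10 : 0 ≤ M1 := Real.log_nonneg hMx1
  have heM1 : Real.exp M1 = Mx := Real.exp_log (by linarith)
  set C1 : ℝ := 2 * (C * (M1 + 1)) with hC1
  have hC10 : 0 < C1 := by positivity
  refine ⟨e1 / (2 * C1), min (e1 / (2 * C1) * (lm / 2)) (e1 / 2), by positivity,
    lt_min (by positivity) (by positivity), fun W hW a θ hWM => ?_⟩
  set κ : ℝ := e1 / (2 * C1) with hκ
  have hκ0 : 0 < κ := by positivity
  have hκC : κ * C1 = e1 / 2 := by rw [hκ]; field_simp
  -- bounds for W on the real segment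
  have hreal : ∀ x ∈ Set.Icc a (a + 1), ‖W (x : ℂ)‖ ≤ M := by
    intro x hx
    refine hWM _ ?_ ?_
    · rw [Complex.ofReal_re, abs_le]; constructor <;> linarith [hx.1, hx.2]
    · rw [Complex.ofReal_im]; norm_num
  have hder : ∀ z ∈ {z : ℂ | a ≤ z.re ∧ z.re ≤ a + 1 ∧ z.im = 0}, ‖deriv W z‖ ≤ M := by
    intro z hz
    have h1 := Complex.norm_deriv_le_of_forall_mem_sphere_norm_le (c := z) (R := 1) (C := M) (f := W)
      one_pos hW.diffContOnCl (fun w hw => ?_)
    · rwa [div_one] at h1
    · rw [mem_sphere_iff_norm] at hw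
      have h2 := Complex.abs_re_le_norm (w - z)
      have h3 := Complex.abs_im_le_norm (w - z)
      rw [hw] at h2 h3
      rw [Complex.sub_re, abs_le] at h2
      rw [Complex.sub_im, hz.2.2, sub_zero, abs_le] at h3
      refine hWM w ?_ ?_
      · rw [abs_le]; constructor <;> linarith [hz.1, hz.2.1]
      · rw [abs_le]; constructor <;> linarith
  have hconv : Convex ℝ {z : ℂ | a ≤ z.re ∧ z.re ≤ a + 1 ∧ z.im = 0} := by
    intro x hx y hy p q hp hq hpq
    simp only [Set.mem_ofPred_eq] at hx hy ⊢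
    simp only [Complex.add_re, Complex.add_im, Complex.real_smul, Complex.mul_re, Complex.mul_im,
      Complex.ofReal_re, Complex.ofReal_im, zero_mul, sub_zero, add_zero]
    have m1 := mul_le_mul_of_nonneg_left hx.1 hp
    have m2 := mul_le_mul_of_nonneg_left hy.1 hq
    have m3 := mul_le_mul_of_nonneg_left hx.2.1 hp
    have m4 := mul_le_mul_of_nonneg_left hy.2.1 hq
    have m5 : p * a + q * a = a := by rw [← add_mul, hpq, one_mul]
    have m6 : p * (a + 1) + q * (a + 1) = a + 1 := by rw [← add_mul, hpq, one_mul]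
    refine ⟨?_, ?_, ?_⟩
    · linarith
    · linarith
    · rw [hx.2.2, hy.2.2]; ring
  have hlip : ∀ x ∈ Set.Icc a (a + 1), ∀ y ∈ Set.Icc a (a + 1),
      ‖W (x : ℂ) - W (y : ℂ)‖ ≤ M * |x - y| := by
    intro x hx y hy
    have h1 := Convex.norm_image_sub_le_of_norm_deriv_le (f := W) (C := M)
      (s := {z : ℂ | a ≤ z.re ∧ z.re ≤ a + 1 ∧ z.im = 0}) (x := (y : ℂ)) (y := (x : ℂ))
      (fun z _ => hW z) hder hconv
      ⟨by simpa using hy.1, by simpa using hy.2, by simp⟩ ⟨by simpa using hx.1, by simpa using hx.2, by simp⟩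
    rw [← Complex.ofReal_sub, Complex.norm_real, Real.norm_eq_abs] at h1
    exact h1
  -- the two entire functions
  set h1 : ℂ → ℂ := fun ζ => 1 + α * Complex.cos (2 * Real.pi * (θ + ζ)) * (1 - W ζ) with hh1
  set h2 : ℂ → ℂ := fun ζ => 1 - α * Complex.cos (2 * Real.pi * (θ + ζ)) * W ζ with hh2
  have hcosd : Differentiable ℂ fun ζ : ℂ => Complex.cos (2 * Real.pi * (θ + ζ)) := by fun_prop
  have d1 : Differentiable ℂ h1 := by
    rw [hh1]
    exact (differentiable_const _).add (((differentiable_const _).mul hcosd).mul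
      ((differentiable_const _).sub hW))
  have d2 : Differentiable ℂ h2 := by
    rw [hh2]
    exact (differentiable_const _).sub (((differentiable_const _).mul hcosd).mul hW)
  have hcr : ∀ x : ℝ, Complex.cos (2 * Real.pi * (θ + (x : ℂ))) =
      ((Real.cos (2 * Real.pi * (θ + x)) : ℝ) : ℂ) := by
    intro x; push_cast; rfl
  have e11 : ∀ x : ℝ, h1 (x : ℂ) = 1 + α * ((Real.cos (2 * Real.pi * (θ + x)) : ℝ) : ℂ) * (1 - W x) := by
    intro x; rw [hh1]; simp only; rw [hcr]
  have e12 : ∀ x : ℝ, h2 (x : ℂ) = 1 - α * ((Real.cos (2 * Real.pi * (θ + x)) : ℝ) : ℂ) * W x := by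
    intro x; rw [hh2]; simp only; rw [hcr]
  have i1 : IntervalIntegrable (fun x : ℝ => Real.log ‖h1 (x : ℂ)‖) volume a (a + 1) := drift_int h1 d1 _ _
  have i2 : IntervalIntegrable (fun x : ℝ => Real.log ‖h2 (x : ℂ)‖) volume a (a + 1) := drift_int h2 d2 _ _
  have hsplit : ∫ x in a..(a + 1),
      (Real.log ‖1 + α * ((Real.cos (2 * Real.pi * (θ + x)) : ℝ) : ℂ) * (1 - W x)‖ +
       Real.log ‖1 - α * ((Real.cos (2 * Real.pi * (θ + x)) : ℝ) : ℂ) * W x‖) =
      (∫ x in a..(a + 1), Real.log ‖h1 (x : ℂ)‖) + ∫ x in a..(a + 1), Real.log ‖h2 (x : ℂ)‖ := by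
    rw [← intervalIntegral.integral_add i1 i2]
    refine intervalIntegral.integral_congr fun x _ => ?_
    show _ = Real.log ‖h1 (x : ℂ)‖ + Real.log ‖h2 (x : ℂ)‖
    rw [e11, e12]
  rw [hsplit]
  set D := ∫ x in a..(a + 1),
      ‖α * ((Real.cos (2 * Real.pi * (θ + x)) : ℝ) : ℂ) * W x * (1 - W x)‖ ^ 2 with hD
  have hD0 : 0 ≤ D := intervalIntegral.integral_nonneg (by linarith) fun x _ => sq_nonneg _
  set I1 := ∫ x in a..(a + 1), Real.log ‖h1 (x : ℂ)‖ with hI1
  set I2 := ∫ x in a..(a + 1), Real.log ‖h2 (x : ℂ)‖ with hI2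
  by_cases hcase : D ≤ e1
  · -- W is close to 0 or to 1
    have hbc : ∀ x : ℝ, ‖α * ((Real.cos (2 * Real.pi * (θ + x)) : ℝ) : ℂ)‖ ≤ ‖α‖ := by
      intro x
      rw [norm_mul, Complex.norm_real, Real.norm_eq_abs]
      have := Real.abs_cos_le_one (2 * Real.pi * (θ + x))
      nlinarith [norm_nonneg α]
    have hpc : ∀ c : ℂ, ‖c‖ ≤ ‖α‖ → β ≤ ‖1 + c‖ := by
      intro c hc
      have : ‖(1 : ℂ)‖ ≤ ‖1 + c‖ + ‖c‖ := by
        calc ‖(1 : ℂ)‖ = ‖(1 + c) - c‖ := by rw [add_sub_cancel_right]
          _ ≤ _ := norm_sub_le _ _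
      rw [norm_one] at this
      rw [hβ]; linarith
    have hIs : s / 1 ≤ 1 / 2 := by
      rw [div_one]; linarith
    have hcont : ∀ θ' : ℝ, Continuous fun x : ℝ =>
        Real.log ‖1 + α * ((Real.cos (2 * Real.pi * (θ' + x)) : ℝ) : ℂ)‖ := by
      intro θ'
      refine Continuous.log (by fun_prop) fun x => ?_
      have h3 : ‖α * ((Real.cos (2 * Real.pi * (θ' + x)) : ℝ) : ℂ)‖ ≤ ‖α‖ := by
        rw [norm_mul, Complex.norm_real, Real.norm_eq_abs]
        have := Real.abs_cos_le_one (2 * Real.pi * (θ' + x))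
        nlinarith [norm_nonneg α]
      have := hpc _ h3
      linarith
    have hkey : lm / 2 ≤ I1 + I2 := by
      rcases hsm1 (fun x => W (x : ℂ)) a θ hreal hlip hcase with h0 | h0
      · -- near zero
        have k1 : lm - 2 * (s / β) ≤ I1 := by
          have : ∫ x in a..(a + 1), (Real.log ‖1 + α * ((Real.cos (2 * Real.pi * (θ + x)) : ℝ) : ℂ)‖ -
              2 * (s / β)) ≤ I1 := by
            refine intervalIntegral.integral_mono_on (by linarith)
              (((hcont θ).sub continuous_const).intervalIntegrable _ _) i1 fun x hx => ?_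
            rw [e11]
            have h3 := drift_log (p := 1 + α * ((Real.cos (2 * Real.pi * (θ + x)) : ℝ) : ℂ))
              (q := -(α * ((Real.cos (2 * Real.pi * (θ + x)) : ℝ) : ℂ) * W x)) hβ0 hs0.le
              (by linarith) (hpc _ (hbc x)) (by
                rw [norm_neg, norm_mul]
                calc _ ≤ 1 * s := mul_le_mul ((hbc x).trans hα1.le) (h0 x hx) (norm_nonneg _) zero_le_one
                  _ = s := one_mul s)
            refine h3.trans (le_of_eq ?_)
            congr 2
            ring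
          rw [intervalIntegral.integral_sub ((hcont θ).intervalIntegrable _ _) intervalIntegrable_const,
            drift_per, intervalIntegral.integral_const] at this
          rw [← hlm] at this
          simpa using this
        have k2 : -(2 * s) ≤ I2 := by
          have : ∫ x in a..(a + 1), -(2 * s) ≤ I2 := by
            refine intervalIntegral.integral_mono_on (by linarith) intervalIntegrable_const i2 fun x hx => ?_
            rw [e12]
            have h3 := drift_log (p := 1)
              (q := -(α * ((Real.cos (2 * Real.pi * (θ + x)) : ℝ) : ℂ) * W x)) one_pos hs0.le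
              hIs (by rw [norm_one]) (by
                rw [norm_neg, norm_mul]
                calc _ ≤ 1 * s := mul_le_mul ((hbc x).trans hα1.le) (h0 x hx) (norm_nonneg _) zero_le_one
                  _ = s := one_mul s)
            rw [norm_one, Real.log_one, div_one] at h3
            rw [sub_eq_add_neg (1 : ℂ)]
            linarith
          rw [intervalIntegral.integral_const] at this
          simpa using this
        linarith
      · -- near one
        have k1 : -(2 * s) ≤ I1 := by
          have : ∫ x in a..(a + 1), -(2 * s) ≤ I1 := by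
            refine intervalIntegral.integral_mono_on (by linarith) intervalIntegrable_const i1 fun x hx => ?_
            rw [e11]
            have h3 := drift_log (p := 1)
              (q := α * ((Real.cos (2 * Real.pi * (θ + x)) : ℝ) : ℂ) * (1 - W x)) one_pos hs0.le
              hIs (by rw [norm_one]) (by
                rw [norm_mul]
                have h4 := h0 x hx
                rw [norm_sub_rev] at h4
                calc _ ≤ 1 * s := mul_le_mul ((hbc x).trans hα1.le) h4 (norm_nonneg _) zero_le_one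
                  _ = s := one_mul s)
            rw [norm_one, Real.log_one, div_one] at h3
            linarith
          rw [intervalIntegral.integral_const] at this
          simpa using this
        have k2 : lm - 2 * (s / β) ≤ I2 := by
          have hcs : ∀ x : ℝ, Real.cos (2 * Real.pi * (θ + 1 / 2 + x)) = -Real.cos (2 * Real.pi * (θ + x)) := by
            intro x
            rw [← Real.cos_add_pi]
            congr 1
            ring
          have : ∫ x in a..(a + 1), (Real.log ‖1 + α * ((Real.cos (2 * Real.pi * (θ + 1 / 2 + x)) : ℝ) : ℂ)‖ -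
              2 * (s / β)) ≤ I2 := by
            refine intervalIntegral.integral_mono_on (by linarith)
              (((hcont (θ + 1 / 2)).sub continuous_const).intervalIntegrable _ _) i2 fun x hx => ?_
            rw [e12, hcs]
            have h3 := drift_log (p := 1 + α * ((-Real.cos (2 * Real.pi * (θ + x)) : ℝ) : ℂ))
              (q := -(α * ((Real.cos (2 * Real.pi * (θ + x)) : ℝ) : ℂ) * (W x - 1))) hβ0 hs0.le
              (by linarith) (hpc _ (by
                have := hbc x
                rw [Complex.ofReal_neg, mul_neg, norm_neg]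
                exact this)) (by
                rw [norm_neg, norm_mul]
                calc _ ≤ 1 * s := mul_le_mul ((hbc x).trans hα1.le) (h0 x hx) (norm_nonneg _) zero_le_one
                  _ = s := one_mul s)
            refine h3.trans (le_of_eq ?_)
            congr 2
            push_cast
            ring
          rw [intervalIntegral.integral_sub ((hcont (θ + 1 / 2)).intervalIntegrable _ _)
            intervalIntegrable_const, drift_per, intervalIntegral.integral_const] at this
          rw [← hlm] at this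
          simpa using this
        linarith
    refine (min_le_left _ _).trans ?_
    nlinarith
  · -- large first term
    push Not at hcase
    have hcb : ∀ ζ : ℂ, |ζ.im| ≤ 4 → ‖Complex.cos (2 * Real.pi * (θ + ζ))‖ ≤ Real.exp (8 * Real.pi) := by
      intro ζ hζ
      refine (drift_cos _).trans (Real.exp_le_exp.2 ?_)
      have e : (2 * Real.pi * (θ + ζ) : ℂ) = ((2 * Real.pi : ℝ) : ℂ) * (θ + ζ) := by push_cast; ring
      have : (2 * Real.pi * (θ + ζ) : ℂ).im = 2 * Real.pi * ζ.im := by
        rw [e, Complex.im_ofReal_mul]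
        simp
      rw [this, abs_mul, abs_of_pos (by positivity)]
      nlinarith [Real.pi_pos]
    -- a zero of the cosine
    obtain ⟨x1, hx1a, hx1b, hx1⟩ : ∃ x1 : ℝ, a ≤ x1 ∧ x1 ≤ a + 1 ∧ Real.cos (2 * Real.pi * (θ + x1)) = 0 := by
      refine ⟨1 / 4 + (⌈a + θ - 1 / 4⌉ : ℝ) - θ, ?_, ?_, ?_⟩
      · linarith [Int.le_ceil (a + θ - 1 / 4)]
      · linarith [Int.ceil_lt_add_one (a + θ - 1 / 4)]
      · have e : 2 * Real.pi * (θ + (1 / 4 + (⌈a + θ - 1 / 4⌉ : ℝ) - θ)) =
            Real.pi / 2 + (⌈a + θ - 1 / 4⌉ : ℤ) * (2 * Real.pi) := by ring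
        rw [e, Real.cos_add_int_mul_two_pi, Real.cos_pi_div_two]
    have hWb : ∀ ζ : ℂ, ‖ζ - (x1 : ℂ)‖ ≤ 4 * 1 → ‖W ζ‖ ≤ M ∧ |ζ.im| ≤ 4 := by
      intro ζ hζ
      have k2 := Complex.abs_re_le_norm (ζ - x1)
      have k3 := Complex.abs_im_le_norm (ζ - x1)
      rw [Complex.sub_re, Complex.ofReal_re, abs_le] at k2
      rw [Complex.sub_im, Complex.ofReal_im, sub_zero] at k3
      rw [mul_one] at hζ
      refine ⟨hWM ζ ?_ (by linarith), by linarith⟩
      rw [abs_le]; constructor <;> linarith [k2.1, k2.2]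
    have j1 : -(C * (M1 + 1)) ≤ I1 := by
      refine hli1 h1 d1 x1 M1 hM10 (fun ζ hζ => ?_) ?_ a (a + 1) (by linarith) (by linarith) (by linarith)
      · rw [heM1, hMx, hh1]
        obtain ⟨w1, w2⟩ := hWb ζ hζ
        simp only
        refine (norm_add_le _ _).trans ?_
        rw [norm_one, norm_mul, norm_mul]
        have k4 : ‖1 - W ζ‖ ≤ 1 + M := (norm_sub_le _ _).trans (by rw [norm_one]; linarith)
        have k5 := hcb ζ w2
        have k6 : ‖α‖ * ‖Complex.cos (2 * Real.pi * (θ + ζ))‖ ≤ 1 * Real.exp (8 * Real.pi) :=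
          mul_le_mul hα1.le k5 (norm_nonneg _) zero_le_one
        have k7 := mul_le_mul k6 k4 (norm_nonneg _) (by positivity)
        linarith
      · rw [e11, hx1]
        simp only [Complex.ofReal_zero, mul_zero, zero_mul, add_zero, norm_one]
        rw [Real.exp_neg]
        exact inv_le_one_of_one_le₀ (Real.one_le_exp hM10)
    have j2 : -(C * (M1 + 1)) ≤ I2 := by
      refine hli1 h2 d2 x1 M1 hM10 (fun ζ hζ => ?_) ?_ a (a + 1) (by linarith) (by linarith) (by linarith)
      · rw [heM1, hMx, hh2]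
        obtain ⟨w1, w2⟩ := hWb ζ hζ
        simp only
        refine (norm_sub_le _ _).trans ?_
        rw [norm_one, norm_mul, norm_mul]
        have k5 := hcb ζ w2
        have k6 : ‖α‖ * ‖Complex.cos (2 * Real.pi * (θ + ζ))‖ ≤ 1 * Real.exp (8 * Real.pi) :=
          mul_le_mul hα1.le k5 (norm_nonneg _) zero_le_one
        have k4 : ‖W ζ‖ ≤ 1 + M := by linarith
        have k7 := mul_le_mul k6 k4 (norm_nonneg _) (by positivity)
        linarith
      · rw [e12, hx1]
        simp only [Complex.ofReal_zero, mul_zero, zero_mul, sub_zero, norm_one]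
        rw [Real.exp_neg]
        exact inv_le_one_of_one_le₀ (Real.one_le_exp hM10)
    refine (min_le_right _ _).trans ?_
    have j3 : -C1 ≤ I1 + I2 := by rw [hC1]; linarith
    have j4 : κ * (-C1) ≤ κ * (I1 + I2) := mul_le_mul_of_nonneg_left j3 hκ0.le
    linarith

end

end Pool.Agent.H429K
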