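import Pool.Agent.H429K.Stmts2

open MeasureTheory Filter Topology

namespace Pool.Agent.H429K

noncomputable section

theorem ergo_iter (L : ℕ) (u : ℝ) (k : ℕ) :
    (fun y : UnitAddCircle => L • y)^[k] (u : UnitAddCircle) = (((L : ℝ) ^ k * u : ℝ) : UnitAddCircle) := by
  induction k with
  | zero => simp
  | succ k ih =>
    rw [Function.iterate_succ_apply', ih]
    show L • (((L : ℝ) ^ k * u : ℝ) : UnitAddCircle) = _
    rw [← AddCircle.coe_nsmul]
    congr 1
    rw [nsmul_eq_mul]
    ring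

/-- transfer from the circle to the line -/
theorem ergo_transfer (p : UnitAddCircle → Prop) (h : ∀ᵐ x : UnitAddCircle, p x) :
    ∀ᵐ u : ℝ, p (u : UnitAddCircle) := by
  have h1 : ∀ n : ℤ, ∀ᵐ u : ℝ ∂(volume.restrict (Set.Ioc (n : ℝ) (n + 1))), p (u : UnitAddCircle) := by
    intro n
    have hm := UnitAddCircle.measurePreserving_mk (n : ℝ)
    exact hm.quasiMeasurePreserving.ae h
  have h2 : (⋃ n : ℤ, Set.Ioc (n : ℝ) (n + 1)) = Set.univ := iUnion_Ioc_intCast ℝ
  have h3 : ∀ᵐ u : ℝ ∂(volume.restrict (⋃ n : ℤ, Set.Ioc (n : ℝ) (n + 1))), p (u : UnitAddCircle) := by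
    rw [ae_restrict_iUnion_iff]
    exact h1
  rw [h2, Measure.restrict_univ] at h3
  exact h3

/-- equality in the circle -/
theorem ergo_coe_eq {x y : ℝ} (h : (x : UnitAddCircle) = (y : UnitAddCircle)) : ∃ m : ℤ, y + m = x := by
  have h0 : ((x - y : ℝ) : UnitAddCircle) = 0 := by
    rw [AddCircle.coe_sub, h, sub_self]
  obtain ⟨n, hn⟩ := (AddCircle.coe_eq_zero_iff (1 : ℝ)).1 h0
  refine ⟨n, ?_⟩
  rw [zsmul_eq_mul, mul_one] at hn
  linarith

theorem t_ergo : S_ergo := by
  intro L hL S hS hpos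
  have herg : Ergodic (fun y : UnitAddCircle => L • y) := AddCircle.ergodic_nsmul (by omega)
  have : IsProbabilityMeasure (volume : Measure UnitAddCircle) := ⟨UnitAddCircle.measure_univ⟩
  -- an interval
  obtain ⟨k, hk⟩ : ∃ k : ℤ, 0 < volume (S ∩ Set.Ioc (k : ℝ) (k + 1)) := by
    by_contra hcon
    push Not at hcon
    have h1 : volume (⋃ k : ℤ, S ∩ Set.Ioc (k : ℝ) (k + 1)) = 0 := by
      rw [measure_iUnion_null_iff]
      intro k
      exact le_antisymm (hcon k) (by simp)
    rw [← Set.inter_iUnion, iUnion_Ioc_intCast ℝ, Set.inter_univ] at h1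
    exact hpos.ne' h1
  set S' := S ∩ Set.Ioc (k : ℝ) (k + 1) with hS'
  set B : Set UnitAddCircle := (fun x : ℝ => (x : UnitAddCircle)) '' S' with hB
  have hBm : MeasurableSet B := by
    refine MeasurableSet.image_of_continuousOn_injOn (hS.inter measurableSet_Ioc) ?_ ?_
    · exact (AddCircle.continuous_mk' (1 : ℝ)).continuousOn
    · intro x hx y hy hxy
      obtain ⟨m, hm⟩ := ergo_coe_eq hxy
      have hx1 := hx.2.1
      have hx2 := hx.2.2
      have hy1 := hy.2.1
      have hy2 := hy.2.2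
      have h1 : (m : ℝ) < 1 := by linarith
      have h2 : (-1 : ℝ) < m := by linarith
      have h3 : m < 1 := by exact_mod_cast h1
      have h4 : -1 < m := by exact_mod_cast h2
      have h5 : m = 0 := by omega
      subst h5
      simpa using hm.symm
  have hBpos : 0 < volume B := by
    have hm := UnitAddCircle.measurePreserving_mk (k : ℝ)
    rw [← hm.measure_preimage hBm.nullMeasurableSet, Measure.restrict_apply (hm.measurable hBm)]
    refine lt_of_lt_of_le hk (measure_mono ?_)
    intro x hx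
    exact ⟨⟨x, hx, rfl⟩, hx.2⟩
  set A : Set UnitAddCircle := ⋃ n : ℕ, (fun y : UnitAddCircle => L • y)^[n] ⁻¹' B with hA
  have hmeas : Measurable (fun y : UnitAddCircle => L • y) := herg.measurable
  have hAm : MeasurableSet A := MeasurableSet.iUnion fun n => (hmeas.iterate n) hBm
  have hinv : (fun y : UnitAddCircle => L • y) ⁻¹' A ⊆ A := by
    intro y hy
    obtain ⟨n, hn⟩ := Set.mem_iUnion.1 hy
    refine Set.mem_iUnion.2 ⟨n + 1, ?_⟩
    show (fun y : UnitAddCircle => L • y)^[n + 1] y ∈ B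
    rw [Function.iterate_succ_apply]
    exact hn
  have hfull : A =ᵐ[volume] (Set.univ : Set UnitAddCircle) := by
    rcases herg.ae_empty_or_univ_of_preimage_ae_le hAm.nullMeasurableSet
      (Filter.Eventually.of_forall hinv) with h | h
    · exfalso
      have h0 : volume A = 0 := by rw [measure_congr h, measure_empty]
      have hBA : B ⊆ A := fun y hy => Set.mem_iUnion.2 ⟨0, hy⟩
      exact hBpos.ne' (measure_mono_null hBA h0)
    · exact h
  have hae : ∀ᵐ y : UnitAddCircle, y ∈ A := by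
    filter_upwards [hfull] with y hy
    have : A y = (Set.univ : Set UnitAddCircle) y := hy
    exact this.mpr trivial
  filter_upwards [ergo_transfer _ hae] with u hu
  obtain ⟨n, hn⟩ := Set.mem_iUnion.1 hu
  have hn' : (fun y : UnitAddCircle => L • y)^[n] (u : UnitAddCircle) ∈ B := hn
  rw [ergo_iter] at hn'
  obtain ⟨s, hs, hsu⟩ := hn'
  obtain ⟨m, hm⟩ := ergo_coe_eq hsu
  exact ⟨n, m, by rw [hm]; exact hs.1⟩

end

end Pool.Agent.H429K
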