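import Pool.Agent.H429K.Stmts2

open MeasureTheory Filter Topology

namespace Pool.Agent.H429K

noncomputable section

theorem fesc_sqrt (a : ℂ) : 1 ≤ Real.sqrt (1 + ‖a‖ ^ 2) := by
  rw [Real.one_le_sqrt]
  nlinarith [sq_nonneg ‖a‖]

theorem fesc_chord_inf (a : ℂ) (ha : 0 < ‖a‖) :
    chord (a : OnePoint ℂ) OnePoint.infty ≤ 2 / ‖a‖ := by
  change 2 / Real.sqrt (1 + ‖a‖ ^ 2) ≤ _
  refine div_le_div_of_nonneg_left (by norm_num) ha ?_
  refine Real.le_sqrt_of_sq_le ?_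
  linarith

/-- uniform convergence to a constant near a point -/
theorem fesc_unif {α : ℂ} {L : ℕ} {u : ℝ} {z₀ p : OnePoint ℂ} (U : Set (OnePoint ℂ))
    (hU : IsOpen U) (hz : z₀ ∈ U) (n : ℕ) (b : ℕ → ℝ) (hb : Tendsto b atTop (𝓝 0))
    (h : ∀ x ∈ U, ∀ k, chord (fiter α L u (n + k) x) p ≤ b k) : z₀ ∈ fatou α L u := by
  refine ⟨U, hU, hz, fun φ hφ => ⟨id, strictMono_id, fun _ => p, fun K hK _ ε hε => ?_⟩⟩
  obtain ⟨N, hN⟩ := eventually_atTop.1 (hb.eventually (gt_mem_nhds hε))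
  refine ⟨n + N, fun m hm w hw => ?_⟩
  have h1 : n + N ≤ φ m := hm.trans (hφ.id_le m)
  obtain ⟨k, hk⟩ := Nat.exists_eq_add_of_le (show n ≤ φ m by omega)
  change chord (fiter α L u (φ m) w) p < ε
  rw [hk]
  exact (h w (hK hw) k).trans_lt (hN k (by omega))

theorem fesc_four {R : ℝ} (hR : 0 < R) :
    Tendsto (fun k : ℕ => 2 / ((4:ℝ) ^ k * R)) atTop (𝓝 0) := by
  have h1 : Tendsto (fun k : ℕ => (4:ℝ) ^ k * R) atTop atTop :=
    (tendsto_pow_atTop_atTop_of_one_lt (by norm_num)).atTop_mul_const hR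
  exact h1.const_div_atTop 2

/-- a point whose `n`-th image is finite is finite, and its orbit is given by `G` -/
theorem fesc_fin (ha : S_add) (hf : S_fiter) {α : ℂ} {L : ℕ} {u : ℝ} {n : ℕ} {x : OnePoint ℂ}
    {w : ℂ} (h : fiter α L u n x = (w : OnePoint ℂ)) (k : ℕ) :
    fiter α L u (n + k) x =
      ((G α L w k (((L : ℝ) ^ n * u : ℝ) : ℂ) : ℂ) : OnePoint ℂ) := by
  induction x using OnePoint.rec with
  | infty =>
    rw [(hf α L u n).2] at h
    exact absurd h (OnePoint.infty_ne_coe w)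
  | coe w' =>
    rw [(hf α L u n).1, OnePoint.coe_eq_coe] at h
    rw [(hf α L u (n + k)).1, ha, h]
    push_cast
    rfl

/-- the open set of points whose `n`-th image is outside the closed disc of radius `R` -/
def fesc_U (α : ℂ) (L : ℕ) (u R : ℝ) (n : ℕ) : Set (OnePoint ℂ) :=
  fiter α L u n ⁻¹' ((fun w : ℂ => (w : OnePoint ℂ)) '' Metric.closedBall (0 : ℂ) R)ᶜ

theorem fesc_U_open (hc : S_fcont) (α : ℂ) (L : ℕ) (u R : ℝ) (n : ℕ) :
    IsOpen (fesc_U α L u R n) :=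
  (OnePoint.isOpen_compl_image_coe.2
    ⟨Metric.isClosed_closedBall, isCompact_closedBall _ _⟩).preimage (hc α L u n)

theorem fesc_U_inf (hf : S_fiter) (α : ℂ) (L : ℕ) (u R : ℝ) (n : ℕ) :
    OnePoint.infty ∈ fesc_U α L u R n := by
  change fiter α L u n OnePoint.infty ∈
    ((fun w : ℂ => (w : OnePoint ℂ)) '' Metric.closedBall (0 : ℂ) R)ᶜ
  rw [(hf α L u n).2]
  exact OnePoint.infty_notMem_image_coe

theorem fesc_U_coe (hf : S_fiter) (α : ℂ) (L : ℕ) (u R : ℝ) (n : ℕ) (z : ℂ) :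
    (z : OnePoint ℂ) ∈ fesc_U α L u R n ↔ R < ‖G α L z n (u : ℂ)‖ := by
  change fiter α L u n (z : OnePoint ℂ) ∈
    ((fun w : ℂ => (w : OnePoint ℂ)) '' Metric.closedBall (0 : ℂ) R)ᶜ ↔ _
  rw [(hf α L u n).1]
  constructor
  · intro h
    by_contra hlt
    rw [not_lt] at hlt
    exact h ⟨_, by rwa [Metric.mem_closedBall, dist_zero_right], rfl⟩
  · rintro h ⟨w, hw, hw2⟩
    have hw3 : w = G α L z n (u : ℂ) := OnePoint.coe_eq_coe.1 hw2
    rw [Metric.mem_closedBall, dist_zero_right, hw3] at hw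
    exact absurd h (not_lt.2 hw)

theorem fesc_U_fatou (ha : S_add) (hf : S_fiter) (hc : S_fcont) (ht : S_tri)
    {α : ℂ} {L : ℕ} {u R : ℝ} (hR : 0 < R) {n : ℕ} (hn1 : (L : ℝ) ^ n * u ∈ Esc α L R)
    {z₀ : OnePoint ℂ} (hz : z₀ ∈ fesc_U α L u R n) : z₀ ∈ fatou α L u := by
  refine fesc_unif (p := OnePoint.infty) _ (fesc_U_open hc α L u R n) hz n _ (fesc_four hR) ?_
  intro x hx k
  rcases hx' : fiter α L u n x with _ | w
  · have hxi : x = OnePoint.infty := by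
      induction x using OnePoint.rec with
      | infty => rfl
      | coe w' =>
        rw [(hf α L u n).1] at hx'
        exact absurd hx' (OnePoint.coe_ne_infty _)
    rw [hxi, (hf α L u (n + k)).2, ht.1]
    positivity
  · have hx2 : fiter α L u n x = (w : OnePoint ℂ) := hx'
    have hw : R < ‖w‖ := by
      by_contra hlt
      rw [not_lt] at hlt
      apply hx
      rw [hx2]
      exact ⟨w, by rwa [Metric.mem_closedBall, dist_zero_right], rfl⟩
    rw [fesc_fin ha hf hx2 k]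
    have h3 := hn1 w hw.le k
    have h4 : (4:ℝ) ^ k * R ≤ ‖G α L w k (((L : ℝ) ^ n * u : ℝ) : ℂ)‖ :=
      (mul_le_mul_of_nonneg_left hw.le (by positivity)).trans h3
    have h5 : 0 < (4:ℝ) ^ k * R := by positivity
    exact (fesc_chord_inf _ (h5.trans_le h4)).trans
      (div_le_div_of_nonneg_left (by norm_num) h5 h4)

theorem fesc_U_esc (ha : S_add) {α : ℂ} {L : ℕ} {u R : ℝ} (hR : 0 < R) {n : ℕ}
    (hn1 : (L : ℝ) ^ n * u ∈ Esc α L R) {z : ℂ} (hz : R < ‖G α L z n (u : ℂ)‖) :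
    Tendsto (fun n => ‖G α L z n (u : ℂ)‖) atTop atTop := by
  rw [← tendsto_add_atTop_iff_nat n]
  have h1 : Tendsto (fun k : ℕ => (4:ℝ) ^ k * R) atTop atTop :=
    (tendsto_pow_atTop_atTop_of_one_lt (by norm_num)).atTop_mul_const hR
  refine tendsto_atTop_mono (fun k => ?_) h1
  have h3 := hn1 _ hz.le k
  have h4 : (4:ℝ) ^ k * R ≤ ‖G α L (G α L z n (u : ℂ)) k (((L : ℝ) ^ n * u : ℝ) : ℂ)‖ :=
    (mul_le_mul_of_nonneg_left hz.le (by positivity)).trans h3
  have h5 : G α L z (k + n) (u : ℂ) =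
      G α L (G α L z n (u : ℂ)) k (((L : ℝ) ^ n * u : ℝ) : ℂ) := by
    rw [add_comm k n, ha]
    push_cast
    rfl
  rw [h5]
  exact h4

theorem t_fesc (ha : S_add) (hf : S_fiter) (hc : S_fcont) (ht : S_tri) (hn : S_nhds) : S_fesc := by
  intro α L u R hR hi
  have key : ∀ z : ℂ, Tendsto (fun n => ‖G α L z n (u : ℂ)‖) atTop atTop →
      ∃ n : ℕ, (L : ℝ) ^ n * u ∈ Esc α L R ∧ R < ‖G α L z n (u : ℂ)‖ := by
    intro z hz
    exact (hi.and_eventually (hz.eventually_gt_atTop R)).exists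
  refine ⟨fun z hz => ?_, ?_, ?_⟩
  · obtain ⟨n, hn1, hn2⟩ := key z hz
    exact fesc_U_fatou ha hf hc ht hR hn1 ((fesc_U_coe hf α L u R n z).2 hn2)
  · obtain ⟨n, hn1⟩ := hi.exists
    exact fesc_U_fatou ha hf hc ht hR hn1 (fesc_U_inf hf α L u R n)
  · rw [isOpen_iff_mem_nhds]
    intro z hz
    obtain ⟨n, hn1, hn2⟩ := key z hz
    have ho : IsOpen ((fun w : ℂ => (w : OnePoint ℂ)) ⁻¹' fesc_U α L u R n) :=
      (fesc_U_open hc α L u R n).preimage OnePoint.continuous_coe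
    refine mem_of_superset (ho.mem_nhds ((fesc_U_coe hf α L u R n z).2 hn2)) ?_
    intro w hw
    exact fesc_U_esc ha hR hn1 ((fesc_U_coe hf α L u R n w).1 hw)

theorem t_fesc2 (hper : S_per) (hesc : S_esc) (hrec : S_recur) : S_fesc2 := by
  intro α L hL hα hα1
  have h1 := hrec L hL (fun i => Esc α L ((i : ℝ) + 1)) (by
    intro i u hu m w hw k
    have h2 := hu w hw k
    have h3 : G α L w k (((u + (m : ℝ) : ℝ)) : ℂ) = G α L w k (u : ℂ) := by
      rw [← hper α L w k (u : ℂ) m]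
      push_cast
      rfl
    rw [h3]
    exact h2) (by
    have hb : ∀ i : ℕ, volume (Set.Icc (0:ℝ) 1 \ Esc α L ((i : ℝ) + 1)) ≤
        ENNReal.ofReal (12 * (1 + 1) / (‖α‖ * ((i : ℝ) + 1))) := by
      intro i
      have h2 := hesc α L hL hα hα1 ((i : ℝ) + 1) (by positivity) 0 1 zero_le_one
      rwa [zero_add] at h2
    have hlim : Tendsto (fun i : ℕ => ENNReal.ofReal (12 * (1 + 1) / (‖α‖ * ((i : ℝ) + 1))))
        atTop (𝓝 0) := by
      rw [← ENNReal.ofReal_zero]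
      refine (ENNReal.continuous_ofReal.tendsto 0).comp ?_
      have h3 : Tendsto (fun i : ℕ => ‖α‖ * ((i : ℝ) + 1)) atTop atTop :=
        (tendsto_natCast_atTop_atTop.atTop_add tendsto_const_nhds).const_mul_atTop hα
      exact h3.const_div_atTop _
    exact tendsto_of_tendsto_of_tendsto_of_le_of_le tendsto_const_nhds hlim
      (fun _ => zero_le) hb)
  filter_upwards [h1] with u hu
  obtain ⟨i, hi⟩ := hu
  exact ⟨(i : ℝ) + 1, by positivity, hi⟩

end

end Pool.Agent.H429K
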