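import Pool.Agent.H429K.Stmts2

set_option autoImplicit false

open MeasureTheory Filter Topology

namespace Pool.Agent.H429K

noncomputable section

/-- the cosine at an odd quarter -/
private theorem geoo_cos (L n : ℕ) (hL : L % 4 = 1) (x : ℝ) :
    Real.cos (2 * Real.pi * ((L : ℝ) ^ n * (1 / 4 + x))) =
      -Real.sin (2 * Real.pi * ((L : ℝ) ^ n * x)) := by
  have h1 : L ^ n % 4 = 1 := by
    rw [Nat.pow_mod, hL]; simp
  obtain ⟨k, hk⟩ : ∃ k, L ^ n = 4 * k + 1 := ⟨L ^ n / 4, by omega⟩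
  have hk' : (L : ℝ) ^ n = 4 * k + 1 := by exact_mod_cast hk
  calc Real.cos (2 * Real.pi * ((L : ℝ) ^ n * (1 / 4 + x)))
      = Real.cos (2 * Real.pi * ((L : ℝ) ^ n * x) + Real.pi / 2 + k * (2 * Real.pi)) := by
        congr 1
        rw [hk']; ring
    _ = -Real.sin (2 * Real.pi * ((L : ℝ) ^ n * x)) := by
        rw [Real.cos_add_nat_mul_two_pi, Real.cos_add_pi_div_two]

/-- the sine grows by almost the factor `5` -/
private theorem geoo_sin (L : ℕ) (hL : 5 ≤ L) (y : ℝ) (hy : 0 < y) (hy1 : (L : ℝ) * y ≤ 1 / 1000) :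
    499 / 100 * Real.sin y ≤ Real.sin (L * y) := by
  have hL' : (5 : ℝ) ≤ L := by exact_mod_cast hL
  have h5 : 5 * y ≤ L * y := mul_le_mul_of_nonneg_right hL' hy.le
  have h0 : 0 < (L : ℝ) * y := by positivity
  have h1 := Real.sin_le hy.le
  have h2 := Real.sin_gt_sub_cube h0
  have h3 : ((L : ℝ) * y) ^ 3 ≤ (1 / 1000) ^ 2 * (L * y) := by
    have : ((L : ℝ) * y) ^ 2 ≤ (1 / 1000) ^ 2 := pow_le_pow_left₀ h0.le hy1 2
    calc ((L : ℝ) * y) ^ 3 = (L * y) ^ 2 * (L * y) := by ring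
      _ ≤ _ := mul_le_mul_of_nonneg_right this h0.le
  nlinarith

/-- the orbit over `L u` in terms of the real fibre parameter -/
private theorem geoo_G (α : ℂ) (L : ℕ) (u : ℝ) (w : ℂ) (n : ℕ) :
    G α L w (n + 1) (((L : ℝ) * u : ℝ) : ℂ) =
      G α L w n (((L : ℝ) * u : ℝ) : ℂ) * (1 + cc α ((L : ℝ) ^ (n + 1) * u) -
        cc α ((L : ℝ) ^ (n + 1) * u) * G α L w n (((L : ℝ) * u : ℝ) : ℂ)) := by
  have h : α * Complex.cos (2 * (Real.pi : ℂ) * (L : ℂ) ^ n * (((L : ℝ) * u : ℝ) : ℂ)) =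
      cc α ((L : ℝ) ^ (n + 1) * u) := by
    rw [cc, Complex.ofReal_cos]
    congr 2
    push_cast
    ring
  rw [G, h, step]
  ring

/-- one step of the growth of `‖c_n z_n‖` -/
private theorem geoo_grow (c c' g : ℂ) (hc : ‖c‖ ≤ 1 / 1000) (hcc : 499 / 100 * ‖c‖ ≤ ‖c'‖)
    (hg : 122 / 100 ≤ ‖c * g‖) :
    109 / 100 * ‖c * g‖ ≤ ‖c' * (g * (1 + c - c * g))‖ := by
  have h1 : ‖c * g‖ ≤ ‖1 + c - c * g‖ + ‖1 + c‖ := by
    have := norm_sub_le (1 + c) (1 + c - c * g)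
    calc ‖c * g‖ = ‖(1 + c) - (1 + c - c * g)‖ := by congr 1; ring
      _ ≤ ‖1 + c‖ + ‖1 + c - c * g‖ := this
      _ = _ := add_comm _ _
  have h2 : ‖1 + c‖ ≤ 1 + 1 / 1000 := by
    have := norm_add_le (1 : ℂ) c
    rw [norm_one] at this
    linarith
  have h3 : 219 / 1000 ≤ ‖1 + c - c * g‖ := by linarith
  have h4 : ‖c' * (g * (1 + c - c * g))‖ = ‖c'‖ * ‖g‖ * ‖1 + c - c * g‖ := by
    rw [norm_mul, norm_mul]; ring
  have h5 : ‖c * g‖ = ‖c‖ * ‖g‖ := norm_mul _ _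
  rw [h4]
  have h6 : 499 / 100 * ‖c * g‖ ≤ ‖c'‖ * ‖g‖ := by
    rw [h5, ← mul_assoc]
    exact mul_le_mul_of_nonneg_right hcc (norm_nonneg _)
  have h7 : (499 / 100 * ‖c * g‖) * (219 / 1000) ≤ ‖c'‖ * ‖g‖ * ‖1 + c - c * g‖ :=
    mul_le_mul h6 h3 (by norm_num) (by positivity)
  nlinarith [norm_nonneg (c * g)]

theorem t_geo1 (ha : S_add) (hsh : S_shift) (hp : S_pos) : S_geo1 := by
  intro α L hL2 hL4 hα hα1
  have hL5 : 5 ≤ L := by omega
  have hL5' : (5 : ℝ) ≤ L := by exact_mod_cast hL5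
  have hLpos : (0 : ℝ) < L := by linarith
  have hL1 : (1 : ℝ) ≤ L := by linarith
  have hLN : (0 : ℝ) < (L : ℝ) ^ 70 := by positivity
  have hpi := Real.pi_pos
  have hpi3 := Real.pi_lt_d2
  set δ : ℝ := 1 / (10000 * (L : ℝ) ^ 70) with hδ
  have hδpos : 0 < δ := by positivity
  have hδN : (L : ℝ) ^ 70 * δ = 1 / 10000 := by
    rw [hδ]; field_simp
  set R : ℝ := 2000000 / (Real.pi * ‖α‖) with hR
  have hRpos : 0 < R := by positivity
  have hcond : 12 * ((L : ℝ) ^ 70 * (δ / 2) + 1) / (‖α‖ * R) < (L : ℝ) ^ 70 * (δ / 2) := by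
    have e1 : (L : ℝ) ^ 70 * (δ / 2) = 1 / 20000 := by linarith
    have e2 : ‖α‖ * R = 2000000 / Real.pi := by
      rw [hR]; field_simp
    rw [e1, e2, div_div_eq_mul_div, div_lt_iff₀ (by norm_num)]
    nlinarith
  obtain ⟨S, hSm, hSp, hSI, hSE⟩ := hp α L 70 δ R (by omega) hα hα1.le hδpos hRpos hcond
  refine ⟨S, hSm, hSp, fun u hu => ?_⟩
  -- the base point
  obtain ⟨x, hx⟩ : ∃ x, u = 1 / 4 + x := ⟨u - 1 / 4, by ring⟩
  have hxI := hSI hu
  have hx1 : δ / 2 ≤ x := by have := hxI.1; linarith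
  have hx2 : x ≤ δ := by have := hxI.2; linarith
  have hx0 : 0 < x := by linarith
  -- small angles
  have hy0 : ∀ n : ℕ, 0 < 2 * Real.pi * ((L : ℝ) ^ n * x) := fun n => by positivity
  have hy1 : ∀ n : ℕ, n ≤ 70 → 2 * Real.pi * ((L : ℝ) ^ n * x) ≤ 2 * Real.pi / 10000 := by
    intro n hn
    have h1 : (L : ℝ) ^ n ≤ (L : ℝ) ^ 70 := pow_le_pow_right₀ hL1 hn
    have h2 : (L : ℝ) ^ n * x ≤ (L : ℝ) ^ 70 * δ := mul_le_mul h1 hx2 hx0.le hLN.le
    rw [hδN] at h2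
    have := mul_le_mul_of_nonneg_left h2 (by positivity : (0 : ℝ) ≤ 2 * Real.pi)
    linarith
  have hy2 : ∀ n : ℕ, n ≤ 70 → 2 * Real.pi * ((L : ℝ) ^ n * x) ≤ 1 / 1000 := by
    intro n hn
    have := hy1 n hn
    linarith
  have hs0 : ∀ n : ℕ, n ≤ 70 → 0 < Real.sin (2 * Real.pi * ((L : ℝ) ^ n * x)) := fun n hn =>
    Real.sin_pos_of_pos_of_le_one (hy0 n) (by have := hy2 n hn; linarith)
  have hs1 : ∀ n : ℕ, Real.sin (2 * Real.pi * ((L : ℝ) ^ n * x)) ≤ 2 * Real.pi * ((L : ℝ) ^ n * x) :=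
    fun n => Real.sin_le (hy0 n).le
  have hs2 : ∀ n : ℕ, n + 1 ≤ 70 → 499 / 100 * Real.sin (2 * Real.pi * ((L : ℝ) ^ n * x)) ≤
      Real.sin (2 * Real.pi * ((L : ℝ) ^ (n + 1) * x)) := by
    intro n hn
    have e : 2 * Real.pi * ((L : ℝ) ^ (n + 1) * x) = L * (2 * Real.pi * ((L : ℝ) ^ n * x)) := by ring
    have := hy2 (n + 1) hn
    rw [e] at this ⊢
    exact geoo_sin L hL5 _ (hy0 n) this
  -- the parameters
  have hcc : ∀ n : ℕ, cc α ((L : ℝ) ^ n * u) =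
      α * ((-Real.sin (2 * Real.pi * ((L : ℝ) ^ n * x)) : ℝ) : ℂ) := by
    intro n
    rw [cc, hx, geoo_cos L n hL4 x]
  have hcn : ∀ n : ℕ, n ≤ 70 → ‖cc α ((L : ℝ) ^ n * u)‖ =
      ‖α‖ * Real.sin (2 * Real.pi * ((L : ℝ) ^ n * x)) := by
    intro n hn
    rw [hcc n, norm_mul, Complex.norm_real, norm_neg, Real.norm_of_nonneg (hs0 n hn).le]
  have hcs : ∀ n : ℕ, n ≤ 70 → ‖cc α ((L : ℝ) ^ n * u)‖ ≤ 1 / 1000 := by
    intro n hn
    rw [hcn n hn]
    have h1 := hs1 n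
    have h2 := hy2 n hn
    have h3 := hs0 n hn
    nlinarith
  have hcr : ∀ n : ℕ, n + 1 ≤ 70 → 499 / 100 * ‖cc α ((L : ℝ) ^ n * u)‖ ≤
      ‖cc α ((L : ℝ) ^ (n + 1) * u)‖ := by
    intro n hn
    rw [hcn n (by omega), hcn (n + 1) hn]
    have := mul_le_mul_of_nonneg_left (hs2 n hn) hα.le
    linarith
  -- the non-escaping points
  have hNE : ∀ w ∈ NE α L ((L : ℝ) * u), ‖cc α ((L : ℝ) ^ 1 * u) * w‖ < 122 / 100 := by
    intro w hw
    by_contra hcon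
    push Not at hcon
    apply hw
    have hind : ∀ k : ℕ, k + 1 ≤ 70 → 122 / 100 * (109 / 100 : ℝ) ^ k ≤
        ‖cc α ((L : ℝ) ^ (k + 1) * u) * G α L w k (((L : ℝ) * u : ℝ) : ℂ)‖ := by
      intro k
      induction k with
      | zero => intro _; simpa [G] using hcon
      | succ k ih =>
        intro hk
        have h1 := ih (by omega)
        have h2 : (1 : ℝ) ≤ (109 / 100 : ℝ) ^ k := one_le_pow₀ (by norm_num)
        have h3 := geoo_grow _ _ (G α L w k (((L : ℝ) * u : ℝ) : ℂ)) (hcs (k + 1) (by omega))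
          (hcr (k + 1) hk) (by linarith)
        rw [geoo_G]
        refine le_trans ?_ h3
        rw [pow_succ]
        linarith
    have h70 := hind 69 le_rfl
    have h400 : (400 : ℝ) ≤ 122 / 100 * (109 / 100 : ℝ) ^ 69 := by norm_num
    have hGR : R ≤ ‖G α L w 69 (((L : ℝ) * u : ℝ) : ℂ)‖ := by
      have h1 : 400 ≤ ‖cc α ((L : ℝ) ^ 70 * u)‖ * ‖G α L w 69 (((L : ℝ) * u : ℝ) : ℂ)‖ := by
        rw [← norm_mul]
        exact h400.trans h70
      have h2 : ‖cc α ((L : ℝ) ^ 70 * u)‖ ≤ ‖α‖ * (2 * Real.pi / 10000) := by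
        rw [hcn 70 le_rfl]
        exact mul_le_mul_of_nonneg_left ((hs1 70).trans (hy1 70 le_rfl)) hα.le
      have h3 : 400 ≤ ‖α‖ * (2 * Real.pi / 10000) * ‖G α L w 69 (((L : ℝ) * u : ℝ) : ℂ)‖ :=
        h1.trans (mul_le_mul_of_nonneg_right h2 (norm_nonneg _))
      rw [hR, div_le_iff₀ (by positivity)]
      nlinarith
    have hesc := hSE u hu _ hGR
    have hlim : Tendsto (fun k : ℕ => (4 : ℝ) ^ k * ‖G α L w 69 (((L : ℝ) * u : ℝ) : ℂ)‖) atTop atTop :=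
      (tendsto_pow_atTop_atTop_of_one_lt (by norm_num)).atTop_mul_const (hRpos.trans_le hGR)
    rw [← tendsto_add_atTop_iff_nat 69]
    refine tendsto_atTop_mono (fun k => ?_) hlim
    refine (hesc k).trans (le_of_eq ?_)
    rw [add_comm k 69, ha α L w 69 k]
    congr 2
    push_cast
    ring
  -- conclusion
  have h0 := hcn 0 (by omega)
  have hc0 : cc α u ≠ 0 := by
    have h1 : 0 < ‖cc α ((L : ℝ) ^ 0 * u)‖ := by
      rw [h0]; exact mul_pos hα (hs0 0 (by omega))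
    rw [pow_zero, one_mul] at h1
    exact norm_pos_iff.1 h1
  refine ⟨hc0, cc α ((L : ℝ) ^ 1 * u), fun w hw => ?_⟩
  have hw1 := hNE w hw
  have hw2 : (cc α ((L : ℝ) ^ 1 * u) * w).re < 122 / 100 := (Complex.re_le_norm _).trans_lt hw1
  -- the ratio of the two parameters
  obtain ⟨r, hr, hr1⟩ : ∃ r : ℝ, cc α ((L : ℝ) ^ 1 * u) = (r : ℂ) * cc α u ∧ 499 / 100 ≤ r := by
    refine ⟨Real.sin (2 * Real.pi * ((L : ℝ) ^ 1 * x)) / Real.sin (2 * Real.pi * ((L : ℝ) ^ 0 * x)), ?_, ?_⟩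
    · have e1 := hcc 1
      have e0 := hcc 0
      rw [pow_zero, one_mul] at e0
      rw [e1, e0]
      have hne := (hs0 0 (by omega)).ne'
      rw [pow_zero, one_mul] at hne ⊢
      have hne' : ((Real.sin (2 * Real.pi * x) : ℝ) : ℂ) ≠ 0 := by exact_mod_cast hne
      push_cast at hne' ⊢
      field_simp
    · rw [le_div_iff₀ (hs0 0 (by omega))]
      exact hs2 0 (by omega)
  have hval : cc α ((L : ℝ) ^ 1 * u) * ((1 + cc α u) ^ 2 / (4 * cc α u)) =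
      (r : ℂ) * ((1 + cc α u) ^ 2 / 4) := by
    rw [hr]; field_simp
  have hsmall : ‖cc α u‖ ≤ 1 / 1000 := by
    have := hcs 0 (by omega)
    rwa [pow_zero, one_mul] at this
  have hre : 997 / 1000 ≤ ((1 + cc α u) ^ 2).re := by
    have e : (1 + cc α u) ^ 2 = 1 - (-(2 * cc α u + cc α u ^ 2)) := by ring
    have h1 : (-(2 * cc α u + cc α u ^ 2)).re ≤ 3 / 1000 := by
      refine (Complex.re_le_norm _).trans ?_
      rw [norm_neg]
      refine (norm_add_le _ _).trans ?_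
      rw [norm_mul, norm_pow]
      have : ‖(2 : ℂ)‖ = 2 := by simp
      rw [this]
      nlinarith [norm_nonneg (cc α u)]
    rw [e, Complex.sub_re, Complex.one_re]
    linarith
  have hfin : 124 / 100 ≤ (cc α ((L : ℝ) ^ 1 * u) * ((1 + cc α u) ^ 2 / (4 * cc α u))).re := by
    rw [hval, Complex.re_ofReal_mul]
    have : ((1 + cc α u) ^ 2 / 4).re = ((1 + cc α u) ^ 2).re / 4 := by
      simp
    rw [this]
    nlinarith
  rw [mul_sub, Complex.sub_re]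
  linarith

end

end Pool.Agent.H429K
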