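import Pool.Agent.H429K.Stmts2

open MeasureTheory Filter Topology

namespace Pool.Agent.H429K

noncomputable section

/-- the base point `1/4 + x` under multiplication by `L ^ n`, `L = 3` modulo `4` -/
private theorem geot_cos (L n : ℕ) (hL : L % 4 = 3) (x : ℝ) :
    Real.cos (2 * Real.pi * ((L : ℝ) ^ n * (1 / 4 + x))) =
      (-1) ^ (n + 1) * Real.sin (2 * Real.pi * ((L : ℝ) ^ n * x)) := by
  have hmod : ((L : ℤ) ^ n) ≡ (-1) ^ n [ZMOD 4] := by
    apply Int.ModEq.pow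
    have : ((L : ℤ)) % 4 = 3 := by exact_mod_cast hL
    exact (Int.emod_emod_of_dvd _ (dvd_refl 4)).symm.trans (by rw [this]; rfl)
  obtain ⟨m, hm⟩ := hmod.symm.dvd
  have hmR : (L : ℝ) ^ n = (-1) ^ n + 4 * m := by
    have h1 : (L : ℤ) ^ n = (-1) ^ n + 4 * m := by linarith
    exact_mod_cast h1
  have e1 : 2 * Real.pi * ((L : ℝ) ^ n * (1 / 4 + x)) =
      ((-1) ^ n * (Real.pi / 2) + 2 * Real.pi * ((L : ℝ) ^ n * x)) + m * (2 * Real.pi) := by
    have : 2 * Real.pi * ((L : ℝ) ^ n * (1 / 4 + x)) =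
      Real.pi / 2 * (L : ℝ) ^ n + 2 * Real.pi * ((L : ℝ) ^ n * x) := by ring
    rw [this]
    nth_rewrite 1 [hmR]
    ring
  rw [e1, Real.cos_add_int_mul_two_pi]
  rcases Nat.even_or_odd n with h | h
  · rw [h.neg_one_pow, (Even.add_one h).neg_one_pow, one_mul, add_comm, Real.cos_add_pi_div_two]
    ring
  · rw [h.neg_one_pow, (Odd.add_one h).neg_one_pow, one_mul, neg_one_mul, add_comm,
      ← sub_eq_add_neg, Real.cos_sub_pi_div_two]

/-- one step of the orbit over `L u` -/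
private theorem geot_step (α : ℂ) (L : ℕ) (u : ℝ) (w : ℂ) (n : ℕ) :
    G α L w (n + 1) (((L : ℝ) * u : ℝ) : ℂ) =
      G α L w n (((L : ℝ) * u : ℝ) : ℂ) *
        (1 + cc α ((L : ℝ) ^ (n + 1) * u) -
          cc α ((L : ℝ) ^ (n + 1) * u) * G α L w n (((L : ℝ) * u : ℝ) : ℂ)) := by
  have e1 : α * Complex.cos (2 * (Real.pi : ℂ) * (L : ℂ) ^ n * (((L : ℝ) * u : ℝ) : ℂ)) =
      cc α ((L : ℝ) ^ (n + 1) * u) := by
    unfold cc
    congr 1
    rw [Complex.ofReal_cos]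
    congr 1
    push_cast
    ring
  show step (α * Complex.cos (2 * (Real.pi : ℂ) * (L : ℂ) ^ n * (((L : ℝ) * u : ℝ) : ℂ)))
    (G α L w n (((L : ℝ) * u : ℝ) : ℂ)) = _
  rw [e1]
  unfold step
  ring

/-- sines of small multiples -/
private theorem geot_sin {L : ℕ} (hL : 3 ≤ L) {t : ℝ} (ht : 0 < t) (hLt : (L : ℝ) * t ≤ 1 / 1000) :
    0 < Real.sin t ∧ 2.99 * Real.sin t ≤ Real.sin ((L : ℝ) * t) := by
  have hL3 : (3 : ℝ) ≤ L := by exact_mod_cast hL
  have ht1 : t ≤ 1 := by nlinarith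
  have hLt0 : 0 < (L : ℝ) * t := by positivity
  have hs : 0 < Real.sin t := Real.sin_pos_of_pos_of_le_one ht ht1
  refine ⟨hs, ?_⟩
  have h1 : Real.sin t ≤ t := Real.sin_le ht.le
  have h2 : (L : ℝ) * t - ((L : ℝ) * t) ^ 3 / 6 < Real.sin ((L : ℝ) * t) :=
    Real.sin_gt_sub_cube hLt0
  have h3 : ((L : ℝ) * t) ^ 3 ≤ (L : ℝ) * t * (1 / 1000) ^ 2 := by
    have : ((L : ℝ) * t) ^ 2 ≤ (1 / 1000) ^ 2 := pow_le_pow_left₀ hLt0.le hLt 2
    nlinarith
  nlinarith

theorem t_geo3 (ha : S_add) (hsh : S_shift) (hp : S_pos) : S_geo3 := by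
  intro α L hL2 hL4 hα0 hα1
  have hL3 : 3 ≤ L := by omega
  have hL3R : (3 : ℝ) ≤ L := by exact_mod_cast hL3
  have hL0 : (0 : ℝ) < L := by linarith
  have hπ := Real.pi_pos
  have hπ3 := Real.pi_lt_d2
  set δ : ℝ := 1 / (10000 * (L : ℝ) ^ 10) with hδ
  have hδ0 : 0 < δ := by positivity
  have hLδ : (L : ℝ) ^ 10 * δ = 1 / 10000 := by
    rw [hδ]
    field_simp
  set R : ℝ := 500000 / ‖α‖ with hR
  have hR0 : 0 < R := by positivity
  obtain ⟨S, hSm, hSv, hSI, hSE⟩ := hp α L 10 δ R (by omega) hα0 hα1.le hδ0 hR0 (by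
    have e1 : ‖α‖ * R = 500000 := by
      rw [hR]
      field_simp
    have e2 : (L : ℝ) ^ 10 * (δ / 2) = 1 / 20000 := by
      rw [← mul_div_assoc, hLδ]
      norm_num
    rw [e1, e2]
    norm_num)
  refine ⟨S, hSm, hSv, fun u hu => ?_⟩
  have huI := hSI hu
  have huE := hSE u hu
  set x : ℝ := u - 1 / 4 with hx
  have hx0 : 0 < x := by
    have := huI.1
    simp only [hx]
    linarith
  have hxδ : x ≤ δ := by
    have := huI.2
    simp only [hx]
    linarith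
  have hux : u = 1 / 4 + x := by rw [hx]; ring
  -- the angles
  have hang : ∀ n : ℕ, n ≤ 10 → 0 < 2 * Real.pi * ((L : ℝ) ^ n * x) ∧
      2 * Real.pi * ((L : ℝ) ^ n * x) ≤ 63 / 100000 := by
    intro n hn
    refine ⟨by positivity, ?_⟩
    have h1 : (L : ℝ) ^ n ≤ (L : ℝ) ^ 10 := pow_le_pow_right₀ (by linarith) hn
    have h2 : (L : ℝ) ^ n * x ≤ (L : ℝ) ^ 10 * δ := by gcongr
    rw [hLδ] at h2
    nlinarith
  have hsin : ∀ n : ℕ, n < 10 → 0 < Real.sin (2 * Real.pi * ((L : ℝ) ^ n * x)) ∧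
      2.99 * Real.sin (2 * Real.pi * ((L : ℝ) ^ n * x)) ≤
        Real.sin (2 * Real.pi * ((L : ℝ) ^ (n + 1) * x)) := by
    intro n hn
    have h1 := (hang n (by omega)).1
    have h2 := (hang (n + 1) (by omega)).2
    have e : 2 * Real.pi * ((L : ℝ) ^ (n + 1) * x) = L * (2 * Real.pi * ((L : ℝ) ^ n * x)) := by
      rw [pow_succ]; ring
    rw [e] at h2 ⊢
    exact geot_sin hL3 h1 (by linarith)
  -- the coefficients
  set c : ℕ → ℂ := fun n => cc α ((L : ℝ) ^ n * u) with hc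
  have hcn : ∀ n, c n = α * (((-1) ^ (n + 1) * Real.sin (2 * Real.pi * ((L : ℝ) ^ n * x)) : ℝ) : ℂ) := by
    intro n
    simp only [hc, cc]
    rw [hux, geot_cos L n hL4 x]
  have hnorm : ∀ n, ‖c n‖ = ‖α‖ * |Real.sin (2 * Real.pi * ((L : ℝ) ^ n * x))| := by
    intro n
    rw [hcn, norm_mul, Complex.norm_real, Real.norm_eq_abs, abs_mul, abs_pow, abs_neg, abs_one,
      one_pow, one_mul]
  have hcsmall : ∀ n, n ≤ 10 → ‖c n‖ ≤ ‖α‖ * (63 / 100000) := by
    intro n hn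
    rw [hnorm]
    have h1 := hang n hn
    gcongr
    rw [abs_le]
    constructor
    · have := Real.neg_one_le_sin (2 * Real.pi * ((L : ℝ) ^ n * x))
      have h2 : 0 ≤ Real.sin (2 * Real.pi * ((L : ℝ) ^ n * x)) :=
        (Real.sin_pos_of_pos_of_le_one h1.1 (by linarith [h1.2])).le
      linarith
    · exact (Real.sin_le h1.1.le).trans h1.2
  have hc3 : ∀ n, n ≤ 10 → ‖c n‖ ≤ 1 / 1000 := by
    intro n hn
    have := hcsmall n hn
    nlinarith
  have hratio : ∀ n, n < 10 → 2.99 * ‖c n‖ ≤ ‖c (n + 1)‖ := by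
    intro n hn
    obtain ⟨h1, h2⟩ := hsin n hn
    rw [hnorm, hnorm, abs_of_pos h1]
    have h3 : Real.sin (2 * Real.pi * ((L : ℝ) ^ (n + 1) * x)) ≤
        |Real.sin (2 * Real.pi * ((L : ℝ) ^ (n + 1) * x))| := le_abs_self _
    nlinarith [norm_nonneg α]
  have hcpos : ∀ n, n < 10 → 0 < ‖c n‖ := by
    intro n hn
    rw [hnorm]
    have := (hsin n hn).1
    positivity
  -- `cc α u = c 0`, `cc α (L u) = c 1`
  have hc0 : cc α u = c 0 := by
    simp only [hc, pow_zero, one_mul]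
  -- the bound on non-escaping points
  have hkey : ∀ w ∈ NE α L ((L : ℝ) * u), -(1 / 2) < (c 1 * w).re := by
    intro w hw
    by_contra hcon
    push Not at hcon
    apply hw
    set z : ℕ → ℂ := fun n => G α L w n (((L : ℝ) * u : ℝ) : ℂ) with hz
    have hstep : ∀ n, z (n + 1) = z n * (1 + c (n + 1) - c (n + 1) * z n) := fun n =>
      geot_step α L u w n
    set q : ℕ → ℝ := fun n => ‖c (n + 1) * z n‖ with hq
    have hqs : ∀ n, n < 9 → 2.99 * (q n * ‖1 + c (n + 1) - c (n + 1) * z n‖) ≤ q (n + 1) := by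
      intro n hn
      have h1 := hratio (n + 1) (by omega)
      simp only [hq]
      rw [hstep n, norm_mul, norm_mul, norm_mul]
      have h2 : 0 ≤ ‖z n‖ * ‖1 + c (n + 1) - c (n + 1) * z n‖ := by positivity
      calc 2.99 * (‖c (n + 1)‖ * ‖z n‖ * ‖1 + c (n + 1) - c (n + 1) * z n‖)
          = (2.99 * ‖c (n + 1)‖) * (‖z n‖ * ‖1 + c (n + 1) - c (n + 1) * z n‖) := by ring
        _ ≤ ‖c (n + 1 + 1)‖ * (‖z n‖ * ‖1 + c (n + 1) - c (n + 1) * z n‖) := by gcongr
    have hq0 : 1 / 2 ≤ q 0 := by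
      have h1 : |(c 1 * w).re| ≤ ‖c 1 * w‖ := Complex.abs_re_le_norm _
      have h2 : -(c 1 * w).re ≤ |(c 1 * w).re| := neg_le_abs _
      show 1 / 2 ≤ ‖c 1 * w‖
      linarith
    have hq1 : 2.2 ≤ q 1 := by
      have h1 := hqs 0 (by omega)
      have h2 : 1.499 ≤ ‖1 + c (0 + 1) - c (0 + 1) * z 0‖ := by
        have h3 : |(1 + c (0 + 1) - c (0 + 1) * z 0).re| ≤ ‖1 + c (0 + 1) - c (0 + 1) * z 0‖ :=
          Complex.abs_re_le_norm _
        have h4 : (1 + c (0 + 1) - c (0 + 1) * z 0).re ≤ |(1 + c (0 + 1) - c (0 + 1) * z 0).re| :=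
          le_abs_self _
        have h5 : (1 + c (0 + 1) - c (0 + 1) * z 0).re = 1 + (c 1).re - (c 1 * w).re := by
          simp only [zero_add, Complex.sub_re, Complex.add_re, Complex.one_re]
          rfl
        have h6 : |(c 1).re| ≤ ‖c 1‖ := Complex.abs_re_le_norm _
        have h7 := hc3 1 (by omega)
        have h8 := neg_abs_le (c 1).re
        rw [h5] at h3 h4
        linarith
      nlinarith
    have hqn : ∀ j, j ≤ 8 → 2.2 * 3.5 ^ j ≤ q (1 + j) := by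
      intro j
      induction j with
      | zero => intro _; simpa using hq1
      | succ j ih =>
        intro hj
        have ih := ih (by omega)
        have h22 : 2.2 ≤ q (1 + j) := by
          have : (1 : ℝ) ≤ 3.5 ^ j := one_le_pow₀ (by norm_num)
          nlinarith
        have h1 := hqs (1 + j) (by omega)
        have h2 : q (1 + j) - 1.001 ≤ ‖1 + c (1 + j + 1) - c (1 + j + 1) * z (1 + j)‖ := by
          have h3 : ‖c (1 + j + 1) * z (1 + j)‖ - ‖1 + c (1 + j + 1)‖ ≤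
              ‖c (1 + j + 1) * z (1 + j) - (1 + c (1 + j + 1))‖ := norm_sub_norm_le _ _
          have h4 : ‖1 + c (1 + j + 1)‖ ≤ 1.001 := by
            have h5 := norm_add_le (1 : ℂ) (c (1 + j + 1))
            have h6 := hc3 (1 + j + 1) (by omega)
            rw [norm_one] at h5
            linarith
          rw [norm_sub_rev] at h3
          simp only [hq]
          linarith
        have h3 : 3.5 * q (1 + j) ≤ q (1 + j + 1) := by nlinarith
        calc 2.2 * 3.5 ^ (j + 1) = 3.5 * (2.2 * 3.5 ^ j) := by rw [pow_succ]; ring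
          _ ≤ 3.5 * q (1 + j) := by gcongr
          _ ≤ q (1 + (j + 1)) := h3
    have hq9 : 400 ≤ q 9 := by
      have := hqn 8 le_rfl
      refine le_trans ?_ this
      norm_num
    have hz9 : R ≤ ‖z 9‖ := by
      simp only [hq, norm_mul] at hq9
      have h1 := hcsmall 10 le_rfl
      have h2 : 400 ≤ ‖α‖ * (63 / 100000) * ‖z 9‖ := by
        refine hq9.trans ?_
        gcongr
      rw [hR, div_le_iff₀ hα0]
      linarith
    have hesc : ∀ k : ℕ, (4 : ℝ) ^ k * ‖z 9‖ ≤ ‖G α L w (k + 9) (((L : ℝ) * u : ℝ) : ℂ)‖ := by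
      intro k
      have h1 := huE (z 9) hz9 k
      have h2 := ha α L w 9 k (((L : ℝ) * u : ℝ) : ℂ)
      have h3 : (L : ℂ) ^ 9 * (((L : ℝ) * u : ℝ) : ℂ) = (((L : ℝ) ^ 10 * u : ℝ) : ℂ) := by
        push_cast
        ring
      rw [add_comm k 9, h2, h3]
      exact h1
    rw [← tendsto_add_atTop_iff_nat 9]
    have hz9pos : 0 < ‖z 9‖ := hR0.trans_le hz9
    refine tendsto_atTop_mono hesc ?_
    exact (tendsto_pow_atTop_atTop_of_one_lt (by norm_num : (1 : ℝ) < 4)).atTop_mul_const hz9pos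
  refine ⟨?_, -c 1, ?_⟩
  · rw [hc0]
    exact norm_pos_iff.1 (hcpos 0 (by omega))
  · intro w hw
    have h1 := hkey w hw
    rw [hc0]
    -- the critical value
    obtain ⟨hs0, hs1⟩ := hsin 0 (by omega)
    set s0 := Real.sin (2 * Real.pi * ((L : ℝ) ^ 0 * x)) with hs0d
    set s1 := Real.sin (2 * Real.pi * ((L : ℝ) ^ (0 + 1) * x)) with hs1d
    have hc0' : c 0 = -(α * (s0 : ℂ)) := by
      rw [hcn 0, ← hs0d]
      push_cast
      ring
    have hc1' : c 1 = α * (s1 : ℂ) := by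
      have := hcn (0 + 1)
      rw [← hs1d] at this
      rw [show (1 : ℕ) = 0 + 1 from rfl, this]
      push_cast
      ring
    have hα : α ≠ 0 := norm_pos_iff.1 hα0
    have hs0C : (s0 : ℂ) ≠ 0 := by exact_mod_cast hs0.ne'
    have hval : c 1 * ((1 + c 0) ^ 2 / (4 * c 0)) = ((-(s1 / s0) / 4 : ℝ) : ℂ) * (1 + c 0) ^ 2 := by
      have h0 : c 0 ≠ 0 := norm_pos_iff.1 (hcpos 0 (by omega))
      have e : c 1 = ((-(s1 / s0) : ℝ) : ℂ) * c 0 := by
        rw [hc0', hc1']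
        push_cast
        field_simp
      rw [e]
      push_cast
      field_simp
    have hre : 0.997 ≤ ((1 + c 0) ^ 2).re := by
      have e : (1 + c 0) ^ 2 = 1 + (2 * c 0 + c 0 ^ 2) := by ring
      rw [e, Complex.add_re, Complex.one_re]
      have h2 : |(2 * c 0 + c 0 ^ 2).re| ≤ ‖2 * c 0 + c 0 ^ 2‖ := Complex.abs_re_le_norm _
      have h3 : ‖2 * c 0 + c 0 ^ 2‖ ≤ 2 * ‖c 0‖ + ‖c 0‖ ^ 2 := by
        refine (norm_add_le _ _).trans ?_
        rw [norm_mul, norm_pow]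
        simp
      have h4 := hc3 0 (by omega)
      have h5 := neg_abs_le (2 * c 0 + c 0 ^ 2).re
      nlinarith [norm_nonneg (c 0)]
    have hρ : 2.99 ≤ s1 / s0 := by
      rw [le_div_iff₀ hs0]
      exact hs1
    have hfin : (c 1 * ((1 + c 0) ^ 2 / (4 * c 0))).re ≤ -0.74 := by
      rw [hval, Complex.re_ofReal_mul]
      nlinarith
    have e2 : -c 1 * ((1 + c 0) ^ 2 / (4 * c 0) - w) =
        -(c 1 * ((1 + c 0) ^ 2 / (4 * c 0))) + c 1 * w := by ring
    rw [e2, Complex.add_re, Complex.neg_re]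
    linarith

end

end Pool.Agent.H429K
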