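import Pool.Agent.H429K.Stmts2

open MeasureTheory Filter Topology

namespace Pool.Agent.H429K

noncomputable section

private lemma geoz_norm_cc (α : ℂ) (u : ℝ) :
    ‖cc α u‖ = ‖α‖ * |Real.cos (2 * Real.pi * u)| := by
  unfold cc
  rw [norm_mul, Complex.norm_real, Real.norm_eq_abs]

/-- lower bound for a step -/
private lemma geoz_step {c w : ℂ} {A : ℝ} (h1 : A / 2 ≤ ‖c‖) (h2 : ‖c‖ ≤ 1)
    (h3 : 2 ≤ ‖w‖ * (A / 4)) : A / 4 * ‖w‖ ^ 2 ≤ ‖step c w‖ := by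
  have e : step c w = -(w * (c * w - (1 + c))) := by
    unfold step
    ring
  have h4 : ‖c‖ * ‖w‖ - 2 ≤ ‖c * w - (1 + c)‖ := by
    have h5 := norm_sub_norm_le (c * w) (1 + c)
    rw [norm_mul] at h5
    have h6 : ‖1 + c‖ ≤ 2 := by
      refine (norm_add_le _ _).trans ?_
      rw [norm_one]
      linarith
    linarith
  have hw : 0 ≤ ‖w‖ := norm_nonneg w
  have h7 : A / 4 * ‖w‖ ≤ ‖c * w - (1 + c)‖ := by
    have h8 : A / 2 * ‖w‖ ≤ ‖c‖ * ‖w‖ := mul_le_mul_of_nonneg_right h1 hw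
    linarith
  rw [e, norm_neg, norm_mul]
  calc A / 4 * ‖w‖ ^ 2 = ‖w‖ * (A / 4 * ‖w‖) := by ring
    _ ≤ ‖w‖ * ‖c * w - (1 + c)‖ := mul_le_mul_of_nonneg_left h7 hw

/-- a large critical value separates -/
private lemma geoz_sep {v w : ℂ} (hv : v ≠ 0) (hw : ‖w‖ < ‖v‖ / 2) :
    0 < ((starRingEnd ℂ) v * (v - w)).re := by
  have hv0 : 0 < ‖v‖ := norm_pos_iff.2 hv
  have h1 : ((starRingEnd ℂ) v * (v - w)).re = ‖v‖ ^ 2 - ((starRingEnd ℂ) v * w).re := by
    rw [mul_sub, Complex.sub_re, mul_comm ((starRingEnd ℂ) v) v, Complex.mul_conj,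
      Complex.ofReal_re, Complex.normSq_eq_norm_sq]
  have h2 : ((starRingEnd ℂ) v * w).re ≤ ‖v‖ * ‖w‖ := by
    refine (Complex.re_le_norm _).trans ?_
    rw [norm_mul, Complex.norm_conj]
  rw [h1]
  nlinarith

/-- escape after one large step -/
private lemma geoz_escape (hsh : S_shift) {α : ℂ} {L : ℕ} {u R : ℝ} (hR : 0 < R)
    (hE : (L : ℝ) ^ 2 * u ∈ Esc α L R) {w : ℂ} (hw : R ≤ ‖step (cc α ((L : ℝ) * u)) w‖) :
    w ∉ NE α L ((L : ℝ) * u) := by
  intro hne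
  apply hne
  rw [← tendsto_add_atTop_iff_nat 1]
  have h1 : ∀ k : ℕ, (4 : ℝ) ^ k * R ≤ ‖G α L w (k + 1) (((L : ℝ) * u : ℝ) : ℂ)‖ := by
    intro k
    rw [hsh α L ((L : ℝ) * u) w k]
    have h2 := hE (step (cc α ((L : ℝ) * u)) w) hw k
    have e : (L : ℝ) * ((L : ℝ) * u) = (L : ℝ) ^ 2 * u := by ring
    rw [e]
    refine le_trans ?_ h2
    exact mul_le_mul_of_nonneg_left hw (by positivity)
  refine tendsto_atTop_mono h1 ?_
  exact (tendsto_pow_atTop_atTop_of_one_lt (by norm_num)).atTop_mul_const hR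

theorem t_geo0 (ha : S_add) (hsh : S_shift) (hp : S_pos) : S_geo0 := by
  intro α L hL hL2 hα hα1
  have hpi := Real.pi_pos
  have hpi3 : Real.pi < 3.15 := Real.pi_lt_d2
  have hLr : (2 : ℝ) ≤ L := by exact_mod_cast hL
  set A := ‖α‖ with hA
  set δ : ℝ := 1 / (10 ^ 7 * L) with hδ
  have hδ0 : 0 < δ := by positivity
  have hδL : (L : ℝ) * δ = 1 / 10 ^ 7 := by
    rw [hδ]
    field_simp
  have hδ1 : δ ≤ 1 / 10 ^ 7 := by nlinarith
  set W : ℝ := 1 / (64 * Real.pi * A * δ) with hW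
  have hW0 : 0 < W := by positivity
  set R : ℝ := A / 4 * W ^ 2 with hR
  have hR0 : 0 < R := by positivity
  have hAR : A * R = 1 / (16384 * Real.pi ^ 2 * δ ^ 2) := by
    rw [hR, hW]
    field_simp
    norm_num
  have hpos : 12 * ((L : ℝ) ^ 2 * (δ / 2) + 1) / (A * R) < (L : ℝ) ^ 2 * (δ / 2) := by
    rw [hAR, div_div_eq_mul_div, div_one]
    have p2 : Real.pi ^ 2 ≤ 10 := by nlinarith
    have p3 : (L : ℝ) ^ 2 * (δ / 2) + 1 ≤ (L : ℝ) ^ 2 := by
      have : (L : ℝ) ^ 2 * (δ / 2) ≤ (L : ℝ) ^ 2 * (1 / 2) :=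
        mul_le_mul_of_nonneg_left (by linarith) (by positivity)
      nlinarith
    calc 12 * ((L : ℝ) ^ 2 * (δ / 2) + 1) * (16384 * Real.pi ^ 2 * δ ^ 2)
        ≤ 12 * ((L : ℝ) ^ 2) * (16384 * 10 * δ ^ 2) := by gcongr
      _ = ((L : ℝ) ^ 2 * (δ / 2)) * (3932160 * δ) := by ring
      _ < ((L : ℝ) ^ 2 * (δ / 2)) * 1 := by
          refine mul_lt_mul_of_pos_left ?_ (by positivity)
          linarith
      _ = _ := mul_one _
  obtain ⟨S, hSm, hSv, hSs, hSe⟩ := hp α L 2 δ R (by omega) hα hα1.le hδ0 hR0 hpos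
  refine ⟨S, hSm, hSv, fun u hu => ?_⟩
  obtain ⟨hu1, hu2⟩ := hSs hu
  have hE := hSe u hu
  set x : ℝ := u - 1 / 4 with hx
  have hx1 : δ / 2 ≤ x := by rw [hx]; linarith
  have hx2 : x ≤ δ := by rw [hx]; linarith
  have hx0 : 0 < x := by linarith
  -- the first parameter
  have hc0 : ‖cc α u‖ = A * |Real.sin (2 * Real.pi * x)| := by
    rw [geoz_norm_cc, show 2 * Real.pi * u = 2 * Real.pi * x + Real.pi / 2 by rw [hx]; ring,
      Real.cos_add_pi_div_two, abs_neg]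
  have hsmall : 2 * Real.pi * x ≤ 1 / 10 ^ 6 := by
    calc 2 * Real.pi * x ≤ 2 * 3.15 * (1 / 10 ^ 7) := by gcongr; linarith
      _ ≤ 1 / 10 ^ 6 := by norm_num
  have hsin0 : 0 < Real.sin (2 * Real.pi * x) :=
    Real.sin_pos_of_pos_of_lt_pi (by positivity) (by linarith [Real.pi_gt_three])
  have hsin1 : Real.sin (2 * Real.pi * x) ≤ 2 * Real.pi * x := Real.sin_le (by positivity)
  rw [abs_of_pos hsin0] at hc0
  have hc0pos : 0 < ‖cc α u‖ := by rw [hc0]; positivity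
  have hc0ne : cc α u ≠ 0 := norm_pos_iff.1 hc0pos
  have hc0le : ‖cc α u‖ ≤ A * (2 * Real.pi * δ) := by
    rw [hc0]
    have : Real.sin (2 * Real.pi * x) ≤ 2 * Real.pi * δ := hsin1.trans (by gcongr)
    gcongr
  have hc0half : ‖cc α u‖ ≤ 1 / 2 := by
    rw [hc0]
    have : Real.sin (2 * Real.pi * x) ≤ 1 / 2 := by linarith
    have h2 : A * Real.sin (2 * Real.pi * x) ≤ 1 * (1 / 2) := by gcongr
    linarith
  -- the critical value
  set v : ℂ := (1 + cc α u) ^ 2 / (4 * cc α u) with hv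
  have hvW : 2 * W ≤ ‖v‖ := by
    rw [hv, norm_div, norm_pow, norm_mul]
    have h4 : ‖(4 : ℂ)‖ = 4 := by norm_num
    rw [h4, le_div_iff₀ (by positivity)]
    have h5 : 1 / 2 ≤ ‖1 + cc α u‖ := by
      have := norm_sub_norm_le (1 : ℂ) (-cc α u)
      rw [norm_one, norm_neg, sub_neg_eq_add] at this
      linarith
    have h6 : 2 * W * (4 * ‖cc α u‖) ≤ 2 * W * (4 * (A * (2 * Real.pi * δ))) := by gcongr
    have h7 : 2 * W * (4 * (A * (2 * Real.pi * δ))) = 1 / 4 := by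
      rw [hW]
      field_simp
      norm_num
    nlinarith
  have hvne : v ≠ 0 := by
    intro h0
    rw [h0, norm_zero] at hvW
    linarith
  -- the second parameter
  obtain ⟨m, hm⟩ : ∃ m : ℕ, L = 2 * m := ⟨L / 2, by omega⟩
  have hc1 : ‖cc α ((L : ℝ) * u)‖ = A * |Real.cos (2 * Real.pi * (L * x))| := by
    rw [geoz_norm_cc]
    have e : 2 * Real.pi * ((L : ℝ) * u) = 2 * Real.pi * (L * x) + m * Real.pi := by
      rw [hx, hm]
      push_cast
      ring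
    rw [e, Real.cos_add_nat_mul_pi, abs_mul, abs_pow, abs_neg, abs_one, one_pow, one_mul]
  have hLx : 2 * Real.pi * (L * x) ≤ 1 := by
    have : (L : ℝ) * x ≤ 1 / 10 ^ 7 := by
      rw [← hδL]
      gcongr
    calc 2 * Real.pi * (L * x) ≤ 2 * 3.15 * (1 / 10 ^ 7) := by gcongr
      _ ≤ 1 := by norm_num
  have hcos : 1 / 2 ≤ Real.cos (2 * Real.pi * (L * x)) := by
    have h8 := Real.one_sub_sq_div_two_le_cos (x := 2 * Real.pi * (L * x))
    have h9 : 0 ≤ 2 * Real.pi * (L * x) := by positivity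
    have h9' : (2 * Real.pi * (L * x)) ^ 2 ≤ 1 := pow_le_one₀ h9 hLx
    linarith
  rw [abs_of_pos (by linarith)] at hc1
  have hc1a : A / 2 ≤ ‖cc α ((L : ℝ) * u)‖ := by
    rw [hc1]
    have := mul_le_mul_of_nonneg_left hcos hα.le
    linarith
  have hc1b : ‖cc α ((L : ℝ) * u)‖ ≤ 1 := by
    rw [hc1]
    have := Real.cos_le_one (2 * Real.pi * (L * x))
    have h2 : A * Real.cos (2 * Real.pi * (L * x)) ≤ A * 1 := mul_le_mul_of_nonneg_left this hα.le
    linarith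
  refine ⟨hc0ne, (starRingEnd ℂ) v, fun w hw => ?_⟩
  rw [← hv]
  refine geoz_sep hvne ?_
  by_contra hcon
  rw [not_lt] at hcon
  have hwW : W ≤ ‖w‖ := by linarith
  have hWA : 2 ≤ W * (A / 4) := by
    have e : W * (A / 4) = 1 / (256 * Real.pi * δ) := by
      rw [hW]
      field_simp
      norm_num
    rw [e, le_div_iff₀ (by positivity)]
    calc 2 * (256 * Real.pi * δ) ≤ 2 * (256 * 3.15 * (1 / 10 ^ 7)) := by gcongr
      _ ≤ 1 := by norm_num
  have h10 : 2 ≤ ‖w‖ * (A / 4) := hWA.trans (by gcongr)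
  have h11 := geoz_step hc1a hc1b h10
  have h12 : R ≤ ‖step (cc α ((L : ℝ) * u)) w‖ := by
    refine le_trans ?_ h11
    rw [hR]
    gcongr
  exact geoz_escape hsh hR0 hE h12 hw

end

end Pool.Agent.H429K
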