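import Pool.Agent.H429K.Stmts2

set_option autoImplicit false

open MeasureTheory Filter Topology

namespace Pool.Agent.H429K

noncomputable section

private lemma jne_cc (α : ℂ) (u : ℝ) :
    α * Complex.cos (2 * (Real.pi : ℂ) * (u : ℂ)) = cc α u := by
  unfold cc
  push_cast
  ring_nf

theorem t_shift : S_shift := by
  intro α L u z n
  induction n with
  | zero =>
    simp only [G, pow_zero, mul_one]
    rw [jne_cc]
  | succ n ih =>
    rw [G, ih, G]
    congr 2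
    push_cast
    rw [pow_succ]
    ring_nf

private lemma jne_step (c w : ℂ) (hc : c ≠ 0) : step c ((1 + c) / c - w) = step c w := by
  unfold step
  field_simp
  ring

theorem t_jsym (hf : S_fiter) (hsh : S_shift) : S_jsym := by
  intro α L u hc z hz hr
  apply hz
  -- the involution
  let r : ℂ ≃ₜ ℂ := Homeomorph.subLeft ((1 + cc α u) / cc α u)
  let ρ : OnePoint ℂ ≃ₜ OnePoint ℂ := r.onePointCongr
  have hrho : ∀ w : ℂ, ρ (w : OnePoint ℂ) = (((1 + cc α u) / cc α u - w : ℂ) : OnePoint ℂ) :=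
    fun w => rfl
  have hrinf : ρ OnePoint.infty = OnePoint.infty := rfl
  have key : ∀ n : ℕ, 1 ≤ n → ∀ w : OnePoint ℂ, fiter α L u n (ρ w) = fiter α L u n w := by
    intro n hn w
    obtain ⟨m, rfl⟩ := Nat.exists_eq_add_of_le' hn
    induction w using OnePoint.rec with
    | infty => rw [hrinf]
    | coe w =>
      rw [hrho, (hf α L u (m + 1)).1, (hf α L u (m + 1)).1, hsh, hsh, jne_step _ _ hc]
  obtain ⟨U, hU, hzU, hn⟩ := hr
  refine ⟨ρ ⁻¹' U, hU.preimage ρ.continuous, ?_, ?_⟩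
  · change ρ (z : OnePoint ℂ) ∈ U
    rw [hrho]; exact hzU
  · intro φ hφ
    obtain ⟨ψ, hψ, g, hg⟩ := hn φ hφ
    refine ⟨ψ, hψ, g ∘ ρ, ?_⟩
    intro K hKU hK ε hε
    obtain ⟨N, hN⟩ := hg (ρ '' K) (by rintro _ ⟨x, hx, rfl⟩; exact hKU hx)
      (hK.image ρ.continuous) ε hε
    refine ⟨max N 1, ?_⟩
    intro n hn w hw
    have h1 : 1 ≤ φ (ψ n) := by
      have h2 := hφ.id_le (ψ n)
      have h3 := hψ.id_le n
      have h4 : 1 ≤ n := le_trans (le_max_right _ _) hn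
      simp only [id] at h2 h3
      omega
    have h5 := hN n (le_trans (le_max_left _ _) hn) (ρ w) ⟨w, hw, rfl⟩
    rw [key _ h1] at h5
    exact h5

private lemma jne_surj_step (c y : ℂ) : ∃ x, step c x = y := by
  by_cases hc : c = 0
  · refine ⟨y, ?_⟩
    simp [step, hc]
  · obtain ⟨s, hs⟩ := IsAlgClosed.exists_pow_nat_eq ((1 + c) ^ 2 - 4 * c * y) (n := 2) (by norm_num)
    refine ⟨((1 + c) + s) / (2 * c), ?_⟩
    unfold step
    field_simp
    linear_combination (-1 : ℂ) * hs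

private lemma jne_surj (α : ℂ) (L : ℕ) (ζ : ℂ) (n : ℕ) (y : ℂ) : ∃ w, G α L w n ζ = y := by
  induction n generalizing y with
  | zero => exact ⟨y, rfl⟩
  | succ n ih =>
    obtain ⟨x, hx⟩ := jne_surj_step (α * Complex.cos (2 * (Real.pi : ℂ) * (L : ℂ) ^ n * ζ)) y
    obtain ⟨w, hw⟩ := ih x
    exact ⟨w, by rw [G, hw, hx]⟩

private lemma jne_zero (α : ℂ) (L : ℕ) (ζ : ℂ) (n : ℕ) : G α L 0 n ζ = 0 := by
  induction n with
  | zero => rfl
  | succ n ih => rw [G, ih]; simp [step]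

theorem t_jne (ha : S_add) (hf : S_fiter) (ht : S_tri) (hn : S_nhds) (he : S_equi) (hfe : S_fesc) : S_jne := by
  intro α L u R hR hfreq
  have hopen := (hfe α L u R hR hfreq).2.2
  set E : Set ℂ := {z : ℂ | Tendsto (fun n => ‖G α L z n (u : ℂ)‖) atTop atTop} with hE
  have h0 : (0 : ℂ) ∉ E := by
    intro h
    have h1 : Tendsto (fun n => ‖G α L 0 n (u : ℂ)‖) atTop atTop := h
    simp only [jne_zero, norm_zero] at h1
    exact not_tendsto_const_atTop (0 : ℝ) (atTop : Filter ℕ) h1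
  have hne : E.Nonempty := by
    obtain ⟨n, hn⟩ := hfreq.exists
    obtain ⟨w, hw⟩ := jne_surj α L (u : ℂ) n (R : ℂ)
    refine ⟨w, ?_⟩
    change Tendsto (fun n => ‖G α L w n (u : ℂ)‖) atTop atTop
    rw [← tendsto_add_atTop_iff_nat n]
    have h4 : Tendsto (fun k : ℕ => (4 : ℝ) ^ k * ‖(R : ℂ)‖) atTop atTop := by
      refine Tendsto.atTop_mul_const ?_ (tendsto_pow_atTop_atTop_of_one_lt (by norm_num))
      rw [Complex.norm_real, Real.norm_eq_abs]
      exact abs_pos.2 hR.ne'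
    refine tendsto_atTop_mono ?_ h4
    intro k
    have h5 := hn (R : ℂ) (by rw [Complex.norm_real]; exact Real.le_norm_self R) k
    rw [add_comm k n, ha, hw]
    push_cast at h5
    exact h5
  have hncl : ¬ IsClosed E := by
    intro hcl
    rcases isClopen_iff.1 (⟨hcl, hopen⟩ : IsClopen E) with h | h
    · rw [h] at hne; exact Set.not_nonempty_empty hne
    · rw [h] at h0; exact h0 (Set.mem_univ _)
  obtain ⟨z, hzc, hz⟩ : ∃ z ∈ closure E, z ∉ E := by
    by_contra hcon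
    push Not at hcon
    exact hncl (closure_subset_iff_isClosed.1 hcon)
  refine ⟨z, fun hfat => ?_⟩
  have hz' : ¬ Tendsto (fun n => ‖G α L z n (u : ℂ)‖) atTop atTop := hz
  rw [tendsto_atTop] at hz'
  push Not at hz'
  obtain ⟨b, hb⟩ := hz'
  set ε : ℝ := 1 / Real.sqrt (1 + b ^ 2) with hε
  have hεpos : 0 < ε := by positivity
  obtain ⟨V, hV, hVe⟩ := he α L u z hfat ε hεpos
  have hcoe : (fun w : ℂ => (w : OnePoint ℂ)) ⁻¹' V ∈ 𝓝 z :=
    OnePoint.continuous_coe.continuousAt.preimage_mem_nhds hV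
  obtain ⟨w, hwV, hwE⟩ := mem_closure_iff_nhds.1 hzc _ hcoe
  have hw : Tendsto (fun n => ‖G α L w n (u : ℂ)‖) atTop atTop := hwE
  have hchw : Tendsto (fun n => 2 / Real.sqrt (1 + ‖G α L w n (u : ℂ)‖ ^ 2)) atTop (𝓝 0) := by
    refine Tendsto.div_atTop tendsto_const_nhds ?_
    refine tendsto_atTop_mono ?_ hw
    intro n
    refine Real.le_sqrt_of_sq_le ?_
    linarith
  have hev : ∀ᶠ n in atTop, 2 / Real.sqrt (1 + ‖G α L w n (u : ℂ)‖ ^ 2) < ε :=
    hchw.eventually (gt_mem_nhds hεpos)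
  obtain ⟨n, hnb, hnw⟩ := (hb.and_eventually hev).exists
  have hb' : ‖G α L z n (u : ℂ)‖ < b := hnb
  have e1 : chord (fiter α L u n z) OnePoint.infty = 2 / Real.sqrt (1 + ‖G α L z n (u : ℂ)‖ ^ 2) := by
    rw [(hf α L u n).1]; rfl
  have e2 : chord (fiter α L u n w) OnePoint.infty = 2 / Real.sqrt (1 + ‖G α L w n (u : ℂ)‖ ^ 2) := by
    rw [(hf α L u n).1]; rfl
  have h1 : 2 * ε ≤ chord (fiter α L u n z) OnePoint.infty := by
    rw [e1, hε]
    have h2 : Real.sqrt (1 + ‖G α L z n (u : ℂ)‖ ^ 2) ≤ Real.sqrt (1 + b ^ 2) := by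
      apply Real.sqrt_le_sqrt
      have := norm_nonneg (G α L z n (u : ℂ))
      nlinarith
    have h3 : 0 < Real.sqrt (1 + ‖G α L z n (u : ℂ)‖ ^ 2) := by positivity
    calc 2 * (1 / Real.sqrt (1 + b ^ 2)) = 2 / Real.sqrt (1 + b ^ 2) := by ring
      _ ≤ 2 / Real.sqrt (1 + ‖G α L z n (u : ℂ)‖ ^ 2) := by gcongr
  have h2 := ht.2.2.2 (fiter α L u n z) (fiter α L u n w) OnePoint.infty
  have h3 := hVe n w hwV
  rw [ht.2.2.1] at h3
  rw [e2] at h2
  linarith

end

end Pool.Agent.H429K
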