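import Pool.Agent.H429K.Stmts2

open MeasureTheory Filter Topology

namespace Pool.Agent.H429K

noncomputable section

/-! ### the logarithm of a linear factor -/

private lemma logint_xlogx (x : ℝ) (hx : |x| ≤ 5 / 2) : |x * Real.log x| ≤ 25 / 4 := by
  rcases eq_or_ne x 0 with h0 | h0
  · subst h0; norm_num
  · have hpos : 0 < |x| := abs_pos.mpr h0
    rw [abs_mul, ← Real.log_abs x]
    have h1 : Real.log |x| ≤ |x| - 1 := Real.log_le_sub_one_of_pos hpos
    have h2 : 1 - |x|⁻¹ ≤ Real.log |x| := Real.one_sub_inv_le_log_of_pos hpos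
    have h3 : |x| * |x|⁻¹ = 1 := mul_inv_cancel₀ hpos.ne'
    rcases abs_cases (Real.log |x|) with ⟨h, _⟩ | ⟨h, _⟩
    · rw [h]; nlinarith
    · rw [h]; nlinarith

private lemma logint_int (c : ℂ) (a b : ℝ) :
    IntervalIntegrable (fun t : ℝ => Real.log ‖(t : ℂ) - c‖) volume a b := by
  have h : MeromorphicOn (fun t : ℝ => (t : ℂ) - c) (Set.uIcc a b) := by
    apply AnalyticOnNhd.meromorphicOn
    intro t _
    exact (Complex.ofRealCLM.analyticAt t).sub analyticAt_const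
  exact h.intervalIntegrable_log_norm

private lemma logint_lin (c : ℂ) (hc : ‖c‖ ≤ 3 / 2) (a b : ℝ) (ha : -1 ≤ a) (hab : a ≤ b)
    (hb : b ≤ 1) : -15 ≤ ∫ t in a..b, Real.log ‖(t : ℂ) - c‖ := by
  have hre : |c.re| ≤ 3 / 2 := (Complex.abs_re_le_norm c).trans hc
  have h1 : ∫ t in a..b, Real.log (t - c.re) ≤ ∫ t in a..b, Real.log ‖(t : ℂ) - c‖ := by
    have hi : IntervalIntegrable (fun t : ℝ => Real.log (t - c.re)) volume a b := by
      have := logint_int (c.re : ℂ) a b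
      refine this.congr ?_
      intro t _
      show Real.log ‖(t : ℂ) - (c.re : ℂ)‖ = Real.log (t - c.re)
      rw [← Complex.ofReal_sub, Complex.norm_real, Real.norm_eq_abs, Real.log_abs]
    apply intervalIntegral.integral_mono_ae hab hi (logint_int c a b)
    have hne : ∀ᵐ t : ℝ, t ≠ c.re := by
      have : (volume : Measure ℝ) {c.re} = 0 := measure_singleton _
      have h2 := measure_eq_zero_iff_ae_notMem.mp this
      filter_upwards [h2] with t ht using ht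
    filter_upwards [hne] with t ht
    show Real.log (t - c.re) ≤ Real.log ‖(t : ℂ) - c‖
    have h3 : |t - c.re| ≤ ‖(t : ℂ) - c‖ := by
      have := Complex.abs_re_le_norm ((t : ℂ) - c)
      simpa using this
    rw [← Real.log_abs (t - c.re)]
    exact Real.log_le_log (abs_pos.mpr (sub_ne_zero.mpr ht)) h3
  have h2 : ∫ t in a..b, Real.log (t - c.re) =
      (b - c.re) * Real.log (b - c.re) - (a - c.re) * Real.log (a - c.re) - (b - c.re) +
        (a - c.re) := by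
    rw [intervalIntegral.integral_comp_sub_right (fun t => Real.log t) c.re, integral_log]
  have hr := abs_le.mp hre
  have h3 : |b - c.re| ≤ 5 / 2 := by rw [abs_le]; constructor <;> linarith [hr.1, hr.2]
  have h4 : |a - c.re| ≤ 5 / 2 := by rw [abs_le]; constructor <;> linarith [hr.1, hr.2]
  have h5 := abs_le.mp (logint_xlogx _ h3)
  have h6 := abs_le.mp (logint_xlogx _ h4)
  rw [h2] at h1
  linarith [h5.1, h6.2]

/-! ### factorisation -/

private lemma logint_max (g : ℂ → ℂ) (hg : Differentiable ℂ g) (C : ℝ)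
    (hC : ∀ ζ : ℂ, ‖ζ‖ = 4 → ‖g ζ‖ ≤ C) : ∀ ζ : ℂ, ‖ζ‖ ≤ 4 → ‖g ζ‖ ≤ C := by
  intro ζ hζ
  refine Complex.norm_le_of_forall_mem_frontier_norm_le (U := Metric.ball (0 : ℂ) 4)
    Metric.isBounded_ball hg.diffContOnCl ?_ ?_
  · intro z hz
    rw [frontier_ball (0 : ℂ) (by norm_num)] at hz
    exact hC z (by simpa using hz)
  · rw [closure_ball (0 : ℂ) (by norm_num)]
    simpa using hζ

/-- the factorisation with `n` factors -/
private def LFac (h : ℂ → ℂ) (n : ℕ) (a : ℕ → ℂ) (g : ℂ → ℂ) : Prop :=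
  Differentiable ℂ g ∧ (∀ i, i < n → ‖a i‖ ≤ 3 / 2) ∧
    ∀ ζ, h ζ = g ζ * ∏ i ∈ Finset.range n, (ζ - a i)

private lemma logint_gbound {h : ℂ → ℂ} {n : ℕ} {a : ℕ → ℂ} {g : ℂ → ℂ} (hF : LFac h n a g)
    {M : ℝ} (hb : ∀ ζ : ℂ, ‖ζ‖ ≤ 4 → ‖h ζ‖ ≤ Real.exp M) :
    ∀ ζ : ℂ, ‖ζ‖ ≤ 4 → ‖g ζ‖ ≤ Real.exp M * (2 / 5) ^ n := by
  apply logint_max g hF.1
  intro ζ hζ
  have h1 : ((5 : ℝ) / 2) ^ n ≤ ∏ i ∈ Finset.range n, ‖ζ - a i‖ := by
    calc ((5 : ℝ) / 2) ^ n = ∏ i ∈ Finset.range n, (5 : ℝ) / 2 := by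
          rw [Finset.prod_const, Finset.card_range]
      _ ≤ ∏ i ∈ Finset.range n, ‖ζ - a i‖ := by
        apply Finset.prod_le_prod
        · intro i _; norm_num
        · intro i hi
          have h2 := hF.2.1 i (Finset.mem_range.mp hi)
          have h3 := norm_sub_norm_le ζ (a i)
          linarith
  have h2 : ‖g ζ‖ * ∏ i ∈ Finset.range n, ‖ζ - a i‖ ≤ Real.exp M := by
    have h3 := hb ζ hζ.le
    rw [hF.2.2 ζ, norm_mul, norm_prod] at h3
    exact h3
  have h3 : ‖g ζ‖ * ((5 : ℝ) / 2) ^ n ≤ Real.exp M :=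
    (mul_le_mul_of_nonneg_left h1 (norm_nonneg _)).trans h2
  have h4 : ((5 : ℝ) / 2) ^ n * (2 / 5) ^ n = 1 := by
    rw [← mul_pow]; norm_num
  calc ‖g ζ‖ = ‖g ζ‖ * (((5 : ℝ) / 2) ^ n * (2 / 5) ^ n) := by rw [h4, mul_one]
    _ = (‖g ζ‖ * ((5 : ℝ) / 2) ^ n) * (2 / 5) ^ n := by ring
    _ ≤ Real.exp M * (2 / 5) ^ n := mul_le_mul_of_nonneg_right h3 (by positivity)

private lemma logint_prodzero {n : ℕ} {a : ℕ → ℂ} (ha : ∀ i, i < n → ‖a i‖ ≤ 3 / 2) :
    ∏ i ∈ Finset.range n, ‖(0 : ℂ) - a i‖ ≤ (3 / 2) ^ n := by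
  calc ∏ i ∈ Finset.range n, ‖(0 : ℂ) - a i‖ ≤ ∏ i ∈ Finset.range n, (3 : ℝ) / 2 := by
        apply Finset.prod_le_prod
        · intro i _; exact norm_nonneg _
        · intro i hi
          have h2 := ha i (Finset.mem_range.mp hi)
          rw [zero_sub, norm_neg]
          exact h2
    _ = (3 / 2) ^ n := by rw [Finset.prod_const, Finset.card_range]

private lemma logint_exphalf1 (n : ℕ) : ((3 : ℝ) / 5) ^ n ≤ Real.exp (-((n : ℝ) / 2)) := by
  have h1 : Real.exp (1 / 2) ≤ 5 / 3 := by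
    have h2 : Real.exp (1 / 2) * Real.exp (1 / 2) = Real.exp 1 := by
      rw [← Real.exp_add]; norm_num
    have h3 := Real.exp_one_lt_d9
    have h4 := Real.exp_pos (1 / 2 : ℝ)
    nlinarith
  have h2 : (3 : ℝ) / 5 ≤ Real.exp (-(1 / 2)) := by
    rw [Real.exp_neg, le_inv_comm₀ (by norm_num) (Real.exp_pos _)]
    calc Real.exp (1 / 2) ≤ 5 / 3 := h1
      _ = ((3 : ℝ) / 5)⁻¹ := by norm_num
  calc ((3 : ℝ) / 5) ^ n ≤ (Real.exp (-(1 / 2))) ^ n := pow_le_pow_left₀ (by norm_num) h2 n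
    _ = Real.exp (-((n : ℝ) / 2)) := by
      rw [← Real.exp_nat_mul]; congr 1; ring

private lemma logint_exphalf2 (n : ℕ) : ((3 : ℝ) / 2) ^ n ≤ Real.exp ((n : ℝ) / 2) := by
  have h1 : (3 : ℝ) / 2 ≤ Real.exp (1 / 2) := by
    have := Real.add_one_le_exp (1 / 2 : ℝ)
    linarith
  calc ((3 : ℝ) / 2) ^ n ≤ (Real.exp (1 / 2)) ^ n := pow_le_pow_left₀ (by norm_num) h1 n
    _ = Real.exp ((n : ℝ) / 2) := by
      rw [← Real.exp_nat_mul]; congr 1; ring

private lemma logint_nbound {h : ℂ → ℂ} {n : ℕ} {a : ℕ → ℂ} {g : ℂ → ℂ} (hF : LFac h n a g)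
    {M : ℝ} (hb : ∀ ζ : ℂ, ‖ζ‖ ≤ 4 → ‖h ζ‖ ≤ Real.exp M) (h0 : Real.exp (-M) ≤ ‖h 0‖) :
    (n : ℝ) ≤ 4 * M := by
  have h1 := logint_gbound hF hb 0 (by simp)
  have h2 := logint_prodzero hF.2.1
  have h3 : ‖h 0‖ = ‖g 0‖ * ∏ i ∈ Finset.range n, ‖(0 : ℂ) - a i‖ := by
    rw [hF.2.2 0, norm_mul, norm_prod]
  have h4 : Real.exp (-M) ≤ Real.exp M * Real.exp (-((n : ℝ) / 2)) := by
    calc Real.exp (-M) ≤ ‖h 0‖ := h0
      _ = ‖g 0‖ * ∏ i ∈ Finset.range n, ‖(0 : ℂ) - a i‖ := h3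
      _ ≤ (Real.exp M * (2 / 5) ^ n) * (3 / 2) ^ n :=
          mul_le_mul h1 h2 (Finset.prod_nonneg fun i _ => norm_nonneg _) (by positivity)
      _ = Real.exp M * (3 / 5) ^ n := by
          rw [mul_assoc, ← mul_pow]; norm_num
      _ ≤ Real.exp M * Real.exp (-((n : ℝ) / 2)) :=
          mul_le_mul_of_nonneg_left (logint_exphalf1 n) (Real.exp_pos _).le
  rw [← Real.exp_add, Real.exp_le_exp] at h4
  linarith

private lemma logint_gzero {h : ℂ → ℂ} {n : ℕ} {a : ℕ → ℂ} {g : ℂ → ℂ} (hF : LFac h n a g)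
    {M : ℝ} (hb : ∀ ζ : ℂ, ‖ζ‖ ≤ 4 → ‖h ζ‖ ≤ Real.exp M) (h0 : Real.exp (-M) ≤ ‖h 0‖) :
    Real.exp (-(3 * M)) ≤ ‖g 0‖ := by
  have hn := logint_nbound hF hb h0
  have h2 := (logint_prodzero hF.2.1).trans (logint_exphalf2 n)
  have h3 : ‖h 0‖ = ‖g 0‖ * ∏ i ∈ Finset.range n, ‖(0 : ℂ) - a i‖ := by
    rw [hF.2.2 0, norm_mul, norm_prod]
  have h4 : Real.exp (-M) ≤ ‖g 0‖ * Real.exp ((n : ℝ) / 2) := by
    rw [h3] at h0
    exact h0.trans (mul_le_mul_of_nonneg_left h2 (norm_nonneg _))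
  have h5 : Real.exp (-M) * Real.exp (-((n : ℝ) / 2)) ≤ ‖g 0‖ := by
    calc Real.exp (-M) * Real.exp (-((n : ℝ) / 2))
        ≤ (‖g 0‖ * Real.exp ((n : ℝ) / 2)) * Real.exp (-((n : ℝ) / 2)) :=
          mul_le_mul_of_nonneg_right h4 (Real.exp_pos _).le
      _ = ‖g 0‖ := by
          rw [mul_assoc, ← Real.exp_add]; simp
  rw [← Real.exp_add] at h5
  refine le_trans ?_ h5
  rw [Real.exp_le_exp]
  linarith

private lemma logint_factor {h : ℂ → ℂ} (hh : Differentiable ℂ h) {M : ℝ}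
    (hb : ∀ ζ : ℂ, ‖ζ‖ ≤ 4 → ‖h ζ‖ ≤ Real.exp M) (h0 : Real.exp (-M) ≤ ‖h 0‖) :
    ∃ (n : ℕ) (a : ℕ → ℂ) (g : ℂ → ℂ), LFac h n a g ∧ ∀ ζ : ℂ, ‖ζ‖ ≤ 3 / 2 → g ζ ≠ 0 := by
  by_contra hcon
  push Not at hcon
  have key : ∀ n : ℕ, ∃ (a : ℕ → ℂ) (g : ℂ → ℂ), LFac h n a g := by
    intro n
    induction n with
    | zero => exact ⟨fun _ => 0, h, hh, fun i hi => absurd hi (by omega), fun ζ => by simp⟩
    | succ n ih =>
      obtain ⟨a, g, hF⟩ := ih
      obtain ⟨c, hc, hgc⟩ := hcon n a g hF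
      refine ⟨fun i => if i < n then a i else c, dslope g c, ?_, ?_, ?_⟩
      · have := (Complex.differentiableOn_dslope (f := g) (s := Set.univ) (c := c)
          Filter.univ_mem).mpr hF.1.differentiableOn
        exact differentiableOn_univ.mp this
      · intro i hi
        by_cases hin : i < n
        · simpa [hin] using hF.2.1 i hin
        · simpa [hin] using hc
      · intro ζ
        have h1 : ∏ i ∈ Finset.range (n + 1), (ζ - (if i < n then a i else c)) =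
            (∏ i ∈ Finset.range n, (ζ - a i)) * (ζ - c) := by
          rw [Finset.prod_range_succ]
          congr 1
          · apply Finset.prod_congr rfl
            intro i hi
            simp [Finset.mem_range.mp hi]
          · simp
        have h2 : (ζ - c) * dslope g c ζ = g ζ := by
          have := sub_smul_dslope g c ζ
          rw [hgc, sub_zero] at this
          simpa [smul_eq_mul] using this
        show h ζ = dslope g c ζ * ∏ i ∈ Finset.range (n + 1), (ζ - (if i < n then a i else c))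
        rw [h1, hF.2.2 ζ, ← h2]
        ring
  obtain ⟨n, hn⟩ := exists_nat_gt (4 * M)
  obtain ⟨a, g, hF⟩ := key n
  exact absurd (logint_nbound hF hb h0) (not_le.mpr hn)

/-! ### the zero free factor -/

private lemma logint_log {g : ℂ → ℂ} (hg : Differentiable ℂ g)
    (hz : ∀ ζ : ℂ, ‖ζ‖ ≤ 3 / 2 → g ζ ≠ 0) {M : ℝ} (hM : 0 ≤ M)
    (hb : ∀ ζ : ℂ, ‖ζ‖ ≤ 4 → ‖g ζ‖ ≤ Real.exp M) (h0 : Real.exp (-(3 * M)) ≤ ‖g 0‖) :
    ∀ ζ : ℂ, ‖ζ‖ ≤ 1 → -(19 * M + 4) ≤ Real.log ‖g ζ‖ := by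
  have hd : DifferentiableOn ℂ (fun ζ => deriv g ζ / g ζ) (Metric.ball (0 : ℂ) (3 / 2)) := by
    apply DifferentiableOn.div
    · have h1 : Differentiable ℂ (deriv g) := by
        have h2 : ContDiff ℂ 2 g := hg.contDiff
        have h3 : ContDiff ℂ 1 (deriv g) := by
          have h4 : ContDiff ℂ (1 + 1) g := by
            have : ((1 : WithTop ℕ∞) + 1) = 2 := by norm_num
            rw [this]; exact h2
          exact (contDiff_succ_iff_deriv.mp h4).2.2
        exact h3.differentiable (by norm_num)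
      exact h1.differentiableOn
    · exact hg.differentiableOn
    · intro ζ hζ
      exact hz ζ (by simpa using (Metric.mem_ball.mp hζ).le)
  have hg0 : g 0 ≠ 0 := hz 0 (by rw [norm_zero]; norm_num)
  obtain ⟨φ, hφ0, hφ⟩ := hd.isExactOn_ball.with_val_at 0 (Complex.log (g 0))
  -- exp φ = g on the ball
  have hexp : ∀ ζ ∈ Metric.ball (0 : ℂ) (3 / 2), Complex.exp (φ ζ) = g ζ := by
    have h1 : ∀ ζ ∈ Metric.ball (0 : ℂ) (3 / 2),
        HasDerivAt (fun w => g w * Complex.exp (-(φ w))) 0 ζ := by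
      intro ζ hζ
      have h2 := hφ ζ hζ
      have h3 : HasDerivAt g (deriv g ζ) ζ := (hg ζ).hasDerivAt
      have h4 : HasDerivAt (fun w => g w * Complex.exp (-(φ w)))
          (deriv g ζ * Complex.exp (-(φ ζ)) +
            g ζ * (Complex.exp (-(φ ζ)) * -(deriv g ζ / g ζ))) ζ := h3.mul (h2.neg.cexp)
      have h5 : g ζ ≠ 0 := hz ζ (by simpa using (Metric.mem_ball.mp hζ).le)
      have h6 : deriv g ζ = g ζ * (deriv g ζ / g ζ) := by field_simp
      have h7 : deriv g ζ * Complex.exp (-(φ ζ)) +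
          g ζ * (Complex.exp (-(φ ζ)) * -(deriv g ζ / g ζ)) =
          (deriv g ζ - g ζ * (deriv g ζ / g ζ)) * Complex.exp (-(φ ζ)) := by ring
      rw [← h6, sub_self, zero_mul] at h7
      rw [h7] at h4
      exact h4
    have h2 : ∀ ζ ∈ Metric.ball (0 : ℂ) (3 / 2),
        g ζ * Complex.exp (-(φ ζ)) = g 0 * Complex.exp (-(φ 0)) := by
      intro ζ hζ
      have hconv : Convex ℝ (Metric.ball (0 : ℂ) (3 / 2)) := convex_ball _ _
      have h0m : (0 : ℂ) ∈ Metric.ball (0 : ℂ) (3 / 2) := by simp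
      exact (Metric.isOpen_ball.is_const_of_deriv_eq_zero hconv.isPreconnected
        (fun w hw => (h1 w hw).differentiableAt.differentiableWithinAt)
        (fun w hw => (h1 w hw).deriv) hζ h0m)
    intro ζ hζ
    have h3 := h2 ζ hζ
    rw [hφ0, Complex.exp_neg, Complex.exp_neg, Complex.exp_log hg0, mul_inv_cancel₀ hg0] at h3
    have h4 := Complex.exp_ne_zero (φ ζ)
    field_simp at h3
    exact h3.symm
  have hre : ∀ ζ ∈ Metric.ball (0 : ℂ) (3 / 2), (φ ζ).re = Real.log ‖g ζ‖ := by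
    intro ζ hζ
    rw [← hexp ζ hζ, Complex.norm_exp, Real.log_exp]
  have h0m : (0 : ℂ) ∈ Metric.ball (0 : ℂ) (3 / 2) := by simp
  have hre0 : -(3 * M) ≤ (φ 0).re := by
    rw [hre 0 h0m]
    calc -(3 * M) = Real.log (Real.exp (-(3 * M))) := (Real.log_exp _).symm
      _ ≤ Real.log ‖g 0‖ := Real.log_le_log (Real.exp_pos _) h0
  intro ζ hζ
  have hζm : ζ ∈ Metric.ball (0 : ℂ) (3 / 2) := by
    rw [Metric.mem_ball, dist_zero_right]; linarith
  have hBC := Complex.borelCaratheodory_zero (f := fun w => φ w - φ 0) (R := 3 / 2)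
    (M := 4 * M + 1) (z := ζ) (by linarith)
    (fun w hw => ((hφ w hw).differentiableAt.sub_const _).differentiableWithinAt)
    (by
      intro w hw
      show (φ w - φ 0).re ≤ 4 * M + 1
      rw [Complex.sub_re]
      have h1 : (φ w).re ≤ M := by
        rw [hre w hw]
        have hw' : ‖w‖ ≤ 3 / 2 := by simpa using (Metric.mem_ball.mp hw).le
        have h2 := hb w (by linarith)
        calc Real.log ‖g w‖ ≤ Real.log (Real.exp M) :=
              Real.log_le_log (norm_pos_iff.mpr (hz w hw')) h2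
          _ = M := Real.log_exp _
      linarith)
    (by norm_num) hζm (by simp)
  have h2 : 2 * (4 * M + 1) * ‖ζ‖ / (3 / 2 - ‖ζ‖) ≤ 4 * (4 * M + 1) := by
    rw [div_le_iff₀ (by linarith)]
    have : 0 ≤ (4 * M + 1) * (1 - ‖ζ‖) := mul_nonneg (by linarith) (by linarith)
    nlinarith [norm_nonneg ζ]
  have h3 := (Complex.abs_re_le_norm (φ ζ - φ 0)).trans (hBC.trans h2)
  rw [Complex.sub_re] at h3
  have h4 := (abs_le.mp h3).1
  rw [← hre ζ hζm]
  linarith

/-! ### the unit case -/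

private lemma logint_unit {h : ℂ → ℂ} (hh : Differentiable ℂ h) {M : ℝ} (hM : 0 ≤ M)
    (hb : ∀ ζ : ℂ, ‖ζ‖ ≤ 4 → ‖h ζ‖ ≤ Real.exp M) (h0 : Real.exp (-M) ≤ ‖h 0‖)
    (a b : ℝ) (ha : -1 ≤ a) (hab : a ≤ b) (hb1 : b ≤ 1) :
    -(98 * (M + 1)) ≤ ∫ t in a..b, Real.log ‖h (t : ℂ)‖ := by
  obtain ⟨n, c, g, hF, hz⟩ := logint_factor hh hb h0
  have hn := logint_nbound hF hb h0
  have hgb : ∀ ζ : ℂ, ‖ζ‖ ≤ 4 → ‖g ζ‖ ≤ Real.exp M := by
    intro ζ hζ
    refine (logint_gbound hF hb ζ hζ).trans ?_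
    have : ((2 : ℝ) / 5) ^ n ≤ 1 := pow_le_one₀ (by norm_num) (by norm_num)
    nlinarith [Real.exp_pos M]
  have hlog := logint_log hF.1 hz hM hgb (logint_gzero hF hb h0)
  have hnorm : ∀ t ∈ Set.Icc a b, ‖(t : ℂ)‖ ≤ 1 := by
    intro t ht
    rw [Complex.norm_real, Real.norm_eq_abs, abs_le]
    exact ⟨by linarith [ht.1], by linarith [ht.2]⟩
  -- the integral splits
  have hgi : IntervalIntegrable (fun t : ℝ => Real.log ‖g (t : ℂ)‖) volume a b := by
    apply ContinuousOn.intervalIntegrable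
    rw [Set.uIcc_of_le hab]
    apply ContinuousOn.log
    · exact (hF.1.continuous.comp Complex.continuous_ofReal).norm.continuousOn
    · intro t ht
      exact norm_ne_zero_iff.mpr (hz _ ((hnorm t ht).trans (by norm_num)))
  have hsi : ∀ i ∈ Finset.range n,
      IntervalIntegrable (fun t : ℝ => Real.log ‖(t : ℂ) - c i‖) volume a b :=
    fun i _ => logint_int (c i) a b
  have hsum : IntervalIntegrable
      (fun t : ℝ => ∑ i ∈ Finset.range n, Real.log ‖(t : ℂ) - c i‖) volume a b := by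
    have := IntervalIntegrable.sum (Finset.range n) hsi
    refine this.congr ?_
    intro t _
    simp
  have hne : ∀ i : ℕ, ∀ᵐ t : ℝ, (t : ℂ) ≠ c i := by
    intro i
    have : (volume : Measure ℝ) {(c i).re} = 0 := measure_singleton _
    have h2 := measure_eq_zero_iff_ae_notMem.mp this
    filter_upwards [h2] with t ht h3
    apply ht
    rw [← h3]
    simp
  have hsplit : ∫ t in a..b, Real.log ‖h (t : ℂ)‖ =
      (∫ t in a..b, Real.log ‖g (t : ℂ)‖) +
        ∫ t in a..b, ∑ i ∈ Finset.range n, Real.log ‖(t : ℂ) - c i‖ := by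
    rw [← intervalIntegral.integral_add hgi hsum]
    apply intervalIntegral.integral_congr_ae
    filter_upwards [ae_all_iff.mpr hne] with t ht htm
    have htI : t ∈ Set.Icc a b := by
      rw [Set.uIoc_of_le hab] at htm
      exact ⟨htm.1.le, htm.2⟩
    rw [hF.2.2 (t : ℂ), norm_mul, norm_prod, Real.log_mul, Real.log_prod]
    · intro i _
      exact norm_ne_zero_iff.mpr (sub_ne_zero.mpr (ht i))
    · exact norm_ne_zero_iff.mpr (hz _ ((hnorm t htI).trans (by norm_num)))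
    · apply Finset.prod_ne_zero_iff.mpr
      intro i _
      exact norm_ne_zero_iff.mpr (sub_ne_zero.mpr (ht i))
  have h1 : -(19 * M + 4) * (b - a) ≤ ∫ t in a..b, Real.log ‖g (t : ℂ)‖ := by
    have h2 : ∫ _t in a..b, -(19 * M + 4) ≤ ∫ t in a..b, Real.log ‖g (t : ℂ)‖ := by
      apply intervalIntegral.integral_mono_on hab intervalIntegrable_const hgi
      intro t ht
      exact hlog _ (hnorm t ht)
    rw [intervalIntegral.integral_const, smul_eq_mul] at h2
    linarith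
  have h2 : -(15 * (n : ℝ)) ≤ ∫ t in a..b, ∑ i ∈ Finset.range n, Real.log ‖(t : ℂ) - c i‖ := by
    rw [intervalIntegral.integral_finsetSum hsi]
    calc -(15 * (n : ℝ)) = ∑ i ∈ Finset.range n, (-15 : ℝ) := by
          rw [Finset.sum_const, Finset.card_range, nsmul_eq_mul]; ring
      _ ≤ ∑ i ∈ Finset.range n, ∫ t in a..b, Real.log ‖(t : ℂ) - c i‖ :=
          Finset.sum_le_sum fun i hi =>
            logint_lin (c i) (hF.2.1 i (Finset.mem_range.mp hi)) a b ha hab hb1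
  rw [hsplit]
  have h3 : (19 * M + 4) * (b - a) ≤ (19 * M + 4) * 2 :=
    mul_le_mul_of_nonneg_left (by linarith) (by linarith)
  nlinarith

theorem t_logint : S_logint := by
  intro R hR
  refine ⟨98 * R, by positivity, ?_⟩
  intro h hh x₀ M hM hb h0 a b ha hab hbR
  set H : ℂ → ℂ := fun ζ => h ((x₀ : ℂ) + (R : ℂ) * ζ) with hH
  have hHd : Differentiable ℂ H :=
    hh.comp ((differentiable_const _).add ((differentiable_const _).mul differentiable_id))
  have hHb : ∀ ζ : ℂ, ‖ζ‖ ≤ 4 → ‖H ζ‖ ≤ Real.exp M := by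
    intro ζ hζ
    apply hb
    rw [add_sub_cancel_left, norm_mul, Complex.norm_real, Real.norm_of_nonneg hR.le]
    nlinarith
  have hH0 : Real.exp (-M) ≤ ‖H 0‖ := by
    simpa [hH] using h0
  have h1 := logint_unit hHd hM hHb hH0 ((a - x₀) / R) ((b - x₀) / R)
    (by rw [le_div_iff₀ hR]; linarith) (by gcongr) (by rw [div_le_iff₀ hR]; linarith)
  have h2 : ∫ x in a..b, Real.log ‖h (x : ℂ)‖ =
      R * ∫ t in ((a - x₀) / R)..((b - x₀) / R), Real.log ‖H (t : ℂ)‖ := by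
    have h3 := intervalIntegral.mul_integral_comp_add_mul
      (f := fun x : ℝ => Real.log ‖h (x : ℂ)‖) (c := R) (d := x₀)
      (a := (a - x₀) / R) (b := (b - x₀) / R)
    have h4 : x₀ + R * ((a - x₀) / R) = a := by field_simp; ring
    have h5 : x₀ + R * ((b - x₀) / R) = b := by field_simp; ring
    rw [h4, h5] at h3
    rw [← h3]
    congr 1
    apply intervalIntegral.integral_congr
    intro t _
    simp [hH]
  rw [h2]
  have h3 := mul_le_mul_of_nonneg_left h1 hR.le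
  linarith

end

end Pool.Agent.H429K
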