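import Pool.Agent.H429K.Stmts2

open MeasureTheory Filter Topology

namespace Pool.Agent.H429K

noncomputable section

theorem nz_punct {f : ℂ → ℂ} (hf : Differentiable ℂ f) (h : ∃ ζ, f ζ ≠ 0) (z₀ : ℂ) :
    ∀ᶠ z in 𝓝[≠] z₀, f z ≠ 0 := by
  have ha : AnalyticOnNhd ℂ f Set.univ := fun z _ => hf.analyticAt z
  rcases (hf.analyticAt z₀).eventually_eq_zero_or_eventually_ne_zero with h1 | h1
  · exfalso
    obtain ⟨ζ, hζ⟩ := h
    exact hζ (ha.eqOn_zero_of_preconnected_of_eventuallyEq_zero isPreconnected_univ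
      (Set.mem_univ z₀) h1 (Set.mem_univ ζ))
  · exact h1

theorem nz_mul {f g : ℂ → ℂ} (hf : Differentiable ℂ f) (hg : Differentiable ℂ g)
    (h : ∃ ζ, f ζ ≠ 0) (h' : ∃ ζ, g ζ ≠ 0) : ∃ ζ, f ζ * g ζ ≠ 0 := by
  obtain ⟨ζ, h1, h2⟩ := ((nz_punct hf h 0).and (nz_punct hg h' 0)).exists
  exact ⟨ζ, mul_ne_zero h1 h2⟩

theorem nz_ae {f : ℂ → ℂ} (hf : Differentiable ℂ f) (h : ∃ ζ, f ζ ≠ 0) :
    ∀ᵐ u : ℝ, f (u : ℂ) ≠ 0 := by
  rw [ae_iff]
  apply measure_null_of_locally_null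
  intro x hx
  refine ⟨{x}, ?_, measure_singleton x⟩
  have h1 : ∀ᶠ v : ℝ in 𝓝[≠] x, f (v : ℂ) ≠ 0 := by
    have h2 : Tendsto (fun v : ℝ => (v : ℂ)) (𝓝[≠] x) (𝓝[≠] (x : ℂ)) := by
      refine tendsto_nhdsWithin_of_tendsto_nhds_of_eventually_within _
        ((Complex.continuous_ofReal.tendsto x).mono_left nhdsWithin_le_nhds) ?_
      filter_upwards [self_mem_nhdsWithin] with v hv
      intro h3
      exact hv (Complex.ofReal_injective h3)
    exact h2.eventually (nz_punct hf h x)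
  rw [eventually_nhdsWithin_iff] at h1
  rw [mem_nhdsWithin_iff_eventually]
  filter_upwards [h1] with v hv hvs
  by_contra hne
  exact hvs (hv hne)

theorem t_nz (he : S_entire) : S_nz := by
  intro α L z hL hz0 hz1
  have hcd : ∀ n : ℕ, Differentiable ℂ
      (fun ζ : ℂ => α * Complex.cos (2 * (Real.pi : ℂ) * (L : ℂ) ^ n * ζ)) := by
    intro n
    fun_prop
  have hc0 : ∀ n : ℕ, ∃ ζ : ℂ, α * Complex.cos (2 * (Real.pi : ℂ) * (L : ℂ) ^ n * ζ) = 0 := by
    intro n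
    refine ⟨1 / (4 * (L : ℂ) ^ n), ?_⟩
    have hLn : (L : ℂ) ^ n ≠ 0 := by
      apply pow_ne_zero
      exact_mod_cast (by omega : L ≠ 0)
    have e : 2 * (Real.pi : ℂ) * (L : ℂ) ^ n * (1 / (4 * (L : ℂ) ^ n)) = (Real.pi : ℂ) / 2 := by
      field_simp
      ring
    rw [e, Complex.cos_pi_div_two, mul_zero]
  have key : ∀ n, (∃ ζ, G α L z n ζ ≠ 0) ∧ ∃ ζ, 1 - G α L z n ζ ≠ 0 := by
    intro n
    induction n with
    | zero =>
      refine ⟨⟨0, hz0⟩, ⟨0, ?_⟩⟩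
      exact sub_ne_zero.2 (Ne.symm hz1)
    | succ n ih =>
      have hG := he α L z n
      have hc := hcd n
      obtain ⟨ζ₀, hζ₀⟩ := hc0 n
      constructor
      · have h1 := nz_mul hG (g := fun ζ => 1 + (α * Complex.cos (2 * (Real.pi : ℂ) * (L : ℂ) ^ n * ζ))
          * (1 - G α L z n ζ)) ((differentiable_const _).add (hc.mul ((differentiable_const _).sub hG)))
          ih.1 ⟨ζ₀, by rw [hζ₀]; simp⟩
        obtain ⟨ζ, hζ⟩ := h1
        refine ⟨ζ, ?_⟩
        have e : G α L z (n + 1) ζ = G α L z n ζ *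
            (1 + (α * Complex.cos (2 * (Real.pi : ℂ) * (L : ℂ) ^ n * ζ)) * (1 - G α L z n ζ)) := by
          show step _ _ = _
          unfold step
          ring
        rw [e]
        exact hζ
      · have h1 := nz_mul ((differentiable_const (1 : ℂ)).sub hG)
          (g := fun ζ => 1 - (α * Complex.cos (2 * (Real.pi : ℂ) * (L : ℂ) ^ n * ζ))
          * G α L z n ζ) ((differentiable_const _).sub (hc.mul hG))
          ih.2 ⟨ζ₀, by rw [hζ₀]; simp⟩
        obtain ⟨ζ, hζ⟩ := h1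
        refine ⟨ζ, ?_⟩
        have e : 1 - G α L z (n + 1) ζ = (1 - G α L z n ζ) *
            (1 - (α * Complex.cos (2 * (Real.pi : ℂ) * (L : ℂ) ^ n * ζ)) * G α L z n ζ) := by
          show 1 - step _ _ = _
          unfold step
          ring
        rw [e]
        exact hζ
  rw [ae_all_iff]
  intro n
  have h1 := nz_ae (he α L z n) (key n).1
  have h2 := nz_ae ((differentiable_const (1 : ℂ)).sub (he α L z n)) (key n).2
  filter_upwards [h1, h2] with u hu1 hu2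
  refine ⟨hu1, fun h => hu2 ?_⟩
  show (1 : ℂ) - G α L z n (u : ℂ) = 0
  rw [h, sub_self]

end

end Pool.Agent.H429K
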