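import Pool.Agent.H429K.Stmts2

open MeasureTheory Filter Topology

namespace Pool.Agent.H429K

noncomputable section

theorem posesc_measP (he : S_entire) (α : ℂ) (L : ℕ) (z : ℂ) (s₀ : ℝ) :
    MeasurableSet {u : ℝ | ¬ Tendsto (fun n => ‖G α L z n (u : ℂ)‖) atTop atTop ∧
      ∃ᶠ n in atTop, s₀ ≤ ‖G α L z n (u : ℂ)‖ ∧ s₀ ≤ ‖1 - G α L z n (u : ℂ)‖} := by
  have hc : ∀ n, Continuous (fun u : ℝ => G α L z n (u : ℂ)) :=
    fun n => (he α L z n).continuous.comp Complex.continuous_ofReal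
  have h1 : MeasurableSet {u : ℝ | Tendsto (fun n => ‖G α L z n (u : ℂ)‖) atTop atTop} :=
    measurableSet_tendsto _ (fun n => (hc n).norm.measurable)
  have h2 : MeasurableSet {u : ℝ | ∃ᶠ n in atTop, s₀ ≤ ‖G α L z n (u : ℂ)‖ ∧ s₀ ≤ ‖1 - G α L z n (u : ℂ)‖} := by
    have e : {u : ℝ | ∃ᶠ n in atTop, s₀ ≤ ‖G α L z n (u : ℂ)‖ ∧ s₀ ≤ ‖1 - G α L z n (u : ℂ)‖} =
        ⋂ N : ℕ, ⋃ n : {n : ℕ // N ≤ n}, {u : ℝ | s₀ ≤ ‖G α L z n (u : ℂ)‖ ∧ s₀ ≤ ‖1 - G α L z n (u : ℂ)‖} := by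
      ext u
      simp only [Set.mem_ofPred_eq, Set.mem_iInter, Set.mem_iUnion, frequently_atTop]
      constructor
      · intro h N
        obtain ⟨n, hn, h⟩ := h N
        exact ⟨⟨n, hn⟩, h⟩
      · intro h N
        obtain ⟨⟨n, hn⟩, h⟩ := h N
        exact ⟨n, hn, h⟩
    rw [e]
    refine MeasurableSet.iInter fun N => MeasurableSet.iUnion fun n => ?_
    exact ((isClosed_le continuous_const (hc n).norm).inter
      (isClosed_le continuous_const (continuous_const.sub (hc n)).norm)).measurableSet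
  exact h1.compl.inter h2

theorem posesc_logint (h : ℂ → ℂ) (hh : Differentiable ℂ h) (a b : ℝ) :
    IntervalIntegrable (fun x : ℝ => Real.log ‖h (x : ℂ)‖) volume a b := by
  have h1 : ∀ x : ℝ, AnalyticAt ℝ (fun x : ℝ => h (x : ℂ)) x := by
    intro x
    have h2 : AnalyticAt ℂ h (x : ℂ) := hh.analyticAt _
    have h3 : AnalyticAt ℝ h (x : ℂ) := h2.restrictScalars
    exact h3.fun_comp (Complex.ofRealCLM.analyticAt x)
  have h4 : MeromorphicOn (fun x : ℝ => h (x : ℂ)) (Set.uIcc a b) := fun x _ => (h1 x).meromorphicAt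
  exact h4.intervalIntegrable_log_norm

theorem posesc_up (W : ℂ → ℂ) (κ M₀ a b : ℝ) (hκ : 0 < κ) (hM : 0 ≤ M₀) (hab : a ≤ b)
    (hW : ∀ x ∈ Set.Icc a b, 1 + ‖W (x : ℂ)‖ ≤ Real.exp M₀) :
    ∫ x in a..b, psi κ (W (x : ℂ)) ≤ (b - a) * (Real.exp (2 * M₀) + 2 * κ * M₀) := by
  have hc : 0 ≤ Real.exp (2 * M₀) + 2 * κ * M₀ := by positivity
  by_cases hint : IntervalIntegrable (fun x : ℝ => psi κ (W (x : ℂ))) volume a b
  · have h1 : ∫ x in a..b, psi κ (W (x : ℂ)) ≤ ∫ _x in a..b, (Real.exp (2 * M₀) + 2 * κ * M₀) := by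
      apply intervalIntegral.integral_mono_on hab hint intervalIntegrable_const
      intro x hx
      have h2 := hW x hx
      have h3 : ‖W (x : ℂ)‖ ≤ Real.exp M₀ := by linarith
      have h4 : ‖1 - W (x : ℂ)‖ ≤ Real.exp M₀ := by
        calc ‖1 - W (x : ℂ)‖ ≤ ‖(1 : ℂ)‖ + ‖W (x : ℂ)‖ := norm_sub_le _ _
          _ ≤ Real.exp M₀ := by rw [norm_one]; exact h2
      have hlog : ∀ y : ℝ, 0 ≤ y → y ≤ Real.exp M₀ → Real.log y ≤ M₀ := by
        intro y hy hy2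
        rcases hy.eq_or_lt with h0 | h0
        · rw [← h0, Real.log_zero]; exact hM
        · rw [← Real.log_exp M₀]
          exact Real.log_le_log h0 hy2
      have h5 := hlog _ (norm_nonneg _) h3
      have h6 := hlog _ (norm_nonneg _) h4
      have h7 : ‖W (x : ℂ)‖ ^ 2 ≤ Real.exp (2 * M₀) := by
        calc ‖W (x : ℂ)‖ ^ 2 ≤ (Real.exp M₀) ^ 2 := by gcongr
          _ = Real.exp (2 * M₀) := by rw [← Real.exp_nat_mul]; norm_num
      unfold psi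
      nlinarith
    rw [intervalIntegral.integral_const, smul_eq_mul] at h1
    exact h1
  · rw [intervalIntegral.integral_undef hint]
    exact mul_nonneg (by linarith) hc

theorem posesc_lo (W : ℂ → ℂ) (hW : Differentiable ℂ W) (κ a b : ℝ) (hab : a ≤ b) :
    κ * ((∫ x in a..b, Real.log ‖W (x : ℂ)‖) + ∫ x in a..b, Real.log ‖1 - W (x : ℂ)‖) ≤
      ∫ x in a..b, psi κ (W (x : ℂ)) := by
  have i1 := posesc_logint W hW a b
  have i2 := posesc_logint (fun ζ => 1 - W ζ) ((differentiable_const 1).sub hW) a b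
  have hcont : Continuous (fun x : ℝ => ‖W (x : ℂ)‖ ^ 2) :=
    ((hW.continuous.comp Complex.continuous_ofReal).norm).pow 2
  have i3 : IntervalIntegrable (fun x : ℝ => ‖W (x : ℂ)‖ ^ 2) volume a b := hcont.intervalIntegrable a b
  rw [← intervalIntegral.integral_add i1 i2, ← intervalIntegral.integral_const_mul]
  apply intervalIntegral.integral_mono_on hab ((i1.add i2).const_mul κ) (i3.add ((i1.add i2).const_mul κ))
  intro x _
  have : 0 ≤ ‖W (x : ℂ)‖ ^ 2 := by positivity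
  linarith

/-- the functional at level `j` -/
def posesc_F (α : ℂ) (L : ℕ) (z : ℂ) (κ v₀ : ℝ) (n N j : ℕ) : ℝ :=
  ((L : ℝ) ^ j)⁻¹ * ∫ x in (-((N : ℝ) * (L : ℝ) ^ j))..((N : ℝ) * (L : ℝ) ^ j),
    psi κ (G α L z (n + j) ((v₀ : ℂ) + (x : ℂ) / (L : ℂ) ^ (n + j)))

/-- one step -/
theorem posesc_step (hst : S_step2) (he : S_entire) (α : ℂ) (L : ℕ) (hL : 6 ≤ L) (hα : 0 < ‖α‖) (hα1 : ‖α‖ < 1)
    (z : ℂ) (hz0 : z ≠ 0) (hz1 : z ≠ 1) (κ c₀ M : ℝ) (hκ : 0 < κ) (hc₀ : 0 < c₀)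
    (hdr : ∀ (W : ℂ → ℂ), Differentiable ℂ W → ∀ a θ : ℝ,
      (∀ ζ : ℂ, |ζ.re - a| ≤ 12 → |ζ.im| ≤ 12 → ‖W ζ‖ ≤ M) →
      c₀ ≤ (∫ x in a..(a + 1),
          ‖α * ((Real.cos (2 * Real.pi * (θ + x)) : ℝ) : ℂ) * W x * (1 - W x)‖ ^ 2) +
        κ * ∫ x in a..(a + 1),
          (Real.log ‖1 + α * ((Real.cos (2 * Real.pi * (θ + x)) : ℝ) : ℂ) * (1 - W x)‖ +
           Real.log ‖1 - α * ((Real.cos (2 * Real.pi * (θ + x)) : ℝ) : ℂ) * W x‖))
    (v₀ : ℝ) (n N j : ℕ) (Y A : ℝ) (hN : 0 < N) (hY : 0 < Y) (hA : 0 ≤ A)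
    (h1 : ∀ ζ : ℂ, |ζ.re| ≤ N * (L : ℝ) ^ j → |ζ.im| ≤ Y →
      1 + ‖G α L z (n + j) ((v₀ : ℂ) + ζ / (L : ℂ) ^ (n + j))‖ ≤
        Real.exp (A + 2 * Real.pi / ((L : ℝ) - 2) * |ζ.im|))
    (h2 : ∀ ζ : ℂ, |ζ.re| ≤ N * (L : ℝ) ^ j + 12 → |ζ.im| ≤ 12 →
      ‖G α L z (n + j) ((v₀ : ℂ) + ζ / (L : ℂ) ^ (n + j))‖ ≤ M)
    (hYA : 4 * Real.exp (3 * A - Real.pi / 2 * Y) ≤ c₀ / 2)
    (hNY : 4 * Y * Real.exp (3 * A) ≤ N * (c₀ / 2)) :
    posesc_F α L z κ v₀ n N j + N * c₀ ≤ posesc_F α L z κ v₀ n N (j + 1) := by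
  have hL0 : (0 : ℝ) < L := by
    have : 0 < L := by omega
    exact_mod_cast this
  have hL1 : (1 : ℝ) ≤ L := by
    have : 1 ≤ L := by omega
    exact_mod_cast this
  have hLj : (0 : ℝ) < (L : ℝ) ^ j := by positivity
  have hLj1 : (1 : ℝ) ≤ (L : ℝ) ^ j := one_le_pow₀ hL1
  have hNL : 0 < N * L ^ j := Nat.mul_pos hN (pow_pos (by omega) _)
  have key := hst α L hL hα hα1 z hz0 hz1 κ c₀ hκ hc₀ v₀ (n + j) (N * L ^ j) Y A hNL hY hA
    (by
      intro ζ hre him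
      push_cast at hre
      exact h1 ζ hre him)
    (by
      intro a ha hb
      push_cast at ha hb
      have hW : Differentiable ℂ (fun ζ : ℂ => G α L z (n + j) ((v₀ : ℂ) + ζ / (L : ℂ) ^ (n + j))) :=
        (he α L z (n + j)).comp (by fun_prop)
      have := hdr (fun ζ : ℂ => G α L z (n + j) ((v₀ : ℂ) + ζ / (L : ℂ) ^ (n + j))) hW a ((L : ℝ) ^ (n + j) * v₀)
        (by
          intro ζ hre him
          apply h2 ζ _ him
          have h3 := abs_le.1 hre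
          rw [abs_le]
          constructor
          · linarith [h3.1]
          · linarith [h3.2])
      exact this)
  push_cast at key
  unfold posesc_F
  have e1 : (N : ℝ) * (L : ℝ) ^ (j + 1) = (N : ℝ) * (L : ℝ) ^ j * L := by ring
  have e2 : n + (j + 1) = n + j + 1 := by ring
  rw [e1, e2]
  set I0 := ∫ x in (-((N : ℝ) * (L : ℝ) ^ j))..((N : ℝ) * (L : ℝ) ^ j),
    psi κ (G α L z (n + j) ((v₀ : ℂ) + (x : ℂ) / (L : ℂ) ^ (n + j))) with hI0
  set I1 := ∫ x in (-((N : ℝ) * (L : ℝ) ^ j * L))..((N : ℝ) * (L : ℝ) ^ j * L),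
    psi κ (G α L z (n + j + 1) ((v₀ : ℂ) + (x : ℂ) / (L : ℂ) ^ (n + j + 1))) with hI1
  have e3 : ((L : ℝ) ^ (j + 1))⁻¹ * I1 = ((L : ℝ) ^ j)⁻¹ * ((1 / (L : ℝ)) * I1) := by
    rw [pow_succ]
    field_simp
  rw [e3]
  have hcl : ((L : ℝ) ^ j)⁻¹ ≤ 1 := inv_le_one_of_one_le₀ hLj1
  have h4 : ((L : ℝ) ^ j)⁻¹ * (I0 + 2 * ((N : ℝ) * (L : ℝ) ^ j) * c₀ -
      2 * (2 * ((N : ℝ) * (L : ℝ) ^ j) * Real.exp (3 * A - Real.pi / 2 * Y) + 2 * Y * Real.exp (3 * A)))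
      ≤ ((L : ℝ) ^ j)⁻¹ * ((1 / (L : ℝ)) * I1) := mul_le_mul_of_nonneg_left key (by positivity)
  refine le_trans ?_ h4
  have e4 : ((L : ℝ) ^ j)⁻¹ * (I0 + 2 * ((N : ℝ) * (L : ℝ) ^ j) * c₀ -
      2 * (2 * ((N : ℝ) * (L : ℝ) ^ j) * Real.exp (3 * A - Real.pi / 2 * Y) + 2 * Y * Real.exp (3 * A)))
      = ((L : ℝ) ^ j)⁻¹ * I0 + 2 * N * c₀ - N * (4 * Real.exp (3 * A - Real.pi / 2 * Y))
        - ((L : ℝ) ^ j)⁻¹ * (4 * Y * Real.exp (3 * A)) := by
    field_simp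
    ring
  rw [e4]
  have h5 : ((L : ℝ) ^ j)⁻¹ * (4 * Y * Real.exp (3 * A)) ≤ 1 * (4 * Y * Real.exp (3 * A)) := by
    apply mul_le_mul_of_nonneg_right hcl
    positivity
  have hN0 : (0 : ℝ) ≤ N := Nat.cast_nonneg N
  have h6 : (N : ℝ) * (4 * Real.exp (3 * A - Real.pi / 2 * Y)) ≤ N * (c₀ / 2) :=
    mul_le_mul_of_nonneg_left hYA hN0
  linarith

theorem t_posesc (he : S_entire) (hd : S_dens) (haw : S_away) (hli : S_logint) (hu : S_unifg) (hdr : S_drift) (hst : S_step2) (hn : S_nz) : S_posesc := by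
  intro α L hL hα hα1 hlam z hz0 hz1
  have hL0 : (0 : ℝ) < L := by
    have : 0 < L := by omega
    exact_mod_cast this
  have hL6 : (6 : ℝ) ≤ L := by exact_mod_cast hL
  have hL1 : (1 : ℝ) < L := by linarith
  obtain ⟨s₀, hs₀, hfreq⟩ := haw α L (by omega) hα1 hlam
  have hfreq := hfreq z hz0 hz1
  set P : Set ℝ := {u : ℝ | ¬ Tendsto (fun n => ‖G α L z n (u : ℂ)‖) atTop atTop ∧
      ∃ᶠ n in atTop, s₀ ≤ ‖G α L z n (u : ℂ)‖ ∧ s₀ ≤ ‖1 - G α L z n (u : ℂ)‖} with hP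
  have hPm : MeasurableSet P := posesc_measP he α L z s₀
  by_cases hvol : volume P = 0
  · have h1 : ∀ᵐ u : ℝ, u ∉ P := by
      rw [ae_iff]
      simpa using hvol
    filter_upwards [h1, hfreq] with u hu1 hu2
    by_contra h3
    exact hu1 ⟨h3, hu2⟩
  exfalso
  obtain ⟨v₀, hv₀P, hdens⟩ := hd P hPm (pos_iff_ne_zero.2 hvol)
  have hD : Dens L P v₀ := hdens L (by omega)
  have hNE : NonEsc α L z P := fun v hv => hv.1
  obtain ⟨M₀, hM₀, hunif⟩ := hu α L hL hα hα1.le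
  have hunif := hunif z P hNE v₀ hD
  set τ : ℝ := 2 * Real.pi / ((L : ℝ) - 2) with hτ
  have hτ0 : 0 ≤ τ := by
    rw [hτ]
    apply div_nonneg (by positivity) (by linarith)
  obtain ⟨κ, c₀, hκ, hc₀, hdrift⟩ := hdr α hα hα1 hlam (Real.exp (2 * M₀ + τ * 12)) (Real.exp_pos _)
  -- choice of j₀
  obtain ⟨B, hB0, hB⟩ : ∃ B : ℝ, 0 ≤ B ∧ 4 * Real.exp (-B) ≤ c₀ / 2 := by
    refine ⟨max 0 (-Real.log (c₀ / 8)), le_max_left _ _, ?_⟩
    have h1 : Real.exp (-(max 0 (-Real.log (c₀ / 8)))) ≤ Real.exp (Real.log (c₀ / 8)) := by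
      apply Real.exp_le_exp.2
      linarith [le_max_right 0 (-Real.log (c₀ / 8))]
    rw [Real.exp_log (by positivity)] at h1
    linarith
  obtain ⟨j₀, hj₀⟩ := pow_unbounded_of_one_lt (3 * M₀ + B) (show (1 : ℝ) < 3 by norm_num)
  set A : ℝ := 2 ^ j₀ * M₀ with hA
  set Y : ℝ := 2 * (L : ℝ) ^ j₀ with hY
  have hA0 : 0 ≤ A := by positivity
  have hY0 : 0 < Y := by positivity
  have hYA : 4 * Real.exp (3 * A - Real.pi / 2 * Y) ≤ c₀ / 2 := by
    refine le_trans ?_ hB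
    have h1 : 3 * A - Real.pi / 2 * Y ≤ -B := by
      have h2 : (3 : ℝ) ^ j₀ * 2 ^ j₀ ≤ (L : ℝ) ^ j₀ := by
        rw [← mul_pow]
        apply pow_le_pow_left₀ (by norm_num)
        linarith
      have h3 : (1 : ℝ) ≤ 2 ^ j₀ := one_le_pow₀ (by norm_num)
      have hpi : (1 : ℝ) ≤ Real.pi := by linarith [Real.pi_gt_three]
      have h4 : (3 * M₀ + B) * 2 ^ j₀ ≤ (3 : ℝ) ^ j₀ * 2 ^ j₀ := by gcongr
      have h5 : (L : ℝ) ^ j₀ ≤ Real.pi * (L : ℝ) ^ j₀ := by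
        have : 0 ≤ (L : ℝ) ^ j₀ := by positivity
        nlinarith
      have h6 : B ≤ B * 2 ^ j₀ := by nlinarith
      rw [hA, hY]
      nlinarith
    have := Real.exp_le_exp.2 h1
    linarith
  -- choice of N
  obtain ⟨N, hN1⟩ := exists_nat_ge (max 1 (4 * Y * Real.exp (3 * A) / (c₀ / 2)))
  have hN1' : (1 : ℝ) ≤ N := le_trans (le_max_left _ _) hN1
  have hN0 : 0 < N := by
    have : (0 : ℝ) < N := by linarith
    exact_mod_cast this
  have hNY : 4 * Y * Real.exp (3 * A) ≤ N * (c₀ / 2) := by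
    have h1 := le_trans (le_max_right 1 (4 * Y * Real.exp (3 * A) / (c₀ / 2))) hN1
    rwa [div_le_iff₀ (by positivity)] at h1
  -- choice of j₁
  obtain ⟨j₁, hj₁⟩ := pow_unbounded_of_one_lt (4 * (N : ℝ)) hL1
  set M' : ℝ := max (2 ^ j₁ * M₀ + τ * (4 * N)) (-Real.log s₀) with hM'
  have hM'0 : 0 ≤ M' := le_trans (by positivity) (le_max_left _ _)
  obtain ⟨C, hC0, hC⟩ := hli (N : ℝ) (by linarith)
  -- choice of K
  obtain ⟨K, hK⟩ := exists_nat_gt ((2 * N * (Real.exp (2 * M₀) + 2 * κ * M₀) + 2 * κ * (C * (M' + 1))) / (N * c₀))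
  have hNc : (0 : ℝ) < N * c₀ := by positivity
  rw [div_lt_iff₀ hNc] at hK
  set T : ℝ := N * (L : ℝ) ^ K + 4 * N + 13 with hT
  have hT0 : 0 < T := by positivity
  obtain ⟨n0, hn0⟩ := hunif T hT0 0
  obtain ⟨n1, hn1⟩ := hunif T hT0 1
  obtain ⟨n2, hn2⟩ := hunif T hT0 j₀
  obtain ⟨n3, hn3⟩ := hunif T hT0 j₁
  obtain ⟨n, hnge, hs1, hs2⟩ := (frequently_atTop.1 hv₀P.2) (n0 + n1 + n2 + n3)
  -- steps
  have hLpow : ∀ j ≤ K, (L : ℝ) ^ j ≤ (L : ℝ) ^ K := fun j hj => pow_le_pow_right₀ hL1.le hj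
  have hNn : (0 : ℝ) ≤ N := by linarith
  have hstep : ∀ j < K, posesc_F α L z κ v₀ n N j + N * c₀ ≤ posesc_F α L z κ v₀ n N (j + 1) := by
    intro j hj
    have hNj : (N : ℝ) * (L : ℝ) ^ j ≤ N * (L : ℝ) ^ K := mul_le_mul_of_nonneg_left (hLpow j hj.le) hNn
    apply posesc_step hst he α L hL hα hα1 z hz0 hz1 κ c₀ (Real.exp (2 * M₀ + τ * 12)) hκ hc₀ hdrift v₀ n N j Y A hN0 hY0 hA0
      ?_ ?_ hYA hNY
    · intro ζ hre him
      exact hn2 (n + j) (by omega) ζ (by rw [hT]; linarith) him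
    · intro ζ hre him
      have h1 := hn1 (n + j) (by omega) ζ (by rw [hT]; linarith) (by rw [pow_one]; linarith)
      have h2 : Real.exp (2 ^ 1 * M₀ + τ * |ζ.im|) ≤ Real.exp (2 * M₀ + τ * 12) := by
        apply Real.exp_le_exp.2
        rw [pow_one]
        have := mul_le_mul_of_nonneg_left him hτ0
        linarith
      have h3 := h1.trans h2
      linarith
  have hiter : ∀ j ≤ K, posesc_F α L z κ v₀ n N 0 + j * (N * c₀) ≤ posesc_F α L z κ v₀ n N j := by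
    intro j
    induction j with
    | zero => intro _; simp
    | succ j ih =>
      intro hj
      have h1 := ih (by omega)
      have h2 := hstep j (by omega)
      push_cast
      linarith
  have hFK := hiter K le_rfl
  -- upper bound
  have hup : posesc_F α L z κ v₀ n N K ≤ 2 * N * (Real.exp (2 * M₀) + 2 * κ * M₀) := by
    unfold posesc_F
    have hLK : (0 : ℝ) < (L : ℝ) ^ K := by positivity
    have hNK : 0 ≤ (N : ℝ) * (L : ℝ) ^ K := by positivity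
    have h1 := posesc_up (fun ζ : ℂ => G α L z (n + K) ((v₀ : ℂ) + ζ / (L : ℂ) ^ (n + K))) κ M₀
      (-((N : ℝ) * (L : ℝ) ^ K)) ((N : ℝ) * (L : ℝ) ^ K) hκ hM₀ (by linarith)
      (by
        intro x hx
        have h2 := hn0 (n + K) (by omega) (x : ℂ) (by
          rw [Complex.ofReal_re, abs_le, hT]
          constructor
          · linarith [hx.1]
          · linarith [hx.2]) (by simp)
        simpa using h2)
    calc ((L : ℝ) ^ K)⁻¹ * _ ≤ ((L : ℝ) ^ K)⁻¹ *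
          (((N : ℝ) * (L : ℝ) ^ K - -((N : ℝ) * (L : ℝ) ^ K)) * (Real.exp (2 * M₀) + 2 * κ * M₀)) :=
          mul_le_mul_of_nonneg_left h1 (by positivity)
      _ = 2 * N * (Real.exp (2 * M₀) + 2 * κ * M₀) := by
          field_simp
          ring
  -- lower bound
  have hlo : -(2 * κ * (C * (M' + 1))) ≤ posesc_F α L z κ v₀ n N 0 := by
    unfold posesc_F
    simp only [pow_zero, inv_one, one_mul, mul_one, add_zero]
    set W : ℂ → ℂ := fun ζ : ℂ => G α L z n ((v₀ : ℂ) + ζ / (L : ℂ) ^ n) with hW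
    have hWd : Differentiable ℂ W := (he α L z n).comp (by fun_prop)
    have hWd' : Differentiable ℂ (fun ζ => 1 - W ζ) := (differentiable_const 1).sub hWd
    have hbound : ∀ ζ : ℂ, ‖ζ - ((0 : ℝ) : ℂ)‖ ≤ 4 * (N : ℝ) → 1 + ‖W ζ‖ ≤ Real.exp M' := by
      intro ζ hζ
      rw [Complex.ofReal_zero, sub_zero] at hζ
      have hre := (Complex.abs_re_le_norm ζ).trans hζ
      have him := (Complex.abs_im_le_norm ζ).trans hζ
      have hNK : 0 ≤ (N : ℝ) * (L : ℝ) ^ K := by positivity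
      have h1 := hn3 n (by omega) ζ (by rw [hT]; linarith) (by linarith)
      refine h1.trans (Real.exp_le_exp.2 ?_)
      refine le_trans ?_ (le_max_left _ _)
      have := mul_le_mul_of_nonneg_left him hτ0
      linarith
    have hW0 : W ((0 : ℝ) : ℂ) = G α L z n (v₀ : ℂ) := by simp [hW]
    have hexp : Real.exp (-M') ≤ s₀ := by
      have h1 : -M' ≤ Real.log s₀ := by linarith [le_max_right (2 ^ j₁ * M₀ + τ * (4 * N)) (-Real.log s₀)]
      calc Real.exp (-M') ≤ Real.exp (Real.log s₀) := Real.exp_le_exp.2 h1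
        _ = s₀ := Real.exp_log hs₀
    have l1 := hC W hWd 0 M' hM'0 (fun ζ hζ => by linarith [hbound ζ hζ]) (by rw [hW0]; exact hexp.trans hs1)
      (-(N : ℝ)) N (by linarith) (by linarith) (by linarith)
    have l2 := hC (fun ζ => 1 - W ζ) hWd' 0 M' hM'0
      (fun ζ hζ => by
        have h1 : ‖1 - W ζ‖ ≤ ‖(1 : ℂ)‖ + ‖W ζ‖ := norm_sub_le _ _
        rw [norm_one] at h1
        exact h1.trans (hbound ζ hζ)) (by rw [hW0]; exact hexp.trans hs2)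
      (-(N : ℝ)) N (by linarith) (by linarith) (by linarith)
    have l3 := posesc_lo W hWd κ (-(N : ℝ)) N (by linarith)
    refine le_trans ?_ l3
    have : -(2 * κ * (C * (M' + 1))) = κ * (-(C * (M' + 1)) + -(C * (M' + 1))) := by ring
    rw [this]
    exact mul_le_mul_of_nonneg_left (add_le_add l1 l2) hκ.le
  linarith

end

end Pool.Agent.H429K
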