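import Pool.Agent.H429K.Stmts2

open MeasureTheory Filter Topology

namespace Pool.Agent.H429K

noncomputable section

theorem posm_cont (α : ℂ) (L : ℕ) (w : ℂ) (k : ℕ) : Continuous (fun u : ℝ => G α L w k (u : ℂ)) := by
  induction k with
  | zero =>
    simp only [G]
    exact continuous_const
  | succ k ih =>
    simp only [G, step]
    fun_prop

theorem posm_closed (α : ℂ) (L : ℕ) (R : ℝ) : IsClosed (Esc α L R) := by
  have h : Esc α L R = ⋂ (w : ℂ) (_ : R ≤ ‖w‖) (k : ℕ),
      {u : ℝ | (4:ℝ) ^ k * ‖w‖ ≤ ‖G α L w k (u : ℂ)‖} := by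
    ext u
    simp only [Esc, Set.mem_setOf_eq, Set.mem_iInter]
  rw [h]
  refine isClosed_iInter fun w => isClosed_iInter fun _ => isClosed_iInter fun k => ?_
  exact isClosed_le continuous_const (posm_cont α L w k).norm

theorem t_pos (hesc : S_esc) : S_pos := by
  intro α L N δ R hL hα hα1 hδ hR hlt
  set c : ℝ := (L : ℝ) ^ N with hc
  have hL0 : (0 : ℝ) < L := by exact_mod_cast hL
  have hc0 : 0 < c := pow_pos hL0 N
  set a : ℝ := c * (1 / 4 + δ / 2) with ha
  set T : ℝ := c * (δ / 2) with hT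
  have hT0 : 0 < T := by positivity
  have hmeas : MeasurableSet (Esc α L R) := (posm_closed α L R).measurableSet
  have h1 := hesc α L hL hα hα1 R hR a T hT0.le
  have hpos : 0 < volume (Set.Icc a (a + T) ∩ Esc α L R) := by
    rw [pos_iff_ne_zero]
    intro h0
    have h2 : volume (Set.Icc a (a + T)) ≤ ENNReal.ofReal (12 * (T + 1) / (‖α‖ * R)) := by
      calc volume (Set.Icc a (a + T))
          = volume (Set.Icc a (a + T) ∩ Esc α L R) + volume (Set.Icc a (a + T) \ Esc α L R) :=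
            (measure_inter_add_diff _ hmeas).symm
        _ ≤ ENNReal.ofReal (12 * (T + 1) / (‖α‖ * R)) := by rw [h0, zero_add]; exact h1
    rw [Real.volume_Icc, add_sub_cancel_left] at h2
    have h3 : ENNReal.ofReal (12 * (T + 1) / (‖α‖ * R)) < ENNReal.ofReal T :=
      (ENNReal.ofReal_lt_ofReal_iff hT0).2 hlt
    exact absurd (lt_of_le_of_lt h2 h3) (lt_irrefl _)
  have hpre : Set.Icc (1 / 4 + δ / 2) (1 / 4 + δ) ∩ (fun u : ℝ => c * u) ⁻¹' Esc α L R =
      (fun u : ℝ => c * u) ⁻¹' (Set.Icc a (a + T) ∩ Esc α L R) := by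
    ext u
    simp only [Set.mem_inter_iff, Set.mem_preimage, Set.mem_Icc]
    refine and_congr_left fun _ => ?_
    have e1 : a ≤ c * u ↔ 1 / 4 + δ / 2 ≤ u := by
      rw [ha]; exact mul_le_mul_iff_right₀ hc0
    have e2 : c * u ≤ a + T ↔ u ≤ 1 / 4 + δ := by
      have : a + T = c * (1 / 4 + δ) := by rw [ha, hT]; ring
      rw [this]; exact mul_le_mul_iff_right₀ hc0
    rw [e1, e2]
  refine ⟨Set.Icc (1 / 4 + δ / 2) (1 / 4 + δ) ∩ (fun u : ℝ => c * u) ⁻¹' Esc α L R, ?_, ?_,
    Set.inter_subset_left, fun u hu => hu.2⟩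
  · exact measurableSet_Icc.inter (hmeas.preimage (measurable_const_mul c))
  · rw [hpre, Real.volume_preimage_mul_left hc0.ne']
    refine ENNReal.mul_pos ?_ hpos.ne'
    rw [ne_eq, ENNReal.ofReal_eq_zero, not_le, abs_pos]
    exact inv_ne_zero hc0.ne'

end

end Pool.Agent.H429K
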