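import Pool.Agent.H429K.Stmts2

open MeasureTheory Filter Topology

namespace Pool.Agent.H429K

noncomputable section

theorem sepm_ne (hsh : S_shift) (α : ℂ) (L : ℕ) (u : ℝ) (z : ℂ) (hz : z ∈ NE α L u) :
    step (cc α u) z ∈ NE α L ((L : ℝ) * u) := by
  intro h
  apply hz
  rw [← tendsto_add_atTop_iff_nat 1]
  refine h.congr fun n => ?_
  rw [hsh α L u z n]

theorem sepm_sq (c z : ℂ) (hc : c ≠ 0) :
    (1 + c) ^ 2 / (4 * c) - step c z = c * (z - (1 + c) / (2 * c)) ^ 2 := by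
  unfold step
  field_simp
  ring

theorem sepm_re (w : ℂ) (h : 0 < (w ^ 2).re) : w.re ≠ 0 := by
  intro h0
  rw [pow_two, Complex.mul_re, h0] at h
  nlinarith [sq_nonneg w.im]

theorem t_sep (ha : S_add) (hsh : S_shift) (hjs : S_jsym) (hj : S_jne) (hfe : S_fesc) : S_sep := by
  have _ := ha
  intro α L u R hR hE hS hpre
  obtain ⟨hc, e, he⟩ := hS
  obtain ⟨h1, h2, -⟩ := hfe α L u R hR hE
  set c := cc α u with hcdef
  set q : ℂ := (1 + c) / (2 * c) with hq
  obtain ⟨k, hk⟩ := IsAlgClosed.exists_pow_nat_eq (e * c) (n := 2) (by norm_num)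
  have hne : ∀ z : ℂ, (z : OnePoint ℂ) ∉ fatou α L u → z ∈ NE α L u := fun z hz ht => hz (h1 z ht)
  have hre : ∀ z : ℂ, (z : OnePoint ℂ) ∉ fatou α L u → (k * (z - q)).re ≠ 0 := by
    intro z hz
    apply sepm_re
    have h3 := he _ (sepm_ne hsh α L u z (hne z hz))
    rw [← hcdef, sepm_sq c z hc, ← hq, ← mul_assoc, ← hk] at h3
    rwa [mul_pow]
  have hcont : Continuous (fun z : ℂ => (k * (z - q)).re) := by fun_prop
  set O1 : Set (OnePoint ℂ) := (fun z : ℂ => (z : OnePoint ℂ)) '' {z | 0 < (k * (z - q)).re}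
    with hO1
  set O2 : Set (OnePoint ℂ) := (fun z : ℂ => (z : OnePoint ℂ)) '' {z | (k * (z - q)).re < 0}
    with hO2
  have ho1 : IsOpen O1 := OnePoint.isOpen_image_coe.2 (isOpen_lt continuous_const hcont)
  have ho2 : IsOpen O2 := OnePoint.isOpen_image_coe.2 (isOpen_lt hcont continuous_const)
  have hcov : (fatou α L u)ᶜ ⊆ O1 ∪ O2 := by
    intro x hx
    induction x using OnePoint.rec with
    | infty => exact absurd h2 hx
    | coe z =>
      rcases lt_or_gt_of_ne (hre z hx) with h | h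
      · exact Or.inr ⟨z, h, rfl⟩
      · exact Or.inl ⟨z, h, rfl⟩
  obtain ⟨z, hz⟩ := hj α L u R hR hE
  have hz' := hjs α L u hc z hz
  rw [← hcdef] at hz'
  set z' : ℂ := (1 + c) / c - z with hz'def
  have hneg : k * (z' - q) = -(k * (z - q)) := by
    rw [hz'def, hq]
    field_simp
    ring
  have hz're : (k * (z' - q)).re = -(k * (z - q)).re := by
    rw [hneg, Complex.neg_re]
  have hboth : ((fatou α L u)ᶜ ∩ O1).Nonempty ∧ ((fatou α L u)ᶜ ∩ O2).Nonempty := by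
    rcases lt_or_gt_of_ne (hre z hz) with h | h
    · refine ⟨⟨(z' : OnePoint ℂ), hz', z', ?_, rfl⟩, ⟨(z : OnePoint ℂ), hz, z, h, rfl⟩⟩
      change 0 < (k * (z' - q)).re
      linarith
    · refine ⟨⟨(z : OnePoint ℂ), hz, z, h, rfl⟩, ⟨(z' : OnePoint ℂ), hz', z', ?_, rfl⟩⟩
      change (k * (z' - q)).re < 0
      linarith
  obtain ⟨x, -, ⟨a, ha1, ha2⟩, ⟨b, hb1, hb2⟩⟩ := hpre O1 O2 ho1 ho2 hcov hboth.1 hboth.2
  have hab : a = b := by
    have : (a : OnePoint ℂ) = (b : OnePoint ℂ) := ha2.trans hb2.symm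
    exact OnePoint.coe_injective this
  rw [hab] at ha1
  have hc1 : 0 < (k * (b - q)).re := ha1
  have hc2 : (k * (b - q)).re < 0 := hb1
  linarith

end

end Pool.Agent.H429K
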