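import Pool.Agent.H429K.Stmts2

set_option autoImplicit false

open MeasureTheory Filter Topology

namespace Pool.Agent.H429K

noncomputable section

/-- the logarithm of the norm of an entire function is integrable over real intervals -/
theorem stepq_logint {h : ℂ → ℂ} (hh : Differentiable ℂ h) (a b : ℝ) :
    IntervalIntegrable (fun x : ℝ => Real.log ‖h (x : ℂ)‖) volume a b := by
  have h1 : MeromorphicOn (fun x : ℝ => h (x : ℂ)) (Set.uIcc a b) := by
    intro x _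
    apply AnalyticAt.meromorphicAt
    have h2 : AnalyticAt ℂ h (x : ℂ) := hh.analyticAt _
    have h3 : AnalyticAt ℝ h (x : ℂ) := h2.restrictScalars
    have h4 : AnalyticAt ℝ (fun x : ℝ => (x : ℂ)) x := Complex.ofRealCLM.analyticAt x
    exact AnalyticAt.comp (f := fun x : ℝ => (x : ℂ)) h3 h4
  exact h1.intervalIntegrable_log_norm

/-- affine changes of variable preserve almost everywhere statements -/
theorem stepq_ae {p : ℝ → Prop} (h : ∀ᵐ u : ℝ, p u) (v₀ c : ℝ) (hc : c ≠ 0) :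
    ∀ᵐ x : ℝ, p (v₀ + x / c) := by
  rw [ae_iff] at h ⊢
  have h1 : {x : ℝ | ¬ p (v₀ + x / c)} =
      (fun x => x * c⁻¹) ⁻¹' ((fun y => v₀ + y) ⁻¹' {u | ¬ p u}) := by
    ext x
    simp [div_eq_mul_inv]
  rw [h1, Real.volume_preimage_mul_right (inv_ne_zero hc), measure_preimage_add, h, mul_zero]

theorem t_step2 (he : S_entire) (hn : S_nz) (hs : S_step) : S_step2 := by
  intro α L hL hα hα1 z hz0 hz1 κ c₀ hκ hc₀ v₀ m N Y A hN hY hA hbd hwin
  have hLpos : (0:ℝ) < L := by positivity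
  have hLr : (L:ℝ) ≠ 0 := hLpos.ne'
  have hLc : (L:ℂ) ≠ 0 := by exact_mod_cast hLr
  have hLm : (L:ℝ) ^ m ≠ 0 := pow_ne_zero _ hLr
  have hLmc : (L:ℂ) ^ m ≠ 0 := pow_ne_zero _ hLc
  set θ : ℝ := (L:ℝ) ^ m * v₀ with hθ
  set W : ℂ → ℂ := fun ζ => G α L z m ((v₀ : ℂ) + ζ / (L : ℂ) ^ m) with hW
  set F : ℂ → ℂ := fun ζ => G α L z (m + 1) ((v₀ : ℂ) + ζ / (L : ℂ) ^ m) with hF
  set cs : ℂ → ℂ := fun ζ => α * Complex.cos (2 * (Real.pi : ℂ) * ((θ : ℂ) + ζ)) with hcs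
  have hWd : Differentiable ℂ W := by
    have := he α L z m
    rw [hW]
    exact this.comp (by fun_prop)
  have hFd : Differentiable ℂ F := by
    have := he α L z (m + 1)
    rw [hF]
    exact this.comp (by fun_prop)
  have hcsd : Differentiable ℂ cs := by
    rw [hcs]
    fun_prop
  have hcsr : ∀ x : ℝ, cs (x : ℂ) = α * ((Real.cos (2 * Real.pi * (θ + x)) : ℝ) : ℂ) := by
    intro x
    simp only [hcs]
    congr 1
    push_cast
    rfl
  have hFW : ∀ ζ : ℂ, F ζ = W ζ * (1 + cs ζ * (1 - W ζ)) := by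
    intro ζ
    have harg : 2 * (Real.pi : ℂ) * (L : ℂ) ^ m * ((v₀ : ℂ) + ζ / (L : ℂ) ^ m) =
        2 * (Real.pi : ℂ) * ((θ : ℂ) + ζ) := by
      rw [hθ]
      push_cast
      field_simp
    simp only [hF, hW, hcs, G, step]
    rw [harg]
    ring
  have hFW1 : ∀ ζ : ℂ, 1 - F ζ = (1 - W ζ) * (1 - cs ζ * W ζ) := by
    intro ζ
    rw [hFW]
    ring
  -- nonvanishing
  have hnz0 := stepq_ae (hn α L z (by omega) hz0 hz1) v₀ ((L:ℝ) ^ m) hLm
  have hnz : ∀ᵐ x : ℝ, W (x : ℂ) ≠ 0 ∧ W (x : ℂ) ≠ 1 ∧ F (x : ℂ) ≠ 0 ∧ F (x : ℂ) ≠ 1 := by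
    filter_upwards [hnz0] with x hx
    have hcast : (((v₀ + x / (L:ℝ) ^ m : ℝ)) : ℂ) = (v₀ : ℂ) + (x : ℂ) / (L : ℂ) ^ m := by
      push_cast
      rfl
    have h1 := hx m
    have h2 := hx (m + 1)
    rw [hcast] at h1 h2
    exact ⟨h1.1, h1.2, h2.1, h2.2⟩
  set q : ℝ → ℝ := fun x => Real.log ‖1 + cs (x : ℂ) * (1 - W (x : ℂ))‖ +
    Real.log ‖1 - cs (x : ℂ) * W (x : ℂ)‖ with hq
  set lW : ℝ → ℝ := fun x => Real.log ‖W (x : ℂ)‖ + Real.log ‖1 - W (x : ℂ)‖ with hlW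
  set lF : ℝ → ℝ := fun x => Real.log ‖F (x : ℂ)‖ + Real.log ‖1 - F (x : ℂ)‖ with hlF
  have hqi : ∀ a b : ℝ, IntervalIntegrable q volume a b := fun a b =>
    (stepq_logint (h := fun ζ => 1 + cs ζ * (1 - W ζ)) (by fun_prop) a b).add
      (stepq_logint (h := fun ζ => 1 - cs ζ * W ζ) (by fun_prop) a b)
  have hlWi : ∀ a b : ℝ, IntervalIntegrable lW volume a b := fun a b =>
    (stepq_logint (h := W) hWd a b).add (stepq_logint (h := fun ζ => 1 - W ζ) (by fun_prop) a b)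
  have hlFi : ∀ a b : ℝ, IntervalIntegrable lF volume a b := fun a b =>
    (stepq_logint (h := F) hFd a b).add (stepq_logint (h := fun ζ => 1 - F ζ) (by fun_prop) a b)
  have hlog : ∀ᵐ x : ℝ, lF x = lW x + q x := by
    filter_upwards [hnz] with x hx
    obtain ⟨h1, h2, h3, h4⟩ := hx
    have h5 : 1 - W (x : ℂ) ≠ 0 := sub_ne_zero.mpr (Ne.symm h2)
    have h6 : 1 - F (x : ℂ) ≠ 0 := sub_ne_zero.mpr (Ne.symm h4)
    have h7 := h3
    have h8 := h6
    rw [hFW] at h7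
    rw [hFW1] at h8
    simp only [hlF, hlW, hq]
    rw [hFW1, hFW, norm_mul, norm_mul, Real.log_mul (norm_ne_zero_iff.mpr h1)
      (norm_ne_zero_iff.mpr (right_ne_zero_of_mul h7)), Real.log_mul (norm_ne_zero_iff.mpr h5)
      (norm_ne_zero_iff.mpr (right_ne_zero_of_mul h8))]
    ring
  have hWsq : ∀ a b : ℝ, IntervalIntegrable (fun x : ℝ => ‖W (x : ℂ)‖ ^ 2) volume a b := by
    intro a b
    apply Continuous.intervalIntegrable
    have := hWd.continuous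
    fun_prop
  have hFsq : ∀ a b : ℝ, IntervalIntegrable (fun x : ℝ => ‖F (x : ℂ)‖ ^ 2) volume a b := by
    intro a b
    apply Continuous.intervalIntegrable
    have := hFd.continuous
    fun_prop
  have hDl : ∀ x : ℝ, Dl α L z v₀ m x = cs (x : ℂ) * W (x : ℂ) * (1 - W (x : ℂ)) := by
    intro x
    rw [hcsr]
    rfl
  have hDsq : ∀ a b : ℝ, IntervalIntegrable (fun x : ℝ => ‖Dl α L z v₀ m x‖ ^ 2) volume a b := by
    intro a b
    simp_rw [hDl]
    apply Continuous.intervalIntegrable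
    have := hWd.continuous
    have := hcsd.continuous
    fun_prop
  -- the windows
  have hwin' : ∀ a : ℝ, -(N : ℝ) ≤ a → a + 1 ≤ N →
      c₀ ≤ ∫ x in a..(a + 1), (‖Dl α L z v₀ m x‖ ^ 2 + κ * q x) := by
    intro a h1 h2
    rw [intervalIntegral.integral_add (hDsq _ _) ((hqi _ _).const_mul κ),
      intervalIntegral.integral_const_mul]
    have h3 := hwin a h1 h2
    simp only [hq, hcsr]
    exact h3
  have hgi : ∀ a b : ℝ, IntervalIntegrable (fun x => ‖Dl α L z v₀ m x‖ ^ 2 + κ * q x) volume a b :=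
    fun a b => (hDsq _ _).add ((hqi _ _).const_mul κ)
  have hsum : 2 * (N:ℝ) * c₀ ≤ ∫ x in (-(N : ℝ))..N, (‖Dl α L z v₀ m x‖ ^ 2 + κ * q x) := by
    have h1 := intervalIntegral.sum_integral_adjacent_intervals (μ := volume)
      (f := fun x => ‖Dl α L z v₀ m x‖ ^ 2 + κ * q x) (a := fun k : ℕ => -(N:ℝ) + k) (n := 2 * N)
      (fun k _ => hgi _ _)
    have h2 : -(N:ℝ) + ((0 : ℕ) : ℝ) = -(N:ℝ) := by simp
    have h3 : -(N:ℝ) + ((2 * N : ℕ) : ℝ) = N := by push_cast; ring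
    simp only [h2, h3] at h1
    rw [← h1]
    have h4 : ∀ k ∈ Finset.range (2 * N), c₀ ≤ ∫ x in (-(N:ℝ) + k)..(-(N:ℝ) + ((k + 1 : ℕ) : ℝ)),
        (‖Dl α L z v₀ m x‖ ^ 2 + κ * q x) := by
      intro k hk
      rw [Finset.mem_range] at hk
      have h5 : -(N:ℝ) + ((k + 1 : ℕ) : ℝ) = (-(N:ℝ) + k) + 1 := by push_cast; ring
      rw [h5]
      apply hwin'
      · have : (0:ℝ) ≤ k := Nat.cast_nonneg _
        linarith
      · have : ((k:ℝ) + 1) ≤ 2 * N := by exact_mod_cast hk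
        linarith
    have h5 := Finset.card_nsmul_le_sum _ _ _ h4
    rw [Finset.card_range, nsmul_eq_mul] at h5
    push_cast at h5 ⊢
    exact h5
  -- the substitution
  have hsub : ∀ φ : ℂ → ℝ, (1 / (L : ℝ)) * (∫ x in (-((N : ℝ) * L))..((N : ℝ) * L),
      φ (G α L z (m + 1) ((v₀ : ℂ) + (x : ℂ) / (L : ℂ) ^ (m + 1)))) =
      ∫ x in (-(N : ℝ))..N, φ (F (x : ℂ)) := by
    intro φ
    have h1 := intervalIntegral.integral_comp_mul_left (a := -(N:ℝ)) (b := N)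
      (fun x : ℝ => φ (G α L z (m + 1) ((v₀ : ℂ) + (x : ℂ) / (L : ℂ) ^ (m + 1)))) hLr
    have h2 : (L:ℝ) * -(N:ℝ) = -((N:ℝ) * L) := by ring
    have h3 : (L:ℝ) * (N:ℝ) = (N:ℝ) * L := by ring
    rw [h2, h3, smul_eq_mul] at h1
    rw [one_div, ← h1]
    refine intervalIntegral.integral_congr fun x _ => ?_
    simp only [hF]
    congr 3
    push_cast
    rw [pow_succ]
    field_simp
  have hstep := hs α L hL hα hα1.le z v₀ m N Y A (by exact_mod_cast hN) hY hA hbd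
  rw [hsub (fun w => psi κ w)]
  have hsub2 := hsub (fun w => ‖w‖ ^ 2)
  rw [hsub2] at hstep
  have hpsiF : (∫ x in (-(N : ℝ))..N, psi κ (F (x : ℂ))) =
      (∫ x in (-(N : ℝ))..N, ‖F (x : ℂ)‖ ^ 2) + κ * ∫ x in (-(N : ℝ))..N, lF x := by
    unfold psi
    rw [intervalIntegral.integral_add (hFsq _ _) ((hlFi _ _).const_mul κ),
      intervalIntegral.integral_const_mul]
  have hpsiW : (∫ x in (-(N : ℝ))..N, psi κ (W (x : ℂ))) =
      (∫ x in (-(N : ℝ))..N, ‖W (x : ℂ)‖ ^ 2) + κ * ∫ x in (-(N : ℝ))..N, lW x := by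
    unfold psi
    rw [intervalIntegral.integral_add (hWsq _ _) ((hlWi _ _).const_mul κ),
      intervalIntegral.integral_const_mul]
  have hlFint : (∫ x in (-(N : ℝ))..N, lF x) =
      (∫ x in (-(N : ℝ))..N, lW x) + ∫ x in (-(N : ℝ))..N, q x := by
    rw [← intervalIntegral.integral_add (hlWi _ _) (hqi _ _)]
    apply intervalIntegral.integral_congr_ae
    filter_upwards [hlog] with x hx _
    exact hx
  rw [intervalIntegral.integral_add (hDsq _ _) ((hqi _ _).const_mul κ),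
    intervalIntegral.integral_const_mul] at hsum
  rw [hpsiF, hlFint]
  change (∫ x in (-(N : ℝ))..N, psi κ (W (x : ℂ))) + 2 * N * c₀ - _ ≤ _
  rw [hpsiW]
  change (∫ x in (-(N : ℝ))..N, ‖W (x : ℂ)‖ ^ 2) + _ - _ ≤ _ at hstep
  linarith

end

end Pool.Agent.H429K
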