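import Pool.Agent.H429K.Stmts2

open MeasureTheory Filter Topology

namespace Pool.Agent.H429K

noncomputable section

theorem unifg_div_re (L j : ℕ) (ζ : ℂ) : (ζ / (L : ℂ) ^ j).re = ζ.re / (L : ℝ) ^ j := by
  have h : ((L : ℂ) ^ j) = (((L : ℝ) ^ j : ℝ) : ℂ) := by push_cast; rfl
  rw [h, Complex.div_ofReal_re]

theorem unifg_div_im (L j : ℕ) (ζ : ℂ) : (ζ / (L : ℂ) ^ j).im = ζ.im / (L : ℝ) ^ j := by
  have h : ((L : ℂ) ^ j) = (((L : ℝ) ^ j : ℝ) : ℂ) := by push_cast; rfl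
  rw [h, Complex.div_ofReal_im]

theorem t_unifg (hg : S_growth) (hu : S_unif) : S_unifg := by
  intro α L hL h0 h1
  obtain ⟨M₀, hM, H⟩ := hu α L hL h0 h1
  refine ⟨M₀, hM, fun z P hP v₀ hv T hT j₀ => ?_⟩
  obtain ⟨n₁', hn⟩ := H z P hP v₀ hv T hT
  refine ⟨n₁' + j₀, fun n hnn ζ hre him => ?_⟩
  obtain ⟨m, rfl⟩ : ∃ m, n = m + j₀ := ⟨n - j₀, by omega⟩
  have hm : n₁' ≤ m := by omega
  have hL1 : (1 : ℝ) ≤ (L : ℝ) := by exact_mod_cast (by omega : 1 ≤ L)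
  have hLj : (1 : ℝ) ≤ (L : ℝ) ^ j₀ := one_le_pow₀ hL1
  have hLj0 : (0 : ℝ) < (L : ℝ) ^ j₀ := by linarith
  have hLn0 : (0 : ℝ) < (L : ℝ) ^ (m + j₀) := by positivity
  have hb := hn m hm (ζ / (L : ℂ) ^ j₀)
    (by
      rw [unifg_div_re, abs_div, abs_of_pos hLj0, div_le_iff₀ hLj0]
      nlinarith)
    (by
      rw [unifg_div_im, abs_div, abs_of_pos hLj0, div_le_iff₀ hLj0]
      exact him)
  have heq : (v₀ : ℂ) + ζ / (L : ℂ) ^ j₀ / (L : ℂ) ^ m = (v₀ : ℂ) + ζ / (L : ℂ) ^ (m + j₀) := by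
    rw [div_div, ← pow_add, add_comm j₀ m]
  rw [heq] at hb
  have g := hg α L z m j₀ ((v₀ : ℂ) + ζ / (L : ℂ) ^ (m + j₀)) (by omega) h1
  have him2 : ((v₀ : ℂ) + ζ / (L : ℂ) ^ (m + j₀)).im = ζ.im / (L : ℝ) ^ (m + j₀) := by
    rw [Complex.add_im, unifg_div_im, Complex.ofReal_im, zero_add]
  rw [him2, abs_div, abs_of_pos hLn0] at g
  have hexp : 2 * Real.pi / ((L : ℝ) - 2) * (L : ℝ) ^ (m + j₀) * (|ζ.im| / (L : ℝ) ^ (m + j₀)) =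
      2 * Real.pi / ((L : ℝ) - 2) * |ζ.im| := by
    field_simp
  rw [hexp] at g
  have hp : (1 + ‖G α L z m ((v₀ : ℂ) + ζ / (L : ℂ) ^ (m + j₀))‖) ^ (2 ^ j₀) ≤
      Real.exp (2 ^ j₀ * M₀) := by
    calc (1 + ‖G α L z m ((v₀ : ℂ) + ζ / (L : ℂ) ^ (m + j₀))‖) ^ (2 ^ j₀)
        ≤ (Real.exp M₀) ^ (2 ^ j₀) := pow_le_pow_left₀ (by positivity) hb _
      _ = Real.exp (2 ^ j₀ * M₀) := by
          rw [← Real.exp_nat_mul]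
          push_cast
          rfl
  calc 1 + ‖G α L z (m + j₀) ((v₀ : ℂ) + ζ / (L : ℂ) ^ (m + j₀))‖
      ≤ _ := g
    _ ≤ Real.exp (2 ^ j₀ * M₀) * Real.exp (2 * Real.pi / ((L : ℝ) - 2) * |ζ.im|) :=
        mul_le_mul_of_nonneg_right hp (Real.exp_pos _).le
    _ = Real.exp (2 ^ j₀ * M₀ + 2 * Real.pi / ((L : ℝ) - 2) * |ζ.im|) := by
        rw [← Real.exp_add]

end

end Pool.Agent.H429K
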