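import Pool.Agent.H429K.All
import Pool.Agent.H429K.Birk2
import Pool.Agent.H429K.Nz
import Pool.Agent.H429K.Away
import Pool.Agent.H429K.Logint
import Pool.Agent.H429K.Unifg
import Pool.Agent.H429K.Drift
import Pool.Agent.H429K.Stepq
import Pool.Agent.H429K.Posesc
import Pool.Agent.H429K.Fesc
import Pool.Agent.H429K.Aream
import Pool.Agent.H429K.Jne
import Pool.Agent.H429K.Sepm
import Pool.Agent.H429K.Posm
import Pool.Agent.H429K.Geoz
import Pool.Agent.H429K.Geoo
import Pool.Agent.H429K.Geot
import Pool.Agent.H429K.Pull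
import Pool.Agent.H429K.Ergo
import Pool.Agent.H429K.Discm

set_option autoImplicit false

open MeasureTheory Filter Topology

namespace Pool.Agent.H429K

/-! Assembly of part 2: the area theorem and disconnected Julia sets. -/

theorem a_nz : S_nz := t_nz t_entire

theorem a_away : S_away := t_away t_sym t_birk a_nz

theorem a_unifg : S_unifg := t_unifg t_growth a_unif

theorem a_drift : S_drift := t_drift t_small t_logint

theorem a_step2 : S_step2 := t_step2 t_entire a_nz a_step

theorem a_posesc : S_posesc :=
  t_posesc t_entire t_dens a_away t_logint a_unifg a_drift a_step2 a_nz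

theorem a_fesc : S_fesc := t_fesc t_add t_fiter t_fcont t_tri t_nhds

theorem a_fesc2 : S_fesc2 := t_fesc2 t_per t_esc t_recur

theorem a_area : S_area :=
  t_area t_zcont t_entire a_core a_main a_posesc a_fesc a_fesc2 t_fiter

theorem a_jsym : S_jsym := t_jsym t_fiter t_shift

theorem a_jne : S_jne := t_jne t_add t_fiter t_tri t_nhds a_equi a_fesc

theorem a_sep : S_sep := t_sep t_add t_shift a_jsym a_jne a_fesc

theorem a_pos : S_pos := t_pos t_esc

theorem a_geo0 : S_geo0 := t_geo0 t_add t_shift a_pos

theorem a_geo1 : S_geo1 := t_geo1 t_add t_shift a_pos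

theorem a_geo3 : S_geo3 := t_geo3 t_add t_shift a_pos

theorem a_pull : S_pull := t_pull t_fiter t_fcont

theorem a_dpull : S_dpull := t_dpull a_pull

theorem a_disc : S_disc := t_disc t_per a_fesc2 a_sep a_geo0 a_geo1 a_geo3 a_dpull t_ergo

end Pool.Agent.H429K
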