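import Pool.Agent.H429K.Stmts

open MeasureTheory Filter Topology

namespace Pool.Agent.H429K

noncomputable section

theorem t_entire : S_entire := by
  intro α L z n
  induction n with
  | zero => exact differentiable_const z
  | succ n ih =>
    have : G α L z (n + 1) = fun ζ => G α L z n ζ +
        (α * Complex.cos (2 * (Real.pi : ℂ) * (L : ℂ) ^ n * ζ)) * G α L z n ζ *
          (1 - G α L z n ζ) := rfl
    rw [this]
    have hc : Differentiable ℂ (fun ζ : ℂ => Complex.cos (2 * (Real.pi : ℂ) * (L : ℂ) ^ n * ζ)) :=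
      Complex.differentiable_cos.comp (differentiable_id.const_mul _)
    exact ih.add (((hc.const_mul α).mul ih).mul ((differentiable_const 1).sub ih))

theorem t_add : S_add := by
  intro α L z n k ζ
  induction k with
  | zero => rfl
  | succ k ih =>
    show step (α * Complex.cos (2 * (Real.pi : ℂ) * (L : ℂ) ^ (n + k) * ζ)) (G α L z (n + k) ζ) =
      step (α * Complex.cos (2 * (Real.pi : ℂ) * (L : ℂ) ^ k * ((L : ℂ) ^ n * ζ)))
        (G α L (G α L z n ζ) k ((L : ℂ) ^ n * ζ))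
    rw [ih]
    have : 2 * (Real.pi : ℂ) * (L : ℂ) ^ (n + k) * ζ =
        2 * (Real.pi : ℂ) * (L : ℂ) ^ k * ((L : ℂ) ^ n * ζ) := by ring
    rw [this]

theorem t_per : S_per := by
  intro α L z n ζ m
  induction n with
  | zero => rfl
  | succ n ih =>
    show step (α * Complex.cos (2 * (Real.pi : ℂ) * (L : ℂ) ^ n * (ζ + m))) (G α L z n (ζ + m)) =
      step (α * Complex.cos (2 * (Real.pi : ℂ) * (L : ℂ) ^ n * ζ)) (G α L z n ζ)
    rw [ih]
    have : 2 * (Real.pi : ℂ) * (L : ℂ) ^ n * (ζ + m) =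
        2 * (Real.pi : ℂ) * (L : ℂ) ^ n * ζ + (((L : ℤ) ^ n * m : ℤ) : ℂ) * (2 * Real.pi) := by
      push_cast; ring
    rw [this, Complex.cos_add_int_mul_two_pi]

theorem t_sym : S_sym := by
  intro α L w n ζ
  induction n with
  | zero => rfl
  | succ n ih =>
    show 1 - step (α * Complex.cos (2 * (Real.pi : ℂ) * (L : ℂ) ^ n * ζ)) (G α L w n ζ) =
      step (-α * Complex.cos (2 * (Real.pi : ℂ) * (L : ℂ) ^ n * ζ)) (G (-α) L (1 - w) n ζ)
    rw [← ih]
    unfold step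
    ring

theorem t_zcont : S_zcont := by
  intro α L n ζ
  induction n with
  | zero => exact continuous_id
  | succ n ih =>
    show Continuous fun z => G α L z n ζ +
        (α * Complex.cos (2 * (Real.pi : ℂ) * (L : ℂ) ^ n * ζ)) * G α L z n ζ *
          (1 - G α L z n ζ)
    exact ih.add ((continuous_const.mul ih).mul (continuous_const.sub ih))

theorem basic_norm_cos (w : ℂ) : ‖Complex.cos w‖ ≤ Real.exp |w.im| := by
  have h1 : ‖Complex.exp (w * Complex.I)‖ ≤ Real.exp |w.im| := by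
    rw [Complex.norm_exp]
    apply Real.exp_le_exp.2
    simp only [Complex.mul_re, Complex.I_re, Complex.I_im, mul_zero, mul_one, zero_sub]
    exact neg_le_abs _
  have h2 : ‖Complex.exp (-w * Complex.I)‖ ≤ Real.exp |w.im| := by
    rw [Complex.norm_exp]
    apply Real.exp_le_exp.2
    simp only [Complex.mul_re, Complex.I_re, Complex.I_im, mul_zero, mul_one, zero_sub,
      Complex.neg_re, Complex.neg_im, neg_neg]
    exact le_abs_self _
  unfold Complex.cos
  rw [norm_div]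
  have h3 := norm_add_le (Complex.exp (w * Complex.I)) (Complex.exp (-w * Complex.I))
  have h4 : ‖(2 : ℂ)‖ = 2 := by simp
  rw [h4, div_le_iff₀ (by norm_num)]
  linarith

theorem basic_step (c w : ℂ) (s : ℝ) (hs : 0 ≤ s) (hc : ‖c‖ ≤ Real.exp s) :
    1 + ‖step c w‖ ≤ Real.exp s * (1 + ‖w‖) ^ 2 := by
  have h1 : ‖step c w‖ ≤ ‖w‖ + ‖c‖ * ‖w‖ * (1 + ‖w‖) := by
    unfold step
    refine (norm_add_le _ _).trans ?_
    rw [norm_mul, norm_mul]
    have h2 : ‖1 - w‖ ≤ 1 + ‖w‖ := by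
      have := norm_sub_le (1 : ℂ) w
      rwa [norm_one] at this
    have h3 : 0 ≤ ‖c‖ * ‖w‖ := by positivity
    have := mul_le_mul_of_nonneg_left h2 h3
    linarith
  have h0 : 0 ≤ ‖w‖ := norm_nonneg w
  have h5 : 1 ≤ Real.exp s := Real.one_le_exp hs
  have h6 : ‖c‖ * (‖w‖ * (1 + ‖w‖)) ≤ Real.exp s * (‖w‖ * (1 + ‖w‖)) :=
    mul_le_mul_of_nonneg_right hc (by positivity)
  nlinarith [mul_nonneg h0 h0]

theorem basic_growth (α : ℂ) (L : ℕ) (z : ℂ) (n k : ℕ) (ζ : ℂ) (hL : 3 ≤ L) (hα : ‖α‖ ≤ 1) :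
    1 + ‖G α L z (n + k) ζ‖ ≤ (1 + ‖G α L z n ζ‖) ^ (2 ^ k) *
    Real.exp (2 * Real.pi * |ζ.im| * (L : ℝ) ^ n * (((L : ℝ) ^ k - 2 ^ k) / ((L : ℝ) - 2))) := by
  have hL' : (3 : ℝ) ≤ L := by exact_mod_cast hL
  have hL2 : (L : ℝ) - 2 ≠ 0 := by intro h; linarith
  induction k with
  | zero => simp
  | succ k ih =>
    set s : ℝ := 2 * Real.pi * (L : ℝ) ^ (n + k) * |ζ.im| with hs
    have hs0 : 0 ≤ s := by positivity
    have hc : ‖α * Complex.cos (2 * (Real.pi : ℂ) * (L : ℂ) ^ (n + k) * ζ)‖ ≤ Real.exp s := by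
      rw [norm_mul]
      have h1 := basic_norm_cos (2 * (Real.pi : ℂ) * (L : ℂ) ^ (n + k) * ζ)
      have h2 : (2 * (Real.pi : ℂ) * (L : ℂ) ^ (n + k) * ζ).im =
          2 * Real.pi * (L : ℝ) ^ (n + k) * ζ.im := by
        have : 2 * (Real.pi : ℂ) * (L : ℂ) ^ (n + k) =
            ((2 * Real.pi * (L : ℝ) ^ (n + k) : ℝ) : ℂ) := by push_cast; ring
        rw [this, Complex.im_ofReal_mul]
      have h3 : |2 * Real.pi * (L : ℝ) ^ (n + k) * ζ.im| = s := by
        rw [abs_mul, abs_of_nonneg (by positivity : 0 ≤ 2 * Real.pi * (L : ℝ) ^ (n + k))]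
      rw [h2, h3] at h1
      calc ‖α‖ * ‖Complex.cos (2 * (Real.pi : ℂ) * (L : ℂ) ^ (n + k) * ζ)‖ ≤ 1 * Real.exp s :=
            mul_le_mul hα h1 (norm_nonneg _) (by norm_num)
        _ = Real.exp s := one_mul _
    have hst := basic_step _ (G α L z (n + k) ζ) s hs0 hc
    have e : G α L z (n + (k + 1)) ζ =
        step (α * Complex.cos (2 * (Real.pi : ℂ) * (L : ℂ) ^ (n + k) * ζ)) (G α L z (n + k) ζ) := rfl
    rw [e]
    refine hst.trans ?_
    have h0 : 0 ≤ 1 + ‖G α L z (n + k) ζ‖ := by positivity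
    have h7 := pow_le_pow_left₀ h0 ih 2
    refine (mul_le_mul_of_nonneg_left h7 (Real.exp_nonneg s)).trans (le_of_eq ?_)
    rw [mul_pow, ← pow_mul, ← pow_succ, ← Real.exp_nat_mul, mul_left_comm, ← Real.exp_add]
    congr 2
    rw [hs]
    push_cast
    field_simp
    ring

theorem t_growth : S_growth := by
  intro α L z n k ζ hL hα
  refine (basic_growth α L z n k ζ hL hα).trans ?_
  have hL' : (3 : ℝ) ≤ L := by exact_mod_cast hL
  have hL2 : 0 < (L : ℝ) - 2 := by linarith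
  refine mul_le_mul_of_nonneg_left (Real.exp_le_exp.2 ?_) (by positivity)
  have e1 : 2 * Real.pi / ((L : ℝ) - 2) * (L : ℝ) ^ (n + k) * |ζ.im| =
      2 * Real.pi * |ζ.im| * (L : ℝ) ^ n * ((L : ℝ) ^ k / ((L : ℝ) - 2)) := by
    rw [pow_add]; ring
  rw [e1]
  refine mul_le_mul_of_nonneg_left ?_ (by positivity)
  refine div_le_div_of_nonneg_right ?_ hL2.le
  have : (0 : ℝ) ≤ 2 ^ k := by positivity
  linarith

end

end Pool.Agent.H429K
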