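import Mathlib

set_option autoImplicit false

open MeasureTheory Filter Topology

namespace Pool.Agent.H429K

noncomputable section

/-! ### The random orbit, with complexified base point -/

/-- the quadratic step `z ↦ z + c z (1 - z)` -/
def step (c z : ℂ) : ℂ := z + c * z * (1 - z)

/-- `G α L z n ζ` is the point reached from `z` after `n` steps of the skew product over the base
point `ζ` (complex base points are allowed). -/
def G (α : ℂ) (L : ℕ) (z : ℂ) : ℕ → ℂ → ℂ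
  | 0, _ => z
  | n + 1, ζ => step (α * Complex.cos (2 * (Real.pi : ℂ) * (L : ℂ) ^ n * ζ)) (G α L z n ζ)

/-- the fibre exponent at `0` (and at `1`) -/
def lam (α : ℂ) : ℝ := ∫ u in (0:ℝ)..1, Real.log ‖1 + α * ((Real.cos (2 * Real.pi * u) : ℝ) : ℂ)‖

/-- base points over which the disc of radius `δ` about `0` is contracted exponentially -/
def Lam0 (α : ℂ) (L : ℕ) (κ δ : ℝ) : Set ℝ :=
  {u | ∀ w : ℂ, ‖w‖ ≤ δ → ∀ k : ℕ, ‖G α L w k (u : ℂ)‖ ≤ Real.exp (-(κ * k))}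

/-- base points over which the disc of radius `δ` about `1` is contracted exponentially to `1` -/
def Lam1 (α : ℂ) (L : ℕ) (κ δ : ℝ) : Set ℝ :=
  {u | ∀ w : ℂ, ‖w - 1‖ ≤ δ → ∀ k : ℕ, ‖G α L w k (u : ℂ) - 1‖ ≤ Real.exp (-(κ * k))}

/-- base points over which every point of modulus at least `R` escapes at a definite speed -/
def Esc (α : ℂ) (L : ℕ) (R : ℝ) : Set ℝ :=
  {u | ∀ w : ℂ, R ≤ ‖w‖ → ∀ k : ℕ, (4:ℝ) ^ k * ‖w‖ ≤ ‖G α L w k (u : ℂ)‖}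

/-- the orbit of `z` over `u` tends to `0`, to `1` or to `∞` -/
def Conv (α : ℂ) (L : ℕ) (z : ℂ) (u : ℝ) : Prop :=
  Tendsto (fun n => G α L z n (u : ℂ)) atTop (𝓝 0) ∨
  Tendsto (fun n => G α L z n (u : ℂ)) atTop (𝓝 1) ∨
  Tendsto (fun n => ‖G α L z n (u : ℂ)‖) atTop atTop

/-- `v₀` is a density point of `P`, in the scaled form used below -/
def Dens (L : ℕ) (P : Set ℝ) (v₀ : ℝ) : Prop :=
  ∀ ε : ℝ, 0 < ε → ∀ T : ℝ, 0 < T → ∃ n₀ : ℕ, ∀ n ≥ n₀,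
    volume {x : ℝ | |x| ≤ T ∧ v₀ + x / (L : ℝ) ^ n ∉ P} ≤ ENNReal.ofReal ε

/-- no point of `P` has an escaping orbit from `z` -/
def NonEsc (α : ℂ) (L : ℕ) (z : ℂ) (P : Set ℝ) : Prop :=
  ∀ v ∈ P, ¬ Tendsto (fun n => ‖G α L z n (v : ℂ)‖) atTop atTop

/-- local bound at level `n` about the real point `v` -/
def Bd (α : ℂ) (L : ℕ) (z : ℂ) (n : ℕ) (v ℓ : ℝ) : Prop :=
  ∀ ζ : ℂ, ‖ζ‖ ≤ 2 → 1 + ‖G α L z n ((v : ℂ) + ζ / (L : ℂ) ^ n)‖ ≤ Real.exp ℓ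

/-! ### The Riemann sphere, Fatou sets, basins -/

/-- the fibre map `f_u` on the Riemann sphere -/
def fmap (α : ℂ) (u : ℝ) : OnePoint ℂ → OnePoint ℂ :=
  OnePoint.map (fun z : ℂ => z + α * ((Real.cos (2 * Real.pi * u) : ℝ) : ℂ) * z * (1 - z))

/-- `fiter α L u n = f_{E^{n-1} u} ∘ ⋯ ∘ f_{E u} ∘ f_u`, where `E u = L u mod 1`; the fibre maps depend
only on the base point modulo `1`, so `E^k u` may be replaced by `L^k u`. -/
def fiter (α : ℂ) (L : ℕ) (u : ℝ) : ℕ → OnePoint ℂ → OnePoint ℂ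
  | 0, z => z
  | n + 1, z => fmap α ((L : ℝ) ^ n * u) (fiter α L u n z)

/-- the chordal distance on the Riemann sphere -/
def chord : OnePoint ℂ → OnePoint ℂ → ℝ
  | none, none => 0
  | none, some b => 2 / Real.sqrt (1 + ‖b‖ ^ 2)
  | some a, none => 2 / Real.sqrt (1 + ‖a‖ ^ 2)
  | some a, some b => 2 * ‖a - b‖ / (Real.sqrt (1 + ‖a‖ ^ 2) * Real.sqrt (1 + ‖b‖ ^ 2))

/-- the random Fatou set: points with a neighbourhood on which the family of all iterates is normal -/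
def fatou (α : ℂ) (L : ℕ) (u : ℝ) : Set (OnePoint ℂ) :=
  {z | ∃ U : Set (OnePoint ℂ), IsOpen U ∧ z ∈ U ∧
    ∀ φ : ℕ → ℕ, StrictMono φ → ∃ ψ : ℕ → ℕ, StrictMono ψ ∧ ∃ g : OnePoint ℂ → OnePoint ℂ,
      ∀ K : Set (OnePoint ℂ), K ⊆ U → IsCompact K → ∀ ε : ℝ, 0 < ε →
        ∃ N : ℕ, ∀ n ≥ N, ∀ w ∈ K, chord (fiter α L u (φ (ψ n)) w) (g w) < ε}

/-- the combined basin of `0`, `1` and `∞` -/
def basin (α : ℂ) (L : ℕ) (u : ℝ) : Set (OnePoint ℂ) :=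
  {z | Tendsto (fun n => fiter α L u n z) atTop (𝓝 ((0 : ℂ) : OnePoint ℂ)) ∨
    Tendsto (fun n => fiter α L u n z) atTop (𝓝 ((1 : ℂ) : OnePoint ℂ)) ∨
    Tendsto (fun n => fiter α L u n z) atTop (𝓝 OnePoint.infty)}

end

end Pool.Agent.H429K
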