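import Pool.Agent.H429K.Stmts

open MeasureTheory Filter Topology

namespace Pool.Agent.H429K

noncomputable section

/-- continuity at a point in terms of the chordal distance -/
theorem equi_cont (hn : S_nhds) (h : OnePoint ℂ → OnePoint ℂ) (hc : Continuous h) (z : OnePoint ℂ)
    (ε : ℝ) (hε : 0 < ε) : {w | chord (h w) (h z) < ε} ∈ 𝓝 z := by
  have h1 : {x | chord x (h z) < ε} ∈ 𝓝 (h z) := (hn (h z) _).mpr ⟨ε, hε, subset_rfl⟩
  exact hc.continuousAt h1

theorem t_equi (hc : S_fcont) (ht : S_tri) (hn : S_nhds) : S_equi := by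
  intro α L u z hz ε hε
  obtain ⟨ht0, htn, hts, htt⟩ := ht
  obtain ⟨U, hUo, hzU, hnorm⟩ := hz
  obtain ⟨K, hKc, hzK, hKU⟩ := exists_compact_subset hUo hzU
  have hK : K ∈ 𝓝 z := mem_interior_iff_mem_nhds.mp hzK
  by_contra hcon
  push Not at hcon
  -- shrinking neighbourhoods
  have hV : ∀ k : ℕ, ∃ (n : ℕ) (w : OnePoint ℂ), w ∈ K ∧ chord w z < 1 / ((k : ℝ) + 1) ∧ k < n ∧
      ε ≤ chord (fiter α L u n w) (fiter α L u n z) := by
    intro k
    have h1 : {x | chord x z < 1 / ((k : ℝ) + 1)} ∈ 𝓝 z :=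
      (hn z _).mpr ⟨1 / ((k : ℝ) + 1), by positivity, subset_rfl⟩
    have h2 : (⋂ n ∈ Finset.range (k + 1), {w | chord (fiter α L u n w) (fiter α L u n z) < ε}) ∈ 𝓝 z := by
      rw [Filter.biInter_finset_mem]
      intro n _
      exact equi_cont hn _ (hc α L u n) z ε hε
    obtain ⟨n, w, hw, hnw⟩ := hcon _ (inter_mem hK (inter_mem h1 h2))
    refine ⟨n, w, hw.1, hw.2.1, ?_, hnw⟩
    by_contra hle
    have h3 := hw.2.2
    rw [Set.mem_iInter₂] at h3
    have h4 := h3 n (Finset.mem_range.mpr (by omega))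
    exact absurd hnw (not_le.mpr h4)
  choose nn ww hwK hwz hkn hge using hV
  have htend : Tendsto nn atTop atTop := tendsto_atTop_mono (fun k => (hkn k).le) tendsto_id
  obtain ⟨θ, hθ, hφ⟩ := strictMono_subseq_of_tendsto_atTop htend
  obtain ⟨ψ, hψ, g, hg⟩ := hnorm (nn ∘ θ) hφ
  obtain ⟨N, hN⟩ := hg K hKU hKc (ε / 6) (by positivity)
  have hzK' : z ∈ K := interior_subset hzK
  obtain ⟨δ, hδ, hδs⟩ := (hn z _).mp
    (equi_cont hn _ (hc α L u ((nn ∘ θ) (ψ N))) z (ε / 6) (by positivity))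
  have hgc : ∀ w ∈ K, chord w z < δ → chord (g w) (g z) < ε / 2 := by
    intro w hw hwz'
    have h1 := hN N le_rfl w hw
    have h2 := hN N le_rfl z hzK'
    have h3 : chord (fiter α L u ((nn ∘ θ) (ψ N)) w) (fiter α L u ((nn ∘ θ) (ψ N)) z) < ε / 6 :=
      hδs hwz'
    have h4 := htt (g w) (fiter α L u ((nn ∘ θ) (ψ N)) w) (g z)
    have h5 := htt (fiter α L u ((nn ∘ θ) (ψ N)) w) (fiter α L u ((nn ∘ θ) (ψ N)) z) (g z)
    have h6 := hts (g w) (fiter α L u ((nn ∘ θ) (ψ N)) w)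
    linarith
  obtain ⟨M, hM⟩ := exists_nat_one_div_lt hδ
  set i : ℕ := max N M with hi
  have h1 : M ≤ θ (ψ i) := (le_max_right N M).trans ((hψ.id_le i).trans (hθ.id_le (ψ i)))
  have h2 : chord (ww (θ (ψ i))) z < δ := by
    refine (hwz (θ (ψ i))).trans (lt_of_le_of_lt ?_ hM)
    apply one_div_le_one_div_of_le (by positivity)
    have : (M : ℝ) ≤ ((θ (ψ i) : ℕ) : ℝ) := by exact_mod_cast h1
    linarith
  have h3 := hgc _ (hwK (θ (ψ i))) h2
  have h4 := hN i (le_max_left N M) _ (hwK (θ (ψ i)))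
  have h5 := hN i (le_max_left N M) z hzK'
  have h6 := hge (θ (ψ i))
  simp only [Function.comp] at h4 h5
  have h7 := htt (fiter α L u (nn (θ (ψ i))) (ww (θ (ψ i)))) (g (ww (θ (ψ i))))
    (fiter α L u (nn (θ (ψ i))) z)
  have h8 := htt (g (ww (θ (ψ i)))) (g z) (fiter α L u (nn (θ (ψ i))) z)
  have h9 := hts (g z) (fiter α L u (nn (θ (ψ i))) z)
  linarith

end

end Pool.Agent.H429K
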