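import Pool.Agent.H429K.Stmts2

open MeasureTheory Filter Topology

namespace Pool.Agent.H429K

noncomputable section

/-- the fibre map in the plane -/
private def pull_f (c : ℂ) (z : ℂ) : ℂ := z + c * z * (1 - z)

private theorem pull_fmap (α : ℂ) (u : ℝ) :
    fmap α u = OnePoint.map (pull_f (α * ((Real.cos (2 * Real.pi * u) : ℝ) : ℂ))) := rfl

private theorem pull_f_diff (c : ℂ) : Differentiable ℂ (pull_f c) := by
  unfold pull_f; fun_prop

private theorem pull_f_surj (c : ℂ) : Function.Surjective (pull_f c) := by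
  intro w
  by_cases hc : c = 0
  · exact ⟨w, by simp [pull_f, hc]⟩
  · obtain ⟨s, hs⟩ := IsAlgClosed.exists_pow_nat_eq ((1 + c) ^ 2 - 4 * c * w) (n := 2) (by norm_num)
    refine ⟨((1 + c) + s) / (2 * c), ?_⟩
    have h2 : (2 : ℂ) ≠ 0 := two_ne_zero
    unfold pull_f
    field_simp
    linear_combination (-1) * hs

private theorem pull_f_tendsto (c : ℂ) : Tendsto (pull_f c) (cocompact ℂ) (cocompact ℂ) := by
  rw [← Metric.cobounded_eq_cocompact, ← tendsto_norm_atTop_iff_cobounded]
  have h1 : ∀ z, pull_f c z =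
      (Polynomial.C (-c) * Polynomial.X ^ 2 + Polynomial.C (1 + c) * Polynomial.X).eval z := by
    intro z
    simp [pull_f]; ring
  have h2 : 0 < (Polynomial.C (-c) * Polynomial.X ^ 2 +
      Polynomial.C (1 + c) * Polynomial.X : Polynomial ℂ).degree := by
    by_cases hc : c = 0
    · subst hc
      simp
    · have : (Polynomial.C (-c) * Polynomial.X ^ 2 +
        Polynomial.C (1 + c) * Polynomial.X : Polynomial ℂ) =
        Polynomial.C (-c) * Polynomial.X ^ 2 + Polynomial.C (1 + c) * Polynomial.X +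
          Polynomial.C 0 := by simp
      rw [this, Polynomial.degree_quadratic (neg_ne_zero.2 hc)]
      norm_num
  have h3 := Polynomial.tendsto_norm_atTop _ h2 (tendsto_norm_cobounded_atTop (E := ℂ))
  refine h3.congr (fun z => ?_)
  rw [h1 z]

private theorem pull_cont (α : ℂ) (u : ℝ) : Continuous (fmap α u) := by
  rw [pull_fmap]
  apply OnePoint.continuous_map
  · exact (pull_f_diff _).continuous
  · rw [coclosedCompact_eq_cocompact]
    exact pull_f_tendsto _

private theorem pull_surj (α : ℂ) (u : ℝ) : Function.Surjective (fmap α u) := by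
  rw [pull_fmap]
  intro w
  induction w using OnePoint.rec with
  | infty => exact ⟨OnePoint.infty, rfl⟩
  | coe w =>
    obtain ⟨z, hz⟩ := pull_f_surj (α * ((Real.cos (2 * Real.pi * u) : ℝ) : ℂ)) w
    exact ⟨(z : OnePoint ℂ), by rw [OnePoint.map_some, hz]⟩

private theorem pull_f_open (c : ℂ) : IsOpenMap (pull_f c) := by
  intro s hs
  have h1 : AnalyticOnNhd ℂ (pull_f c) Set.univ :=
    (pull_f_diff c).differentiableOn.analyticOnNhd isOpen_univ
  rcases h1.is_constant_or_isOpen isPreconnected_univ with h | h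
  · exfalso
    obtain ⟨w, hw⟩ := h
    obtain ⟨z, hz⟩ := pull_f_surj c (w + 1)
    rw [hw z trivial] at hz
    simp at hz
  · exact h s (Set.subset_univ _) hs

private theorem pull_open (α : ℂ) (u : ℝ) : IsOpenMap (fmap α u) := by
  rw [pull_fmap]
  set f := pull_f (α * ((Real.cos (2 * Real.pi * u) : ℝ) : ℂ)) with hf
  intro O hO
  have hpre : ((↑) : ℂ → OnePoint ℂ) ⁻¹' (OnePoint.map f '' O) =
      f '' (((↑) : ℂ → OnePoint ℂ) ⁻¹' O) := by
    ext w
    constructor
    · rintro ⟨z, hz, hzw⟩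
      induction z using OnePoint.rec with
      | infty => exact absurd hzw (by rw [OnePoint.map_infty]; exact OnePoint.infty_ne_coe w)
      | coe z =>
        rw [OnePoint.map_some] at hzw
        exact ⟨z, hz, OnePoint.coe_injective hzw⟩
    · rintro ⟨z, hz, rfl⟩
      exact ⟨(z : OnePoint ℂ), hz, OnePoint.map_some f z⟩
  rw [OnePoint.isOpen_def] at hO ⊢
  rw [hpre]
  have ho : IsOpen (f '' (((↑) : ℂ → OnePoint ℂ) ⁻¹' O)) := pull_f_open _ _ hO.2
  refine ⟨?_, ho⟩
  rintro ⟨z, hz, hzw⟩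
  have hz' : z = OnePoint.infty := by
    induction z using OnePoint.rec with
    | infty => rfl
    | coe z => rw [OnePoint.map_some] at hzw; exact absurd hzw (OnePoint.coe_ne_infty _)
  subst hz'
  have hc := hO.1 hz
  have hfc : Continuous f := by rw [hf]; exact (pull_f_diff _).continuous
  refine (hc.image hfc).of_isClosed_subset ho.isClosed_compl ?_
  intro w hw
  obtain ⟨z, rfl⟩ := pull_f_surj (α * ((Real.cos (2 * Real.pi * u) : ℝ) : ℂ)) w
  refine ⟨z, fun h => hw ⟨z, h, rfl⟩, rfl⟩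

private theorem pull_iter (α : ℂ) (L : ℕ) (u : ℝ) (n : ℕ) (z : OnePoint ℂ) :
    fiter α L u (n + 1) z = fiter α L ((L : ℝ) * u) n (fmap α u z) := by
  induction n with
  | zero => simp [fiter]
  | succ n ih =>
    have h1 : fiter α L u (n + 1 + 1) z = fmap α ((L : ℝ) ^ (n + 1) * u) (fiter α L u (n + 1) z) :=
      rfl
    have h2 : fiter α L ((L : ℝ) * u) (n + 1) (fmap α u z) =
      fmap α ((L : ℝ) ^ n * ((L : ℝ) * u)) (fiter α L ((L : ℝ) * u) n (fmap α u z)) := rfl
    rw [h1, h2, ih]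
    congr 1
    ring

theorem t_pull (hf : S_fiter) (hc : S_fcont) : S_pull := by
  intro α L u z
  constructor
  · rintro ⟨U, hU, hz, hn⟩
    obtain ⟨K0, hK0, hzK, hKU⟩ := exists_compact_subset hU hz
    have hs : ∀ w : OnePoint ℂ, ∃ s : OnePoint ℂ,
        w ∈ fmap α u '' interior K0 → s ∈ K0 ∧ fmap α u s = w := by
      intro w
      by_cases hw : w ∈ fmap α u '' interior K0
      · obtain ⟨s, hs, hsw⟩ := hw
        exact ⟨s, fun _ => ⟨interior_subset hs, hsw⟩⟩
      · exact ⟨w, fun h => absurd h hw⟩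
    choose s hs using hs
    refine ⟨fmap α u '' interior K0, pull_open α u _ isOpen_interior,
      Set.mem_image_of_mem _ hzK, ?_⟩
    intro φ hφ
    obtain ⟨ψ, hψ, g, hg⟩ := hn (fun i => φ i + 1) (fun i j hij => Nat.succ_lt_succ (hφ hij))
    refine ⟨ψ, hψ, fun w => g (s w), ?_⟩
    intro K hK _ ε hε
    obtain ⟨N, hN⟩ := hg K0 hKU hK0 ε hε
    refine ⟨N, fun n hn w hw => ?_⟩
    obtain ⟨h1, h2⟩ := hs w (hK hw)
    have h3 : chord (fiter α L u (φ (ψ n) + 1) (s w)) (g (s w)) < ε := hN n hn (s w) h1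
    rw [pull_iter, h2] at h3
    exact h3
  · rintro ⟨U, hU, hz, hn⟩
    refine ⟨fmap α u ⁻¹' U, hU.preimage (pull_cont α u), hz, ?_⟩
    intro φ hφ
    have hpos : ∀ i, 1 ≤ φ (i + 1) := fun i => by
      have := hφ.id_le (i + 1)
      simp only [id] at this
      omega
    obtain ⟨ψ, hψ, g, hg⟩ := hn (fun i => φ (i + 1) - 1) (fun i j hij => by
      have h1 := hpos i
      have h2 : φ (i + 1) < φ (j + 1) := hφ (by omega)
      show φ (i + 1) - 1 < φ (j + 1) - 1
      omega)
    refine ⟨fun n => ψ n + 1, fun i j hij => Nat.succ_lt_succ (hψ hij), fun w => g (fmap α u w), ?_⟩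
    intro K hK hKc ε hε
    obtain ⟨N, hN⟩ := hg (fmap α u '' K) (by
      rintro _ ⟨w, hw, rfl⟩
      exact hK hw) (hKc.image (pull_cont α u)) ε hε
    refine ⟨N, fun n hn w hw => ?_⟩
    have h3 : chord (fiter α L ((L : ℝ) * u) (φ (ψ n + 1) - 1) (fmap α u w))
      (g (fmap α u w)) < ε := hN n hn (fmap α u w) (Set.mem_image_of_mem _ hw)
    show chord (fiter α L u (φ (ψ n + 1)) w) (g (fmap α u w)) < ε
    rw [← pull_iter] at h3
    have h4 : φ (ψ n + 1) - 1 + 1 = φ (ψ n + 1) := by
      have := hpos (ψ n)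
      omega
    rwa [h4] at h3

private theorem pull_step (hp : S_pull) (α : ℂ) (L : ℕ) (u : ℝ)
    (h : ¬ IsPreconnected (fatou α L ((L : ℝ) * u))ᶜ) : ¬ IsPreconnected (fatou α L u)ᶜ := by
  intro hcon
  apply h
  have h1 : (fatou α L u)ᶜ = fmap α u ⁻¹' (fatou α L ((L : ℝ) * u))ᶜ := by
    ext z
    simp only [Set.mem_compl_iff, Set.mem_preimage]
    rw [hp α L u z]
  have h2 := hcon.image (fmap α u) (pull_cont α u).continuousOn
  rw [h1, Set.image_preimage_eq _ (pull_surj α u)] at h2
  exact h2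

theorem t_dpull (hp : S_pull) : S_dpull := by
  intro α L u n
  induction n generalizing u with
  | zero => intro h; simpa using h
  | succ n ih =>
    intro h
    apply pull_step hp
    apply ih
    have : (L : ℝ) ^ n * ((L : ℝ) * u) = (L : ℝ) ^ (n + 1) * u := by ring
    rw [this]
    exact h

end

end Pool.Agent.H429K
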