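import Pool.Agent.H429K.Stmts

set_option autoImplicit false

open MeasureTheory Filter Topology

namespace Pool.Agent.H429K

noncomputable section

/-! ### positive fibre exponent: almost every orbit escapes -/

/-- Birkhoff averages of the fibre derivative at `0` -/
def S_birk : Prop := ∀ (α : ℂ) (L : ℕ), 2 ≤ L → ‖α‖ < 1 →
  ∀ᵐ u : ℝ, Tendsto (fun k : ℕ => (∑ j ∈ Finset.range k,
    Real.log ‖1 + α * ((Real.cos (2 * Real.pi * ((L : ℝ) ^ j * u)) : ℝ) : ℂ)‖) / (k : ℝ))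
    atTop (𝓝 (lam α))

/-- orbits of points other than `0`, `1` avoid `0`, `1` over almost every base point -/
def S_nz : Prop := ∀ (α : ℂ) (L : ℕ) (z : ℂ), 1 ≤ L → z ≠ 0 → z ≠ 1 →
  ∀ᵐ u : ℝ, ∀ n : ℕ, G α L z n (u : ℂ) ≠ 0 ∧ G α L z n (u : ℂ) ≠ 1

/-- positive exponent: orbits are away from `0` and `1` infinitely often -/
def S_away : Prop := ∀ (α : ℂ) (L : ℕ), 2 ≤ L → ‖α‖ < 1 → 0 < lam α →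
  ∃ s₀ : ℝ, 0 < s₀ ∧ ∀ z : ℂ, z ≠ 0 → z ≠ 1 →
    ∀ᵐ u : ℝ, ∃ᶠ n in atTop, s₀ ≤ ‖G α L z n (u : ℂ)‖ ∧ s₀ ≤ ‖1 - G α L z n (u : ℂ)‖

/-- lower bound for logarithmic integrals of holomorphic functions -/
def S_logint : Prop := ∀ R : ℝ, 0 < R → ∃ C : ℝ, 0 < C ∧ ∀ (h : ℂ → ℂ), Differentiable ℂ h →
  ∀ (x₀ M : ℝ), 0 ≤ M → (∀ ζ : ℂ, ‖ζ - (x₀ : ℂ)‖ ≤ 4 * R → ‖h ζ‖ ≤ Real.exp M) →
  Real.exp (-M) ≤ ‖h (x₀ : ℂ)‖ →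
  ∀ a b : ℝ, x₀ - R ≤ a → a ≤ b → b ≤ x₀ + R →
    -(C * (M + 1)) ≤ ∫ x in a..b, Real.log ‖h (x : ℂ)‖

/-- uniform bounds in wide strips at density points -/
def S_unifg : Prop := ∀ (α : ℂ) (L : ℕ), 6 ≤ L → 0 < ‖α‖ → ‖α‖ ≤ 1 →
  ∃ M₀ : ℝ, 0 ≤ M₀ ∧
  ∀ (z : ℂ) (P : Set ℝ), NonEsc α L z P → ∀ v₀ : ℝ, Dens L P v₀ → ∀ T : ℝ, 0 < T → ∀ j₀ : ℕ,
    ∃ n₁ : ℕ, ∀ n ≥ n₁, ∀ ζ : ℂ, |ζ.re| ≤ T → |ζ.im| ≤ 2 * (L : ℝ) ^ j₀ →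
      1 + ‖G α L z n ((v₀ : ℂ) + ζ / (L : ℂ) ^ n)‖ ≤
        Real.exp (2 ^ j₀ * M₀ + 2 * Real.pi / ((L : ℝ) - 2) * |ζ.im|)

/-- every unit window contributes a definite amount -/
def S_drift : Prop := ∀ (α : ℂ), 0 < ‖α‖ → ‖α‖ < 1 → 0 < lam α → ∀ M : ℝ, 0 < M →
  ∃ κ c₀ : ℝ, 0 < κ ∧ 0 < c₀ ∧ ∀ (W : ℂ → ℂ), Differentiable ℂ W → ∀ a θ : ℝ,
  (∀ ζ : ℂ, |ζ.re - a| ≤ 12 → |ζ.im| ≤ 12 → ‖W ζ‖ ≤ M) →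
  c₀ ≤ (∫ x in a..(a + 1),
      ‖α * ((Real.cos (2 * Real.pi * (θ + x)) : ℝ) : ℂ) * W x * (1 - W x)‖ ^ 2) +
    κ * ∫ x in a..(a + 1),
      (Real.log ‖1 + α * ((Real.cos (2 * Real.pi * (θ + x)) : ℝ) : ℂ) * (1 - W x)‖ +
       Real.log ‖1 - α * ((Real.cos (2 * Real.pi * (θ + x)) : ℝ) : ℂ) * W x‖)

/-- the functional -/
def psi (κ : ℝ) (w : ℂ) : ℝ := ‖w‖ ^ 2 + κ * (Real.log ‖w‖ + Real.log ‖1 - w‖)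

/-- one step of the functional over a window with integer end points -/
def S_step2 : Prop := ∀ (α : ℂ) (L : ℕ), 6 ≤ L → 0 < ‖α‖ → ‖α‖ < 1 →
  ∀ (z : ℂ), z ≠ 0 → z ≠ 1 → ∀ (κ c₀ : ℝ), 0 < κ → 0 < c₀ →
  ∀ (v₀ : ℝ) (m N : ℕ) (Y A : ℝ), 0 < N → 0 < Y → 0 ≤ A →
  (∀ ζ : ℂ, |ζ.re| ≤ N → |ζ.im| ≤ Y →
    1 + ‖G α L z m ((v₀ : ℂ) + ζ / (L : ℂ) ^ m)‖ ≤
      Real.exp (A + 2 * Real.pi / ((L : ℝ) - 2) * |ζ.im|)) →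
  (∀ a : ℝ, -(N : ℝ) ≤ a → a + 1 ≤ N →
    c₀ ≤ (∫ x in a..(a + 1), ‖Dl α L z v₀ m x‖ ^ 2) +
    κ * ∫ x in a..(a + 1),
      (Real.log ‖1 + α * ((Real.cos (2 * Real.pi * ((L : ℝ) ^ m * v₀ + x)) : ℝ) : ℂ) *
          (1 - G α L z m ((v₀ : ℂ) + (x : ℂ) / (L : ℂ) ^ m))‖ +
       Real.log ‖1 - α * ((Real.cos (2 * Real.pi * ((L : ℝ) ^ m * v₀ + x)) : ℝ) : ℂ) *
          G α L z m ((v₀ : ℂ) + (x : ℂ) / (L : ℂ) ^ m)‖)) →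
  (∫ x in (-(N : ℝ))..N, psi κ (G α L z m ((v₀ : ℂ) + (x : ℂ) / (L : ℂ) ^ m))) + 2 * N * c₀ -
      2 * (2 * N * Real.exp (3 * A - Real.pi / 2 * Y) + 2 * Y * Real.exp (3 * A)) ≤
    (1 / (L : ℝ)) * ∫ x in (-((N : ℝ) * L))..((N : ℝ) * L),
      psi κ (G α L z (m + 1) ((v₀ : ℂ) + (x : ℂ) / (L : ℂ) ^ (m + 1)))

/-- positive exponent: almost every orbit escapes -/
def S_posesc : Prop := ∀ (α : ℂ) (L : ℕ), 6 ≤ L → 0 < ‖α‖ → ‖α‖ < 1 → 0 < lam α →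
  ∀ z : ℂ, z ≠ 0 → z ≠ 1 → ∀ᵐ u : ℝ, Tendsto (fun n => ‖G α L z n (u : ℂ)‖) atTop atTop

/-! ### escaping points are in the Fatou set -/

def S_fesc : Prop := ∀ (α : ℂ) (L : ℕ) (u R : ℝ), 0 < R →
  (∃ᶠ n in atTop, (L : ℝ) ^ n * u ∈ Esc α L R) →
  (∀ z : ℂ, Tendsto (fun n => ‖G α L z n (u : ℂ)‖) atTop atTop →
    (z : OnePoint ℂ) ∈ fatou α L u) ∧
  OnePoint.infty ∈ fatou α L u ∧
  IsOpen {z : ℂ | Tendsto (fun n => ‖G α L z n (u : ℂ)‖) atTop atTop}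

/-- for almost every base point, some `Esc` set is visited infinitely often -/
def S_fesc2 : Prop := ∀ (α : ℂ) (L : ℕ), 1 ≤ L → 0 < ‖α‖ → ‖α‖ ≤ 1 →
  ∀ᵐ u : ℝ, ∃ R : ℝ, 0 < R ∧ ∃ᶠ n in atTop, (L : ℝ) ^ n * u ∈ Esc α L R

/-- the area theorem -/
def S_area : Prop := ∀ (α : ℂ) (L : ℕ), 6 ≤ L → 0 < ‖α‖ → ‖α‖ < 1 → lam α ≠ 0 →
  ∀ᵐ u : ℝ, volume {z : ℂ | (z : OnePoint ℂ) ∉ fatou α L u} = 0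

/-! ### disconnected Julia sets -/

/-- the non-escaping set -/
def NE (α : ℂ) (L : ℕ) (u : ℝ) : Set ℂ :=
  {z | ¬ Tendsto (fun n => ‖G α L z n (u : ℂ)‖) atTop atTop}

/-- the real fibre parameter as a complex number -/
def cc (α : ℂ) (u : ℝ) : ℂ := α * ((Real.cos (2 * Real.pi * u) : ℝ) : ℂ)

def S_shift : Prop := ∀ (α : ℂ) (L : ℕ) (u : ℝ) (z : ℂ) (n : ℕ),
  G α L z (n + 1) (u : ℂ) = G α L (step (cc α u) z) n (((L : ℝ) * u : ℝ) : ℂ)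

/-- the Julia set is non-empty in the plane -/
def S_jne : Prop := ∀ (α : ℂ) (L : ℕ) (u R : ℝ), 0 < R →
  (∃ᶠ n in atTop, (L : ℝ) ^ n * u ∈ Esc α L R) →
  ∃ z : ℂ, (z : OnePoint ℂ) ∉ fatou α L u

/-- symmetry of the Fatou set about the critical point -/
def S_jsym : Prop := ∀ (α : ℂ) (L : ℕ) (u : ℝ), cc α u ≠ 0 → ∀ z : ℂ,
  (z : OnePoint ℂ) ∉ fatou α L u →
  (((1 + cc α u) / cc α u - z : ℂ) : OnePoint ℂ) ∉ fatou α L u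

/-- the condition that makes the Julia set disconnected -/
def Sep (α : ℂ) (L : ℕ) (u : ℝ) : Prop :=
  cc α u ≠ 0 ∧ ∃ e : ℂ, ∀ w ∈ NE α L ((L : ℝ) * u),
    0 < (e * ((1 + cc α u) ^ 2 / (4 * cc α u) - w)).re

/-- `Sep` implies that the Julia set is disconnected -/
def S_sep : Prop := ∀ (α : ℂ) (L : ℕ) (u R : ℝ), 0 < R →
  (∃ᶠ n in atTop, (L : ℝ) ^ n * u ∈ Esc α L R) → Sep α L u →
  ¬ IsPreconnected (fatou α L u)ᶜ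

/-- a set of positive measure near `1/4` of base points whose `N`-th image lies in `Esc` -/
def S_pos : Prop := ∀ (α : ℂ) (L N : ℕ) (δ R : ℝ), 1 ≤ L → 0 < ‖α‖ → ‖α‖ ≤ 1 → 0 < δ → 0 < R →
  12 * ((L : ℝ) ^ N * (δ / 2) + 1) / (‖α‖ * R) < (L : ℝ) ^ N * (δ / 2) →
  ∃ S : Set ℝ, MeasurableSet S ∧ 0 < volume S ∧ S ⊆ Set.Icc (1 / 4 + δ / 2) (1 / 4 + δ) ∧
    ∀ u ∈ S, (L : ℝ) ^ N * u ∈ Esc α L R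

def S_geo0 : Prop := ∀ (α : ℂ) (L : ℕ), 2 ≤ L → L % 2 = 0 → 0 < ‖α‖ → ‖α‖ < 1 →
  ∃ S : Set ℝ, MeasurableSet S ∧ 0 < volume S ∧ ∀ u ∈ S, Sep α L u

def S_geo1 : Prop := ∀ (α : ℂ) (L : ℕ), 2 ≤ L → L % 4 = 1 → 0 < ‖α‖ → ‖α‖ < 1 →
  ∃ S : Set ℝ, MeasurableSet S ∧ 0 < volume S ∧ ∀ u ∈ S, Sep α L u

def S_geo3 : Prop := ∀ (α : ℂ) (L : ℕ), 2 ≤ L → L % 4 = 3 → 0 < ‖α‖ → ‖α‖ < 1 →
  ∃ S : Set ℝ, MeasurableSet S ∧ 0 < volume S ∧ ∀ u ∈ S, Sep α L u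

/-- complete invariance of the Fatou sets -/
def S_pull : Prop := ∀ (α : ℂ) (L : ℕ) (u : ℝ) (z : OnePoint ℂ),
  z ∈ fatou α L u ↔ fmap α u z ∈ fatou α L ((L : ℝ) * u)

/-- disconnectedness pulls back -/
def S_dpull : Prop := ∀ (α : ℂ) (L : ℕ) (u : ℝ) (n : ℕ),
  ¬ IsPreconnected (fatou α L ((L : ℝ) ^ n * u))ᶜ → ¬ IsPreconnected (fatou α L u)ᶜ

/-- almost every orbit of the base map meets (a translate of) a set of positive measure -/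
def S_ergo : Prop := ∀ (L : ℕ), 2 ≤ L → ∀ S : Set ℝ, MeasurableSet S → 0 < volume S →
  ∀ᵐ u : ℝ, ∃ (n : ℕ) (m : ℤ), (L : ℝ) ^ n * u + m ∈ S

/-- the Julia set is disconnected for almost every base point -/
def S_disc : Prop := ∀ (α : ℂ) (L : ℕ), 2 ≤ L → 0 < ‖α‖ → ‖α‖ < 1 →
  ∀ᵐ u : ℝ, ¬ IsPreconnected (fatou α L u)ᶜ

end

end Pool.Agent.H429K
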